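import Pool.Agent.MP_4a02af_gt.Stm

open Monoid Monoid.Coprod Subgroup

namespace Pool.Agent.MP_4a02af_gt

section words

variable {Q R : Type} [Group Q] [Group R]

def cc_EDes (a b : Q) : Q := b * a⁻¹ * b⁻¹
def dh_EDes (u n : Q) : Q := u * n * u⁻¹ * n⁻¹ * u⁻¹
def qq_EDes (a b u n : Q) : Q := cc_EDes a b * dh_EDes u n * (cc_EDes a b)⁻¹
def ta_EDes (a b u n : Q) : Q := (a * qq_EDes a b u n)⁻¹ * a * (a * qq_EDes a b u n)
def tb_EDes (a b u n : Q) : Q := b * qq_EDes a b u n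
def tn_EDes (a b u n : Q) : Q :=
  u⁻¹ * (cc_EDes a b)⁻¹ * (a * qq_EDes a b u n)⁻¹ * cc_EDes a b * dh_EDes u n * u * n
def ia_EDes (a b u n : Q) : Q := (a * qq_EDes a b u n) * a * (a * qq_EDes a b u n)⁻¹
def ib_EDes (a b u n : Q) : Q := b * a * (qq_EDes a b u n)⁻¹ * a⁻¹
def jn_EDes (a b u n : Q) : Q := u⁻¹ * (cc_EDes a b)⁻¹ * a * cc_EDes a b * u * n

theorem map_cm_EDes (f : Q →* R) (a b : Q) : f (cm a b) = cm (f a) (f b) := by simp [cm]

theorem map_ta_EDes (f : Q →* R) (a b u n : Q) :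
    f (ta_EDes a b u n) = ta_EDes (f a) (f b) (f u) (f n) := by
  simp only [ta_EDes, qq_EDes, cc_EDes, dh_EDes, map_mul, map_inv]

theorem map_tb_EDes (f : Q →* R) (a b u n : Q) :
    f (tb_EDes a b u n) = tb_EDes (f a) (f b) (f u) (f n) := by
  simp only [tb_EDes, qq_EDes, cc_EDes, dh_EDes, map_mul, map_inv]

theorem map_tn_EDes (f : Q →* R) (a b u n : Q) :
    f (tn_EDes a b u n) = tn_EDes (f a) (f b) (f u) (f n) := by
  simp only [tn_EDes, qq_EDes, cc_EDes, dh_EDes, map_mul, map_inv]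

theorem map_ia_EDes (f : Q →* R) (a b u n : Q) :
    f (ia_EDes a b u n) = ia_EDes (f a) (f b) (f u) (f n) := by
  simp only [ia_EDes, qq_EDes, cc_EDes, dh_EDes, map_mul, map_inv]

theorem map_ib_EDes (f : Q →* R) (a b u n : Q) :
    f (ib_EDes a b u n) = ib_EDes (f a) (f b) (f u) (f n) := by
  simp only [ib_EDes, qq_EDes, cc_EDes, dh_EDes, map_mul, map_inv]

theorem map_jn_EDes (f : Q →* R) (a b u n : Q) :
    f (jn_EDes a b u n) = jn_EDes (f a) (f b) (f u) (f n) := by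
  simp only [jn_EDes, cc_EDes, map_mul, map_inv]

theorem w1_EDes (a b u n : Q) :
    cc_EDes (ta_EDes a b u n) (tb_EDes a b u n) = cc_EDes a b ∧
    cc_EDes (ia_EDes a b u n) (ib_EDes a b u n) = cc_EDes a b := by
  constructor
  · simp only [cc_EDes, ta_EDes, tb_EDes]
    generalize qq_EDes a b u n = q
    group
  · simp only [cc_EDes, ia_EDes, ib_EDes]
    generalize qq_EDes a b u n = q
    group

theorem w2_EDes (a b u n : Q) :
    qq_EDes (ta_EDes a b u n) (tb_EDes a b u n) u (tn_EDes a b u n) =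
      (ta_EDes a b u n)⁻¹ * (a * qq_EDes a b u n) ∧
    qq_EDes (ia_EDes a b u n) (ib_EDes a b u n) u (jn_EDes a b u n) =
      (ia_EDes a b u n)⁻¹ * (a * qq_EDes a b u n) := by
  constructor
  · rw [qq_EDes, (w1_EDes a b u n).1]
    simp only [ta_EDes, tn_EDes, qq_EDes, dh_EDes]
    generalize cc_EDes a b = c
    group
  · rw [qq_EDes, (w1_EDes a b u n).2]
    simp only [ia_EDes, jn_EDes, qq_EDes, dh_EDes]
    generalize cc_EDes a b = c
    group

theorem w3_EDes (a b u n : Q) :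
    ia_EDes (ta_EDes a b u n) (tb_EDes a b u n) u (tn_EDes a b u n) = a ∧
    ib_EDes (ta_EDes a b u n) (tb_EDes a b u n) u (tn_EDes a b u n) = b ∧
    jn_EDes (ta_EDes a b u n) (tb_EDes a b u n) u (tn_EDes a b u n) = n := by
  refine ⟨?_, ?_, ?_⟩
  · rw [ia_EDes, (w2_EDes a b u n).1]
    simp only [ta_EDes]
    generalize qq_EDes a b u n = q
    group
  · rw [ib_EDes, (w2_EDes a b u n).1]
    simp only [ta_EDes, tb_EDes]
    generalize qq_EDes a b u n = q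
    group
  · rw [jn_EDes, (w1_EDes a b u n).1]
    simp only [ta_EDes, tn_EDes, qq_EDes, dh_EDes]
    generalize cc_EDes a b = c
    group

theorem w4_EDes (a b u n : Q) :
    ta_EDes (ia_EDes a b u n) (ib_EDes a b u n) u (jn_EDes a b u n) = a ∧
    tb_EDes (ia_EDes a b u n) (ib_EDes a b u n) u (jn_EDes a b u n) = b ∧
    tn_EDes (ia_EDes a b u n) (ib_EDes a b u n) u (jn_EDes a b u n) = n := by
  refine ⟨?_, ?_, ?_⟩
  · rw [ta_EDes, (w2_EDes a b u n).2]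
    simp only [ia_EDes]
    generalize qq_EDes a b u n = q
    group
  · rw [tb_EDes, (w2_EDes a b u n).2]
    simp only [ia_EDes, ib_EDes]
    generalize qq_EDes a b u n = q
    group
  · rw [tn_EDes, (w2_EDes a b u n).2, (w1_EDes a b u n).2]
    simp only [ia_EDes, jn_EDes, qq_EDes, dh_EDes]
    generalize cc_EDes a b = c
    group

theorem w5_EDes (a b u n : Q) :
    cm (ta_EDes a b u n) (tb_EDes a b u n) * cm u (tn_EDes a b u n) = cm a b * cm u n := by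
  have h : ∀ x y : Q, cm x y = x * cc_EDes x y := fun x y => by
    simp only [cm, cc_EDes, mul_assoc]
  rw [h (ta_EDes a b u n), (w1_EDes a b u n).1, h a]
  simp only [ta_EDes, tn_EDes, qq_EDes, dh_EDes, cm]
  generalize cc_EDes a b = c
  group

theorem w6_EDes (a b u n : Q) :
    ta_EDes a b u n * (cc_EDes (ta_EDes a b u n) (tb_EDes a b u n) *
      (u * tn_EDes a b u n * u⁻¹) * (cc_EDes (ta_EDes a b u n) (tb_EDes a b u n))⁻¹) =
      (cc_EDes a b * u) * n * (cc_EDes a b * u)⁻¹ := by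
  rw [(w1_EDes a b u n).1]
  simp only [ta_EDes, tn_EDes, qq_EDes, dh_EDes]
  generalize cc_EDes a b = c
  group

theorem w7_EDes (a b u : Q) :
    tn_EDes a b u 1 = (cc_EDes a b)⁻¹ * a⁻¹ * cc_EDes a b ∧
    tb_EDes a b u 1 * ta_EDes a b u 1 * cc_EDes a b * u = b * a * cc_EDes a b := by
  constructor
  · simp only [tn_EDes, qq_EDes, dh_EDes]
    generalize cc_EDes a b = c
    group
  · simp only [ta_EDes, tb_EDes, qq_EDes, dh_EDes]
    generalize cc_EDes a b = c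
    group

theorem w8_EDes (a b u n : Q) :
    tn_EDes 1 b u n = n ∧ ta_EDes a b 1 n = a ∧ tb_EDes a b 1 n = b := by
  refine ⟨?_, ?_, ?_⟩
  · simp only [tn_EDes, qq_EDes, dh_EDes, cc_EDes]
    group
  · simp only [ta_EDes, qq_EDes, dh_EDes, cc_EDes]
    group
  · simp only [tb_EDes, qq_EDes, dh_EDes, cc_EDes]
    group

theorem k0_EDes (a b u n t : Q) :
    (ta_EDes a b u n = 1 ∧ tn_EDes a b u n = 1 ∧ (cm u n)⁻¹ * t * cm u n = 1) ↔
      (a = 1 ∧ t = 1) ∧ n = 1 := by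
  have h1 : ta_EDes a b u n = 1 ↔ a = 1 := by
    rw [ta_EDes, mul_assoc, inv_mul_eq_one, eq_comm, mul_eq_right]
  have h2 : (cm u n)⁻¹ * t * cm u n = 1 ↔ t = 1 := by
    rw [mul_assoc, inv_mul_eq_one, eq_comm, mul_eq_right]
  rw [h1, h2]
  constructor
  · rintro ⟨rfl, h, rfl⟩
    rw [(w8_EDes 1 b u n).1] at h
    exact ⟨⟨rfl, rfl⟩, h⟩
  · rintro ⟨⟨rfl, rfl⟩, h⟩
    exact ⟨rfl, by rw [(w8_EDes 1 b u n).1, h], rfl⟩

theorem k1_EDes (a b u n t m : Q) (j : ℤ) :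
    (ta_EDes a b u n * (cc_EDes (ta_EDes a b u n) (tb_EDes a b u n) *
      (u * tn_EDes a b u n * u⁻¹) * (cc_EDes (ta_EDes a b u n) (tb_EDes a b u n))⁻¹) = 1 ∧
      tb_EDes a b u n * ta_EDes a b u n * cc_EDes (ta_EDes a b u n) (tb_EDes a b u n) *
        (u * tn_EDes a b u n * u⁻¹) ^ j * u * ((cm u n)⁻¹ * t * cm u n) = 1 ∧
      (tn_EDes a b u n)⁻¹ * ((cm u n)⁻¹ * t * cm u n * ((cm u n)⁻¹ * m * cm u n) *
        ((cm u n)⁻¹ * t * cm u n)⁻¹) = 1) ↔
      (a * (cc_EDes a b * (t * m * t⁻¹) * (cc_EDes a b)⁻¹) = 1 ∧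
        b * a * cc_EDes a b * t * m ^ j = 1) ∧ n = 1 := by
  rw [w6_EDes, (w1_EDes a b u n).1, conj_eq_one_iff]
  by_cases hn : n = 1
  swap
  · simp [hn]
  subst hn
  have hk : cm u (1 : Q) = 1 := by simp [cm]
  obtain ⟨h1, h2⟩ := w7_EDes a b u
  have h3 : ∀ X : Q, tb_EDes a b u 1 * ta_EDes a b u 1 * cc_EDes a b * (u * X * u⁻¹) ^ j * u =
      b * a * cc_EDes a b * X ^ j := fun X => by
    rw [← h2, conj_zpow]
    group
  rw [h3, hk, h1]
  simp only [inv_one, one_mul, mul_one, true_and, and_true]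
  generalize cc_EDes a b = c
  have h4 : (c⁻¹ * a⁻¹ * c)⁻¹ * (t * m * t⁻¹) = 1 ↔ c⁻¹ * a⁻¹ * c = t * m * t⁻¹ := inv_mul_eq_one
  have h5 : a * (c * (t * m * t⁻¹) * c⁻¹) = 1 ↔ c⁻¹ * a⁻¹ * c = t * m * t⁻¹ := by
    constructor
    · intro h
      rw [← eq_inv_of_mul_eq_one_right h]
      group
    · intro h
      rw [← h]
      group
  have h6 : b * a * c * (t * m * t⁻¹) ^ j * t = b * a * c * t * m ^ j := by
    rw [conj_zpow]
    group
  rw [h4, h5]
  constructor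
  · rintro ⟨h, h'⟩
    exact ⟨h', by rw [← h6, ← h', h]⟩
  · rintro ⟨h', h⟩
    exact ⟨by rw [h', h6, h], h'⟩

end words

section homs

variable {G H Q R : Type} [Group G] [Group H] [Group Q] [Group R]

def l2_EDes (a b : Q) : F2 →* Q := FreeGroup.lift fun s : Bool => if s then b else a
def l4_EDes (u n t m : Q) : F4 →* Q := FreeGroup.lift ![u, n, t, m]

theorem l2a_EDes (a b : Q) : l2_EDes a b fa = a := by simp [l2_EDes, fa]
theorem l2b_EDes (a b : Q) : l2_EDes a b fb = b := by simp [l2_EDes, fb]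
theorem l4u_EDes (u n t m : Q) : l4_EDes u n t m gu = u := by simp [l4_EDes, gu]
theorem l4n_EDes (u n t m : Q) : l4_EDes u n t m gn = n := by simp [l4_EDes, gn]
theorem l4t_EDes (u n t m : Q) : l4_EDes u n t m gt = t := by simp [l4_EDes, gt]
theorem l4m_EDes (u n t m : Q) : l4_EDes u n t m gm = m := by simp [l4_EDes, gm]

theorem e2_EDes (f : F2 →* Q) : f = l2_EDes (f fa) (f fb) := by
  ext s
  cases s
  · exact (l2a_EDes _ _).symm
  · exact (l2b_EDes _ _).symm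

theorem e4_EDes (f : F4 →* Q) : f = l4_EDes (f gu) (f gn) (f gt) (f gm) := by
  ext s
  fin_cases s
  · exact (l4u_EDes _ _ _ _).symm
  · exact (l4n_EDes _ _ _ _).symm
  · exact (l4t_EDes _ _ _ _).symm
  · exact (l4m_EDes _ _ _ _).symm

def m1_EDes (g : G →* Q) (a b u n t m : Q) : (G ∗ F2) ∗ F4 →* Q :=
  Coprod.lift (Coprod.lift g (l2_EDes a b)) (l4_EDes u n t m)

def m3_EDes (g : G →* Q) (a b t m : Q) : (G ∗ F2) ∗ F2 →* Q :=
  Coprod.lift (Coprod.lift g (l2_EDes a b)) (l2_EDes t m)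

def m2_EDes (g : G →* Q) (a b u n t m : Q) : ((G ∗ F2) ∗ F2) ∗ F2 →* Q :=
  Coprod.lift (m3_EDes g a b t m) (l2_EDes u n)

theorem r1_EDes (f : (G ∗ F2) ∗ F4 →* Q) :
    f = m1_EDes ((f.comp inl).comp inl) (f (inl (inr fa))) (f (inl (inr fb)))
      (f (inr gu)) (f (inr gn)) (f (inr gt)) (f (inr gm)) := by
  refine Coprod.hom_ext (Coprod.hom_ext rfl ?_) ?_
  · exact e2_EDes _
  · exact e4_EDes _

theorem r3_EDes (f : (G ∗ F2) ∗ F2 →* Q) :
    f = m3_EDes ((f.comp inl).comp inl) (f (inl (inr fa))) (f (inl (inr fb)))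
      (f (inr fa)) (f (inr fb)) := by
  refine Coprod.hom_ext (Coprod.hom_ext rfl ?_) ?_
  · exact e2_EDes _
  · exact e2_EDes _

theorem r2_EDes (f : ((G ∗ F2) ∗ F2) ∗ F2 →* Q) :
    f = m2_EDes (((f.comp inl).comp inl).comp inl) (f (inl (inl (inr fa))))
      (f (inl (inl (inr fb)))) (f (inr fa)) (f (inr fb)) (f (inl (inr fa)))
      (f (inl (inr fb))) := by
  refine Coprod.hom_ext ?_ ?_
  · exact r3_EDes _
  · exact e2_EDes _

theorem c1_EDes (f : Q →* R) (g : G →* Q) (a b u n t m : Q) :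
    f.comp (m1_EDes g a b u n t m) =
      m1_EDes (f.comp g) (f a) (f b) (f u) (f n) (f t) (f m) := by
  rw [r1_EDes (f.comp (m1_EDes g a b u n t m))]
  simp only [m1_EDes, MonoidHom.comp_apply, lift_apply_inl, lift_apply_inr, l2a_EDes, l2b_EDes,
    l4u_EDes, l4n_EDes, l4t_EDes, l4m_EDes, MonoidHom.comp_assoc, lift_comp_inl]

theorem c2_EDes (f : Q →* R) (g : G →* Q) (a b u n t m : Q) :
    f.comp (m2_EDes g a b u n t m) =
      m2_EDes (f.comp g) (f a) (f b) (f u) (f n) (f t) (f m) := by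
  rw [r2_EDes (f.comp (m2_EDes g a b u n t m))]
  simp only [m2_EDes, m3_EDes, MonoidHom.comp_apply, lift_apply_inl, lift_apply_inr, l2a_EDes,
    l2b_EDes, MonoidHom.comp_assoc, lift_comp_inl]

def tq_EDes (g : G →* Q) (a b u n t m : Q) : (G ∗ F2) ∗ F4 →* Q :=
  m1_EDes g (ta_EDes a b u n) (tb_EDes a b u n) u (tn_EDes a b u n)
    ((cm u n)⁻¹ * t * cm u n) ((cm u n)⁻¹ * m * cm u n)

def iq_EDes (g : G →* Q) (a b u n t m : Q) : ((G ∗ F2) ∗ F2) ∗ F2 →* Q :=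
  m2_EDes g (ia_EDes a b u n) (ib_EDes a b u n) u (jn_EDes a b u n)
    (cm u (jn_EDes a b u n) * t * (cm u (jn_EDes a b u n))⁻¹)
    (cm u (jn_EDes a b u n) * m * (cm u (jn_EDes a b u n))⁻¹)

def th_EDes (G : Type) [Group G] : (G ∗ F2) ∗ F4 →* ((G ∗ F2) ∗ F2) ∗ F2 :=
  tq_EDes (G := G) (Q := ((G ∗ F2) ∗ F2) ∗ F2) ((inl.comp inl).comp inl)
    (inl (inl (inr fa))) (inl (inl (inr fb))) (inr fa) (inr fb) (inl (inr fa)) (inl (inr fb))

def ti_EDes (G : Type) [Group G] : ((G ∗ F2) ∗ F2) ∗ F2 →* (G ∗ F2) ∗ F4 :=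
  iq_EDes (G := G) (Q := (G ∗ F2) ∗ F4) (inl.comp inl)
    (inl (inr fa)) (inl (inr fb)) (inr gu) (inr gn) (inr gt) (inr gm)

theorem cq_EDes (f : Q →* R) (g : G →* Q) (a b u n t m : Q) :
    f.comp (tq_EDes g a b u n t m) =
      tq_EDes (f.comp g) (f a) (f b) (f u) (f n) (f t) (f m) := by
  rw [tq_EDes, tq_EDes, c1_EDes]
  simp only [map_ta_EDes, map_tb_EDes, map_tn_EDes, map_cm_EDes, map_mul, map_inv]

theorem cth_EDes (g : G →* Q) (a b u n t m : Q) :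
    (m2_EDes g a b u n t m).comp (th_EDes G) = tq_EDes g a b u n t m := by
  refine (cq_EDes (G := G) (Q := ((G ∗ F2) ∗ F2) ∗ F2) (m2_EDes g a b u n t m)
    ((inl.comp inl).comp inl) (inl (inl (inr fa))) (inl (inl (inr fb))) (inr fa) (inr fb)
    (inl (inr fa)) (inl (inr fb))).trans ?_
  have h : (m2_EDes g a b u n t m).comp ((inl.comp inl).comp inl) = g := rfl
  congr 1
  all_goals simp only [m2_EDes, m3_EDes, lift_apply_inl, lift_apply_inr, l2a_EDes, l2b_EDes]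

theorem cti_EDes (g : G →* Q) (a b u n t m : Q) :
    (m1_EDes g a b u n t m).comp (ti_EDes G) = iq_EDes g a b u n t m := by
  rw [ti_EDes, iq_EDes, iq_EDes, c2_EDes]
  simp only [map_ia_EDes, map_ib_EDes, map_jn_EDes, map_cm_EDes, map_mul, map_inv, m1_EDes,
    lift_apply_inl, lift_apply_inr, l2a_EDes, l2b_EDes, l4u_EDes, l4n_EDes, l4t_EDes, l4m_EDes,
    ← MonoidHom.comp_assoc, lift_comp_inl]

theorem iqth_EDes (g : G →* Q) (a b u n t m : Q) :
    (iq_EDes g a b u n t m).comp (th_EDes G) = m1_EDes g a b u n t m := by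
  rw [iq_EDes, cth_EDes, tq_EDes, (w4_EDes _ _ _ _).1, (w4_EDes _ _ _ _).2.1,
    (w4_EDes _ _ _ _).2.2]
  simp only [mul_assoc, inv_mul_cancel_left, inv_mul_cancel, mul_one]

theorem tqti_EDes (g : G →* Q) (a b u n t m : Q) :
    (tq_EDes g a b u n t m).comp (ti_EDes G) = m2_EDes g a b u n t m := by
  rw [tq_EDes, cti_EDes, iq_EDes, (w3_EDes _ _ _ _).1, (w3_EDes _ _ _ _).2.1,
    (w3_EDes _ _ _ _).2.2]
  simp only [mul_assoc, mul_inv_cancel_left, mul_inv_cancel, mul_one]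

theorem inv1_EDes : (ti_EDes G).comp (th_EDes G) = MonoidHom.id _ :=
  (iqth_EDes _ _ _ _ _ _ _).trans (r1_EDes (MonoidHom.id _)).symm

theorem inv2_EDes : (th_EDes G).comp (ti_EDes G) = MonoidHom.id _ := by
  have h := tqti_EDes (G := G) (Q := ((G ∗ F2) ∗ F2) ∗ F2) ((inl.comp inl).comp inl)
    (inl (inl (inr fa))) (inl (inl (inr fb))) (inr fa) (inr fb) (inl (inr fa)) (inl (inr fb))
  refine Eq.trans h (Coprod.hom_ext (Coprod.hom_ext (Coprod.hom_ext rfl ?_) ?_) ?_)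
  all_goals
    refine FreeGroup.ext_hom (M := ((G ∗ F2) ∗ F2) ∗ F2) _ _ fun s => ?_
    cases s
    · exact l2a_EDes _ _
    · exact l2b_EDes _ _

theorem bd_EDes (g : G →* Q) (a b u n t m : Q) (w : G) :
    tq_EDes g a b u n t m (inl (inl w * inr (cm fa fb)) * inr hb) =
      g w * cm a b * cm t m * cm u n := by
  simp only [tq_EDes, m1_EDes, hb, map_mul, map_cm_EDes, lift_apply_inl, lift_apply_inr,
    l2a_EDes, l2b_EDes, l4u_EDes, l4n_EDes, l4t_EDes, l4m_EDes]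
  rw [mul_assoc (g w), ← mul_assoc (cm (ta_EDes a b u n) _), w5_EDes]
  generalize cm u n = k
  simp only [cm]
  group

theorem kmap_EDes (A : Subgroup G) (φ : G →* H) (f : H →* Q) :
    A.map φ ≤ f.ker ↔ A ≤ (f.comp φ).ker := by
  rw [map_le_iff_le_comap, MonoidHom.comap_ker]

theorem knc_EDes (X : Set G) (f : G →* Q) : normalClosure X ≤ f.ker ↔ ∀ x ∈ X, f x = 1 :=
  ⟨fun h _ hx => h (subset_normalClosure hx), fun h => normalClosure_le_normal h⟩

theorem kncs_EDes (A : Subgroup G) (B : Subgroup H) (f : G ∗ H →* Q) :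
    ncs A B ≤ f.ker ↔ A ≤ (f.comp inl).ker ∧ B ≤ (f.comp inr).ker := by
  rw [ncs, knc_EDes]
  constructor
  · exact fun h => ⟨fun x hx => h _ (Or.inl ⟨x, hx, rfl⟩), fun x hx => h _ (Or.inr ⟨x, hx, rfl⟩)⟩
  · rintro ⟨h1, h2⟩ _ (⟨x, hx, rfl⟩ | ⟨x, hx, rfl⟩)
    · exact h1 hx
    · exact h2 hx

theorem eqk_EDes (S T : Subgroup (((G ∗ F2) ∗ F2) ∗ F2)) (hS : S.Normal) (hT : T.Normal)
    (h : ∀ (Q : Type) [Group Q] (g : G →* Q) (a b u n t m : Q),
      S ≤ (m2_EDes g a b u n t m).ker ↔ T ≤ (m2_EDes g a b u n t m).ker) : S = T := by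
  have h' : ∀ (Q : Type) [Group Q] (f : ((G ∗ F2) ∗ F2) ∗ F2 →* Q), S ≤ f.ker ↔ T ≤ f.ker := by
    intro Q _ f
    rw [r2_EDes f]
    exact h Q _ _ _ _ _ _ _
  apply le_antisymm
  · have := (h' _ (QuotientGroup.mk' T)).2 (by rw [QuotientGroup.ker_mk'])
    rwa [QuotientGroup.ker_mk'] at this
  · have := (h' _ (QuotientGroup.mk' S)).1 (by rw [QuotientGroup.ker_mk'])
    rwa [QuotientGroup.ker_mk'] at this

theorem psi_EDes {j : ℤ} {ψ : MulAut ((G ∗ F2) ∗ F2)} (hL : Last j ψ) (g : G →* Q)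
    (a b t m : Q) : (m3_EDes g a b t m).comp ψ.toMonoidHom =
      m3_EDes g (a * (cc_EDes a b * (t * m * t⁻¹) * (cc_EDes a b)⁻¹)) b
        (b * a * cc_EDes a b * t * m ^ j) m := by
  obtain ⟨h1, h2, h3, h4, h5⟩ := hL
  refine Coprod.hom_ext (Coprod.hom_ext (MonoidHom.ext fun γ => ?_)
    (FreeGroup.ext_hom _ _ fun s => ?_)) (FreeGroup.ext_hom _ _ fun s => ?_)
  · exact congrArg (m3_EDes g a b t m) (h1 γ)
  · cases s
    · refine (congrArg (m3_EDes g a b t m) h3).trans (Eq.trans ?_ (l2a_EDes _ _).symm)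
      simp only [m3_EDes, lift_apply_inl, lift_apply_inr, l2a_EDes, l2b_EDes, dl, dd, tt, mm,
        map_mul, map_inv, cc_EDes]
    · refine (congrArg (m3_EDes g a b t m) h2).trans (Eq.trans ?_ (l2b_EDes _ _).symm)
      exact l2b_EDes _ _
  · cases s
    · refine (congrArg (m3_EDes g a b t m) h5).trans (Eq.trans ?_ (l2a_EDes _ _).symm)
      simp only [m3_EDes, lift_apply_inl, lift_apply_inr, l2a_EDes, l2b_EDes, tt, mm,
        map_mul, map_inv, map_zpow, cc_EDes, mul_assoc]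
    · refine (congrArg (m3_EDes g a b t m) h4).trans (Eq.trans ?_ (l2b_EDes _ _).symm)
      exact l2b_EDes _ _

theorem sg_EDes (g : G →* Q) (a b u n t m : Q) :
    (m1_EDes g a b u n t m).comp (sg 0) = m3_EDes g a b 1 (u * n * u⁻¹) := by
  refine Coprod.hom_ext rfl ?_
  rw [e2_EDes (((m1_EDes g a b u n t m).comp (sg 0)).comp inr)]
  simp [m1_EDes, m3_EDes, sg, dJ, fa, fb, l4u_EDes, l4n_EDes]

theorem act_EDes {j : ℤ} {ψ : MulAut ((G ∗ F2) ∗ F2)} (hL : Last j ψ) (g : G →* Q)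
    (a b u n t m : Q) : (m1_EDes g a b u n t m).comp (actE 0 ψ) =
      m1_EDes g (a * (cc_EDes a b * (u * n * u⁻¹) * (cc_EDes a b)⁻¹)) b
        (b * a * cc_EDes a b * (u * n * u⁻¹) ^ j * u) n t m := by
  have h := psi_EDes hL g a b 1 (u * n * u⁻¹)
  rw [← sg_EDes g a b u n t m, one_mul, inv_one, mul_one, mul_one] at h
  refine Coprod.hom_ext ?_ ?_
  · exact MonoidHom.ext fun y => DFunLike.congr_fun h (inl y)
  · have h' : m1_EDes g a b u n t m (sg 0 (ψ tt)) = b * a * cc_EDes a b * (u * n * u⁻¹) ^ j :=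
      (DFunLike.congr_fun h tt).trans (l2a_EDes _ _)
    rw [e4_EDes (((m1_EDes g a b u n t m).comp (actE 0 ψ)).comp inr), ← h']
    simp [m1_EDes, actE, cJ, gu, gn, gt, gm, l4_EDes]

theorem core_EDes (w : G) (A B : Subgroup G) (C : Subgroup (G ∗ F2)) (j : ℤ)
    (ψ : MulAut ((G ∗ F2) ∗ F2)) (hL : Last j ψ) (hs : Function.Surjective (actE 0 ψ)) :
    ∃ e : (G ∗ F2) ∗ F4 ≃* ((G ∗ F2) ∗ F2) ∗ F2,
      e (inl (inl w * inr (cm fa fb)) * inr hb) =
        inl (inl (inl w * inr (cm fa fb)) * inr (cm fa fb)) * inr (cm fa fb) ∧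
      (ncs (ncs A (normalClosure {fa})) (hK 0)).map e.toMonoidHom =
        ncs (ncs (ncs A (normalClosure {fa})) (normalClosure {fa})) (normalClosure {fb}) ∧
      ((ncs (ncs B (normalClosure {fa})) (hK 1)).map (actE 0 ψ)).map e.toMonoidHom =
        ncs ((ncs (ncs B (normalClosure {fa})) (normalClosure {fa})).map ψ.toMonoidHom)
          (normalClosure {fb}) ∧
      (ncs C (hK 2)).map e.toMonoidHom =
        ncs (ncs C (normalClosure {fb})) (normalClosure {fa}) := by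
  let e := MonoidHom.toMulEquiv (th_EDes G) (ti_EDes G) inv1_EDes inv2_EDes
  have he : e.toMonoidHom = th_EDes G := rfl
  have hn : ∀ {K L : Type} [Group K] [Group L] (X : Subgroup K) (Y : Subgroup L),
      (ncs X Y).Normal := fun X Y => normalClosure_normal
  refine ⟨e, ?_, ?_, ?_, ?_⟩
  · refine (bd_EDes (G := G) (Q := ((G ∗ F2) ∗ F2) ∗ F2) ((inl.comp inl).comp inl)
      (inl (inl (inr fa))) (inl (inl (inr fb))) (inr fa) (inr fb) (inl (inr fa))
      (inl (inr fb)) w).trans ?_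
    have hc : ∀ x y : (G ∗ F2) ∗ F2,
        (inl (cm x y) : ((G ∗ F2) ∗ F2) ∗ F2) = cm (inl x) (inl y) :=
      fun x y => map_cm_EDes (R := ((G ∗ F2) ∗ F2) ∗ F2) inl x y
    have hd : ∀ x y : F2, (inr (cm x y) : ((G ∗ F2) ∗ F2) ∗ F2) = cm (inr x) (inr y) :=
      fun x y => map_cm_EDes (R := ((G ∗ F2) ∗ F2) ∗ F2) inr x y
    simp only [map_mul, map_cm_EDes, MonoidHom.comp_apply, hc, hd]
  · refine eqk_EDes _ _ ((hn _ _).map _ e.surjective) (hn _ _) fun Q _ g a b u n t m => ?_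
    have := k0_EDes a b u n t
    rw [he, kmap_EDes, cth_EDes, tq_EDes]
    simp only [kncs_EDes, hK, Matrix.cons_val_zero, knc_EDes, m1_EDes, m2_EDes, m3_EDes,
      lift_comp_inl, lift_comp_inr, Set.mem_insert_iff, Set.mem_singleton_iff, forall_eq_or_imp,
      forall_eq, l2a_EDes, l2b_EDes, l4n_EDes, l4t_EDes]
    tauto
  · refine eqk_EDes _ _ (((hn _ _).map _ hs).map _ e.surjective) (hn _ _)
      fun Q _ g a b u n t m => ?_
    have := k1_EDes a b u n t m j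
    rw [he, kmap_EDes, kmap_EDes, cth_EDes, tq_EDes, act_EDes hL, kncs_EDes _ (normalClosure {fb}),
      kmap_EDes, m2_EDes, lift_comp_inl, psi_EDes hL]
    simp only [kncs_EDes, hK, Matrix.cons_val_zero, Matrix.cons_val_one, knc_EDes, m1_EDes,
      m3_EDes, lift_comp_inl, lift_comp_inr, Set.mem_insert_iff, Set.mem_singleton_iff,
      forall_eq_or_imp, forall_eq, l2a_EDes, l2b_EDes, l4u_EDes, l4n_EDes, l4t_EDes, l4m_EDes,
      map_mul, map_inv]
    tauto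
  · refine eqk_EDes _ _ ((hn _ _).map _ e.surjective) (hn _ _) fun Q _ g a b u n t m => ?_
    rw [he, kmap_EDes, cth_EDes, tq_EDes]
    have h2 : hK 2 = normalClosure {gu, gm} := rfl
    simp only [kncs_EDes, h2, knc_EDes, m1_EDes, m2_EDes, m3_EDes,
      lift_comp_inl, lift_comp_inr, Set.mem_insert_iff, Set.mem_singleton_iff, forall_eq_or_imp,
      forall_eq, l2a_EDes, l2b_EDes, l4u_EDes, l4m_EDes]
    by_cases hu : u = 1
    · subst hu
      rw [(w8_EDes a b 1 n).2.1, (w8_EDes a b 1 n).2.2]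
      simp [cm]
    · simp [hu]

end homs

theorem eDes (h1 : PGrp) (h2 : PAct) : EDes := by
  intro G _ w A B C j ψ hL hP
  obtain ⟨β, hβ, -⟩ := ((h2 (G ∗ F2) _ 0).2.2 ψ hP).2.2.2
  obtain ⟨e, h0, k0, k1, k2⟩ := core_EDes w A B C j ψ hL (hβ ▸ β.surjective)
  refine ⟨e, h0, fun i => ?_⟩
  fin_cases i
  · exact k0
  · exact k1
  · exact k2

end Pool.Agent.MP_4a02af_gt
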