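import Pool.Agent.MP_4a02af_gt.Stm

open Monoid Monoid.Coprod Subgroup

namespace Pool.Agent.MP_4a02af_gt

section

variable {G : Type} [Group G]

/-- the endomorphism that fixes the first factor and has given values on the four generators -/
def mk_EStd (a b t m : (G ∗ F2) ∗ F2) : (G ∗ F2) ∗ F2 →* (G ∗ F2) ∗ F2 :=
  Coprod.lift (Coprod.lift (inl.comp inl) (FreeGroup.lift fun x : Bool => if x then b else a))
    (FreeGroup.lift fun x : Bool => if x then m else t)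

theorem mk_g_EStd (a b t m : (G ∗ F2) ∗ F2) (γ : G) :
    mk_EStd a b t m (inl (inl γ : G ∗ F2)) = inl (inl γ : G ∗ F2) := by simp [mk_EStd]

theorem mk_a_EStd (a b t m : (G ∗ F2) ∗ F2) :
    mk_EStd a b t m (inl (inr fa : G ∗ F2)) = a := by simp [mk_EStd, fa]

theorem mk_b_EStd (a b t m : (G ∗ F2) ∗ F2) :
    mk_EStd a b t m (inl (inr fb : G ∗ F2)) = b := by simp [mk_EStd, fb]

theorem mk_t_EStd (a b t m : (G ∗ F2) ∗ F2) : mk_EStd a b t m (inr fa) = t := by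
  simp [mk_EStd, fa]

theorem mk_m_EStd (a b t m : (G ∗ F2) ∗ F2) : mk_EStd a b t m (inr fb) = m := by
  simp [mk_EStd, fb]

theorem ext_EStd {H : Type} [Group H] {f g : (G ∗ F2) ∗ F2 →* H}
    (h0 : ∀ γ : G, f (inl (inl γ : G ∗ F2)) = g (inl (inl γ : G ∗ F2)))
    (ha : f (inl (inr fa : G ∗ F2)) = g (inl (inr fa : G ∗ F2)))
    (hb : f (inl (inr fb : G ∗ F2)) = g (inl (inr fb : G ∗ F2)))
    (ht : f (inr fa) = g (inr fa)) (hm : f (inr fb) = g (inr fb)) : f = g := by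
  refine Coprod.hom_ext (Coprod.hom_ext (MonoidHom.ext h0) (FreeGroup.ext_hom _ _ fun x => ?_))
    (FreeGroup.ext_hom _ _ fun x => ?_)
  · cases x
    · exact ha
    · exact hb
  · cases x
    · exact ht
    · exact hm

/-- normal closure of the image of `A` and two elements -/
def NN_EStd (A : Subgroup G) (x y : (G ∗ F2) ∗ F2) : Subgroup ((G ∗ F2) ∗ F2) :=
  normalClosure ((fun γ : G => (inl (inl γ : G ∗ F2) : (G ∗ F2) ∗ F2)) '' (A : Set G) ∪ {x, y})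

instance NN_normal_EStd (A : Subgroup G) (x y : (G ∗ F2) ∗ F2) : (NN_EStd A x y).Normal :=
  normalClosure_normal

theorem NN_g_EStd {A : Subgroup G} (x y : (G ∗ F2) ∗ F2) {γ : G} (h : γ ∈ A) :
    (inl (inl γ : G ∗ F2) : (G ∗ F2) ∗ F2) ∈ NN_EStd A x y :=
  subset_normalClosure (Or.inl ⟨γ, h, rfl⟩)

theorem NN_x_EStd (A : Subgroup G) (x y : (G ∗ F2) ∗ F2) : x ∈ NN_EStd A x y :=
  subset_normalClosure (Or.inr (Or.inl rfl))

theorem NN_y_EStd (A : Subgroup G) (x y : (G ∗ F2) ∗ F2) : y ∈ NN_EStd A x y :=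
  subset_normalClosure (Or.inr (Or.inr rfl))

theorem NN_le_EStd {A : Subgroup G} {x y : (G ∗ F2) ∗ F2} {N : Subgroup ((G ∗ F2) ∗ F2)}
    [N.Normal] (h0 : ∀ γ ∈ A, (inl (inl γ : G ∗ F2) : (G ∗ F2) ∗ F2) ∈ N) (hx : x ∈ N)
    (hy : y ∈ N) : NN_EStd A x y ≤ N := by
  refine normalClosure_le_normal ?_
  rintro _ (⟨γ, h, rfl⟩ | rfl | rfl)
  exacts [h0 γ h, hx, hy]

theorem NN_congr_EStd {A : Subgroup G} {x y x' y' : (G ∗ F2) ∗ F2}
    (h : ∀ N : Subgroup ((G ∗ F2) ∗ F2), N.Normal → (x ∈ N ∧ y ∈ N ↔ x' ∈ N ∧ y' ∈ N)) :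
    NN_EStd A x y = NN_EStd A x' y' := by
  have h1 := (h _ (NN_normal_EStd A x y)).1 ⟨NN_x_EStd A x y, NN_y_EStd A x y⟩
  have h2 := (h _ (NN_normal_EStd A x' y')).2 ⟨NN_x_EStd A x' y', NN_y_EStd A x' y'⟩
  exact le_antisymm (NN_le_EStd (fun γ hγ => NN_g_EStd _ _ hγ) h2.1 h2.2)
    (NN_le_EStd (fun γ hγ => NN_g_EStd _ _ hγ) h1.1 h1.2)

theorem ncs_eq_EStd (A : Subgroup G) (x y : F2) :
    ncs (ncs A (normalClosure {x})) (normalClosure {y}) =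
      NN_EStd A (inl (inr x : G ∗ F2)) (inr y) := by
  refine le_antisymm (normalClosure_le_normal ?_) ?_
  · rintro _ (⟨u, hu, rfl⟩ | ⟨u, hu, rfl⟩)
    · have : ncs A (normalClosure {x}) ≤ (NN_EStd A (inl (inr x : G ∗ F2)) (inr y)).comap inl := by
        refine normalClosure_le_normal ?_
        rintro _ (⟨v, hv, rfl⟩ | ⟨v, hv, rfl⟩)
        · exact NN_g_EStd _ _ hv
        · have : normalClosure {x} ≤
              ((NN_EStd A (inl (inr x : G ∗ F2)) (inr y)).comap inl).comap inr := by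
            refine normalClosure_le_normal ?_
            rintro _ rfl
            exact NN_x_EStd _ _ _
          exact this hv
      exact this hu
    · have : normalClosure {y} ≤ (NN_EStd A (inl (inr x : G ∗ F2)) (inr y)).comap inr := by
        refine normalClosure_le_normal ?_
        rintro _ rfl
        exact NN_y_EStd _ _ _
      exact this hu
  · have : (ncs (ncs A (normalClosure {x})) (normalClosure {y})).Normal := normalClosure_normal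
    refine NN_le_EStd (fun γ hγ => ?_) ?_ ?_
    · exact subset_normalClosure (Or.inl ⟨_, subset_normalClosure (Or.inl ⟨γ, hγ, rfl⟩), rfl⟩)
    · exact subset_normalClosure (Or.inl ⟨_, subset_normalClosure
        (Or.inr ⟨x, subset_normalClosure rfl, rfl⟩), rfl⟩)
    · exact subset_normalClosure (Or.inr ⟨y, subset_normalClosure rfl, rfl⟩)

theorem NN_map_EStd (A : Subgroup G) (x y : (G ∗ F2) ∗ F2) (e : MulAut ((G ∗ F2) ∗ F2))
    (he : ∀ γ : G, e (inl (inl γ : G ∗ F2)) = inl (inl γ : G ∗ F2)) :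
    (NN_EStd A x y).map e.toMonoidHom = NN_EStd A (e x) (e y) := by
  unfold NN_EStd
  rw [Subgroup.map_normalClosure _ _ e.surjective, Set.image_union, Set.image_image,
    Set.image_pair]
  simp only [MulEquiv.toMonoidHom_eq_coe, MonoidHom.coe_coe, he]

/-- the genus two automorphism -/
def th_EStd (G : Type) [Group G] : MulAut ((G ∗ F2) ∗ F2) :=
  let a : (G ∗ F2) ∗ F2 := inl (inr fa : G ∗ F2)
  let b : (G ∗ F2) ∗ F2 := inl (inr fb : G ∗ F2)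
  let t : (G ∗ F2) ∗ F2 := inr fa
  let m : (G ∗ F2) ∗ F2 := inr fb
  MonoidHom.toMulEquiv
    (mk_EStd
      (b * a⁻¹ * b⁻¹ * t * m * t * m⁻¹ * t⁻¹ * b * a * b⁻¹ * a * b * a⁻¹ * b⁻¹ * t * m * t⁻¹ *
        m⁻¹ * t⁻¹ * b * a * b⁻¹)
      (b * b * a⁻¹ * b⁻¹ * t * m * t⁻¹ * m⁻¹ * t⁻¹ * b * a * b⁻¹) t
      (m * t * m⁻¹ * t⁻¹ * b * a * b⁻¹ * a⁻¹ * b * a⁻¹ * b⁻¹ * t * m * t⁻¹))
    (mk_EStd
      (a * b * a⁻¹ * b⁻¹ * t * m * t⁻¹ * m⁻¹ * t⁻¹ * b * a * b⁻¹ * a * b * a⁻¹ * b⁻¹ * t * m * t *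
        m⁻¹ * t⁻¹ * b * a * b⁻¹ * a⁻¹)
      (b * a * b * a⁻¹ * b⁻¹ * t * m * t * m⁻¹ * t⁻¹ * b * a * b⁻¹ * a⁻¹) t
      (t⁻¹ * b * a * b⁻¹ * a * b * a⁻¹ * b⁻¹ * t * m))
    (by
      refine ext_EStd (fun γ => ?_) ?_ ?_ ?_ ?_ <;>
      simp only [a, b, t, m, MonoidHom.comp_apply, MonoidHom.id_apply, mk_g_EStd, mk_a_EStd,
        mk_b_EStd, mk_t_EStd, mk_m_EStd, map_mul, map_inv, mul_assoc, mul_inv_rev, inv_inv,
        mul_inv_cancel_left, inv_mul_cancel_left, mul_inv_cancel, inv_mul_cancel, mul_one])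
    (by
      refine ext_EStd (fun γ => ?_) ?_ ?_ ?_ ?_ <;>
      simp only [a, b, t, m, MonoidHom.comp_apply, MonoidHom.id_apply, mk_g_EStd, mk_a_EStd,
        mk_b_EStd, mk_t_EStd, mk_m_EStd, map_mul, map_inv, mul_assoc, mul_inv_rev, inv_inv,
        mul_inv_cancel_left, inv_mul_cancel_left, mul_inv_cancel, inv_mul_cancel, mul_one])

/-- the twist -/
def rh_EStd (G : Type) [Group G] (j : ℤ) : MulAut ((G ∗ F2) ∗ F2) :=
  let a : (G ∗ F2) ∗ F2 := inl (inr fa : G ∗ F2)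
  let b : (G ∗ F2) ∗ F2 := inl (inr fb : G ∗ F2)
  let t : (G ∗ F2) ∗ F2 := inr fa
  let m : (G ∗ F2) ∗ F2 := inr fb
  MonoidHom.toMulEquiv (mk_EStd a (b * a ^ j) t m) (mk_EStd a (b * (a ^ j)⁻¹) t m)
    (by
      refine ext_EStd (fun γ => ?_) ?_ ?_ ?_ ?_ <;>
      simp only [a, b, t, m, MonoidHom.comp_apply, MonoidHom.id_apply, mk_g_EStd, mk_a_EStd,
        mk_b_EStd, mk_t_EStd, mk_m_EStd, map_mul, map_inv, map_zpow, mul_assoc,
        mul_inv_cancel, inv_mul_cancel, mul_one])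
    (by
      refine ext_EStd (fun γ => ?_) ?_ ?_ ?_ ?_ <;>
      simp only [a, b, t, m, MonoidHom.comp_apply, MonoidHom.id_apply, mk_g_EStd, mk_a_EStd,
        mk_b_EStd, mk_t_EStd, mk_m_EStd, map_mul, map_inv, map_zpow, mul_assoc,
        mul_inv_cancel, inv_mul_cancel, mul_one])

theorem exists_aut_EStd (G : Type) [Group G] (j : ℤ) (a b t m : (G ∗ F2) ∗ F2)
    (ha : a = inl (inr fa : G ∗ F2)) (hb : b = inl (inr fb : G ∗ F2)) (ht : t = inr fa)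
    (hm : m = inr fb) :
    ∃ φ : MulAut ((G ∗ F2) ∗ F2), (∀ γ : G, φ (inl (inl γ : G ∗ F2)) = inl (inl γ : G ∗ F2)) ∧
      φ (cm a b * cm t m) = cm a b * cm t m ∧ φ t = t ∧ (∃ z, φ a = z * a * z⁻¹) ∧
      (∃ z, φ (a * (b * a⁻¹ * b⁻¹ * (t * m * t⁻¹) * (b * a⁻¹ * b⁻¹)⁻¹)) = z * m * z⁻¹) ∧
      φ (b * a * b * a⁻¹ * b⁻¹ * t * m ^ j) = b * a ^ j * a * (b * a⁻¹ * b⁻¹) * cm t m *
        (m * t * m⁻¹ * t⁻¹ * ((b * a⁻¹ * b⁻¹)⁻¹ * a⁻¹ * (b * a⁻¹ * b⁻¹)) * (t * m * t⁻¹)) ^ j := by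
  have t0 : ∀ γ : G, th_EStd G (inl (inl γ : G ∗ F2)) = inl (inl γ : G ∗ F2) :=
    fun γ => by simp only [th_EStd, MonoidHom.toMulEquiv_apply, mk_g_EStd]
  have ta : th_EStd G a = b * a⁻¹ * b⁻¹ * t * m * t * m⁻¹ * t⁻¹ * b * a * b⁻¹ * a * b * a⁻¹ *
      b⁻¹ * t * m * t⁻¹ * m⁻¹ * t⁻¹ * b * a * b⁻¹ := by
    rw [ha, hb, ht, hm]; simp only [th_EStd, rh_EStd, MonoidHom.toMulEquiv_apply, mk_a_EStd]
  have tb : th_EStd G b = b * b * a⁻¹ * b⁻¹ * t * m * t⁻¹ * m⁻¹ * t⁻¹ * b * a * b⁻¹ := by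
    rw [ha, hb, ht, hm]; simp only [th_EStd, rh_EStd, MonoidHom.toMulEquiv_apply, mk_b_EStd]
  have tt' : th_EStd G t = t := by
    rw [ht]; simp only [th_EStd, rh_EStd, MonoidHom.toMulEquiv_apply, mk_t_EStd]
  have tm : th_EStd G m =
      m * t * m⁻¹ * t⁻¹ * b * a * b⁻¹ * a⁻¹ * b * a⁻¹ * b⁻¹ * t * m * t⁻¹ := by
    rw [ha, hb, ht, hm]; simp only [th_EStd, rh_EStd, MonoidHom.toMulEquiv_apply, mk_m_EStd]
  have r0 : ∀ γ : G, rh_EStd G j (inl (inl γ : G ∗ F2)) = inl (inl γ : G ∗ F2) :=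
    fun γ => by simp only [rh_EStd, MonoidHom.toMulEquiv_apply, mk_g_EStd]
  have ra : rh_EStd G j a = a := by rw [ha]; simp only [th_EStd, rh_EStd, MonoidHom.toMulEquiv_apply, mk_a_EStd]
  have rb : rh_EStd G j b = b * a ^ j := by rw [ha, hb]; simp only [th_EStd, rh_EStd, MonoidHom.toMulEquiv_apply, mk_b_EStd]
  have rt : rh_EStd G j t = t := by rw [ht]; simp only [th_EStd, rh_EStd, MonoidHom.toMulEquiv_apply, mk_t_EStd]
  have rm : rh_EStd G j m = m := by rw [hm]; simp only [th_EStd, rh_EStd, MonoidHom.toMulEquiv_apply, mk_m_EStd]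
  have rc : rh_EStd G j (b * a⁻¹ * b⁻¹) = b * a⁻¹ * b⁻¹ := by
    rw [map_mul, map_mul, map_inv, map_inv, ra, rb]; group
  generalize th_EStd G = θ at t0 ta tb tt' tm
  generalize rh_EStd G j = ρ at r0 ra rb rt rm rc
  clear ha hb ht hm
  have e1 : θ (cm a b * cm t m) = a * (b * a⁻¹ * b⁻¹) * cm t m := by
    simp only [cm, map_mul, map_inv, ta, tb, tt', tm, mul_assoc, mul_inv_rev, inv_inv,
      mul_inv_cancel_left, inv_mul_cancel_left, mul_inv_cancel, inv_mul_cancel, mul_one]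
  have e2 : θ a = (b * a⁻¹ * b⁻¹ * t * m * t * m⁻¹ * t⁻¹ * b * a * b⁻¹) * a *
      (b * a⁻¹ * b⁻¹ * t * m * t * m⁻¹ * t⁻¹ * b * a * b⁻¹)⁻¹ := by
    simp only [ta, mul_assoc, mul_inv_rev, inv_inv]
  have e3 : θ (a * (b * a⁻¹ * b⁻¹ * (t * m * t⁻¹) * (b * a⁻¹ * b⁻¹)⁻¹)) =
      (b * a⁻¹ * b⁻¹ * t) * m * (b * a⁻¹ * b⁻¹ * t)⁻¹ := by
    simp only [map_mul, map_inv, ta, tb, tt', tm, mul_assoc, mul_inv_rev, inv_inv,
      mul_inv_cancel_left, inv_mul_cancel_left, mul_inv_cancel, inv_mul_cancel, mul_one]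
  have e4 : θ (b * a * b * a⁻¹ * b⁻¹ * t) = b * a * (b * a⁻¹ * b⁻¹) * cm t m := by
    simp only [cm, map_mul, map_inv, ta, tb, tt', tm, mul_assoc, mul_inv_rev, inv_inv,
      mul_inv_cancel_left, inv_mul_cancel_left, mul_inv_cancel, inv_mul_cancel, mul_one]
  have e5 : θ m = m * t * m⁻¹ * t⁻¹ * ((b * a⁻¹ * b⁻¹)⁻¹ * a⁻¹ * (b * a⁻¹ * b⁻¹)) *
      (t * m * t⁻¹) := by
    simp only [tm, mul_assoc, mul_inv_rev, inv_inv]
  refine ⟨ρ * θ, fun γ => ?_, ?_, ?_,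
    ⟨ρ (b * a⁻¹ * b⁻¹ * t * m * t * m⁻¹ * t⁻¹ * b * a * b⁻¹), ?_⟩,
    ⟨ρ (b * a⁻¹ * b⁻¹ * t), ?_⟩, ?_⟩
  · rw [MulAut.mul_apply, t0, r0]
  · rw [MulAut.mul_apply, e1, map_mul, map_mul, rc, ra]
    simp only [cm, map_mul, map_inv, rt, rm, mul_assoc]
  · rw [MulAut.mul_apply, tt', rt]
  · rw [MulAut.mul_apply, e2, map_mul ρ _ _⁻¹, map_mul ρ _ a, map_inv, ra]
  · rw [MulAut.mul_apply, e3, map_mul ρ _ _⁻¹, map_mul ρ _ m, map_inv, rm]
  · rw [MulAut.mul_apply, map_mul, map_zpow, e4, e5]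
    generalize b * a⁻¹ * b⁻¹ = c at rc ⊢
    simp only [cm, map_mul, map_inv, map_zpow, ra, rb, rt, rm, rc]

theorem key_EStd {H : Type} [Group H] (N : Subgroup H) [N.Normal] (a b t m : H) (j : ℤ)
    (hm : m ∈ N) : b * a ^ j * a * (b * a⁻¹ * b⁻¹) * cm t m *
        (m * t * m⁻¹ * t⁻¹ * ((b * a⁻¹ * b⁻¹)⁻¹ * a⁻¹ * (b * a⁻¹ * b⁻¹)) * (t * m * t⁻¹)) ^ j ∈ N ↔
      b ∈ N := by
  rw [← QuotientGroup.eq_one_iff] at hm
  rw [← QuotientGroup.eq_one_iff, ← QuotientGroup.eq_one_iff]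
  simp only [cm, QuotientGroup.mk_mul, QuotientGroup.mk_inv, QuotientGroup.mk_zpow, hm]
  generalize (a : H ⧸ N) = x
  generalize (b : H ⧸ N) = y
  generalize (t : H ⧸ N) = s
  have h : (1 * s * 1⁻¹ * s⁻¹ * ((y * x⁻¹ * y⁻¹)⁻¹ * x⁻¹ * (y * x⁻¹ * y⁻¹)) * (s * 1 * s⁻¹)) =
      (y * x⁻¹ * y⁻¹)⁻¹ * x⁻¹ * (y * x⁻¹ * y⁻¹)⁻¹⁻¹ := by group
  rw [h, conj_zpow]
  have h2 : y * x ^ j * x * (y * x⁻¹ * y⁻¹) * (s * 1 * s⁻¹ * 1⁻¹) *
      ((y * x⁻¹ * y⁻¹)⁻¹ * x⁻¹ ^ j * (y * x⁻¹ * y⁻¹)⁻¹⁻¹) = (y * x) * y * (y * x)⁻¹ := by group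
  rw [h2, conj_eq_one_iff]

end

theorem eStd (h1 : BStd) : EStd := by
  intro G _ w A B C L j ψ hψ hL
  obtain ⟨φ, f0, fbd, ft, ⟨z, fa'⟩, ⟨z', fg1⟩, fg2⟩ := exists_aut_EStd G j _ _ _ _ rfl rfl rfl rfl
  obtain ⟨p0, -, pa, -, pt⟩ := hψ
  have s1 := h1.2.1 _ _ _ _ _ _ _ _ _ _ (h1.2.1 _ _ _ _ _ _ _ _ _ _ hL h1.2.2.1) h1.2.2.1
  have s2 := h1.1 _ _ φ.symm _ _ _ _ s1
  have g0 : ∀ γ : G, φ.symm (inl (inl γ : G ∗ F2)) = inl (inl γ : G ∗ F2) := fun γ => by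
    rw [MulEquiv.symm_apply_eq, f0]
  have inv : ∀ X Y : Subgroup ((G ∗ F2) ∗ F2), X.map φ.toMonoidHom = Y →
      Y.map φ.symm.toMonoidHom = X := by
    rintro X _ rfl
    rw [Subgroup.map_map]
    simp
  have hbd : φ.symm (inl (inl w * inr (cm fa fb) : G ∗ F2) * inr (cm fa fb)) =
      inl (inl w * inr (cm fa fb) : G ∗ F2) * inr (cm fa fb) := by
    rw [MulEquiv.symm_apply_eq]
    have : (inl (inl w * inr (cm fa fb) : G ∗ F2) * inr (cm fa fb) : (G ∗ F2) ∗ F2) =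
        inl (inl w : G ∗ F2) * (cm (inl (inr fa : G ∗ F2)) (inl (inr fb : G ∗ F2)) *
          cm (inr fa) (inr fb)) := by
      simp only [cm, map_mul, map_inv, mul_assoc]
    rw [this, map_mul, f0, fbd]
  have hK0 : (ncs (ncs A (normalClosure {fa})) (normalClosure {fa})).map φ.symm.toMonoidHom =
      ncs (ncs A (normalClosure {fa})) (normalClosure {fa}) := by
    refine inv _ _ ?_
    rw [ncs_eq_EStd, NN_map_EStd _ _ _ _ f0, ft, fa']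
    refine NN_congr_EStd fun N hN => and_congr_left fun _ =>
      ⟨fun h => ?_, fun h => hN.conj_mem _ h _⟩
    simpa [mul_assoc] using hN.conj_mem _ h z⁻¹
  have hK1 : (ncs (ncs B (normalClosure {fb})) (normalClosure {fb})).map φ.symm.toMonoidHom =
      (ncs (ncs B (normalClosure {fa})) (normalClosure {fa})).map ψ.toMonoidHom := by
    refine inv _ _ ?_
    simp only [tt, mm, dl, dd, map_mul, map_inv] at pa pt
    rw [ncs_eq_EStd, ncs_eq_EStd, NN_map_EStd _ _ _ _ p0, NN_map_EStd _ _ _ _ f0, pa, pt, fg1, fg2]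
    refine NN_congr_EStd fun N hN => ⟨fun h => ?_, fun h => ?_⟩
    · have hm : (inr fb : (G ∗ F2) ∗ F2) ∈ N := by
        simpa [mul_assoc] using hN.conj_mem _ h.1 z'⁻¹
      exact ⟨(key_EStd N _ _ _ _ j hm).1 h.2, hm⟩
    · exact ⟨hN.conj_mem _ h.2 _, (key_EStd N _ _ _ _ j h.2).2 h.1⟩
  rw [hbd, hK0, hK1] at s2
  refine ⟨(φ.symm (inl (inr fa : G ∗ F2)), φ.symm (inl (inr fb : G ∗ F2)), false),
    (φ.symm (inr fa), φ.symm (inr fb), false), rfl, rfl, ?_⟩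
  have hl : mp φ.symm (mp inl (mp inl L ++ mp inr [(fa, fb, false)]) ++ mp inr [(fa, fb, false)]) =
      mp (fun x => inl (inl x : G ∗ F2)) L ++
        [(φ.symm (inl (inr fa : G ∗ F2)), φ.symm (inl (inr fb : G ∗ F2)), false),
          (φ.symm (inr fa), φ.symm (inr fb), false)] := by
    simp [mp, g0, Function.comp_def]
  rw [hl] at s2
  exact s2

end Pool.Agent.MP_4a02af_gt
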