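import Pool.Agent.MP_4a02af_gt.Stm

section PartGrTie

/-! A closed up path with trivial label in the combined graph contains a binding tie. -/

open Monoid Monoid.Coprod Subgroup

namespace Pool.Agent.MP_4a02af_gt

section
variable {G H : Type} [Group G] [Group H]

/-- the two factors as a family -/
def fam_GrTie (G H : Type) : Bool → Type
  | true => G
  | false => H

instance inst_GrTie (b : Bool) : Group (fam_GrTie G H b) :=
  match b with
  | true => inferInstanceAs (Group G)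
  | false => inferInstanceAs (Group H)

/-- the map to the indexed free product -/
def phi_GrTie (G H : Type) [Group G] [Group H] : G ∗ H →* CoprodI (fam_GrTie G H) :=
  Coprod.lift (CoprodI.of (M := fam_GrTie G H) (i := true))
    (CoprodI.of (M := fam_GrTie G H) (i := false))

/-- alternating paths -/
inductive NF_GrTie (E : List (ℕ × G × ℕ)) (E' : List (ℕ × H × ℕ)) :
    Option Bool → ℕ → G ∗ H → ℕ → Prop
  | nil (v : ℕ) : NF_GrTie E E' none v 1 v
  | cG {u z v : ℕ} {g : G} {s : Option Bool} {y : G ∗ H} : Pth E u g z → g ≠ 1 →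
      NF_GrTie E E' s z y v → s ≠ some true → NF_GrTie E E' (some true) u (inl g * y) v
  | cH {u z v : ℕ} {h : H} {s : Option Bool} {y : G ∗ H} : Pth E' u h z → h ≠ 1 →
      NF_GrTie E E' s z y v → s ≠ some false → NF_GrTie E E' (some false) u (inr h * y) v

variable {E : List (ℕ × G × ℕ)} {E' : List (ℕ × H × ℕ)}

theorem word_GrTie {s : Option Bool} {u v : ℕ} {x : G ∗ H} (h : NF_GrTie E E' s u x v) :
    ∃ w : CoprodI.Word (fam_GrTie G H), w.prod = phi_GrTie G H x ∧ w.fstIdx = s := by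
  induction h with
  | nil v => exact ⟨CoprodI.Word.empty, by simp, rfl⟩
  | @cG u z v g s y _ hg _ hs ih =>
    obtain ⟨w, h1, h2⟩ := ih
    refine ⟨CoprodI.Word.cons (M := fam_GrTie G H) (i := true) g w (h2 ▸ hs) hg, ?_,
      CoprodI.Word.fstIdx_cons _ _ _ _⟩
    rw [CoprodI.Word.prod_cons, h1, map_mul]
    rfl
  | @cH u z v g s y _ hg _ hs ih =>
    obtain ⟨w, h1, h2⟩ := ih
    refine ⟨CoprodI.Word.cons (M := fam_GrTie G H) (i := false) g w (h2 ▸ hs) hg, ?_,
      CoprodI.Word.fstIdx_cons _ _ _ _⟩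
    rw [CoprodI.Word.prod_cons, h1, map_mul]
    rfl

theorem one_GrTie {s : Option Bool} {u v : ℕ} (h : NF_GrTie E E' s u 1 v) : u = v := by
  classical
  obtain ⟨w, h1, h2⟩ := word_GrTie h
  have e : w = CoprodI.Word.empty := by
    apply (CoprodI.Word.equiv (M := fam_GrTie G H)).symm.injective
    change w.prod = CoprodI.Word.empty.prod
    rw [h1, map_one, CoprodI.Word.prod_empty]
  have hs : s = none := by rw [← h2, e]; rfl
  subst hs
  generalize (1 : G ∗ H) = x at h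
  cases h
  rfl

theorem cat_GrTie {A : Type} [Group A] {F : List (ℕ × A × ℕ)} {u z v : ℕ} {a b : A}
    (h1 : Pth F u a z) (h2 : Pth F z b v) : Pth F u (a * b) v := by
  induction h1 with
  | nil _ => rwa [one_mul]
  | fwd h _ ih => rw [mul_assoc]; exact Pth.fwd h (ih h2)
  | bwd h _ ih => rw [mul_assoc]; exact Pth.bwd h (ih h2)

/-- a tie -/
def Tie_GrTie (E : List (ℕ × G × ℕ)) (E' : List (ℕ × H × ℕ)) : Prop :=
  ∃ u' v', u' ≠ v' ∧ (Pth E u' 1 v' ∨ Pth E' u' 1 v')

theorem newG_GrTie {s : Option Bool} {u z v : ℕ} {g : G} {y : G ∗ H} (hp : Pth E u g z)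
    (h : NF_GrTie E E' s z y v) (hs : s ≠ some true) :
    Tie_GrTie E E' ∨ ∃ s', NF_GrTie E E' s' u (inl g * y) v := by
  by_cases hg : g = 1
  · subst hg
    by_cases e : u = z
    · subst e
      exact Or.inr ⟨s, by simpa using h⟩
    · exact Or.inl ⟨u, z, e, Or.inl hp⟩
  · exact Or.inr ⟨_, NF_GrTie.cG hp hg h hs⟩

theorem newH_GrTie {s : Option Bool} {u z v : ℕ} {g : H} {y : G ∗ H} (hp : Pth E' u g z)
    (h : NF_GrTie E E' s z y v) (hs : s ≠ some false) :
    Tie_GrTie E E' ∨ ∃ s', NF_GrTie E E' s' u (inr g * y) v := by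
  by_cases hg : g = 1
  · subst hg
    by_cases e : u = z
    · subst e
      exact Or.inr ⟨s, by simpa using h⟩
    · exact Or.inl ⟨u, z, e, Or.inr hp⟩
  · exact Or.inr ⟨_, NF_GrTie.cH hp hg h hs⟩

theorem preG_GrTie {s : Option Bool} {u z v : ℕ} {g : G} {y : G ∗ H} (hp : Pth E u g z)
    (h : NF_GrTie E E' s z y v) : Tie_GrTie E E' ∨ ∃ s', NF_GrTie E E' s' u (inl g * y) v := by
  cases h with
  | nil => exact newG_GrTie hp (NF_GrTie.nil _) (by simp)
  | cG a _ c d =>
    rw [← mul_assoc, ← map_mul]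
    exact newG_GrTie (cat_GrTie hp a) c d
  | cH a b c d => exact newG_GrTie hp (NF_GrTie.cH a b c d) (by simp)

theorem preH_GrTie {s : Option Bool} {u z v : ℕ} {g : H} {y : G ∗ H} (hp : Pth E' u g z)
    (h : NF_GrTie E E' s z y v) : Tie_GrTie E E' ∨ ∃ s', NF_GrTie E E' s' u (inr g * y) v := by
  cases h with
  | nil => exact newH_GrTie hp (NF_GrTie.nil _) (by simp)
  | cG a b c d => exact newH_GrTie hp (NF_GrTie.cG a b c d) (by simp)
  | cH a _ c d =>
    rw [← mul_assoc, ← map_mul]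
    exact newH_GrTie (cat_GrTie hp a) c d

theorem mem_GrTie {u v : ℕ} {x : G ∗ H} (h : (u, x, v) ∈ cmb E E') :
    (∃ g, (u, g, v) ∈ E ∧ x = inl g) ∨ ∃ g, (u, g, v) ∈ E' ∧ x = inr g := by
  simp only [cmb, List.mem_append, List.mem_map, Prod.mk.injEq] at h
  rcases h with ⟨⟨a, g, b⟩, h, rfl, rfl, rfl⟩ | ⟨⟨a, g, b⟩, h, rfl, rfl, rfl⟩
  · exact Or.inl ⟨g, h, rfl⟩
  · exact Or.inr ⟨g, h, rfl⟩

theorem main_GrTie {u v : ℕ} {x : G ∗ H} (h : Pth (cmb E E') u x v) :
    Tie_GrTie E E' ∨ ∃ s, NF_GrTie E E' s u x v := by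
  induction h with
  | nil v => exact Or.inr ⟨_, NF_GrTie.nil v⟩
  | fwd h _ ih =>
    rcases ih with ih | ⟨s, ih⟩
    · exact Or.inl ih
    · rcases mem_GrTie h with ⟨g, hg, rfl⟩ | ⟨g, hg, rfl⟩
      · exact preG_GrTie (by simpa using Pth.fwd hg (Pth.nil _)) ih
      · exact preH_GrTie (by simpa using Pth.fwd hg (Pth.nil _)) ih
  | bwd h _ ih =>
    rcases ih with ih | ⟨s, ih⟩
    · exact Or.inl ih
    · rcases mem_GrTie h with ⟨g, hg, rfl⟩ | ⟨g, hg, rfl⟩
      · rw [← map_inv]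
        exact preG_GrTie (by simpa using Pth.bwd hg (Pth.nil _)) ih
      · rw [← map_inv]
        exact preH_GrTie (by simpa using Pth.bwd hg (Pth.nil _)) ih

end

theorem grTie : GrTie := by
  intro G H _ _ E E' u v huv h
  rcases main_GrTie h with h | ⟨s, h⟩
  · exact h
  · exact absurd (one_GrTie h) huv

end Pool.Agent.MP_4a02af_gt

end PartGrTie

section PartGrCon

open Monoid Monoid.Coprod Subgroup

namespace Pool.Agent.MP_4a02af_gt

variable {A : Type} [Group A] {E : List (ℕ × A × ℕ)}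

theorem cast_GrCon {u v : ℕ} {x y : A} (h : Pth E u x v) (e : x = y) : Pth E u y v := e ▸ h

theorem trans_GrCon {u v z : ℕ} {x y : A} (h : Pth E u x v) (h' : Pth E v y z) :
    Pth E u (x * y) z := by
  induction h with
  | nil v => exact cast_GrCon h' (one_mul y).symm
  | fwd he _ ih => exact cast_GrCon (Pth.fwd he (ih h')) (mul_assoc _ _ _).symm
  | bwd he _ ih => exact cast_GrCon (Pth.bwd he (ih h')) (mul_assoc _ _ _).symm

theorem symm_GrCon {u v : ℕ} {x : A} (h : Pth E u x v) : Pth E v x⁻¹ u := by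
  induction h with
  | nil v => exact cast_GrCon (Pth.nil v) inv_one.symm
  | fwd he _ ih => exact cast_GrCon (trans_GrCon ih (Pth.bwd he (Pth.nil _))) (by group)
  | bwd he _ ih => exact cast_GrCon (trans_GrCon ih (Pth.fwd he (Pth.nil _))) (by group)

theorem last_GrCon {u v : ℕ} {y : A} (h : Pth E u y v) (hn : u ≠ v) :
    ∃ u₀ x, u₀ ≠ v ∧ ∃ e ∈ E, e = (u₀, x, v) ∨ e = (v, x⁻¹, u₀) := by
  induction h with
  | nil v => exact absurd rfl hn
  | @fwd u w z x y he _ ih =>
    by_cases e : w = z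
    · exact ⟨u, x, hn, _, he, Or.inl (e ▸ rfl)⟩
    · exact ih e
  | @bwd u w z x y he _ ih =>
    by_cases e : w = z
    · exact ⟨u, x⁻¹, hn, _, he, Or.inr (by rw [inv_inv, e])⟩
    · exact ih e

theorem grCon : GrCon := by
  classical
  intro G _ S E v v' hS hn ht
  obtain ⟨u₀, x, h0, e₀, he, hx⟩ := last_GrCon ht hn
  have hv : v ∈ S := by
    generalize (1 : G) = y at ht
    cases ht with
    | nil => exact absurd rfl hn
    | fwd h _ => exact (hS _ h).1
    | bwd h _ => exact (hS _ h).2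
  have h1 : v' ∈ S ∧ u₀ ∈ S := by
    rcases hx with rfl | rfl
    exacts [(hS _ he).symm, hS _ he]
  obtain ⟨π, hπ⟩ : ∃ π : ℕ → ℕ, ∀ u, π u = if u = v' then u₀ else u := ⟨_, fun _ => rfl⟩
  obtain ⟨g, hg⟩ : ∃ g : ℕ → G, ∀ u, g u = if u = v' then x else 1 := ⟨_, fun _ => rfl⟩
  have hπS : ∀ u ∈ S, π u ∈ S.erase v' := fun u hu => by
    rw [hπ]
    split_ifs with h
    exacts [Finset.mem_erase.2 ⟨h0, h1.2⟩, Finset.mem_erase.2 ⟨h, hu⟩]
  refine ⟨hv, h1.1, (E.erase e₀).map fun e => (π e.1, g e.1 * e.2.1 * (g e.2.2)⁻¹, π e.2.2),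
    ?_, ?_, ?_⟩
  · intro e h
    obtain ⟨e', h', rfl⟩ := List.mem_map.1 h
    have := hS _ (List.mem_of_mem_erase h')
    exact ⟨hπS _ this.1, hπS _ this.2⟩
  · rw [List.length_map, List.length_erase_add_one he]
  generalize hE : (E.erase e₀).map (fun e : ℕ × G × ℕ =>
    (π e.1, g e.1 * e.2.1 * (g e.2.2)⁻¹, π e.2.2)) = E₁
  have a1 : ∀ e ∈ E, Pth E₁ (π e.1) (g e.1 * e.2.1 * (g e.2.2)⁻¹) (π e.2.2) := by
    intro e h
    by_cases c : e = e₀
    · subst c
      rcases hx with rfl | rfl <;>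
        simp only [hπ, hg, if_neg h0, if_true] <;> exact cast_GrCon (Pth.nil _) (by group)
    · exact cast_GrCon (Pth.fwd (hE ▸ List.mem_map_of_mem ((List.mem_erase_of_ne c).2 h))
        (Pth.nil _)) (mul_one _)
  have a2 : ∀ u y z, Pth E u y z → Pth E₁ (π u) (g u * y * (g z)⁻¹) (π z) := by
    intro u y z h
    induction h with
    | nil v => exact cast_GrCon (Pth.nil _) (by group)
    | fwd h _ ih => exact cast_GrCon (trans_GrCon (a1 _ h) ih) (by group)
    | bwd h _ ih => exact cast_GrCon (trans_GrCon (symm_GrCon (a1 _ h)) ih) (by group)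
  have a3 : ∀ u, Pth E₁ (if u = v' then v else u) (g u)⁻¹ (π u) := by
    intro u
    split_ifs with h
    · have := a2 _ _ _ ht
      rw [hπ v, hg v, if_neg hn, if_neg hn, ← h] at this
      exact cast_GrCon this (by group)
    · rw [hπ, hg, if_neg h, if_neg h]
      exact cast_GrCon (Pth.nil _) inv_one.symm
  exact fun e h => cast_GrCon
    (trans_GrCon (trans_GrCon (a3 _) (a1 e h)) (symm_GrCon (a3 _))) (by group)

end Pool.Agent.MP_4a02af_gt

end PartGrCon

section PartGrMain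

open Monoid Monoid.Coprod Subgroup

namespace Pool.Agent.MP_4a02af_gt

section

variable {A B : Type} [Group A] [Group B]

theorem trans_GrMain {E : List (ℕ × A × ℕ)} {u v w : ℕ} {x y : A} (h : Pth E u x v)
    (h' : Pth E v y w) : Pth E u (x * y) w := by
  induction h with
  | nil v => rwa [one_mul]
  | fwd he _ ih => rw [mul_assoc]; exact Pth.fwd he (ih h')
  | bwd he _ ih => rw [mul_assoc]; exact Pth.bwd he (ih h')

theorem edge_GrMain {E : List (ℕ × A × ℕ)} {u v : ℕ} {x : A} (h : (u, x, v) ∈ E) : Pth E u x v :=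
  mul_one x ▸ Pth.fwd h (Pth.nil v)

theorem symm_GrMain {E : List (ℕ × A × ℕ)} {u v : ℕ} {x : A} (h : Pth E u x v) :
    Pth E v x⁻¹ u := by
  induction h with
  | nil v => rw [inv_one]; exact Pth.nil v
  | fwd he _ ih =>
    rw [mul_inv_rev]
    exact trans_GrMain ih (mul_one (_ : A)⁻¹ ▸ Pth.bwd he (Pth.nil _))
  | bwd he _ ih =>
    rw [mul_inv_rev, inv_inv]
    exact trans_GrMain ih (edge_GrMain he)

theorem map_GrMain {E : List (ℕ × A × ℕ)} {E₁ : List (ℕ × B × ℕ)} (f : A →* B) (κ : ℕ → ℕ)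
    (hE : ∀ e ∈ E, Pth E₁ (κ e.1) (f e.2.1) (κ e.2.2)) {u v : ℕ} {x : A} (h : Pth E u x v) :
    Pth E₁ (κ u) (f x) (κ v) := by
  induction h with
  | nil v => rw [map_one]; exact Pth.nil _
  | fwd he _ ih => rw [map_mul]; exact trans_GrMain (hE _ he) ih
  | bwd he _ ih => rw [map_mul, map_inv]; exact trans_GrMain (symm_GrMain (hE _ he)) ih

theorem lab_GrMain {E : List (ℕ × A × ℕ)} (f : A →* B) (K : Subgroup B)
    (hE : ∀ e ∈ E, f e.2.1 ∈ K) {u v : ℕ} {x : A} (h : Pth E u x v) : f x ∈ K := by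
  induction h with
  | nil v => rw [map_one]; exact one_mem K
  | fwd he _ ih => rw [map_mul]; exact mul_mem (hE _ he) ih
  | bwd he _ ih => rw [map_mul, map_inv]; exact mul_mem (inv_mem (hE _ he)) ih

theorem mem_GrMain {E : List (ℕ × A × ℕ)} {E' : List (ℕ × B × ℕ)} {e : ℕ × Coprod A B × ℕ} :
    e ∈ cmb E E' ↔ (∃ a ∈ E, (a.1, inl a.2.1, a.2.2) = e) ∨ ∃ b ∈ E', (b.1, inr b.2.1, b.2.2) = e := by
  rw [cmb, List.mem_append, List.mem_map, List.mem_map]

theorem onto_GrMain {S : Finset ℕ} {E E₁ : List (ℕ × A × ℕ)} {E' E₁' : List (ℕ × B × ℕ)}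
    {v₀ v v' : ℕ} (hn : v ≠ v') (hv : v ∈ S)
    (h : ∀ e ∈ E, Pth E₁ (if e.1 = v' then v else e.1) e.2.1 (if e.2.2 = v' then v else e.2.2))
    (h' : ∀ e ∈ E', Pth E₁' (if e.1 = v' then v else e.1) e.2.1 (if e.2.2 = v' then v else e.2.2))
    (ho : Onto S (cmb E E') v₀) :
    Onto (S.erase v') (cmb E₁ E₁') (if v₀ = v' then v else v₀) := by
  have key : ∀ {a b : ℕ} {x : Coprod A B}, Pth (cmb E E') a x b →
      Pth (cmb E₁ E₁') (if a = v' then v else a) x (if b = v' then v else b) := by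
    intro a b x hp
    refine map_GrMain (MonoidHom.id _) (fun a => if a = v' then v else a) (fun e he => ?_) hp
    rcases mem_GrMain.1 he with ⟨c, hc, rfl⟩ | ⟨c, hc, rfl⟩
    · exact map_GrMain (inl : A →* Coprod A B) id
        (fun e he => edge_GrMain (mem_GrMain.2 (Or.inl ⟨e, he, rfl⟩))) (h c hc)
    · exact map_GrMain (inr : B →* Coprod A B) id
        (fun e he => edge_GrMain (mem_GrMain.2 (Or.inr ⟨e, he, rfl⟩))) (h' c hc)
  refine ⟨?_, fun w hw => ?_, fun x => key (ho.2.2 x)⟩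
  · split_ifs with h0
    · exact Finset.mem_erase.2 ⟨hn, hv⟩
    · exact Finset.mem_erase.2 ⟨h0, ho.1⟩
  · obtain ⟨x, hx⟩ := ho.2.1 w (Finset.mem_of_mem_erase hw)
    have h1 := key hx
    rw [if_neg (Finset.ne_of_mem_erase hw)] at h1
    exact ⟨x, h1⟩

theorem ren_GrMain {S : Finset ℕ} {E : List (ℕ × A × ℕ)} {v v' : ℕ} (hn : v ≠ v') (hv : v ∈ S)
    (hE : InS S E) : ∃ E₁ : List (ℕ × A × ℕ), InS (S.erase v') E₁ ∧ E₁.length = E.length ∧
      ∀ e ∈ E, Pth E₁ (if e.1 = v' then v else e.1) e.2.1 (if e.2.2 = v' then v else e.2.2) := by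
  have hk : ∀ a ∈ S, (if a = v' then v else a) ∈ S.erase v' := fun a ha => by
    split_ifs with h0
    · exact Finset.mem_erase.2 ⟨hn, hv⟩
    · exact Finset.mem_erase.2 ⟨h0, ha⟩
  refine ⟨E.map fun e => (if e.1 = v' then v else e.1, e.2.1, if e.2.2 = v' then v else e.2.2),
    fun e he => ?_, List.length_map _, fun e he => edge_GrMain (List.mem_map.2 ⟨e, he, rfl⟩)⟩
  obtain ⟨c, hc, rfl⟩ := List.mem_map.1 he
  exact ⟨hk _ (hE c hc).1, hk _ (hE c hc).2⟩

theorem rk_GrMain (h1 : IRk) {E : List (ℕ × A × ℕ)} {E' : List (ℕ × B × ℕ)} {v₀ : ℕ}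
    (h : ∀ x, Pth (cmb E E') v₀ x v₀) : rk A ≤ E.length ∧ rk B ≤ E'.length := by
  constructor
  · rw [← List.length_map (fun e : ℕ × A × ℕ => e.2.1)]
    refine h1.2.1 A _ (eq_top_iff.2 fun a _ => ?_)
    refine fst_apply_inl (N := B) a ▸ lab_GrMain fst _ (fun e he => ?_) (h (inl a))
    rcases mem_GrMain.1 he with ⟨c, hc, rfl⟩ | ⟨c, hc, rfl⟩
    · exact subset_closure (List.mem_map.2 ⟨c, hc, rfl⟩)
    · exact one_mem _
  · rw [← List.length_map (fun e : ℕ × B × ℕ => e.2.1)]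
    refine h1.2.1 B _ (eq_top_iff.2 fun b _ => ?_)
    refine snd_apply_inr (M := A) b ▸ lab_GrMain snd _ (fun e he => ?_) (h (inr b))
    rcases mem_GrMain.1 he with ⟨c, hc, rfl⟩ | ⟨c, hc, rfl⟩
    · exact one_mem _
    · exact subset_closure (List.mem_map.2 ⟨c, hc, rfl⟩)

end

theorem grMain (h1 : IRk) (h2 : GrTie) (h3 : GrCon) : GrMain := by
  intro G H _ _ S
  induction hn : S.card using Nat.strong_induction_on generalizing S with
  | _ n ih =>
  intro E E' v₀ hE hE' ho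
  by_cases h : ∀ v ∈ S, v = v₀
  · have h4 : S.card ≤ 1 := Finset.card_le_one.2 fun a ha b hb => (h a ha).trans (h b hb).symm
    obtain ⟨h5, h6⟩ := rk_GrMain h1 ho.2.2
    omega
  · obtain ⟨w, hw⟩ := not_forall.1 h
    obtain ⟨hwS, hw0⟩ := Classical.not_imp.1 hw
    obtain ⟨x, hx⟩ := ho.2.1 w hwS
    have h4 := trans_GrMain (ho.2.2 x⁻¹) hx
    rw [inv_mul_cancel] at h4
    obtain ⟨v, v', hv, ht | ht⟩ := h2 G H E E' v₀ w (Ne.symm hw0) h4
    · obtain ⟨a1, a2, E₁, a3, a4, a5⟩ := h3 G S E v v' hE hv ht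
      obtain ⟨E₁', b3, b4, b5⟩ := ren_GrMain hv a1 hE'
      have hc := Finset.card_erase_add_one a2
      have h5 := ih _ (by omega) (S.erase v') rfl E₁ E₁' _ a3 b3 (onto_GrMain hv a1 a5 b5 ho)
      omega
    · obtain ⟨a1, a2, E₁', a3, a4, a5⟩ := h3 H S E' v v' hE' hv ht
      obtain ⟨E₁, b3, b4, b5⟩ := ren_GrMain hv a1 hE
      have hc := Finset.card_erase_add_one a2
      have h5 := ih _ (by omega) (S.erase v') rfl E₁ E₁' _ b3 a3 (onto_GrMain hv a1 b5 a5 ho)
      omega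

end Pool.Agent.MP_4a02af_gt

end PartGrMain

section PartGrSub

open Monoid Monoid.Coprod Subgroup

namespace Pool.Agent.MP_4a02af_gt

section

variable {A : Type} [Group A] {E E₁ : List (ℕ × A × ℕ)}

theorem trans_GrSub {u v z : ℕ} {x y : A} (h : Pth E u x v) (h' : Pth E v y z) :
    Pth E u (x * y) z := by
  induction h with
  | nil v => rwa [one_mul]
  | fwd he _ ih =>
    rw [mul_assoc]
    exact Pth.fwd he (ih h')
  | bwd he _ ih =>
    rw [mul_assoc]
    exact Pth.bwd he (ih h')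

theorem edge_GrSub {u v : ℕ} {x : A} (he : (u, x, v) ∈ E) : Pth E u x v := by
  have := Pth.fwd he (Pth.nil v)
  rwa [mul_one] at this

theorem symm_GrSub {u v : ℕ} {x : A} (h : Pth E u x v) : Pth E v x⁻¹ u := by
  induction h with
  | nil v =>
    rw [inv_one]
    exact Pth.nil v
  | fwd he _ ih =>
    rw [mul_inv_rev]
    have := Pth.bwd he (Pth.nil _)
    rw [mul_one] at this
    exact trans_GrSub ih this
  | bwd he _ ih =>
    rw [mul_inv_rev, inv_inv]
    exact trans_GrSub ih (edge_GrSub he)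

theorem mono_GrSub (hE : E ⊆ E₁) {u v : ℕ} {x : A} (h : Pth E u x v) : Pth E₁ u x v := by
  induction h with
  | nil v => exact Pth.nil v
  | fwd he _ ih => exact Pth.fwd (hE he) ih
  | bwd he _ ih => exact Pth.bwd (hE he) ih

end

variable {G H : Type} [Group G] [Group H]

theorem cmb_GrSub {E E₁ : List (ℕ × G × ℕ)} {E' E₁' : List (ℕ × H × ℕ)} (h : E ⊆ E₁)
    (h' : E' ⊆ E₁') : cmb E E' ⊆ cmb E₁ E₁' := by
  intro e he
  rcases List.mem_append.1 he with he | he
  · exact List.mem_append_left _ (List.map_subset _ h he)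
  · exact List.mem_append_right _ (List.map_subset _ h' he)

/-- the invariant -/
def Inv_GrSub (S : Finset ℕ) (E : List (ℕ × G × ℕ)) (E' : List (ℕ × H × ℕ)) : Prop :=
  InS S E ∧ InS S E' ∧ 0 ∈ S ∧ ∀ v ∈ S, ∃ x, Pth (cmb E E') 0 x v

theorem ins_GrSub {A : Type} {S : Finset ℕ} {E : List (ℕ × A × ℕ)} (h : InS S E) (z : ℕ) :
    InS (insert z S) E := fun e he =>
  ⟨Finset.mem_insert_of_mem (h e he).1, Finset.mem_insert_of_mem (h e he).2⟩

theorem cons_GrSub {A : Type} {S : Finset ℕ} {E : List (ℕ × A × ℕ)} (h : InS S E) {u v : ℕ}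
    (hu : u ∈ S) (hv : v ∈ S) (x : A) : InS S ((u, x, v) :: E) := by
  intro e he
  rcases List.mem_cons.1 he with rfl | he
  · exact ⟨hu, hv⟩
  · exact h e he

theorem step_GrSub {S : Finset ℕ} {E E₁ : List (ℕ × G × ℕ)} {E' E₁' : List (ℕ × H × ℕ)}
    (h : Inv_GrSub S E E') {u z : ℕ} (hu : u ∈ S) {y : G ∗ H} (h1 : E ⊆ E₁) (h2 : E' ⊆ E₁')
    (a1 : InS (insert z S) E₁) (a2 : InS (insert z S) E₁') (he : (u, y, z) ∈ cmb E₁ E₁') :
    Inv_GrSub (insert z S) E₁ E₁' := by
  refine ⟨a1, a2, Finset.mem_insert_of_mem h.2.2.1, fun v hv => ?_⟩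
  rcases Finset.mem_insert.1 hv with rfl | hv
  · obtain ⟨x, hx⟩ := h.2.2.2 u hu
    exact ⟨_, trans_GrSub (mono_GrSub (cmb_GrSub h1 h2) hx) (edge_GrSub he)⟩
  · obtain ⟨x, hx⟩ := h.2.2.2 v hv
    exact ⟨x, mono_GrSub (cmb_GrSub h1 h2) hx⟩

theorem add_GrSub (x : G ∗ H) : ∀ (S : Finset ℕ) (E : List (ℕ × G × ℕ)) (E' : List (ℕ × H × ℕ))
    (u : ℕ), Inv_GrSub S E E' → u ∈ S → ∃ (S₁ : Finset ℕ) (E₁ : List (ℕ × G × ℕ))
      (E₁' : List (ℕ × H × ℕ)), Inv_GrSub S₁ E₁ E₁' ∧ E ⊆ E₁ ∧ E' ⊆ E₁' ∧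
      E₁.length + E₁'.length + S.card ≤ E.length + E'.length + 1 + S₁.card ∧
      Pth (cmb E₁ E₁') u x 0 := by
  induction x using Coprod.induction_on' with
  | one =>
    intro S E E' u h hu
    have s1 : E ⊆ (u, 1, 0) :: E := List.subset_cons_self _ _
    refine ⟨S, (u, 1, 0) :: E, E', ⟨cons_GrSub h.1 hu h.2.2.1 1, h.2.1, h.2.2.1, fun v hv => ?_⟩,
      s1, List.Subset.refl _, by rw [List.length_cons]; omega, edge_GrSub ?_⟩
    · obtain ⟨x, hx⟩ := h.2.2.2 v hv
      exact ⟨x, mono_GrSub (cmb_GrSub s1 (List.Subset.refl _)) hx⟩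
    · simp [cmb]
  | inl_mul g x ih =>
    intro S E E' u h hu
    obtain ⟨z, hz⟩ := Infinite.exists_notMem_finset S
    have s1 : E ⊆ (u, g, z) :: E := List.subset_cons_self _ _
    have he : (u, (inl g : G ∗ H), z) ∈ cmb ((u, g, z) :: E) E' := by simp [cmb]
    obtain ⟨S₁, E₁, E₁', b1, b2, b3, b4, b5⟩ := ih (insert z S) ((u, g, z) :: E) E' z
      (step_GrSub h hu s1 (List.Subset.refl _) (cons_GrSub (ins_GrSub h.1 z)
        (Finset.mem_insert_of_mem hu) (Finset.mem_insert_self _ _) g) (ins_GrSub h.2.1 z) he)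
      (Finset.mem_insert_self _ _)
    rw [Finset.card_insert_of_notMem hz, List.length_cons] at b4
    exact ⟨S₁, E₁, E₁', b1, List.Subset.trans s1 b2, b3, by omega, Pth.fwd (cmb_GrSub b2 b3 he) b5⟩
  | inr_mul g x ih =>
    intro S E E' u h hu
    obtain ⟨z, hz⟩ := Infinite.exists_notMem_finset S
    have s1 : E' ⊆ (u, g, z) :: E' := List.subset_cons_self _ _
    have he : (u, (inr g : G ∗ H), z) ∈ cmb E ((u, g, z) :: E') := by simp [cmb]
    obtain ⟨S₁, E₁, E₁', b1, b2, b3, b4, b5⟩ := ih (insert z S) E ((u, g, z) :: E') z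
      (step_GrSub h hu (List.Subset.refl _) s1 (ins_GrSub h.1 z) (cons_GrSub (ins_GrSub h.2.1 z)
        (Finset.mem_insert_of_mem hu) (Finset.mem_insert_self _ _) g) he)
      (Finset.mem_insert_self _ _)
    rw [Finset.card_insert_of_notMem hz, List.length_cons] at b4
    exact ⟨S₁, E₁, E₁', b1, b2, List.Subset.trans s1 b3, by omega, Pth.fwd (cmb_GrSub b2 b3 he) b5⟩

theorem grSub : GrSub := by
  intro G H _ _ X hX
  have key : ∀ Y : List (G ∗ H), ∃ (S : Finset ℕ) (E : List (ℕ × G × ℕ))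
      (E' : List (ℕ × H × ℕ)), Inv_GrSub S E E' ∧
      E.length + E'.length + 1 ≤ Y.length + S.card ∧ ∀ y ∈ Y, Pth (cmb E E') 0 y 0 := by
    intro Y
    induction Y with
    | nil =>
      refine ⟨{0}, [], [], ⟨fun e he => by simp at he, fun e he => by simp at he,
        Finset.mem_singleton_self 0, fun v hv => ⟨1, ?_⟩⟩, by simp, by simp⟩
      rw [Finset.mem_singleton.1 hv]
      exact Pth.nil 0
    | cons y Y ih =>
      obtain ⟨S, E, E', a1, a2, a3⟩ := ih
      obtain ⟨S₁, E₁, E₁', b1, b2, b3, b4, b5⟩ := add_GrSub y S E E' 0 a1 a1.2.2.1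
      refine ⟨S₁, E₁, E₁', b1, by rw [List.length_cons]; omega, fun x hx => ?_⟩
      rcases List.mem_cons.1 hx with rfl | hx
      · exact b5
      · exact mono_GrSub (cmb_GrSub b2 b3) (a3 x hx)
  obtain ⟨S, E, E', a1, a2, a3⟩ := key X
  refine ⟨S, E, E', a1.1, a1.2.1, ⟨a1.2.2.1, a1.2.2.2, fun x => ?_⟩, a2⟩
  have hx : x ∈ closure {x | x ∈ X} := hX ▸ mem_top x
  induction hx using closure_induction with
  | mem x hx => exact a3 x hx
  | one => exact Pth.nil 0
  | mul x y _ _ hx hy => exact trans_GrSub hx hy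
  | inv x _ hx => exact symm_GrSub hx

end Pool.Agent.MP_4a02af_gt

end PartGrSub

section PartZSl

open Monoid Monoid.Coprod Subgroup

namespace Pool.Agent.MP_4a02af_gt

theorem sl_ZSl (h1 : BSys) {G : Type} [Group G] {y z : G} {X : List G} (h : Sys (y :: y⁻¹ :: X))
    (hz : z ∈ X) : Sys ((y * z) :: (y * z)⁻¹ :: X) := by
  have n1 : ∀ v ∈ X, v ≠ y := fun v hv e =>
    (List.nodup_cons.1 h.1).1 (List.mem_cons_of_mem _ (e ▸ hv))
  have n2 : ∀ v ∈ X, v ≠ y⁻¹ := fun v hv e =>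
    (List.nodup_cons.1 (List.nodup_cons.1 h.1).2).1 (e ▸ hv)
  have key : ∀ t : G, ∃ φ : G →* G, φ y = t ∧ ∀ v ∈ X, φ v = v := fun t => by
    obtain ⟨φ, a, b⟩ := h1.2.2.2.2 G G _ y (MonoidHom.id G) t h List.mem_cons_self
    exact ⟨φ, a, fun v hv => b v (by simp [hv]) (n1 v hv) (n2 v hv)⟩
  obtain ⟨φ, a1, a2⟩ := key (y * z)
  obtain ⟨ψ, b1, b2⟩ := key (y * z⁻¹)
  have e1 : ψ.comp φ = MonoidHom.id G := h1.1 G G _ _ _ h fun v hv => by
    rcases List.mem_cons.1 hv with rfl | hv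
    · simp [a1, b1, b2 z hz]
    rcases List.mem_cons.1 hv with rfl | hv
    · simp [a1, b1, b2 z hz]
    · simp [a2 v hv, b2 v hv]
  have e2 : φ.comp ψ = MonoidHom.id G := h1.1 G G _ _ _ h fun v hv => by
    rcases List.mem_cons.1 hv with rfl | hv
    · simp [a1, b1, a2 z hz]
    rcases List.mem_cons.1 hv with rfl | hv
    · simp [a1, b1, a2 z hz]
    · simp [a2 v hv, b2 v hv]
  have k := h1.2.2.1 G G (MonoidHom.toMulEquiv φ ψ e1 e2) _ h
  have e : X.map (MonoidHom.toMulEquiv φ ψ e1 e2) = X :=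
    (List.map_congr_left (g := id) fun v hv => a2 v hv).trans (List.map_id X)
  rwa [List.map_cons, List.map_cons, e, map_inv, show MonoidHom.toMulEquiv φ ψ e1 e2 y = y * z from
    a1] at k

theorem iff_ZSl (h1 : BSys) {G : Type} [Group G] {y z : G} {W W' X : List G} (hz : z ∈ X)
    (p : W.Perm (y :: y⁻¹ :: X)) (p' : W'.Perm ((y * z) :: (y * z)⁻¹ :: X)) : Sys W ↔ Sys W' := by
  refine ⟨fun h => h1.2.1 G _ _ p'.symm (sl_ZSl h1 (h1.2.1 G _ _ p h) hz), fun h => ?_⟩
  have k := h1.2.1 G _ _ p' h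
  have hz' : z⁻¹ ∈ X := by
    rcases List.mem_cons.1 (k.2.1 z (by simp [hz])).1 with e | e
    · exact absurd (by rw [← e, inv_inv]; exact hz) (List.nodup_cons.1 (List.nodup_cons.1 k.1).2).1
    rcases List.mem_cons.1 e with e | e
    · exact absurd (List.mem_cons_of_mem _ (inv_injective e ▸ hz)) (List.nodup_cons.1 k.1).1
    · exact e
  have k' := sl_ZSl h1 k hz'
  rw [mul_inv_cancel_right] at k'
  exact h1.2.1 G _ _ p.symm k'

theorem p1_ZSl {G : Type} (a b c : G) (A B C : List G) :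
    (A ++ a :: c :: B ++ b :: C).Perm (a :: b :: c :: (A ++ B ++ C)) ∧
    (A ++ a :: B ++ c :: b :: C).Perm (a :: b :: c :: (A ++ B ++ C)) ∧
    (A ++ b :: B ++ a :: c :: C).Perm (a :: b :: c :: (A ++ B ++ C)) ∧
    (A ++ c :: b :: B ++ a :: C).Perm (a :: b :: c :: (A ++ B ++ C)) ∧
    (A ++ c :: a :: B ++ b :: C).Perm (a :: b :: c :: (A ++ B ++ C)) ∧
    (A ++ a :: B ++ b :: c :: C).Perm (a :: b :: c :: (A ++ B ++ C)) ∧
    (A ++ b :: B ++ c :: a :: C).Perm (a :: b :: c :: (A ++ B ++ C)) ∧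
    (A ++ b :: c :: B ++ a :: C).Perm (a :: b :: c :: (A ++ B ++ C)) := by
  classical
  simp only [List.perm_iff_count, List.count_append, List.count_cons]
  refine ⟨?_, ?_, ?_, ?_, ?_, ?_, ?_, ?_⟩ <;> intro _ <;> ring

theorem zSl (h1 : BSys) : ZSl := by
  intro G _
  refine ⟨?_, fun W A B v u h e hu => ⟨?_, ?_⟩⟩
  · rintro W W' ⟨y, z, -, A, B, C, ⟨rfl, rfl⟩ | ⟨rfl, rfl⟩⟩
    · exact ⟨by simp [mul_assoc], by simp only [List.length_append, List.length_cons]; omega,
        iff_ZSl h1 List.mem_cons_self (p1_ZSl _ _ _ A B C).1 (p1_ZSl _ _ _ A B C).2.1⟩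
    · exact ⟨by simp [mul_assoc], by simp only [List.length_append, List.length_cons]; omega,
        iff_ZSl h1 List.mem_cons_self (p1_ZSl _ _ _ A B C).2.2.1 (p1_ZSl _ _ _ A B C).2.2.2.1⟩
  · obtain ⟨m, n⟩ := h.2.1 v (by simp [e])
    rw [e, List.mem_append, List.mem_cons, List.mem_cons] at m
    rcases m with m | m | m | m
    · obtain ⟨A₁, A₂, rfl⟩ := List.append_of_mem m
      exact ⟨_, _, ⟨v, u, hu, A₁, A₂, B, Or.inr ⟨e, rfl⟩⟩, e ▸ (p1_ZSl _ _ _ A₁ A₂ B).2.2.1,
        (p1_ZSl _ _ _ A₁ A₂ B).2.2.2.1⟩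
    · exact absurd m n
    · exact absurd m.symm hu
    · obtain ⟨B₁, B₂, rfl⟩ := List.append_of_mem m
      have e' : W = A ++ v :: u :: B₁ ++ v⁻¹ :: B₂ := by simp [e]
      exact ⟨_, _, ⟨v, u, hu, A, B₁, B₂, Or.inl ⟨e', rfl⟩⟩, e' ▸ (p1_ZSl _ _ _ A B₁ B₂).1,
        (p1_ZSl _ _ _ A B₁ B₂).2.1⟩
  · obtain ⟨m, n⟩ := h.2.1 u (by simp [e])
    have s : v ≠ (v * u)⁻¹⁻¹ := fun k => n (by
      rw [inv_inv, left_eq_mul] at k
      rw [k, inv_one])
    rw [e, List.mem_append, List.mem_cons, List.mem_cons] at m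
    rcases m with m | m | m | m
    · obtain ⟨A₁, A₂, rfl⟩ := List.append_of_mem m
      exact ⟨A₁ ++ (v * u)⁻¹ :: v :: A₂ ++ (v * u) :: B, _,
        ⟨(v * u)⁻¹, v, s, A₁, A₂, B, Or.inl ⟨by rw [inv_inv], by simp [e]⟩⟩,
        e ▸ (p1_ZSl _ _ _ A₁ A₂ B).2.2.2.2.2.2.1, (p1_ZSl _ _ _ A₁ A₂ B).2.2.2.2.2.2.2⟩
    · exact absurd (by rw [← m, inv_inv]) hu
    · exact absurd m n
    · obtain ⟨B₁, B₂, rfl⟩ := List.append_of_mem m
      have e' : W = A ++ v :: u :: B₁ ++ u⁻¹ :: B₂ := by simp [e]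
      exact ⟨A ++ (v * u) :: B₁ ++ (v * u)⁻¹ :: v :: B₂, _,
        ⟨(v * u)⁻¹, v, s, A, B₁, B₂, Or.inr ⟨by rw [inv_inv], by simp [e]⟩⟩,
        e' ▸ (p1_ZSl _ _ _ A B₁ B₂).2.2.2.2.1, (p1_ZSl _ _ _ A B₁ B₂).2.2.2.2.2.1⟩

end Pool.Agent.MP_4a02af_gt

end PartZSl

section PartZAdj

/-! A word with an adjacent cancelling pair is not the boundary word. -/

open Monoid Monoid.Coprod Subgroup

namespace Pool.Agent.MP_4a02af_gt

/-- the Heisenberg group -/
@[ext] structure Hs_ZAdj where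
  k : ℤ
  l : ℤ
  m : ℤ

instance mul_ZAdj : Mul Hs_ZAdj := ⟨fun x y => ⟨x.k + y.k, x.l + y.l, x.m + y.m + x.k * y.l⟩⟩

instance one_ZAdj : One Hs_ZAdj := ⟨⟨0, 0, 0⟩⟩

instance inv_ZAdj : Inv Hs_ZAdj := ⟨fun x => ⟨-x.k, -x.l, -x.m + x.k * x.l⟩⟩

theorem mul_def_ZAdj (x y : Hs_ZAdj) :
    x * y = ⟨x.k + y.k, x.l + y.l, x.m + y.m + x.k * y.l⟩ := rfl

theorem one_def_ZAdj : (1 : Hs_ZAdj) = ⟨0, 0, 0⟩ := rfl

theorem inv_def_ZAdj (x : Hs_ZAdj) : x⁻¹ = ⟨-x.k, -x.l, -x.m + x.k * x.l⟩ := rfl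

instance grp_ZAdj : Group Hs_ZAdj := Group.ofLeftAxioms
  (fun x y z => by ext <;> simp only [mul_def_ZAdj] <;> ring)
  (fun x => by ext <;> simp [mul_def_ZAdj, one_def_ZAdj])
  (fun x => by ext <;> simp [mul_def_ZAdj, one_def_ZAdj, inv_def_ZAdj])

/-- the first coordinate -/
def pr_ZAdj : Hs_ZAdj →* Hs_ZAdj where
  toFun x := ⟨x.k, 0, 0⟩
  map_one' := rfl
  map_mul' x y := by ext <;> simp [mul_def_ZAdj]

theorem cm_ZAdj (x y z : Hs_ZAdj) :
    x * (y * (x⁻¹ * (y⁻¹ * z))) = ⟨0, 0, x.k * y.l - y.k * x.l⟩ * z := by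
  ext <;> simp only [mul_def_ZAdj, inv_def_ZAdj] <;> ring

variable {G : Type} [Group G]

theorem triv_ZAdj (φ : G →* Hs_ZAdj) (L : List (Hd G)) (h : ∀ x ∈ wd L, (φ x).l = 0) :
    φ (wd L).prod = 1 := by
  induction L with
  | nil => simp [wd_nil]
  | cons a L ih =>
    rw [wd_cons] at h ⊢
    simp only [List.prod_cons, map_mul, map_inv]
    rw [cm_ZAdj, h a.1 (by simp), h a.2.1 (by simp), ih fun x hx => h x (by simp [hx])]
    simp [mul_def_ZAdj, one_def_ZAdj]

theorem sum_ZAdj (X : List G) (hn : X.Nodup) (hi : ∀ u ∈ X, u⁻¹ ∈ X) (f : G → ℤ)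
    (hf : ∀ u ∈ X, f u⁻¹ = -f u) : (X.map f).sum = 0 := by
  have p : (X.map fun u => u⁻¹).Perm X := by
    refine (List.perm_ext_iff_of_nodup (hn.map inv_injective) hn).2 fun a => ⟨fun h => ?_, fun h => ?_⟩
    · obtain ⟨u, hu, rfl⟩ := List.mem_map.1 h
      exact hi u hu
    · exact List.mem_map.2 ⟨_, hi a h, inv_inv a⟩
  have h1 := (p.map f).sum_eq
  rw [List.map_map, List.map_congr_left (f := f ∘ fun u => u⁻¹) (g := fun u => -f u) hf] at h1
  have h2 : (X.map fun u => -f u).sum = -(X.map f).sum := by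
    rw [List.sum_neg, List.map_map]
    rfl
  omega

theorem ab_ZAdj (φ : G →* Hs_ZAdj) (X : List G) (h : ∀ u ∈ X, (φ u).k = 0) :
    φ X.prod = ⟨0, (X.map fun u => (φ u).l).sum, (X.map fun u => (φ u).m).sum⟩ := by
  induction X with
  | nil => simp [one_def_ZAdj]
  | cons a X ih =>
    rw [List.prod_cons, map_mul, ih fun x hx => h x (List.mem_cons_of_mem _ hx), mul_def_ZAdj,
      h a List.mem_cons_self]
    simp

theorem zAdj (h1 : BSys) : ZAdj := by
  intro G _ w L A B v ⟨hL, hw⟩ hW e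
  obtain ⟨ext, -, -, -, ex⟩ := h1
  obtain ⟨χ, χ1, χ2⟩ := ex G Hs_ZAdj _ v 1 ⟨1, 0, 0⟩ hW (by simp)
  have hn := hW.1
  have hAB : ∀ u ∈ A ++ B, u ∈ A ++ v :: v⁻¹ :: B ∧ u ≠ v ∧ u ≠ v⁻¹ := by
    intro u hu
    simp only [List.nodup_append, List.nodup_cons, List.mem_cons, List.mem_append] at hn hu ⊢
    grind
  have hn' : (A ++ B).Nodup := hn.sublist (by simp)
  have hi : ∀ u ∈ A ++ B, u⁻¹ ∈ A ++ B := by
    intro u hu
    obtain ⟨a, b, c⟩ := hAB u hu
    have := (hW.2.1 u a).1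
    simp only [List.mem_cons, List.mem_append] at this ⊢
    rcases this with h | h | h | h
    exacts [Or.inl h, absurd (inv_eq_iff_eq_inv.1 h) c, absurd (inv_injective h) b, Or.inr h]
  have key : ∀ y ∈ wd L, ∃ φ : G →* Hs_ZAdj, φ (wd L).prod = 1 ∧ φ y = ⟨(χ y).k, 1, 0⟩ ∧
      ∀ x ∈ wd L, x ≠ y → x ≠ y⁻¹ → φ x = ⟨(χ x).k, 0, 0⟩ := by
    intro y hy
    obtain ⟨φ, φ1, φ2⟩ := ex G Hs_ZAdj _ y (pr_ZAdj.comp χ) ⟨(χ y).k, 1, 0⟩ hL hy
    refine ⟨φ, ?_, φ1, φ2⟩
    have e1 : pr_ZAdj.comp φ = pr_ZAdj.comp χ := ext G _ _ _ _ hL fun x hx => by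
      have e2 : pr_ZAdj.comp φ y = pr_ZAdj.comp χ y := (congrArg pr_ZAdj φ1).trans rfl
      by_cases a : x = y
      · rw [a, e2]
      by_cases b : x = y⁻¹
      · rw [b, map_inv, map_inv, e2]
      exact (congrArg pr_ZAdj (φ2 x hx a b)).trans rfl
    have e2 : ∀ u ∈ A ++ B, (φ u).k = 0 := fun u hu => by
      obtain ⟨a, b, c⟩ := hAB u hu
      have h2 := congrArg Hs_ZAdj.k (DFunLike.congr_fun e1 u)
      have h3 := congrArg Hs_ZAdj.k (χ2 u a b c)
      exact h2.trans h3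
    have e3 : (A ++ v :: v⁻¹ :: B).prod = (A ++ B).prod := by simp
    rw [hw, ← e, e3, ab_ZAdj φ _ e2, sum_ZAdj _ hn' hi, sum_ZAdj _ hn' hi]
    · rfl
    · intro u hu
      rw [map_inv, inv_def_ZAdj, e2 u hu]
      simp
    · intro u hu
      rw [map_inv, inv_def_ZAdj]
  have z : ∀ h ∈ L, (χ h.1).k = 0 ∧ (χ h.2.1).k = 0 := by
    intro h hh
    obtain ⟨L1, L2, rfl⟩ := List.append_of_mem hh
    have hn := hL.1
    have k2 : ∀ y, y = h.1 ∨ y = h.2.1 → ∃ φ : G →* Hs_ZAdj, φ y = ⟨(χ y).k, 1, 0⟩ ∧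
        (∀ x, x = h.1 ∨ x = h.2.1 → x ≠ y → φ x = ⟨(χ x).k, 0, 0⟩) ∧
        (φ h.1).k * (φ h.2.1).l - (φ h.2.1).k * (φ h.1).l = 0 := by
      intro y hy
      obtain ⟨φ, a, b, c⟩ := key y (by rw [wd_append, wd_cons]; grind)
      rw [wd_append, wd_cons] at a c hn
      simp only [List.nodup_append, List.nodup_cons, List.mem_cons, List.mem_append] at hn c
      refine ⟨φ, b, fun x hx hxy => c x (by grind) hxy (by grind), ?_⟩
      simp only [List.prod_append, List.prod_cons, map_mul, map_inv] at a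
      rw [cm_ZAdj, triv_ZAdj φ L1 fun x hx => by rw [c x (by grind) (by grind) (by grind)],
        triv_ZAdj φ L2 fun x hx => by rw [c x (by grind) (by grind) (by grind)], one_mul,
        mul_one] at a
      exact congrArg Hs_ZAdj.m a
    have ne : h.1 ≠ h.2.1 := by
      rw [wd_append, wd_cons] at hn
      simp only [List.nodup_append, List.nodup_cons, List.mem_cons] at hn
      grind
    constructor
    · obtain ⟨φ, a, b, c⟩ := k2 _ (Or.inr rfl)
      rw [a, b _ (Or.inl rfl) ne] at c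
      simpa using c
    · obtain ⟨φ, a, b, c⟩ := k2 _ (Or.inl rfl)
      rw [a, b _ (Or.inr rfl) ne.symm] at c
      simpa using c
  have e1 : pr_ZAdj.comp χ = 1 := ext G _ _ _ _ hL fun x hx => by
    obtain ⟨h, hh, hx⟩ := List.mem_flatMap.1 hx
    have a : pr_ZAdj.comp χ h.1 = 1 := Hs_ZAdj.ext (z h hh).1 rfl rfl
    have b : pr_ZAdj.comp χ h.2.1 = 1 := Hs_ZAdj.ext (z h hh).2 rfl rfl
    simp only [List.mem_cons, List.not_mem_nil, or_false] at hx
    rcases hx with rfl | rfl | rfl | rfl <;> simp only [map_inv, a, b, MonoidHom.one_apply, inv_one]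
  have h2 := congrArg Hs_ZAdj.k (DFunLike.congr_fun e1 v)
  have h3 : (χ v).k = 0 := h2
  rw [χ1] at h3
  exact one_ne_zero h3

end Pool.Agent.MP_4a02af_gt

end PartZAdj

section PartZRed

open Monoid Monoid.Coprod Subgroup

namespace Pool.Agent.MP_4a02af_gt

theorem code_ZRed (β : Type) [Fintype β] : ∃ cd : List β → ℕ,
    (∀ p q : List β, p.length = q.length → cd p = cd q → p = q) ∧
    ∀ p q s : List β, cd p < cd q → cd (p ++ s) < cd (q ++ s) := by
  obtain ⟨B, c, hc, hi⟩ : ∃ (B : ℕ) (c : β → ℕ), (∀ d, c d < B) ∧ Function.Injective c :=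
    ⟨Fintype.card β, fun d => Fintype.equivFin β d, fun d => (Fintype.equivFin β d).isLt,
      fun d e h => (Fintype.equivFin β).injective (Fin.ext h)⟩
  have h1 : ∀ (p q : List β) (x y : ℕ), p.length = q.length →
      p.foldl (fun s d => s * B + c d) x = q.foldl (fun s d => s * B + c d) y → x = y ∧ p = q := by
    intro p
    induction p with
    | nil =>
      intro q x y hl h
      have : q = [] := List.length_eq_zero_iff.mp hl.symm
      subst this
      exact ⟨h, rfl⟩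
    | cons d p ih =>
      intro q x y hl h
      cases q with
      | nil => simp at hl
      | cons e q =>
        obtain ⟨h2, h3⟩ := ih q (x * B + c d) (y * B + c e) (by simpa using hl) h
        have hd := hc d
        have he := hc e
        have h4 : (x * B + c d) % B = (y * B + c e) % B := by rw [h2]
        rw [Nat.mul_add_mod_of_lt hd, Nat.mul_add_mod_of_lt he] at h4
        have h5 : x * B = y * B := by omega
        exact ⟨Nat.eq_of_mul_eq_mul_right (by omega) h5, by rw [hi h4, h3]⟩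
  have h2 : ∀ (s : List β) (x y : ℕ), x < y →
      s.foldl (fun s d => s * B + c d) x < s.foldl (fun s d => s * B + c d) y := by
    intro s
    induction s with
    | nil => intro x y h; exact h
    | cons d s ih =>
      intro x y h
      apply ih (x * B + c d) (y * B + c d)
      have hd := hc d
      have := Nat.mul_lt_mul_of_pos_right h (show 0 < B by omega)
      omega
  refine ⟨fun p => p.foldl (fun s d => s * B + c d) 0, fun p q hl h => (h1 p q 0 0 hl h).2,
    fun p q s h => ?_⟩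
  simp only [List.foldl_append]
  exact h2 s _ _ h

theorem split_ZRed {α : Type} (L₂ : List (α × Bool)) : ∀ L₁ : List (α × Bool),
    FreeGroup.IsReduced L₁ → FreeGroup.IsReduced L₂ → ∃ a q s : List (α × Bool),
      L₁ = a ++ FreeGroup.invRev q ∧ L₂ = q ++ s ∧ FreeGroup.IsReduced (a ++ s) := by
  induction L₂ with
  | nil => intro L₁ h₁ _; exact ⟨L₁, [], [], by simp, rfl, by simpa using h₁⟩
  | cons x L₂ ih =>
    intro L₁ h₁ h₂
    rcases List.eq_nil_or_concat L₁ with rfl | ⟨L, y, rfl⟩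
    · exact ⟨[], [], x :: L₂, by simp, rfl, h₂⟩
    · rw [List.concat_eq_append] at h₁ ⊢
      by_cases h : y.1 = x.1 → y.2 = x.2
      · refine ⟨L ++ [y], [], x :: L₂, by simp, rfl, ?_⟩
        exact h₁.append_overlap (L₂ := [y]) (FreeGroup.isReduced_cons_cons.mpr ⟨h, h₂⟩) (by simp)
      · obtain ⟨a, q, s, e1, e2, e3⟩ := ih L (List.IsChain.left_of_append h₁)
          (List.IsChain.right_of_append (l₁ := [x]) h₂)
        refine ⟨a, x :: q, s, ?_, by rw [e2]; rfl, e3⟩
        obtain ⟨h3, h4⟩ := Classical.not_imp.mp h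
        have h5 : y = (x.1, !x.2) := by
          refine Prod.ext h3 ?_
          revert h4
          cases y.2 <;> cases x.2 <;> simp
        rw [FreeGroup.invRev_cons, e1, h5]
        simp [FreeGroup.invRev]

theorem key_ZRed {α : Type} [DecidableEq α] (v u : FreeGroup α) : ∃ a q s : List (α × Bool),
    v.toWord = a ++ FreeGroup.invRev q ∧ u.toWord = q ++ s ∧ (v * u).toWord = a ++ s := by
  obtain ⟨a, q, s, e1, e2, e3⟩ := split_ZRed u.toWord v.toWord FreeGroup.isReduced_toWord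
    FreeGroup.isReduced_toWord
  refine ⟨a, q, s, e1, e2, ?_⟩
  have h1 : v = FreeGroup.mk a * (FreeGroup.mk q)⁻¹ := by
    rw [FreeGroup.inv_mk, FreeGroup.mul_mk, ← e1, FreeGroup.mk_toWord]
  have h2 : u = FreeGroup.mk q * FreeGroup.mk s := by
    rw [FreeGroup.mul_mk, ← e2, FreeGroup.mk_toWord]
  have h3 : v * u = FreeGroup.mk (a ++ s) := by
    rw [h1, h2, ← FreeGroup.mul_mk]
    group
  rw [h3, FreeGroup.toWord_mk, e3.reduce_eq]

theorem half_ZRed {α : Type} [DecidableEq α] (cd : List (α × Bool) → ℕ)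
    (c1 : ∀ p q : List (α × Bool), p.length = q.length → cd p = cd q → p = q)
    (c2 : ∀ p q s : List (α × Bool), cd p < cd q → cd (p ++ s) < cd (q ++ s))
    (v u : FreeGroup α) (hv : v ≠ 1) (h1 : v.norm ≤ (v * u).norm) (h2 : (v * u).norm = u.norm)
    (h3 : ¬ cd (v⁻¹.toWord.take (v⁻¹.norm / 2)) < cd (v.toWord.take (v.norm / 2))) :
    Bet (fun x : FreeGroup α => cd (x.toWord.take ((x.norm + 1) / 2))) (v * u) u := by
  obtain ⟨a, q, s, e1, e2, e3⟩ := key_ZRed v u
  have n1 : v.norm = a.length + q.length := by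
    rw [FreeGroup.norm, e1, List.length_append, FreeGroup.invRev_length]
  have n2 : u.norm = q.length + s.length := by rw [FreeGroup.norm, e2, List.length_append]
  have n3 : (v * u).norm = a.length + s.length := by rw [FreeGroup.norm, e3, List.length_append]
  have l1 : a.length = q.length := by omega
  have l2 : q.length ≤ s.length := by omega
  have t1 : v.toWord.take (v.norm / 2) = a := by
    rw [e1]
    exact List.take_left' (by omega)
  have t2 : v⁻¹.toWord.take (v⁻¹.norm / 2) = q := by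
    rw [FreeGroup.norm_inv_eq, FreeGroup.toWord_inv, e1, FreeGroup.invRev_append,
      FreeGroup.invRev_invRev]
    exact List.take_left' (by omega)
  rw [t1, t2] at h3
  have hne : a ≠ q := by
    intro h
    apply hv
    rw [← FreeGroup.mk_toWord (x := v), e1, h, ← FreeGroup.mul_mk, ← FreeGroup.inv_mk,
      mul_inv_cancel]
  have hlt : cd a < cd q := lt_of_le_of_ne (not_lt.mp h3) fun h => hne (c1 a q l1 h)
  right
  refine ⟨h2, ?_⟩
  have t3 : (v * u).toWord.take (((v * u).norm + 1) / 2)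
      = a ++ s.take ((u.norm + 1) / 2 - q.length) := by
    rw [e3, h2, List.take_append, List.take_of_length_le (by omega), l1]
  have t4 : u.toWord.take ((u.norm + 1) / 2) = q ++ s.take ((u.norm + 1) / 2 - q.length) := by
    rw [e2, List.take_append, List.take_of_length_le (by omega)]
  have t5 : (v * u)⁻¹.toWord.take (((v * u)⁻¹.norm + 1) / 2)
      = u⁻¹.toWord.take ((u⁻¹.norm + 1) / 2) := by
    rw [FreeGroup.norm_inv_eq, FreeGroup.norm_inv_eq, FreeGroup.toWord_inv, FreeGroup.toWord_inv,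
      e2, e3, h2, FreeGroup.invRev_append, FreeGroup.invRev_append,
      List.take_append_of_le_length (by rw [FreeGroup.invRev_length]; omega),
      List.take_append_of_le_length (by rw [FreeGroup.invRev_length]; omega)]
  have := c2 a q (s.take ((u.norm + 1) / 2 - q.length)) hlt
  simp only [t3, t4, t5]
  omega

theorem zRed : ZRed := by
  intro α _ _
  obtain ⟨cd, c1, c2⟩ := code_ZRed (α × Bool)
  refine ⟨fun v => cd (v⁻¹.toWord.take (v⁻¹.norm / 2)) < cd (v.toWord.take (v.norm / 2)),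
    fun x => cd (x.toWord.take ((x.norm + 1) / 2)), fun v h h' => ?_, fun v u hv hu => ?_⟩
  · simp only [inv_inv] at h'
    exact lt_asymm h h'
  · by_cases a1 : v.norm ≤ (v * u).norm
    swap
    · exact Or.inr (Or.inl (Or.inl (not_le.mp a1)))
    by_cases a2 : u.norm ≤ (v * u).norm
    swap
    · exact Or.inr (Or.inr (Or.inl (not_le.mp a2)))
    by_cases a3 : (v * u).norm = u.norm →
      cd (v⁻¹.toWord.take (v⁻¹.norm / 2)) < cd (v.toWord.take (v.norm / 2))
    swap
    · obtain ⟨b1, b2⟩ := Classical.not_imp.mp a3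
      exact Or.inr (Or.inr (half_ZRed cd c1 c2 v u hv a1 b1 b2))
    by_cases a4 : (v * u).norm = v.norm →
      cd (u⁻¹⁻¹.toWord.take (u⁻¹⁻¹.norm / 2)) < cd (u⁻¹.toWord.take (u⁻¹.norm / 2))
    swap
    · obtain ⟨b1, b2⟩ := Classical.not_imp.mp a4
      have e : u⁻¹ * v⁻¹ = (v * u)⁻¹ := (mul_inv_rev v u).symm
      have h := half_ZRed cd c1 c2 u⁻¹ v⁻¹ (inv_ne_one.mpr hu)
        (by rw [e, FreeGroup.norm_inv_eq, FreeGroup.norm_inv_eq]; exact a2)
        (by rw [e, FreeGroup.norm_inv_eq, FreeGroup.norm_inv_eq]; exact b1) b2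
      rw [e] at h
      refine Or.inr (Or.inl ?_)
      unfold Bet at h ⊢
      simp only [inv_inv, FreeGroup.norm_inv_eq] at h ⊢
      omega
    exact Or.inl ⟨a1, a2, a3, a4⟩

end Pool.Agent.MP_4a02af_gt

end PartZRed

section PartZCore

open Monoid Monoid.Coprod Subgroup

namespace Pool.Agent.MP_4a02af_gt

open FreeGroup

theorem pair_ZCore {α : Type} [DecidableEq α] (L₂ : List (α × Bool)) :
    ∀ L₁ : List (α × Bool), IsReduced L₁ → IsReduced L₂ →
      ∃ a s b, L₁ = a ++ invRev s ∧ L₂ = s ++ b ∧ IsReduced (a ++ b) := by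
  induction L₂ with
  | nil => exact fun L₁ h _ => ⟨L₁, [], [], by simp, rfl, by simpa using h⟩
  | cons x L₂ ih =>
    intro L₁ h1 h2
    by_cases hc : ∀ y ∈ L₁.getLast?, y.1 = x.1 → y.2 = x.2
    · refine ⟨L₁, [], x :: L₂, by simp, rfl, List.isChain_append.2 ⟨h1, h2, ?_⟩⟩
      intro y hy z hz
      obtain rfl : x = z := by simpa using hz
      exact hc y hy
    · push Not at hc
      obtain ⟨y, hy, e1, e2⟩ := hc
      obtain ⟨L, rfl⟩ := List.getLast?_eq_some_iff.1 hy
      obtain ⟨a, s, b, rfl, rfl, h⟩ := ih L (List.isChain_append.1 h1).1 (List.IsChain.tail h2)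
      refine ⟨a, x :: s, b, ?_, rfl, h⟩
      have : y = (x.1, !x.2) := Prod.ext e1 (by
        revert e2; cases y.2 <;> cases x.2 <;> simp)
      rw [this, invRev_cons, List.append_assoc]
      rfl

theorem main_ZCore {α : Type} [DecidableEq α] (R : FreeGroup α → Prop)
    (hR : ∀ v, R v → ¬ R v⁻¹) (B : List (FreeGroup α)) :
    ∀ (v : FreeGroup α) (p r : List (α × Bool)), (∀ x ∈ v :: B, x ≠ 1) →
      (∀ (A : List (FreeGroup α)) x u C, v :: B = A ++ x :: u :: C → IrP R x u) →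
      v.toWord = p ++ r → p.length ≤ r.length → (p.length = r.length → R v⁻¹) →
      ∃ (c : ℕ → ℕ) (Z : List (α × Bool)), c 0 = p.length ∧ IsReduced Z ∧
        mk p * mk Z = (v :: B).prod ∧ B.length + 1 ≤ Z.length ∧ Z.head? = r.head? ∧
        ∀ (i : ℕ) (x : FreeGroup α), (v :: B)[i]? = some x →
          (Z.length = B.length + 1 → x.norm = c i + c (i + 1) + 1 ∧ x.toWord[c i]? = Z[i]?) ∧
          2 * c i ≤ x.norm ∧ 2 * c (i + 1) ≤ x.norm ∧ (2 * c (i + 1) = x.norm → R x) ∧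
          (2 * c i = x.norm → R x⁻¹) := by
  induction B with
  | nil =>
    intro v p r h1 _ e l1 l2
    have n0 : v.norm ≠ 0 := fun h => h1 v (by simp) (FreeGroup.norm_eq_zero.1 h)
    have n1 : v.norm = p.length + r.length := by rw [FreeGroup.norm, e, List.length_append]
    refine ⟨fun i => if i = 0 then p.length else 0, r, rfl,
      (List.isChain_append.1 (e ▸ isReduced_toWord (x := v))).2.1,
      by rw [mul_mk, ← e, mk_toWord]; simp, by simp only [List.length_nil]; omega, rfl, ?_⟩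
    intro i x hx
    cases i with
    | zero =>
      obtain rfl : v = x := by simpa using hx
      simp only [List.length_nil, if_true, Nat.zero_add, one_ne_zero, if_false]
      refine ⟨fun h => ⟨by omega, ?_⟩, by omega, by omega, by omega, fun h => l2 (by omega)⟩
      rw [e, List.getElem?_append_right le_rfl, Nat.sub_self]
    | succ i => simp at hx
  | cons u B ih =>
    intro v p r h1 h2 e l1 l2
    obtain ⟨a, s, b, e1, e2, hr⟩ := pair_ZCore u.toWord v.toWord isReduced_toWord isReduced_toWord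
    have n1 : v.norm = p.length + r.length := by rw [FreeGroup.norm, e, List.length_append]
    have n2 : v.norm = a.length + s.length := by rw [FreeGroup.norm, e1, List.length_append, invRev_length]
    have n3 : u.norm = s.length + b.length := by rw [FreeGroup.norm, e2, List.length_append]
    have ev : v = mk a * (mk s)⁻¹ := by rw [inv_mk, mul_mk, ← e1, mk_toWord]
    have n4 : (v * u).norm = a.length + b.length := by
      have : v * u = mk (a ++ b) := by
        rw [ev, ← mk_toWord (x := u), e2, ← mul_mk, ← mul_mk]; group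
      rw [this, FreeGroup.norm, toWord_mk, hr.reduce_eq, List.length_append]
    obtain ⟨i1, i2, i3, i4⟩ := h2 [] v u B rfl
    have lt : p.length < a.length := by
      by_contra hn
      exact hR v (i3 (by omega)) (l2 (by omega))
    obtain ⟨k, rfl⟩ : p <+: a := List.prefix_of_prefix_length_le (e ▸ List.prefix_append p r)
      (e1 ▸ List.prefix_append a (invRev s)) lt.le
    rw [List.length_append] at lt n2 n4
    obtain rfl : r = k ++ invRev s := List.append_cancel_left (by rw [← e, e1, List.append_assoc])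
    obtain ⟨c, Z, c0, z1, z2, z3, z4, z5⟩ := ih u s b (fun x hx => h1 x (List.mem_cons_of_mem _ hx))
      (fun A x y C h => h2 (v :: A) x y C (by rw [h]; rfl)) e2 (by omega) (fun h => i4 (by omega))
    rw [List.append_assoc] at hr
    obtain ⟨k1, -, k2⟩ := List.isChain_append.1 (List.isChain_append.1 hr).2.1
    refine ⟨fun i => Nat.rec p.length (fun j _ => c j) i, k ++ Z, rfl,
      List.isChain_append.2 ⟨k1, z1, z4 ▸ k2⟩, ?_, ?_, ?_, ?_⟩
    · rw [List.prod_cons, ← z2, ev, ← mul_mk, ← mul_mk]; group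
    · simp only [List.length_append, List.length_cons]; omega
    · cases k with
      | nil => simp at lt
      | cons y k => rfl
    · intro i x hx
      cases i with
      | zero =>
        obtain rfl : v = x := by simpa using hx
        change (_ → v.norm = p.length + c 0 + 1 ∧ v.toWord[p.length]? = _) ∧
          2 * p.length ≤ _ ∧ 2 * c 0 ≤ _ ∧ (2 * c 0 = _ → _) ∧ (2 * p.length = _ → _)
        simp only [List.length_append, List.length_cons] at l1 l2 n1 ⊢
        refine ⟨fun h => ⟨by omega, ?_⟩, by omega, by omega, fun h => i3 (by omega),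
          fun h => l2 (by omega)⟩
        rw [e, List.getElem?_append_right le_rfl, Nat.sub_self,
          List.getElem?_append_left (by omega), List.getElem?_append_left (by omega)]
      | succ i =>
        obtain ⟨y1, y2⟩ := z5 i x (by simpa using hx)
        refine ⟨fun h => ?_, y2⟩
        simp only [List.length_append, List.length_cons] at h
        obtain ⟨y3, y4⟩ := y1 (by omega)
        refine ⟨y3, y4.trans ?_⟩
        rw [List.getElem?_append_right (by omega)]
        congr 1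
        omega

theorem zCore : ZCore := by
  intro α _ R W hR h1 h2 hn
  cases W with
  | nil => exact ⟨fun _ => 0, rfl, by simp, by simp⟩
  | cons v B =>
    obtain ⟨c, Z, c0, z1, z2, z3, -, z5⟩ := main_ZCore R hR B v [] v.toWord h1 h2 rfl
      (Nat.zero_le _) (fun h => absurd (FreeGroup.norm_eq_zero.1 h.symm) (h1 v (by simp)))
    have e : (v :: B).prod.toWord = Z := by
      rw [← z2, mul_mk, List.nil_append, toWord_mk, z1.reduce_eq]
    rw [FreeGroup.norm, e, List.length_cons] at hn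
    refine ⟨c, c0, by rw [e, List.length_cons]; omega, fun i x hx => ?_⟩
    obtain ⟨y1, y2⟩ := z5 i x hx
    obtain ⟨y3, y4⟩ := y1 (by omega)
    exact ⟨y3, e ▸ y4, y2⟩

end Pool.Agent.MP_4a02af_gt

end PartZCore

section PartZFin

open Monoid Monoid.Coprod Subgroup

namespace Pool.Agent.MP_4a02af_gt

theorem lw_cons_ZFin {α : Type} (p : α × α) (P : List (α × α)) :
    lw (p :: P) = (p.1, true) :: (p.2, true) :: (p.1, false) :: (p.2, false) :: lw P := by
  simp [lw]

theorem lw_len_ZFin {α : Type} (P : List (α × α)) : (lw P).length = 4 * P.length := by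
  induction P with
  | nil => rfl
  | cons p P ih =>
    rw [lw_cons_ZFin]
    simp only [List.length_cons, ih]
    omega

theorem lw_get_ZFin {α : Type} (P : List (α × α)) (s : ℕ) (hs : s < P.length) :
    ∃ a b, (lw P)[4 * s]? = some (a, true) ∧ (lw P)[4 * s + 1]? = some (b, true) ∧
      (lw P)[4 * s + 2]? = some (a, false) ∧ (lw P)[4 * s + 3]? = some (b, false) := by
  induction P generalizing s with
  | nil => simp at hs
  | cons p P ih =>
    rw [lw_cons_ZFin]
    cases s with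
    | zero => exact ⟨p.1, p.2, rfl, rfl, rfl, rfl⟩
    | succ s =>
      obtain ⟨a, b, h⟩ := ih s (by simpa using hs)
      exact ⟨a, b, h⟩

theorem part_ZFin {α : Type} [DecidableEq α] {R : FreeGroup α → Prop} {W : List (FreeGroup α)}
    {c : ℕ → ℕ} (hR : ∀ v, R v → ¬ R v⁻¹) (hW : ∀ v ∈ W, v⁻¹ ∈ W) (hc : Cor R W c)
    (hn : W.prod.toWord.Nodup) {i j : ℕ} {x : α} (hi : W.prod.toWord[i]? = some (x, true))
    (hj : W.prod.toWord[j]? = some (x, false)) : c j = c (i + 1) ∧ c (j + 1) = c i := by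
  obtain ⟨-, h1, h2⟩ := hc
  have a0 : i < W.length := h1 ▸ (List.getElem?_eq_some_iff.1 hi).1
  obtain ⟨k, hk⟩ := List.getElem?_of_mem (hW _ (List.getElem_mem a0))
  obtain ⟨a1, a2, a3, a4, a5, a6⟩ := h2 i _ (List.getElem?_eq_getElem a0)
  obtain ⟨b1, b2, b3, b4, b5, b6⟩ := h2 k _ hk
  generalize W[i] = v at *
  rw [FreeGroup.norm_inv_eq] at b1 b3 b4 b5 b6
  rw [inv_inv] at b6
  have e : c k = c (i + 1) ∧ c (k + 1) = c i := by
    by_cases r : R v
    · have n1 := mt a6 (hR v r)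
      have n2 := mt b5 (hR v r)
      omega
    · have n1 := mt a5 r
      have n2 := mt b6 r
      omega
  have hl : v.toWord.length = c i + c (i + 1) + 1 := a1
  have e2 : W.prod.toWord[k]? = some (x, false) := by
    rw [← b2, FreeGroup.toWord_inv, FreeGroup.invRev, List.getElem?_reverse (by
      rw [List.length_map]; omega), List.length_map, List.getElem?_map,
      show v.toWord.length - 1 - c k = c i by omega, a2, hi]
    rfl
  have : k = j := (List.getElem?_inj (List.getElem?_eq_some_iff.1 e2).1 hn).1 (e2.trans hj.symm)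
  exact this ▸ e

theorem zFin : ZFin := by
  intro α _ R W P c hR hW hn hp hc
  have hl : W.length = 4 * P.length := by rw [← hc.2.1, hp, lw_len_ZFin]
  have st : ∀ s, s < P.length → c (4 * s) = 0 →
      c (4 * s + 1) = 0 ∧ c (4 * s + 2) = 0 ∧ c (4 * s + 3) = 0 ∧ c (4 * s + 4) = 0 := by
    intro s hs h0
    obtain ⟨a, b, h1, h2, h3, h4⟩ := lw_get_ZFin P s hs
    rw [← hp] at h1 h2 h3 h4 hn
    obtain ⟨u1, u2⟩ := part_ZFin hR hW hc hn h1 h3
    obtain ⟨u3, u4⟩ := part_ZFin hR hW hc hn h2 h4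
    have u5 : c (4 * s + 3) = c (4 * s) := u2
    have u6 : c (4 * s + 3) = c (4 * s + 2) := u3
    have u7 : c (4 * s + 4) = c (4 * s + 1) := u4
    omega
  have s0 : ∀ s, s ≤ P.length → c (4 * s) = 0 := by
    intro s
    induction s with
    | zero => exact fun _ => hc.1
    | succ s ih => exact fun hs => (st s (by omega) (ih (by omega))).2.2.2
  have c0 : ∀ i, i ≤ W.length → c i = 0 := by
    intro i hi
    obtain ⟨s, r, hr, rfl⟩ : ∃ s r, r < 4 ∧ i = 4 * s + r :=
      ⟨i / 4, i % 4, by omega, by omega⟩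
    have h0 := s0 s (by omega)
    rcases Nat.eq_zero_or_pos r with rfl | h
    · exact h0
    obtain ⟨u1, u2, u3, -⟩ := st s (by omega) h0
    obtain rfl | rfl | rfl : r = 1 ∨ r = 2 ∨ r = 3 := by omega
    exacts [u1, u2, u3]
  refine List.ext_getElem (by rw [List.length_map, lw_len_ZFin, hl]) fun i h1 h2 => ?_
  obtain ⟨a1, a2, -⟩ := hc.2.2 i _ (List.getElem?_eq_getElem h1)
  rw [c0 i h1.le, c0 (i + 1) h1] at a1
  rw [List.length_map] at h2
  rw [c0 i h1.le, hp, List.getElem?_eq_getElem h2] at a2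
  rw [List.getElem_map]
  obtain ⟨y, hy⟩ := List.length_eq_one_iff.1 (show W[i].toWord.length = 1 from a1)
  rw [hy] at a2
  rw [← FreeGroup.mk_toWord (x := W[i]), hy, Option.some.inj a2]

theorem red_ZFin {α : Type} (P : List (α × α)) (x : α) (h : ((x, true) :: lw P).Nodup) :
    FreeGroup.IsReduced ((x, false) :: lw P) := by
  induction P generalizing x with
  | nil => exact FreeGroup.IsReduced.singleton
  | cons p P ih =>
    rw [lw_cons_ZFin] at h ⊢
    simp only [List.nodup_cons, List.mem_cons, Prod.mk.injEq, not_or] at h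
    simp only [FreeGroup.isReduced_cons_cons]
    refine ⟨fun e => absurd ⟨e, trivial⟩ h.1.1, fun _ => trivial,
      fun e => absurd ⟨e.symm, trivial⟩ h.2.1.1, fun _ => trivial, ih _ ?_⟩
    exact List.nodup_cons.2 ⟨h.2.2.1.2.2, h.2.2.2.2.2⟩

theorem zW : ZW := by
  intro α _ P h
  have e : ∀ L : List (α × Bool), (L.map fun p => FreeGroup.mk [p]).prod = FreeGroup.mk L := by
    intro L
    induction L with
    | nil => rfl
    | cons p L ih => rw [List.map_cons, List.prod_cons, ih, FreeGroup.mul_mk, List.singleton_append]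
  rw [e, FreeGroup.toWord_mk]
  refine FreeGroup.IsReduced.reduce_eq ?_
  cases P with
  | nil => exact FreeGroup.IsReduced.nil
  | cons p P =>
    rw [lw_cons_ZFin] at h ⊢
    simp only [List.nodup_cons, List.mem_cons, Prod.mk.injEq, not_or] at h
    simp only [FreeGroup.isReduced_cons_cons]
    refine ⟨fun _ => trivial, fun e => absurd ⟨e.symm, trivial⟩ h.1.1, fun _ => trivial,
      red_ZFin P _ ?_⟩
    exact List.nodup_cons.2 ⟨h.2.1.2.2, h.2.2.2.2⟩

end Pool.Agent.MP_4a02af_gt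

end PartZFin

section PartZies

open Monoid Monoid.Coprod Subgroup

namespace Pool.Agent.MP_4a02af_gt

theorem step_Zies {G α : Type} [Group G] [DecidableEq α] (e : G ≃* FreeGroup α)
    (h : FreeGroup α → ℕ) {W W' X : List G} {v x : G} (p : W.Perm (v :: v⁻¹ :: X))
    (p' : W'.Perm (x :: x⁻¹ :: X)) (b : Bet h (e x) (e v)) :
    Prod.Lex (· < ·) (· < ·) ((W'.map fun v => (e v).norm).sum, (W'.map fun v => h (e v)).sum)
      ((W.map fun v => (e v).norm).sum, (W.map fun v => h (e v)).sum) := by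
  rw [(p.map _).sum_eq, (p.map _).sum_eq, (p'.map _).sum_eq, (p'.map _).sum_eq, Prod.lex_def]
  simp only [List.map_cons, List.sum_cons, map_inv, FreeGroup.norm_inv_eq]
  rcases b with b | b
  · left
    omega
  · right
    omega

theorem zies (h1 : BSys) (h2 : BFree) (h3 : ZSl) (h4 : ZAdj) (h5 : ZRed) (h6 : ZCore) (h7 : ZFin)
    (h8 : ZW) : Zies := by
  intro G _ w L Q hG hQ hL
  obtain ⟨e, he⟩ := h2.1 G L hG.1
  obtain ⟨R, h, hR, hred⟩ := h5 (Fin L.length × Bool)
  obtain ⟨P, hP⟩ : ∃ P : List ((Fin L.length × Bool) × (Fin L.length × Bool)),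
      (wd L).map e = (lw P).map fun p => FreeGroup.mk [p] := by
    refine ⟨(List.finRange L.length).map fun i => ((i, false), (i, true)), ?_⟩
    have : wd L = wd ((List.finRange L.length).map L.get) := by rw [List.map_get_finRange]
    rw [this]
    simp only [wd, lw, List.flatMap_map, List.map_flatMap, List.map_cons, List.map_nil, map_inv,
      he]
    rfl
  have hN : (lw P).Nodup := List.Nodup.of_map _ (hP ▸ hG.1.1.map e.injective)
  have hw : (e w).toWord = lw P := by rw [← hG.2, map_list_prod, hP, h8 _ P hN]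
  intro W
  induction W using (InvImage.wf (fun W : List G => ((W.map fun v => (e v).norm).sum,
    (W.map fun v => h (e v)).sum)) (wellFounded_lt.prod_lex wellFounded_lt)).induction with
  | _ W ih =>
  intro hS hp hl
  have n1 : ∀ v ∈ W, e v ≠ 1 := fun v hv h => (hS.2.1 v hv).2 (by
    rw [e.map_eq_one_iff.1 h, inv_one])
  by_cases hI : ∀ (A : List G) v u B, W = A ++ v :: u :: B → IrP R (e v) (e u)
  · have pw : (W.map e).prod = e w := by rw [← map_list_prod, hp]
    obtain ⟨c, hc⟩ := h6 _ R (W.map e) hR (fun v hv => by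
        obtain ⟨x, hx, rfl⟩ := List.mem_map.1 hv
        exact n1 x hx)
      (fun A v u B hE => by
        obtain ⟨A', B', e1, -, e2⟩ := List.map_eq_append_iff.1 hE
        obtain ⟨v', B'', rfl, rfl, e3⟩ := List.map_eq_cons_iff.1 e2
        obtain ⟨u', B₃, rfl, rfl, -⟩ := List.map_eq_cons_iff.1 e3
        exact hI A' v' u' B₃ e1)
      (by
        have := congrArg List.length hP
        rw [pw, FreeGroup.norm, hw, List.length_map, hl]
        rw [List.length_map, List.length_map] at this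
        exact this.ge)
    have := h7 _ R (W.map e) P c hR (fun v hv => by
      obtain ⟨x, hx, rfl⟩ := List.mem_map.1 hv
      exact List.mem_map.2 ⟨x⁻¹, (hS.2.1 x hx).1, map_inv e x⟩) hN (pw ▸ hw) hc
    rwa [List.map_injective_iff.2 e.injective (this.trans hP.symm)]
  · push Not at hI
    obtain ⟨A, v, u, B, hE, hn⟩ := hI
    have ne : u ≠ v⁻¹ := fun a => h4 G w L A B v hG (a ▸ hE ▸ hS) (a ▸ hE ▸ hp)
    obtain ⟨⟨W₁, X₁, s1, p1, q1⟩, W₂, X₂, s2, p2, q2⟩ := (h3 G).2 W A B v u hS hE ne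
    rcases (hred (e v) (e u) (n1 v (by simp [hE])) (n1 u (by simp [hE]))).resolve_left hn with b | b
    · obtain ⟨a1, a2, a3⟩ := (h3 G).1 _ _ s1
      exact (hQ W W₁ hS hp s1).2 (ih W₁ (step_Zies e h p1 q1 (by rwa [map_mul])) (a3.1 hS)
        (a1.trans hp) (a2.trans hl))
    · obtain ⟨a1, a2, a3⟩ := (h3 G).1 _ _ s2
      exact (hQ W₂ W (a3.2 hS) (a1.symm.trans hp) s2).1 (ih W₂
        (step_Zies e h p2 q2 (by rwa [map_mul])) (a3.2 hS) (a1.symm.trans hp) (a2.symm.trans hl))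

end Pool.Agent.MP_4a02af_gt

end PartZies
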