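import Pool.Agent.MP_4a02af_gt.Stm

section PartPGrp

open Monoid Monoid.Coprod Subgroup

namespace Pool.Agent.MP_4a02af_gt

section

variable {G : Type} [Group G] {w : G} {ψ φ : MulAut (G ∗ F2)}

theorem ft_PGrp : Coprod.fst (tt : G ∗ F2) = 1 := rfl

theorem mmN_PGrp : (mm : G ∗ F2) ∈ normalClosure {(mm : G ∗ F2)} :=
  subset_normalClosure rfl

theorem ker_PGrp {x : G ∗ F2} (h : x ∈ normalClosure {(mm : G ∗ F2)}) : Coprod.fst x = 1 := by
  have : normalClosure {(mm : G ∗ F2)} ≤ (Coprod.fst : G ∗ F2 →* G).ker :=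
    normalClosure_le_normal (by
      rintro _ rfl
      exact (rfl : Coprod.fst (mm : G ∗ F2) = 1))
  exact this h

theorem ddA_PGrp : (dd : G ∗ F2) ∈ AA G := subset_closure (Or.inr rfl)

theorem inlA_PGrp (γ : G) : (inl γ : G ∗ F2) ∈ AA G := subset_closure (Or.inl ⟨γ, rfl⟩)

theorem dd_PGrp (h : ψ mm = mm) : ψ dd = ψ tt * mm * (ψ tt)⁻¹ := by
  rw [dd, map_mul, map_mul, map_inv, h]

theorem main_PGrp (h : IsPush w ψ) {x : G ∗ F2} (hx : x ∈ AA G) :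
    ψ x ∈ AA G ∧ ψ x * x⁻¹ ∈ normalClosure {(mm : G ∗ F2)} := by
  have hN : (normalClosure {(mm : G ∗ F2)}).Normal := normalClosure_normal
  induction hx using closure_induction with
  | mem x hx =>
    rcases hx with ⟨γ, rfl⟩ | rfl
    · exact h.2.2.2 γ
    · constructor
      · have e : ψ dd = (ψ tt * tt⁻¹) * dd * (ψ tt * tt⁻¹)⁻¹ := by
          rw [dd_PGrp h.1, dd]
          group
        rw [e]
        exact mul_mem (mul_mem h.2.2.1 ddA_PGrp) (inv_mem h.2.2.1)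
      · rw [dd_PGrp h.1]
        exact mul_mem (hN.conj_mem _ mmN_PGrp _) (inv_mem (hN.conj_mem _ mmN_PGrp _))
  | one =>
    rw [map_one, inv_one, mul_one]
    exact ⟨one_mem _, one_mem _⟩
  | mul x y _ _ hx hy =>
    refine ⟨by rw [map_mul]; exact mul_mem hx.1 hy.1, ?_⟩
    have e : ψ (x * y) * (x * y)⁻¹ = ψ x * (ψ y * y⁻¹) * (ψ x)⁻¹ * (ψ x * x⁻¹) := by
      rw [map_mul]
      group
    rw [e]
    exact mul_mem (hN.conj_mem _ hy.2 _) hx.2
  | inv x _ hx =>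
    refine ⟨by rw [map_inv]; exact inv_mem hx.1, ?_⟩
    have e : ψ x⁻¹ * x⁻¹⁻¹ = x⁻¹ * (ψ x * x⁻¹)⁻¹ * x⁻¹⁻¹ := by
      rw [map_inv]
      group
    rw [e]
    exact hN.conj_mem _ (inv_mem hx.2) _

theorem fst_PGrp (h : IsPush w ψ) {x : G ∗ F2} (hx : x ∈ AA G) :
    Coprod.fst (ψ x) = Coprod.fst x := by
  have := ker_PGrp (main_PGrp h hx).2
  rwa [map_mul, map_inv, mul_inv_eq_one] at this

theorem mul_PGrp (h : IsPush w ψ) (h' : IsPush w φ) : IsPush w (ψ * φ) := by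
  refine ⟨by rw [MulAut.mul_apply, h'.1, h.1], by rw [MulAut.mul_apply, h'.2.1, h.2.1], ?_,
    fun γ => ⟨(main_PGrp h (h'.2.2.2 γ).1).1, ?_⟩⟩
  · have e : (ψ * φ) tt * tt⁻¹ = ψ (φ tt * tt⁻¹) * (ψ tt * tt⁻¹) := by
      rw [MulAut.mul_apply, map_mul, map_inv]
      group
    rw [e]
    exact mul_mem (main_PGrp h h'.2.2.1).1 h.2.2.1
  · have e : (ψ * φ) (inl γ) * (inl γ)⁻¹ =
        ψ (φ (inl γ)) * (φ (inl γ))⁻¹ * (φ (inl γ) * (inl γ)⁻¹) := by
      rw [MulAut.mul_apply]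
      group
    rw [e]
    exact mul_mem (main_PGrp h (h'.2.2.2 γ).1).2 (h'.2.2.2 γ).2

theorem one_PGrp : IsPush w (1 : MulAut (G ∗ F2)) := by
  refine ⟨rfl, rfl, ?_, fun γ => ⟨inlA_PGrp γ, ?_⟩⟩
  · rw [MulAut.one_apply, mul_inv_cancel]
    exact one_mem _
  · rw [MulAut.one_apply, mul_inv_cancel]
    exact one_mem _

theorem pu1_PGrp : PU w (1 : MulAut (G ∗ F2)) := ⟨one_PGrp, by rw [inv_one]; exact one_PGrp⟩

theorem puM_PGrp (h : PU w ψ) (h' : PU w φ) : PU w (ψ * φ) :=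
  ⟨mul_PGrp h.1 h'.1, by rw [mul_inv_rev]; exact mul_PGrp h'.2 h.2⟩

theorem puI_PGrp (h : PU w ψ) : PU w ψ⁻¹ := ⟨h.2, by rw [inv_inv]; exact h.1⟩

theorem tr_PGrp (h : IsPush w ψ) (h' : IsPush w φ) : tr (ψ * φ) = tr φ * tr ψ := by
  have e : (ψ * φ) tt = ψ (φ tt * tt⁻¹) * ψ tt := by
    rw [MulAut.mul_apply, ← map_mul, inv_mul_cancel_right]
  rw [tr, e, map_mul, fst_PGrp h h'.2.2.1, map_mul, map_inv, ft_PGrp, inv_one, mul_one]
  rfl

theorem zdd_PGrp (h : Zc w φ) : φ dd = dd := by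
  have := h.1.1.2.1
  rw [map_mul, h.2] at this
  exact mul_left_cancel this

theorem zfix_PGrp (h : Zc w φ) {x : G ∗ F2} (hx : x ∈ AA G) : φ x = x := by
  induction hx using closure_induction with
  | mem x hx =>
    rcases hx with ⟨γ, rfl⟩ | rfl
    · exact h.2 γ
    · exact zdd_PGrp h
  | one => exact map_one _
  | mul x y _ _ hx hy => rw [map_mul, hx, hy]
  | inv x _ hx => rw [map_inv, hx]

end

theorem pGrp : PGrp := by
  intro G _ w
  refine ⟨pu1_PGrp, fun ψ φ h h' => ⟨puM_PGrp h h', tr_PGrp h.1 h'.1⟩,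
    fun ψ h => ⟨puI_PGrp h, ?_⟩, rfl,
    fun ψ h x hx => ⟨(main_PGrp h.1 hx).1, fst_PGrp h.1 hx, (main_PGrp h.1 hx).2⟩, ?_,
    fun ψ φ h h' e => ⟨puM_PGrp (puI_PGrp h') h, fun γ => ?_⟩,
    fun ψ φ h h' => ⟨puM_PGrp (puM_PGrp h h'.1) (puI_PGrp h), fun γ => ?_⟩⟩
  · have := tr_PGrp h.1 h.2
    rw [mul_inv_cancel] at this
    exact eq_inv_of_mul_eq_one_left this.symm
  · intro W ψ hψ
    induction hψ using closure_induction with
    | mem x hx =>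
      rcases hx with ⟨y, c, -, h⟩ | h
      · exact h.1
      · exact h.1
    | one => exact pu1_PGrp
    | mul x y _ _ hx hy => exact puM_PGrp hx hy
    | inv x _ hx => exact puI_PGrp hx
  · rw [MulAut.mul_apply, e, MulAut.inv_apply_self]
  · rw [MulAut.mul_apply, MulAut.mul_apply, zfix_PGrp h' (h.2.2.2.2 γ).1, MulAut.apply_inv_self]

theorem cen_PGrp {β : Type} (b : β) (x : FreeGroup β)
    (h : FreeGroup.of b * x = x * FreeGroup.of b) : ∃ m : ℤ, x = FreeGroup.of b ^ m := by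
  classical
  induction hn : x.toWord.length using Nat.strong_induction_on generalizing x with
  | _ n ih =>
    cases hL : x.toWord with
    | nil => exact ⟨0, by rw [zpow_zero]; exact FreeGroup.toWord_eq_nil_iff.1 hL⟩
    | cons p L =>
      obtain ⟨c, s⟩ := p
      have hx : x = FreeGroup.mk ((c, s) :: L) := by rw [← hL, FreeGroup.mk_toWord]
      by_cases hc : c = b
      · subst hc
        obtain ⟨k, hk⟩ : ∃ k : ℤ, FreeGroup.mk [(c, s)] = FreeGroup.of c ^ k := by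
          cases s
          · exact ⟨-1, by rw [zpow_neg_one]; rfl⟩
          · exact ⟨1, by rw [zpow_one]; rfl⟩
        have e : x = FreeGroup.of c ^ k * FreeGroup.mk L := by
          rw [hx, ← hk, FreeGroup.mul_mk]
          rfl
        obtain ⟨m, hm⟩ := ih (FreeGroup.mk L).toWord.length (by
          have : (FreeGroup.mk L).toWord.length ≤ L.length := FreeGroup.norm_mk_le
          rw [← hn, hL, List.length_cons]
          omega) (FreeGroup.mk L) (by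
          rw [e, ← mul_assoc, (Commute.refl (FreeGroup.of c)).zpow_right k |>.eq, mul_assoc,
            mul_assoc] at h
          exact mul_left_cancel h) rfl
        exact ⟨k + m, by rw [e, hm, zpow_add]⟩
      · exfalso
        have r : FreeGroup.reduce ((c, s) :: L) = (c, s) :: L := by
          rw [← hL, FreeGroup.reduce_toWord]
        have e1 : (FreeGroup.of b * x).toWord = (b, true) :: (c, s) :: L := by
          have : FreeGroup.of b * x = FreeGroup.mk ((b, true) :: (c, s) :: L) := by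
            rw [hx, FreeGroup.of, FreeGroup.mul_mk]
            rfl
          rw [this, FreeGroup.toWord_mk, FreeGroup.reduce.cons, r]
          simp [Ne.symm hc]
        have e2 := FreeGroup.toWord_mul_sublist x (FreeGroup.of b)
        rw [← h, e1, hL, FreeGroup.toWord_of] at e2
        have e3 := e2.eq_of_length (by simp)
        rw [List.cons_append] at e3
        exact hc (congrArg Prod.fst (List.cons.inj e3).1).symm

theorem pCen (h1 : BFree) (_h2 : PGrp) : PCen := by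
  intro G _ w L ψ hs hz
  obtain ⟨e, -⟩ := h1.1 G L hs
  let Φ : G ∗ F2 →* FreeGroup ((Fin L.length × Bool) ⊕ Bool) :=
    Coprod.lift ((FreeGroup.map Sum.inl).comp e.toMonoidHom) (FreeGroup.map Sum.inr)
  let Ψ : FreeGroup ((Fin L.length × Bool) ⊕ Bool) →* G ∗ F2 :=
    FreeGroup.lift (Sum.elim (fun a => inl (e.symm (FreeGroup.of a)))
      fun b => inr (FreeGroup.of b))
  have a1 : Ψ.comp (FreeGroup.map Sum.inl) = (inl : G →* G ∗ F2).comp e.symm.toMonoidHom := by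
    refine FreeGroup.ext_hom _ _ fun a => ?_
    simp [Ψ]
  have a2 : Ψ.comp (FreeGroup.map Sum.inr) = (inr : F2 →* G ∗ F2) := by
    refine FreeGroup.ext_hom _ _ fun a => ?_
    simp [Ψ]
  have a3 : Ψ.comp Φ = MonoidHom.id _ := by
    refine Coprod.hom_ext (MonoidHom.ext fun g => ?_) (MonoidHom.ext fun g => ?_)
    · have := DFunLike.congr_fun a1 (e g)
      simpa [Φ] using this
    · have := DFunLike.congr_fun a2 g
      simpa [Φ] using this
  have a4 : ∀ x, Ψ (Φ x) = x := fun x => DFunLike.congr_fun a3 x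
  have b1 : Φ mm = FreeGroup.of (Sum.inr true) := by simp [Φ, mm, fb]
  have b2 : mm * (tt⁻¹ * ψ tt) = (tt⁻¹ * ψ tt) * mm := by
    have h3 := zdd_PGrp hz
    rw [dd_PGrp hz.1.1.1, dd] at h3
    calc mm * (tt⁻¹ * ψ tt) = tt⁻¹ * (tt * mm * tt⁻¹) * ψ tt := by group
      _ = _ := by
        rw [← h3]
        group
  obtain ⟨m, hm⟩ := cen_PGrp (Sum.inr true) (Φ (tt⁻¹ * ψ tt)) (by
    rw [← b1, ← map_mul, b2, map_mul])
  have b3 : ψ tt = tt * mm ^ m := by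
    have := congrArg Ψ hm
    rw [a4, ← b1, ← map_zpow, a4] at this
    rw [← this, mul_inv_cancel_left]
  refine ⟨⟨m, b3⟩, ?_⟩
  rw [tr, b3, map_mul, map_zpow, ft_PGrp, ker_PGrp mmN_PGrp, one_zpow, mul_one]

end Pool.Agent.MP_4a02af_gt

end PartPGrp

section PartPEx

open Monoid Monoid.Coprod Subgroup

namespace Pool.Agent.MP_4a02af_gt

theorem ext_PEx (h1 : BSys) {G H : Type} [Group G] [Group H] {W : List G} (hW : Sys W) (y : G)
    (φ ψ : G →* H) (hy : φ y = ψ y) (h : ∀ v ∈ W, v ≠ y → v ≠ y⁻¹ → φ v = ψ v) : φ = ψ := by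
  refine h1.1 G H W φ ψ hW fun v hv => ?_
  by_cases a : v = y
  · rw [a, hy]
  by_cases b : v = y⁻¹
  · rw [b, map_inv, map_inv, hy]
  exact h v hv a b

theorem inl_PEx {G : Type} [Group G] (c : G) : (inl c : G ∗ F2) ∈ AA G :=
  subset_closure (Or.inl ⟨c, rfl⟩)

theorem dl_PEx {G : Type} [Group G] (c : G) :
    dl c ∈ AA G ∧ dl c ∈ normalClosure {(mm : G ∗ F2)} := by
  have h1 : (dd : G ∗ F2) ∈ AA G := subset_closure (Or.inr (Set.mem_singleton _))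
  have h2 : (mm : G ∗ F2) ∈ normalClosure {(mm : G ∗ F2)} :=
    subset_normalClosure (Set.mem_singleton _)
  have h3 : (dd : G ∗ F2) ∈ normalClosure {(mm : G ∗ F2)} := normalClosure_normal.conj_mem mm h2 tt
  unfold dl
  exact ⟨mul_mem (mul_mem (inl_PEx c) h1) (inv_mem (inl_PEx c)),
    normalClosure_normal.conj_mem dd h3 (inl c)⟩

theorem mem_PEx (h1 : BSys) {G : Type} [Group G] {W : List G} (hW : Sys W) (y : G)
    (f : G →* G ∗ F2) (e : G ∗ F2) (he : e ∈ AA G) (he' : e ∈ normalClosure {(mm : G ∗ F2)})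
    (hy : f y = inl y * e) (h : ∀ v ∈ W, v ≠ y → v ≠ y⁻¹ → f v = inl v) (γ : G) :
    f γ ∈ AA G ∧ f γ * (inl γ)⁻¹ ∈ normalClosure {(mm : G ∗ F2)} := by
  constructor
  · have h2 : f y ∈ AA G := hy ▸ mul_mem (inl_PEx y) he
    have h3 : closure {v | v ∈ W} ≤ (AA G).comap f := by
      rw [closure_le]
      intro v hv
      change f v ∈ AA G
      by_cases a : v = y
      · exact a ▸ h2
      by_cases b : v = y⁻¹
      · rw [b, map_inv]
        exact inv_mem h2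
      rw [h v hv a b]
      exact inl_PEx v
    rw [hW.2.2.1] at h3
    exact h3 (mem_top γ)
  · have h2 := ext_PEx h1 hW y ((QuotientGroup.mk' (normalClosure {(mm : G ∗ F2)})).comp f)
      ((QuotientGroup.mk' _).comp inl)
      (by
        rw [MonoidHom.comp_apply, MonoidHom.comp_apply, hy, map_mul, QuotientGroup.mk'_apply _ e,
          (QuotientGroup.eq_one_iff e).2 he', mul_one])
      fun v hv a b => by rw [MonoidHom.comp_apply, MonoidHom.comp_apply, h v hv a b]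
    have h3 := DFunLike.congr_fun h2 γ
    rw [← QuotientGroup.eq_one_iff, QuotientGroup.mk_mul, QuotientGroup.mk_inv, mul_inv_eq_one]
    exact h3

theorem fix_PEx {G H : Type} [Group G] [Group H] (f g : G →* H) (L : List G)
    (h : ∀ v ∈ L, f v = g v) : f L.prod = g L.prod := by
  rw [map_list_prod, map_list_prod, List.map_congr_left h]

/-- the extension of `f` that sends `tt` to `t` and fixes `mm` -/
def lf_PEx {G : Type} [Group G] (f : G →* G ∗ F2) (t : G ∗ F2) : G ∗ F2 →* G ∗ F2 :=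
  Coprod.lift f (FreeGroup.lift fun b : Bool => if b then mm else t)

theorem lf_inl_PEx {G : Type} [Group G] (f : G →* G ∗ F2) (t : G ∗ F2) (γ : G) :
    lf_PEx f t (inl γ) = f γ := by simp [lf_PEx]

theorem lf_tt_PEx {G : Type} [Group G] (f : G →* G ∗ F2) (t : G ∗ F2) : lf_PEx f t tt = t := by
  simp [lf_PEx, tt, fa]

theorem lf_mm_PEx {G : Type} [Group G] (f : G →* G ∗ F2) (t : G ∗ F2) : lf_PEx f t mm = mm := by
  conv_lhs => simp [lf_PEx, mm, fb]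
  rfl

theorem id_PEx {G : Type} [Group G] (φ : G ∗ F2 →* G ∗ F2) (h1 : φ.comp inl = inl)
    (h2 : φ tt = tt) (h3 : φ mm = mm) : φ = MonoidHom.id _ := by
  refine Coprod.hom_ext h1 (FreeGroup.ext_hom _ _ fun b => ?_)
  cases b
  exacts [h2, h3]

theorem pEx (h1 : BSys) : PEx := by
  intro G _ w W U V Z y hW hw hUV
  have hy : y ∈ W := by simp [hUV]
  have hl : ∀ a, a ∈ U ∨ a ∈ V ∨ a ∈ Z → a ∈ W ∧ a ≠ y ∧ a ≠ y⁻¹ := by
    have := hW.1
    rw [hUV] at this ⊢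
    simp only [List.nodup_append, List.nodup_cons, List.mem_append, List.mem_cons] at this ⊢
    grind
  have hw' : w = U.prod * (y * V.prod) * (y⁻¹ * Z.prod) := by simp [← hw, hUV, mul_assoc]
  obtain ⟨f, f1, f2⟩ := h1.2.2.2.2 G _ W y inl (inl y * dl (V.prod * y⁻¹ * Z.prod)) hW hy
  obtain ⟨g, g1, g2⟩ := h1.2.2.2.2 G _ W y inl (inl y * (dl (y⁻¹ * Z.prod))⁻¹) hW hy
  have fU := fix_PEx f inl U fun a h => by
    obtain ⟨a1, a2, a3⟩ := hl a (Or.inl h)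
    exact f2 a a1 a2 a3
  have fV := fix_PEx f inl V fun a h => by
    obtain ⟨a1, a2, a3⟩ := hl a (Or.inr (Or.inl h))
    exact f2 a a1 a2 a3
  have fZ := fix_PEx f inl Z fun a h => by
    obtain ⟨a1, a2, a3⟩ := hl a (Or.inr (Or.inr h))
    exact f2 a a1 a2 a3
  have gZ := fix_PEx g inl Z fun a h => by
    obtain ⟨a1, a2, a3⟩ := hl a (Or.inr (Or.inr h))
    exact g2 a a1 a2 a3
  generalize U.prod = u at *
  generalize V.prod = v at *
  generalize Z.prod = z at *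
  set x := z⁻¹ * y * v * y⁻¹ * z with hx
  set ψ := lf_PEx f (inl x * tt) with hψ
  set ψ' := lf_PEx g ((g x)⁻¹ * tt) with hψ'
  have p1 : ∀ γ, ψ (inl γ) = f γ := lf_inl_PEx _ _
  have p2 : ψ tt = inl x * tt := lf_tt_PEx _ _
  have p3 : ψ mm = mm := lf_mm_PEx _ _
  have q1 : ∀ γ, ψ' (inl γ) = g γ := lf_inl_PEx _ _
  have q2 : ψ' tt = (g x)⁻¹ * tt := lf_tt_PEx _ _
  have q3 : ψ' mm = mm := lf_mm_PEx _ _
  have p4 : ψ dd = inl x * dd * (inl x)⁻¹ := by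
    simp only [dd, map_mul, map_inv, p2, p3]
    group
  have q4 : ψ' dd = (g x)⁻¹ * dd * g x := by
    simp only [dd, map_mul, map_inv, q2, q3]
    group
  have p5 : ψ (dl (y⁻¹ * z)) = dl (v * y⁻¹ * z) := by
    rw [dl, map_mul, map_mul, map_inv, p1, p4]
    simp only [hx, dl, map_mul, map_inv, f1, fZ]
    group
  have q5 : ψ' (dl (v * y⁻¹ * z)) = dl (y⁻¹ * z) := by
    rw [dl, map_mul, map_mul, map_inv, q1, q4]
    simp only [hx, dl, map_mul, map_inv, g1, gZ]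
    group
  have r1 : (ψ.comp ψ').comp inl = inl := ext_PEx h1 hW y _ _
    (by
      change ψ (ψ' (inl y)) = inl y
      rw [q1, g1, map_mul, map_inv, p5, p1, f1, mul_inv_cancel_right])
    fun a a1 a2 a3 => by
      change ψ (ψ' (inl a)) = inl a
      rw [q1, g2 a a1 a2 a3, p1, f2 a a1 a2 a3]
  have r2 : (ψ'.comp ψ).comp inl = inl := ext_PEx h1 hW y _ _
    (by
      change ψ' (ψ (inl y)) = inl y
      rw [p1, f1, map_mul, q5, q1, g1, inv_mul_cancel_right])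
    fun a a1 a2 a3 => by
      change ψ' (ψ (inl a)) = inl a
      rw [p1, f2 a a1 a2 a3, q1, g2 a a1 a2 a3]
  have s1 := id_PEx _ r1
    (by
      have : ψ (ψ' (inl x)) = inl x := DFunLike.congr_fun r1 x
      rw [q1] at this
      rw [MonoidHom.comp_apply, q2, map_mul, map_inv, this, p2, inv_mul_cancel_left])
    (by rw [MonoidHom.comp_apply, q3, p3])
  have s2 := id_PEx _ r2
    (by rw [MonoidHom.comp_apply, p2, map_mul, q1, q2, mul_inv_cancel_left])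
    (by rw [MonoidHom.comp_apply, p3, q3])
  have p6 : ψ (inl w * dd) = inl w * dd := by
    rw [map_mul, p1, p4]
    simp only [hw', hx, dl, map_mul, map_inv, f1, fU, fV, fZ]
    group
  have q6 : ψ' (inl w * dd) = inl w * dd := by
    conv_lhs => rw [← p6]
    exact DFunLike.congr_fun s2 _
  have m1 := mem_PEx h1 hW y f _ (dl_PEx _).1 (dl_PEx _).2 f1 f2
  have m2 := mem_PEx h1 hW y g _ (inv_mem (dl_PEx _).1) (inv_mem (dl_PEx _).2) g1 g2
  have i1 : IsPush w (MonoidHom.toMulEquiv ψ ψ' s2 s1) :=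
    ⟨p3, p6, by
      change ψ tt * tt⁻¹ ∈ AA G
      rw [p2, mul_inv_cancel_right]
      exact inl_PEx x, fun γ => by
      change ψ (inl γ) ∈ AA G ∧ ψ (inl γ) * (inl γ)⁻¹ ∈ normalClosure {(mm : G ∗ F2)}
      rw [p1]
      exact m1 γ⟩
  have i2 : IsPush w (MonoidHom.toMulEquiv ψ ψ' s2 s1)⁻¹ :=
    ⟨q3, q6, by
      change ψ' tt * tt⁻¹ ∈ AA G
      rw [q2, mul_inv_cancel_right]
      exact inv_mem (m2 x).1, fun γ => by
      change ψ' (inl γ) ∈ AA G ∧ ψ' (inl γ) * (inl γ)⁻¹ ∈ normalClosure {(mm : G ∗ F2)}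
      rw [q1]
      exact m2 γ⟩
  refine ⟨MonoidHom.toMulEquiv ψ ψ' s2 s1, ⟨⟨i1, i2⟩, (p1 y).trans f1,
    fun a a1 a2 a3 => (p1 a).trans (f2 a a1 a2 a3)⟩, ⟨⟨i2, i1⟩, (q1 _).trans ?_,
    fun a a1 a2 a3 => (q1 a).trans (g2 a a1 (by simpa using a3) a2)⟩, p2⟩
  simp only [dl, map_mul, map_inv, g1]
  group

end Pool.Agent.MP_4a02af_gt

end PartPEx

section PartPLem

open Monoid Monoid.Coprod Subgroup

namespace Pool.Agent.MP_4a02af_gt

section

variable {G : Type} [Group G]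

theorem fix_PLem (ψ : MulAut (G ∗ F2)) (U : List G) (h : ∀ v ∈ U, ψ (inl v) = inl v) :
    ψ (inl U.prod) = inl U.prod := by
  induction U with
  | nil => simp
  | cons a U ih =>
    rw [List.prod_cons, map_mul, map_mul, h a List.mem_cons_self,
      ih fun v hv => h v (List.mem_cons_of_mem _ hv)]

omit [Group G] in
theorem uniq_PLem {W A B A' B' : List G} {v : G} (hW : W.Nodup) (h : W = A ++ v :: B)
    (h' : W = A' ++ v :: B') : B = B' := by
  rw [h] at hW h'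
  have h1 := List.nodup_append.1 hW
  exact ((List.append_cons_inj_of_notMem (fun h2 => h1.2.2 v h2 v List.mem_cons_self rfl)
    (List.nodup_cons.1 h1.2.1).1).1 h').2.2

omit [Group G] in
theorem parts_PLem {W U V Z : List G} {p q : G} (hW : W.Nodup) (h : W = U ++ p :: V ++ q :: Z) :
    ∀ v, v ∈ U ∨ v ∈ V ∨ v ∈ Z → v ∈ W ∧ v ≠ p ∧ v ≠ q := by
  subst h
  intro v hv
  have h1 := List.nodup_append.1 hW
  have h2 := List.nodup_append.1 h1.1
  have h3 := (List.nodup_cons.1 h2.2.1).1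
  have h4 := (List.nodup_cons.1 h1.2.1).1
  rcases hv with hv | hv | hv
  · exact ⟨by simp [hv], h2.2.2 v hv p List.mem_cons_self,
      h1.2.2 v (by simp [hv]) q List.mem_cons_self⟩
  · exact ⟨by simp [hv], fun e => h3 (e ▸ hv), h1.2.2 v (by simp [hv]) q List.mem_cons_self⟩
  · exact ⟨by simp [hv], fun e => h1.2.2 p (by simp) v (List.mem_cons_of_mem _ hv) e.symm,
      fun e => h4 (e ▸ hv)⟩

theorem split_PLem {W : List G} {y c : G} (hS : Sys W) (h : Suf W y c) :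
    ∃ U V Z : List G, (W = U ++ y :: V ++ y⁻¹ :: Z ∧ c = V.prod * y⁻¹ * Z.prod) ∨
      (W = U ++ y⁻¹ :: V ++ y :: Z ∧ c = Z.prod) := by
  obtain ⟨A, B, hW, rfl⟩ := h
  obtain ⟨h1, h2⟩ := hS.2.1 y (by simp [hW])
  rw [hW, List.mem_append, List.mem_cons] at h1
  rcases h1 with h1 | h1 | h1
  · obtain ⟨U, V, rfl⟩ := List.append_of_mem h1
    exact ⟨U, V, B, Or.inr ⟨hW, rfl⟩⟩
  · exact absurd h1 h2
  · obtain ⟨V, Z, rfl⟩ := List.append_of_mem h1
    exact ⟨A, V, Z, Or.inl ⟨by simp [hW], by simp [mul_assoc]⟩⟩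

theorem nl_PLem (θ : MulAut (G ∗ F2)) (L : List (Hd G)) (h : ∀ g ∈ L, θ (inl g.1) = inl g.1) :
    ∀ x ∈ nl (KA L), θ x ∈ nl (KA L) := by
  have hn : (nl (KA L)).Normal := normalClosure_normal
  have h1 : KA L ≤ (nl (KA L)).comap (θ.toMonoidHom.comp inl) := by
    refine normalClosure_le_normal ?_
    rintro _ ⟨g, hg, rfl⟩
    change θ (inl g.1) ∈ nl (KA L)
    rw [h g hg]
    exact subset_normalClosure ⟨g.1, subset_normalClosure ⟨g, hg, rfl⟩, rfl⟩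
  have h2 : nl (KA L) ≤ (nl (KA L)).comap θ.toMonoidHom := by
    refine normalClosure_le_normal ?_
    rintro _ ⟨x, hx, rfl⟩
    exact h1 hx
  exact fun x hx => h2 hx

end

theorem pLem (h1 : BSys) (h2 : PGrp) (h3 : PEx) : PLem := by
  intro G _ w W y c hS hw hc
  obtain ⟨U, V, Z, hd⟩ := split_PLem hS hc
  constructor
  · rcases hd with ⟨hW, rfl⟩ | ⟨hW, rfl⟩
    · obtain ⟨ψ, a, -⟩ := h3 G w W U V Z y hS hw hW
      exact ⟨ψ, a⟩
    · obtain ⟨ψ, -, a, -⟩ := h3 G w W U V Z y⁻¹ hS hw (by rw [inv_inv]; exact hW)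
      rw [inv_inv] at a
      exact ⟨_, a⟩
  intro ψ c' ⟨hP, hy, hfix⟩ ⟨A', B', hW', hc'⟩
  have hdd : ψ dd = (ψ (inl w))⁻¹ * (inl w * dd) := by rw [← hP.1.2.1, map_mul]; group
  have key : ψ (dl (y⁻¹ * c')) = dl c := by
    rcases hd with ⟨hW, rfl⟩ | ⟨hW, rfl⟩
    · have p := parts_PLem hS.1 hW
      have u := fix_PLem ψ U fun v hv => hfix v (p v (.inl hv)).1 (p v (.inl hv)).2.1
        (p v (.inl hv)).2.2
      have v := fix_PLem ψ V fun v hv => hfix v (p v (.inr (.inl hv))).1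
        (p v (.inr (.inl hv))).2.1 (p v (.inr (.inl hv))).2.2
      have z := fix_PLem ψ Z fun v hv => hfix v (p v (.inr (.inr hv))).1
        (p v (.inr (.inr hv))).2.1 (p v (.inr (.inr hv))).2.2
      have e : w = U.prod * (y * V.prod) * (y⁻¹ * Z.prod) := by
        rw [← hw, hW]; simp [mul_assoc]
      rw [← hc', ← uniq_PLem hS.1 hW hW', dl, map_mul, map_mul, map_inv, hdd, e]
      simp only [map_mul, map_inv, u, v, z, hy, dl]
      group
    · have p := parts_PLem hS.1 hW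
      have u := fix_PLem ψ U fun v hv => hfix v (p v (.inl hv)).1 (p v (.inl hv)).2.2
        (p v (.inl hv)).2.1
      have v := fix_PLem ψ V fun v hv => hfix v (p v (.inr (.inl hv))).1
        (p v (.inr (.inl hv))).2.2 (p v (.inr (.inl hv))).2.1
      have z := fix_PLem ψ Z fun v hv => hfix v (p v (.inr (.inr hv))).1
        (p v (.inr (.inr hv))).2.2 (p v (.inr (.inr hv))).2.1
      have e : w = U.prod * (y⁻¹ * V.prod) * (y * Z.prod) := by
        rw [← hw, hW]; simp [mul_assoc]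
      have e' : V ++ y :: Z = B' := uniq_PLem hS.1 (A := U) (by rw [hW]; simp) hW'
      rw [← hc', ← e', dl, map_mul, map_mul, map_inv, hdd, e, List.prod_append, List.prod_cons]
      simp only [map_mul, map_inv, u, v, z, hy, dl]
      group
  refine ⟨key, fun φ ⟨hP', hy', hfix'⟩ => ⟨((h2 G w).2.1 ψ φ hP hP').1, fun γ => ?_⟩⟩
  have k1 : ψ (φ (inl y⁻¹)) = inl y⁻¹ := by
    have e : (inl y⁻¹ * dl c' : G ∗ F2) = dl (y⁻¹ * c') * inl y⁻¹ := by
      simp only [dl, map_mul, map_inv]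
      group
    rw [hy', e, map_mul, key, map_inv, map_inv, hy]
    group
  have := h1.1 G (G ∗ F2) W ((ψ * φ).toMonoidHom.comp inl) inl hS fun v hv => by
    change ψ (φ (inl v)) = inl v
    by_cases a1 : v = y⁻¹
    · rw [a1, k1]
    by_cases a2 : v = y
    · rw [a2, ← inv_inj, ← map_inv, ← map_inv, ← map_inv, k1, map_inv]
    rw [hfix' v hv a1 (by rwa [inv_inv]), hfix v hv a2 a1]
  exact DFunLike.congr_fun this γ

theorem pGood (h3 : PEx) : PGood := by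
  intro G _ w L h ⟨hS, hw⟩ hL
  obtain ⟨L1, L2, rfl⟩ := List.append_of_mem hL
  have hW : wd (L1 ++ h :: L2) = (wd L1 ++ [h.1]) ++ h.2.1 :: [h.1⁻¹] ++ h.2.1⁻¹ :: wd L2 := by
    rw [wd_append, wd_cons]; simp
  obtain ⟨ψ, a1, a2, a3⟩ := h3 G w _ _ _ _ _ hS hw hW
  have p : ∀ g ∈ L1 ++ h :: L2, g.1 ∈ wd (L1 ++ h :: L2) ∧ g.1 ≠ h.2.1 ∧ g.1 ≠ h.2.1⁻¹ := by
    intro g hg
    refine parts_PLem hS.1 hW g.1 ?_
    rcases List.mem_append.1 hg with hg | hg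
    · exact .inl (List.mem_append_left _ (List.mem_flatMap.2 ⟨g, hg, List.mem_cons_self⟩))
    rcases List.mem_cons.1 hg with rfl | hg
    · exact .inl (List.mem_append_right _ List.mem_cons_self)
    · exact .inr (.inr (List.mem_flatMap.2 ⟨g, hg, List.mem_cons_self⟩))
  have n1 := nl_PLem ψ _ fun g hg => a1.2.2 _ (p g hg).1 (p g hg).2.1 (p g hg).2.2
  have n2 := nl_PLem ψ⁻¹ _ fun g hg => a2.2.2 _ (p g hg).1 (p g hg).2.2
    (by rw [inv_inv]; exact (p g hg).2.1)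
  refine ⟨ψ, subset_closure (Or.inl ⟨_, _, ⟨wd L1 ++ [h.1], [h.1⁻¹] ++ h.2.1⁻¹ :: wd L2,
    by rw [hW]; simp, by simp [mul_assoc]⟩, a1⟩), ⟨le_antisymm ?_ fun x hx => ?_, ?_⟩, ?_⟩
  · rintro _ ⟨x, hx, rfl⟩
    exact n1 x hx
  · exact ⟨ψ⁻¹ x, n2 x hx, by simp⟩
  · rw [a3, mul_inv_cancel_right]
    refine subset_normalClosure ⟨_, ?_, rfl⟩
    have hn : (KA (L1 ++ h :: L2)).Normal := normalClosure_normal
    have := hn.conj_mem _ (inv_mem (subset_normalClosure ⟨h, hL, rfl⟩))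
      ((wd L2).prod⁻¹ * h.2.1)
    simpa [mul_assoc] using this
  · refine isConj_iff.2 ⟨h.2.1⁻¹ * (wd L2).prod, ?_⟩
    rw [tr, a3]
    simp [tt, mul_assoc]

end Pool.Agent.MP_4a02af_gt

end PartPLem

section PartPSuf

open Monoid Monoid.Coprod Subgroup

namespace Pool.Agent.MP_4a02af_gt

section

variable {G : Type} [Group G]

theorem cons_PSuf (a : G) (B : List G) (v c : G) :
    Suf (a :: B) v c ↔ (v = a ∧ c = B.prod) ∨ Suf B v c := by
  constructor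
  · rintro ⟨A, B', h, rfl⟩
    cases A with
    | nil =>
      obtain ⟨h1, h2⟩ := List.cons.inj h
      exact Or.inl ⟨h1.symm, by rw [h2]⟩
    | cons x A => exact Or.inr ⟨A, B', (List.cons.inj h).2, rfl⟩
  · rintro (⟨rfl, rfl⟩ | ⟨A, B', rfl, rfl⟩)
    · exact ⟨[], B, rfl, rfl⟩
    · exact ⟨a :: A, B', rfl, rfl⟩

theorem nil_PSuf (v c : G) : ¬ Suf [] v c := by
  rintro ⟨A, B, h, -⟩
  simp at h

theorem append_PSuf (A B : List G) (v c : G) :
    Suf (A ++ B) v c ↔ (∃ d, Suf A v d ∧ c = d * B.prod) ∨ Suf B v c := by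
  induction A with
  | nil => simp [nil_PSuf]
  | cons a A ih =>
    rw [List.cons_append, cons_PSuf, ih, List.prod_append]
    simp only [cons_PSuf, or_and_right, exists_or, and_assoc, exists_and_left, exists_eq_left,
      or_assoc]

theorem mem_PSuf (W : List G) (v : G) : v ∈ W ↔ ∃ c, Suf W v c := by
  constructor
  · intro h
    obtain ⟨A, B, rfl⟩ := List.append_of_mem h
    exact ⟨B.prod, A, B, rfl, rfl⟩
  · rintro ⟨c, A, B, rfl, -⟩
    simp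

theorem uniq_PSuf (W : List G) (v c c' : G) (hW : W.Nodup) (h : Suf W v c) (h' : Suf W v c') :
    c = c' := by
  induction W with
  | nil => exact absurd h (nil_PSuf v c)
  | cons a W ih =>
    rw [List.nodup_cons] at hW
    rw [cons_PSuf] at h h'
    rcases h with ⟨h1, h2⟩ | h <;> rcases h' with ⟨h3, h4⟩ | h'
    · rw [h2, h4]
    · exact absurd (h1 ▸ (mem_PSuf W v).2 ⟨c', h'⟩) hW.1
    · exact absurd (h3 ▸ (mem_PSuf W v).2 ⟨c, h⟩) hW.1
    · exact ih hW.2 h h'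

theorem perm_PSuf {W W' R : List G} {y Y p q z : G} (h : W.Perm (y :: Y :: z :: R))
    (h' : W'.Perm (p :: q :: z :: R)) (hW : W.Nodup) (hW' : W'.Nodup) :
    (∀ v, v ∈ W' ↔ (v ∈ W ∧ v ≠ y ∧ v ≠ Y) ∨ v = p ∨ v = q) ∧
    (∀ v ∈ W, v ≠ y → v ≠ Y → v ≠ p ∧ v ≠ q) ∧ z ≠ y ∧ z ≠ Y ∧ z ≠ p ∧ z ≠ q ∧ y ≠ Y := by
  have h1 := h.nodup_iff.1 hW
  have h2 := h'.nodup_iff.1 hW'
  simp only [List.nodup_cons, List.mem_cons, not_or] at h1 h2
  obtain ⟨⟨a1, a2, a3⟩, ⟨a4, a5⟩, -⟩ := h1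
  obtain ⟨⟨-, b2, b3⟩, ⟨b4, b5⟩, -⟩ := h2
  refine ⟨fun v => ?_, fun v hv hy hY => ?_, Ne.symm a2, Ne.symm a4, Ne.symm b2, Ne.symm b4, a1⟩
  · rw [h.mem_iff, h'.mem_iff]
    simp only [List.mem_cons]
    constructor
    · rintro (e | e | e | e)
      · exact Or.inr (Or.inl e)
      · exact Or.inr (Or.inr e)
      · exact Or.inl ⟨Or.inr (Or.inr (Or.inl e)), e ▸ Ne.symm a2, e ▸ Ne.symm a4⟩
      · exact Or.inl ⟨Or.inr (Or.inr (Or.inr e)), fun e' => a3 (e' ▸ e), fun e' => a5 (e' ▸ e)⟩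
    · rintro (⟨e | e | e | e, e1, e2⟩ | e | e)
      · exact absurd e e1
      · exact absurd e e2
      · exact Or.inr (Or.inr (Or.inl e))
      · exact Or.inr (Or.inr (Or.inr e))
      · exact Or.inl e
      · exact Or.inr (Or.inl e)
  · rw [h.mem_iff] at hv
    simp only [List.mem_cons] at hv
    rcases hv with e | e | e | e
    · exact absurd e hy
    · exact absurd e hY
    · exact ⟨e ▸ Ne.symm b2, e ▸ Ne.symm b4⟩
    · exact ⟨fun e' => b3 (e' ▸ e), fun e' => b5 (e' ▸ e)⟩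

end

theorem pSuf : PSuf := by
  intro G _
  refine ⟨uniq_PSuf, mem_PSuf, ?_⟩
  classical
  rintro W W' y z ⟨A, B, C, ⟨rfl, rfl⟩ | ⟨rfl, rfl⟩⟩ hW hW'
  · refine ⟨fun v c h1 h2 h3 h4 h5 => ?_, ?_, perm_PSuf (R := A ++ B ++ C) ?_ ?_ hW hW'⟩
    · simp only [List.append_assoc, List.cons_append, append_PSuf, cons_PSuf, h1, h2, h3, h4, h5,
        false_and, false_or]
      simp only [List.prod_cons, List.prod_append, mul_inv_rev, mul_assoc, mul_inv_cancel_left]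
    · refine ⟨B.prod * (y⁻¹ * C.prod), C.prod, ⟨A ++ [y], B ++ y⁻¹ :: C, by simp, by simp⟩,
        ⟨A, z :: B ++ y⁻¹ :: C, by simp, by simp⟩,
        ⟨A, B ++ z :: (y * z)⁻¹ :: C, by simp, by simp [mul_assoc]⟩,
        ⟨A ++ y :: z :: B, C, rfl, rfl⟩, ⟨A ++ (y * z) :: B ++ [z], C, by simp, rfl⟩⟩
    · refine List.perm_iff_count.2 fun a => ?_
      simp only [List.count_append, List.count_cons]
      ring
    · refine List.perm_iff_count.2 fun a => ?_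
      simp only [List.count_append, List.count_cons]
      ring
  · refine ⟨fun v c h1 h2 h3 h4 h5 => ?_, ?_, perm_PSuf (R := A ++ B ++ C) ?_ ?_ hW hW'⟩
    · simp only [List.append_assoc, List.cons_append, append_PSuf, cons_PSuf, h1, h2, h3, h4, h5,
        false_and, false_or]
      simp only [List.prod_cons, List.prod_append, mul_inv_rev, mul_assoc, mul_inv_cancel_left]
    · refine ⟨C.prod, B.prod * (y * (z * C.prod)), ⟨A ++ y⁻¹ :: B ++ [y], C, by simp, rfl⟩,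
        ⟨A ++ y⁻¹ :: B, z :: C, rfl, by simp⟩,
        ⟨A ++ z :: (y * z)⁻¹ :: B, C, rfl, rfl⟩,
        ⟨A, B ++ y :: z :: C, by simp, by simp⟩,
        ⟨A ++ [z], B ++ (y * z) :: C, by simp, by simp [mul_assoc]⟩⟩
    · refine List.perm_iff_count.2 fun a => ?_
      simp only [List.count_append, List.count_cons]
      ring
    · refine List.perm_iff_count.2 fun a => ?_
      simp only [List.count_append, List.count_cons]
      ring

end Pool.Agent.MP_4a02af_gt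

end PartPSuf

section PartPSl

open Monoid Monoid.Coprod Subgroup

namespace Pool.Agent.MP_4a02af_gt

section

variable {G : Type} [Group G]

theorem finv_PSl {ψ φ : MulAut (G ∗ F2)} {v : G} (h : ψ (inl v) = φ (inl v)) :
    ψ (inl v⁻¹) = φ (inl v⁻¹) := by
  rw [map_inv, map_inv, map_inv, h]

theorem fix_inv_PSl {ψ : MulAut (G ∗ F2)} {v : G} (h : ψ (inl v) = inl v) :
    ψ (inl v⁻¹) = inl v⁻¹ := by
  rw [map_inv, map_inv, h]

theorem fix_mul_PSl {ψ : MulAut (G ∗ F2)} {u v : G} (h : ψ (inl u) = inl u)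
    (h' : ψ (inl v) = inl v) : ψ (inl (u * v)) = inl (u * v) := by
  rw [map_mul, map_mul, h, h']

theorem dl_mul_PSl (z c : G) : dl (z * c) = inl z * dl c * (inl z)⁻¹ := by
  simp only [dl, map_mul]
  group

theorem zc_PSl {w : G} (W : List G) {ψ : MulAut (G ∗ F2)} (h : Zc w ψ) : ψ ∈ D0 w W :=
  subset_closure (Or.inr h)

theorem el_PSl {w y c : G} {W : List G} {ψ : MulAut (G ∗ F2)} (hs : Suf W y c)
    (h : ElAt w W y c ψ) : ψ ∈ D0 w W :=
  subset_closure (Or.inl ⟨y, c, hs, h⟩)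

/-- pushes that agree on the letters differ by a twist -/
theorem tool_PSl (h1 : BSys) (h3 : PGrp) {w : G} {W : List G} (hW : Sys W)
    {ψ φ : MulAut (G ∗ F2)} (hψ : PU w ψ) (hφ : PU w φ)
    (h : ∀ v ∈ W, ψ (inl v) = φ (inl v)) : Zc w (φ⁻¹ * ψ) :=
  (h3 G w).2.2.2.2.2.2.1 ψ φ hψ hφ fun γ => DFunLike.congr_fun
    (h1.1 G (G ∗ F2) W (ψ.toMonoidHom.comp inl) (φ.toMonoidHom.comp inl) hW h) γ

/-- from the inverse letter to the letter -/
theorem pair_PSl (h4 : PLem) (h5 : PSuf) {w z c : G} {W : List G} (V : List G) (hW : Sys W)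
    (hw : W.prod = w) (hc : Suf W z c)
    (h : ∀ s φ, Suf W z⁻¹ s → ElAt w W z⁻¹ s φ → φ ∈ D0 w V) {ψ : MulAut (G ∗ F2)}
    (hψ : ElAt w W z c ψ) : ψ ∈ D0 w V := by
  obtain ⟨s, hs⟩ := ((h5 G).2.1 W z⁻¹).mp (hW.2.1 z (((h5 G).2.1 W z).mpr ⟨c, hc⟩)).1
  obtain ⟨φ, hφ⟩ := (h4 G w W z⁻¹ s hW hw hs).1
  have h6 := zc_PSl V (((h4 G w W z c hW hw hc).2 ψ s hψ hs).2 φ hφ)
  exact (Subgroup.mul_mem_cancel_right _ (h s φ hs hφ)).mp h6

end

theorem pSl (h1 : BSys) (h2 : ZSl) (h3 : PGrp) (h4 : PLem) (h5 : PSuf) : PSl := by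
  intro G _ w W W' hW hw hS
  obtain ⟨hp, -, hS'⟩ := (h2 G).1 W W' hS
  have hW' : Sys W' := hS'.mp hW
  have hw' : W'.prod = w := hp.trans hw
  obtain ⟨y, z, -, hD⟩ := hS
  obtain ⟨uq, ms, hsl⟩ := h5 G
  obtain ⟨s1, ⟨c, c', sz, sy, syz, sy', syz'⟩, mem, ne4, n1, n2, n3, n4, -⟩ :=
    hsl W W' y z hD hW.1 hW'.1
  have my : y ∈ W := (ms W y).mpr ⟨_, sy⟩
  have mz : z ∈ W := (ms W z).mpr ⟨_, sz⟩
  have mz' : z ∈ W' := (mem z).mpr (Or.inl ⟨mz, n1, n2⟩)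
  have myz : y * z ∈ W' := (mem _).mpr (Or.inr (Or.inl rfl))
  have mzi : z⁻¹ ∈ W := (hW.2.1 z mz).1
  have n5 : z⁻¹ ≠ z := (hW.2.1 z mz).2
  have n6 : z⁻¹ ≠ y := fun h => n2 (by rw [← h, inv_inv])
  have n7 : z⁻¹ ≠ y⁻¹ := fun h => n1 (inv_injective h)
  obtain ⟨n8, n9⟩ := ne4 z⁻¹ mzi n6 n7
  have sw : ∀ {a b : G}, a ≠ b⁻¹ → b ≠ a⁻¹ := fun h h' => h (by rw [h', inv_inv])
  have down : ∀ u ∈ W', u ≠ y * z → u ≠ (y * z)⁻¹ → u ∈ W ∧ u ≠ y ∧ u ≠ y⁻¹ := fun u hu a b =>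
    ((mem u).mp hu).resolve_right fun h => h.elim a b
  have up : ∀ u ∈ W, u ≠ y → u ≠ y⁻¹ → u ∈ W' := fun u hu a b => (mem u).mpr (Or.inl ⟨hu, a, b⟩)
  have ea : ∀ v ∈ W, v ≠ y → v ≠ y⁻¹ → v ≠ z → v ≠ z⁻¹ → ∀ s ψ,
      ElAt w W v s ψ ↔ ElAt w W' v s ψ := by
    intro v hv a1 a2 a3 a4 s ψ
    obtain ⟨a5, a6⟩ := ne4 v hv a1 a2
    refine ⟨fun h => ⟨h.1, h.2.1, fun u hu b1 b2 => ?_⟩, fun h => ⟨h.1, h.2.1, fun u hu b1 b2 => ?_⟩⟩
    · have e := fix_mul_PSl (h.2.2 y my a1.symm (sw a2)) (h.2.2 z mz a3.symm (sw a4))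
      rcases (mem u).mp hu with h6 | rfl | rfl
      exacts [h.2.2 u h6.1 b1 b2, e, fix_inv_PSl e]
    · have e := fix_mul_PSl (h.2.2 _ myz a5.symm (sw a6))
        (fix_inv_PSl (h.2.2 z mz' a3.symm (sw a4)))
      rw [mul_inv_cancel_right] at e
      by_cases k1 : u = y
      · rw [k1, e]
      by_cases k2 : u = y⁻¹
      · rw [k2, fix_inv_PSl e]
      exact h.2.2 u (up u hu k1 k2) b1 b2
  have eb : ∀ ψ, ElAt w W y (z * c) ψ ↔ ElAt w W' (y * z) c ψ := by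
    intro ψ
    refine ⟨fun h => ⟨h.1, ?_, fun u hu b1 b2 => ?_⟩, fun h => ⟨h.1, ?_, fun u hu b1 b2 => ?_⟩⟩
    · rw [map_mul, map_mul, h.2.1, h.2.2 z mz n1 n2, dl_mul_PSl]
      group
    · obtain ⟨k1, k2, k3⟩ := down u hu b1 b2
      exact h.2.2 u k1 k2 k3
    · have e := h.2.1
      rw [map_mul, map_mul, h.2.2 z mz' n3 n4] at e
      rw [dl_mul_PSl, eq_mul_inv_of_mul_eq e]
      group
    · exact h.2.2 u (up u hu b1 b2) (ne4 u hu b1 b2).1 (ne4 u hu b1 b2).2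
  have ec : ∀ ψ, ElAt w W y⁻¹ c' ψ ↔ ElAt w W' (y * z)⁻¹ c' ψ := by
    intro ψ
    refine ⟨fun h => ⟨h.1, ?_, fun u hu b1 b2 => ?_⟩, fun h => ⟨h.1, ?_, fun u hu b1 b2 => ?_⟩⟩
    · have e := fix_inv_PSl (h.2.2 z mz n2 (by rwa [inv_inv]))
      rw [mul_inv_rev, map_mul, map_mul, h.2.1, e, mul_assoc]
    · rw [inv_inv] at b2
      obtain ⟨k1, k2, k3⟩ := down u hu b2 b1
      exact h.2.2 u k1 k3 (by rwa [inv_inv])
    · have e := h.2.1
      have e' := fix_inv_PSl (h.2.2 z mz' n4 (by rwa [inv_inv]))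
      rw [mul_inv_rev, map_mul, map_mul, e', mul_assoc] at e
      exact mul_left_cancel e
    · rw [inv_inv] at b2
      exact h.2.2 u (up u hu b2 b1) (ne4 u hu b2 b1).2 (by
        rw [inv_inv]
        exact (ne4 u hu b2 b1).1)
  have ss : ∀ s, Suf W z⁻¹ s ↔ Suf W' z⁻¹ s := fun s => s1 z⁻¹ s n6 n7 n5 n8 n9
  obtain ⟨ρ, hρ⟩ := (h4 G w W y (z * c) hW hw sy).1
  have ed : ∀ s π π', Suf W z⁻¹ s → ElAt w W z⁻¹ s π → ElAt w W' z⁻¹ s π' →
      Zc w ((π * ρ)⁻¹ * π') := by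
    intro s π π' hs hπ hπ'
    refine tool_PSl h1 h3 hW hπ'.1 ((h3 G w).2.1 π ρ hπ.1 hρ.1).1 fun u hu => ?_
    have e1 := ((h4 G w W z⁻¹ s hW hw hs).2 π c hπ (by rwa [inv_inv])).1
    rw [inv_inv] at e1
    have e2 : π' (inl y) = (π * ρ) (inl y) := by
      have k1 := hπ'.2.2 _ myz n8.symm (sw n9)
      have k2 : π' (inl y) = π' (inl (y * z)) * π' (inl z⁻¹) := by
        rw [← map_mul, ← map_mul, mul_inv_cancel_right]
      rw [k2, k1, hπ'.2.1, MulAut.mul_apply, hρ.2.1, map_mul π, e1, hπ.2.2 y my n6.symm (sw n7),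
        ← mul_assoc, ← map_mul, mul_inv_cancel_right]
    have e3 : π' (inl z⁻¹) = (π * ρ) (inl z⁻¹) := by
      rw [MulAut.mul_apply, hρ.2.2 _ mzi n6 n7, hπ.2.1, hπ'.2.1]
    by_cases k1 : u = y
    · rw [k1, e2]
    by_cases k2 : u = y⁻¹
    · rw [k2, finv_PSl e2]
    by_cases k3 : u = z⁻¹
    · rw [k3, e3]
    by_cases k4 : u = z⁻¹⁻¹
    · rw [k4, finv_PSl e3]
    rw [MulAut.mul_apply, hρ.2.2 u hu k1 k2, hπ.2.2 u hu k3 k4, hπ'.2.2 u (up u hu k1 k2) k3 k4]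
  have d1 : ∀ s φ, Suf W z⁻¹ s → ElAt w W z⁻¹ s φ → φ ∈ D0 w W' := by
    intro s φ hs hφ
    obtain ⟨π', hπ'⟩ := (h4 G w W' z⁻¹ s hW' hw' ((ss s).mp hs)).1
    have k1 := (Subgroup.mul_mem_cancel_right _ (el_PSl ((ss s).mp hs) hπ')).mp
      (zc_PSl W' (ed s φ π' hs hφ hπ'))
    exact (Subgroup.mul_mem_cancel_right _ (el_PSl syz ((eb ρ).mp hρ))).mp (inv_mem_iff.mp k1)
  have d2 : ∀ s φ, Suf W' z⁻¹ s → ElAt w W' z⁻¹ s φ → φ ∈ D0 w W := by
    intro s φ hs hφ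
    obtain ⟨π, hπ⟩ := (h4 G w W z⁻¹ s hW hw ((ss s).mpr hs)).1
    exact (Subgroup.mul_mem_cancel_left _ (inv_mem (mul_mem (el_PSl ((ss s).mpr hs) hπ)
      (el_PSl sy hρ)))).mp (zc_PSl W (ed s π φ ((ss s).mpr hs) hπ hφ))
  refine le_antisymm ((closure_le _).mpr ?_) ((closure_le _).mpr ?_)
  · rintro ψ (⟨v, s, hs, h⟩ | h)
    swap
    · exact zc_PSl W' h
    have hv : v ∈ W := (ms W v).mpr ⟨s, hs⟩
    by_cases k1 : v = y
    · rw [k1] at hs h
      rw [uq W y s _ hW.1 hs sy] at h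
      exact el_PSl syz ((eb ψ).mp h)
    by_cases k2 : v = y⁻¹
    · rw [k2] at hs h
      rw [uq W y⁻¹ s _ hW.1 hs sy'] at h
      exact el_PSl syz' ((ec ψ).mp h)
    by_cases k3 : v = z
    · rw [k3] at hs h
      exact pair_PSl h4 h5 W' hW hw hs d1 h
    by_cases k4 : v = z⁻¹
    · rw [k4] at hs h
      exact d1 s ψ hs h
    exact el_PSl ((s1 v s k1 k2 k3 (ne4 v hv k1 k2).1 (ne4 v hv k1 k2).2).mp hs)
      ((ea v hv k1 k2 k3 k4 s ψ).mp h)
  · rintro ψ (⟨v, s, hs, h⟩ | h)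
    swap
    · exact zc_PSl W h
    have hv' : v ∈ W' := (ms W' v).mpr ⟨s, hs⟩
    by_cases k1 : v = y * z
    · rw [k1] at hs h
      rw [uq W' _ s _ hW'.1 hs syz] at h
      exact el_PSl sy ((eb ψ).mpr h)
    by_cases k2 : v = (y * z)⁻¹
    · rw [k2] at hs h
      rw [uq W' _ s _ hW'.1 hs syz'] at h
      exact el_PSl sy' ((ec ψ).mpr h)
    obtain ⟨hv, a1, a2⟩ := down v hv' k1 k2
    by_cases k3 : v = z
    · rw [k3] at hs h
      exact pair_PSl h4 h5 W hW' hw' hs d2 h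
    by_cases k4 : v = z⁻¹
    · rw [k4] at hs h
      exact d2 s ψ hs h
    exact el_PSl ((s1 v s a1 a2 k3 k1 k2).mpr hs) ((ea v hv a1 a2 k3 k4 s ψ).mpr h)

end Pool.Agent.MP_4a02af_gt

end PartPSl

section PartPDual

open Monoid Monoid.Coprod Subgroup

namespace Pool.Agent.MP_4a02af_gt

/-- `φ` fixes all letters except `y` and its inverse -/
def Fx_PDual {G : Type} [Group G] (W : List G) (y : G) (φ : G → G) : Prop :=
  ∀ v ∈ W, v ≠ y → v ≠ y⁻¹ → φ v = v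

theorem elem_PDual (h1 : BSys) {G : Type} [Group G] {W : List G} (hW : Sys W) {y : G}
    (hy : y ∈ W) (u v : G) (s : ℤ) (hs : s * s = 1)
    (huv : ∀ φ : G →* G, Fx_PDual W y φ → φ u = u ∧ φ v = v) :
    ∃ e : G ≃* G, e y = u * y ^ s * v ∧ Fx_PDual W y e := by
  obtain ⟨f, f1, f2⟩ := h1.2.2.2.2 G G W y (MonoidHom.id G) (u * y ^ s * v) hW hy
  obtain ⟨g, g1, g2⟩ := h1.2.2.2.2 G G W y (MonoidHom.id G) ((u⁻¹ * y * v⁻¹) ^ s) hW hy
  have key : ∀ p q : G →* G, Fx_PDual W y p → Fx_PDual W y q → p (q y) = y →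
      p.comp q = MonoidHom.id G := by
    intro p q hp hq h
    refine h1.1 G G W _ _ hW fun x hx => ?_
    by_cases e1 : x = y
    · rw [e1]
      exact h
    by_cases e2 : x = y⁻¹
    · rw [e2, map_inv, map_inv]
      exact congrArg _ h
    · rw [MonoidHom.comp_apply, hq x hx e1 e2, hp x hx e1 e2]
      rfl
  refine ⟨MonoidHom.toMulEquiv f g (key g f g2 f2 ?_) (key f g f2 g2 ?_), f1, f2⟩
  · rw [f1, map_mul, map_mul, map_zpow, g1, (huv g g2).1, (huv g g2).2, ← zpow_mul, hs]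
    group
  · rw [g1, map_zpow, map_mul, map_mul, map_inv, map_inv, f1, (huv f f2).1, (huv f f2).2]
    have : u⁻¹ * (u * y ^ s * v) * v⁻¹ = y ^ s := by group
    rw [this, ← zpow_mul, hs, zpow_one]

theorem prod_PDual {G : Type} [Group G] (φ : G →* G) (Z : List G) (h : ∀ v ∈ Z, φ v = v) :
    φ Z.prod = Z.prod := by
  rw [map_list_prod, List.map_congr_left h, List.map_id']

theorem eps_PDual (h1 : BSys) {G : Type} [Group G] {W : List G} (hW : Sys W) {a b : G}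
    (ha : a ∈ W) (hb : b ∈ W) (hab : a ≠ b) (hab' : a ≠ b⁻¹) (Z : List G)
    (hZ : ∀ v ∈ Z, v ∈ W ∧ v ≠ a ∧ v ≠ a⁻¹ ∧ v ≠ b ∧ v ≠ b⁻¹) :
    ∃ e : G ≃* G, e a = Z.prod⁻¹ * (b * a⁻¹ * b⁻¹) * Z.prod ∧
      e b = Z.prod⁻¹ * (b * a * b * a⁻¹ * b⁻¹) * Z.prod ∧
      ∀ v ∈ W, v ≠ a → v ≠ a⁻¹ → v ≠ b → v ≠ b⁻¹ → e v = v := by
  have hba : b ≠ a⁻¹ := fun h => hab' (by rw [h, inv_inv])
  have za : ∀ φ : G →* G, Fx_PDual W a φ → φ Z.prod = Z.prod := fun φ h =>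
    prod_PDual φ Z fun v hv => h v (hZ v hv).1 (hZ v hv).2.1 (hZ v hv).2.2.1
  have zb : ∀ φ : G →* G, Fx_PDual W b φ → φ Z.prod = Z.prod := fun φ h =>
    prod_PDual φ Z fun v hv => h v (hZ v hv).1 (hZ v hv).2.2.2.1 (hZ v hv).2.2.2.2
  obtain ⟨p, p1, p2⟩ := elem_PDual h1 hW ha b b⁻¹ (-1) (by norm_num) fun φ h =>
    ⟨h b hb hab.symm hba, by rw [map_inv, h b hb hab.symm hba]⟩
  obtain ⟨q, q1, q2⟩ := elem_PDual h1 hW hb a⁻¹ a 1 (by norm_num) fun φ h =>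
    ⟨by rw [map_inv, h a ha hab hab'], h a ha hab hab'⟩
  obtain ⟨r, r1, r2⟩ := elem_PDual h1 hW ha Z.prod⁻¹ Z.prod 1 (by norm_num) fun φ h =>
    ⟨by rw [map_inv, za φ h], za φ h⟩
  obtain ⟨t, t1, t2⟩ := elem_PDual h1 hW hb Z.prod⁻¹ Z.prod 1 (by norm_num) fun φ h =>
    ⟨by rw [map_inv, zb φ h], zb φ h⟩
  have pb := p2 b hb hab.symm hba
  have qa := q2 a ha hab hab'
  have rb := r2 b hb hab.symm hba
  have ta := t2 a ha hab hab'
  have rz : r Z.prod = Z.prod := za r.toMonoidHom r2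
  refine ⟨((q.trans p).trans t).trans r, ?_, ?_, fun v hv h₁ h₂ h₃ h₄ => ?_⟩
  · simp only [MulEquiv.trans_apply, qa, p1, map_mul, map_inv, map_zpow, t1, ta, r1, rb, rz]
    group
  · simp only [MulEquiv.trans_apply, q1, p1, pb, map_mul, map_inv, map_zpow, t1, ta, r1, rb, rz]
    group
  · simp only [MulEquiv.trans_apply, q2 v hv h₃ h₄, p2 v hv h₁ h₂, t2 v hv h₃ h₄, r2 v hv h₁ h₂]

theorem pDual (h1 : BSys) : PDual := by
  intro G _ L hL
  have key : ∀ L₁ L₂ : List (Hd G), L = L₁ ++ L₂ → ∃ α : G ≃* G, (∀ v ∈ wd L₂, α v = v) ∧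
      ∀ (A : List (Hd G)) h B, L₁ = A ++ h :: B →
        α h.1 = (wd (B ++ L₂)).prod⁻¹ * (h.2.1 * h.1⁻¹ * h.2.1⁻¹) * (wd (B ++ L₂)).prod ∧
        α h.2.1 = (wd (B ++ L₂)).prod⁻¹ * (h.2.1 * h.1 * h.2.1 * h.1⁻¹ * h.2.1⁻¹) *
          (wd (B ++ L₂)).prod := by
    intro L₁
    induction L₁ using List.reverseRecOn with
    | nil => exact fun L₂ _ => ⟨MulEquiv.refl G, fun _ _ => rfl, fun A h B e => by simp at e⟩
    | append_singleton L₀ h ih =>
      intro L₂ e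
      rw [List.append_assoc, List.singleton_append] at e
      obtain ⟨α, α1, α2⟩ := ih (h :: L₂) e
      have hW : wd L = wd L₀ ++ h.1 :: h.2.1 :: h.1⁻¹ :: h.2.1⁻¹ :: wd L₂ := by
        rw [e, wd_append, wd_cons]
      have nd := hL.1
      rw [hW, List.nodup_append] at nd
      obtain ⟨-, n1, n2⟩ := nd
      simp only [List.nodup_cons, List.mem_cons, not_or] at n1
      have m2 : ∀ v ∈ wd L₂, v ∈ wd L ∧ v ≠ h.1 ∧ v ≠ h.1⁻¹ ∧ v ≠ h.2.1 ∧ v ≠ h.2.1⁻¹ := by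
        intro v hv
        refine ⟨by simp [hW, hv], ?_, ?_, ?_, ?_⟩ <;> rintro rfl
        exacts [n1.1.2.2.2 hv, n1.2.2.1.2 hv, n1.2.1.2.2 hv, n1.2.2.2.1 hv]
      obtain ⟨ε, e1, e2, e3⟩ := eps_PDual h1 hL (a := h.1) (b := h.2.1) (by simp [hW])
        (by simp [hW]) n1.1.1 n1.1.2.2.1 (wd L₂) m2
      have m0 : ∀ v ∈ wd L₀, ε v = v := fun v hv =>
        e3 v (by simp [hW, hv]) (n2 v hv _ (by simp)) (n2 v hv _ (by simp))
          (n2 v hv _ (by simp)) (n2 v hv _ (by simp))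
      have f2 : ∀ v ∈ wd L₂, α v = v := fun v hv => α1 v (by simp [wd_cons, hv])
      refine ⟨ε.trans α, fun v hv => ?_, fun A h' B e' => ?_⟩
      · obtain ⟨k0, k1, k2, k3, k4⟩ := m2 v hv
        rw [MulEquiv.trans_apply, e3 v k0 k1 k2 k3 k4, f2 v hv]
      rcases List.eq_nil_or_concat' B with rfl | ⟨B', x, rfl⟩
      · obtain ⟨-, e''⟩ := List.append_inj' e' rfl
        obtain rfl : h = h' := by simpa using e''
        have fa := α1 h.1 (by simp [wd_cons])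
        have fb := α1 h.2.1 (by simp [wd_cons])
        have fz : α (wd L₂).prod = (wd L₂).prod := prod_PDual α.toMonoidHom _ f2
        simp only [MulEquiv.trans_apply, e1, e2, map_mul, map_inv, fa, fb, fz, List.nil_append,
          and_self]
      · rw [← List.cons_append, ← List.append_assoc] at e'
        obtain ⟨e₀, e''⟩ := List.append_inj' e' rfl
        obtain rfl : h = x := by simpa using e''
        have := α2 A h' B' e₀
        rw [MulEquiv.trans_apply, MulEquiv.trans_apply,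
          m0 _ (by simp [e₀, wd_append, wd_cons]), m0 _ (by simp [e₀, wd_append, wd_cons]),
          List.append_assoc, List.singleton_append]
        exact this
  obtain ⟨α, -, h⟩ := key L [] (List.append_nil L).symm
  exact ⟨α, fun L₁ x L₂ e => by simpa only [List.append_nil] using h L₁ x L₂ e⟩

end Pool.Agent.MP_4a02af_gt

end PartPDual

section PartPKer

open Monoid Monoid.Coprod Subgroup

namespace Pool.Agent.MP_4a02af_gt

theorem sel_PKer {G H : Type} [Group G] [Group H] (W : List G) (P : G → H → Prop)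
    (hW : ∀ v ∈ W, v⁻¹ ∈ W ∧ v⁻¹ ≠ v) (h : ∀ v ∈ W, ∃ x, P v x ∧ P v⁻¹ x⁻¹) :
    ∃ f : G → H, ∀ v ∈ W, P v (f v) ∧ f v⁻¹ = (f v)⁻¹ := by
  classical
  choose! g hg using h
  refine ⟨fun v => if WellOrderingRel v v⁻¹ then g v else (g v⁻¹)⁻¹, fun v hv => ?_⟩
  have h1 := hg v⁻¹ (hW v hv).1
  rw [inv_inv] at h1
  rcases trichotomous_of WellOrderingRel v v⁻¹ with h | h | h
  · simp only [inv_inv, if_pos h, if_neg (asymm h)]
    exact ⟨(hg v hv).1, trivial⟩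
  · exact ((hW v hv).2 h.symm).elim
  · simp only [inv_inv, if_pos h, if_neg (asymm h)]
    exact ⟨h1.2, trivial⟩

theorem mem_PKer {G : Type} [Group G] {L : List (Hd G)} {v : G} (hv : v ∈ wd L) :
    ∃ L₁ h L₂, L = L₁ ++ h :: L₂ ∧ (v = h.1 ∨ v = h.2.1 ∨ v = h.1⁻¹ ∨ v = h.2.1⁻¹) := by
  obtain ⟨h, hh, hv'⟩ := List.mem_flatMap.1 hv
  obtain ⟨L₁, L₂, e⟩ := List.append_of_mem hh
  exact ⟨L₁, h, L₂, e, by simpa only [List.mem_cons, List.not_mem_nil, or_false] using hv'⟩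

theorem tr_PKer {G : Type} [Group G] {ψ : MulAut (G ∗ F2)} {x : G} (h : ψ tt = inl x * tt) :
    tr ψ = x := by
  rw [tr, h]
  simp [tt]

theorem pKer (h1 : BSys) (h2 : PGrp) (h3 : PEx) (h4 : PLem) (h5 : PCen) (h6 : PDual) (h7 : PSuf) :
    PKer := by
  have _ := h4
  intro G _ w L ⟨hS, hw⟩
  obtain ⟨g1, gm, gi, -, -, gD, gZ, gc⟩ := h2 G w
  obtain ⟨α, hα⟩ := h6 G L hS
  let P : G → MulAut (G ∗ F2) → Prop := fun y ψ => ∃ c, Suf (wd L) y c ∧ ElAt w (wd L) y c ψ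
  have agree : ∀ y ψ φ, P y ψ → P y φ → Zc w (φ⁻¹ * ψ) := by
    rintro y ψ φ ⟨c, a1, a2⟩ ⟨c', b1, b2⟩
    obtain rfl := (h7 G).1 _ _ _ _ hS.1 a1 b1
    have e := h1.1 G _ (wd L) (ψ.toMonoidHom.comp inl) (φ.toMonoidHom.comp inl) hS fun v hv => by
      change ψ (inl v) = φ (inl v)
      by_cases e1 : v = y
      · rw [e1, a2.2.1, b2.2.1]
      by_cases e2 : v = y⁻¹
      · rw [e2, map_inv, map_inv, map_inv, a2.2.1, b2.2.1]
      · rw [a2.2.2 v hv e1 e2, b2.2.2 v hv e1 e2]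
    exact gZ ψ φ a2.1 b2.1 (DFunLike.congr_fun e)
  have trz : ∀ ψ φ, PU w ψ → PU w φ → Zc w (φ⁻¹ * ψ) → tr ψ = tr φ := fun ψ φ a b c => by
    have := (h5 G w L _ hS c).2
    rwa [(gm _ _ (gi φ b).1 a).2, (gi φ b).2, mul_inv_eq_one] at this
  have hd : ∀ L₁ h L₂, L = L₁ ++ h :: L₂ →
      (∃ ψ, (P h.1 ψ ∧ P h.1⁻¹ ψ⁻¹) ∧ tr ψ = α h.2.1) ∧
      ∃ ψ, (P h.2.1 ψ ∧ P h.2.1⁻¹ ψ⁻¹) ∧ tr ψ = α h.1 := by
    intro L₁ ⟨a, b, f⟩ L₂ e
    obtain ⟨e1, e2⟩ := hα L₁ _ L₂ e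
    have e3 : wd L = wd L₁ ++ a :: b :: a⁻¹ :: b⁻¹ :: wd L₂ := by rw [e, wd_append, wd_cons]
    obtain ⟨ψ, a1, a2, a3⟩ := h3 G w (wd L) (wd L₁) [b] (b⁻¹ :: wd L₂) a hS hw (by simp [e3])
    obtain ⟨φ, b1, b2, b3⟩ := h3 G w (wd L) (wd L₁ ++ [a]) [a⁻¹] (wd L₂) b hS hw (by simp [e3])
    refine ⟨⟨ψ, ⟨⟨_, ⟨wd L₁, _, e3, by simp [mul_assoc]⟩, a1⟩,
        ⟨_, ⟨wd L₁ ++ [a, b], b⁻¹ :: wd L₂, by simp [e3], rfl⟩, a2⟩⟩, ?_⟩,
      ⟨φ, ⟨⟨_, ⟨wd L₁ ++ [a], a⁻¹ :: b⁻¹ :: wd L₂, by simp [e3], by simp [mul_assoc]⟩, b1⟩,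
        ⟨_, ⟨wd L₁ ++ [a, b, a⁻¹], wd L₂, by simp [e3], rfl⟩, b2⟩⟩, ?_⟩⟩
    · rw [tr_PKer a3, e2]
      simp [mul_assoc]
    · rw [tr_PKer b3, e1]
      simp [mul_assoc]
  obtain ⟨f, hf⟩ := sel_PKer (wd L) P hS.2.1 fun v hv => by
    obtain ⟨L₁, h, L₂, e, hv⟩ := mem_PKer hv
    obtain ⟨⟨ψ, a, -⟩, φ, b, -⟩ := hd L₁ h L₂ e
    rcases hv with rfl | rfl | rfl | rfl
    · exact ⟨ψ, a⟩
    · exact ⟨φ, b⟩
    · exact ⟨ψ⁻¹, a.2, by simpa only [inv_inv] using a.1⟩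
    · exact ⟨φ⁻¹, b.2, by simpa only [inv_inv] using b.1⟩
  obtain ⟨s, hs⟩ := hS.2.2.2 _ f fun v hv => (hf v hv).2
  have sP : ∀ v ∈ wd L, P v (s v) := fun v hv => hs v hv ▸ (hf v hv).1
  have sD : ∀ γ, s γ ∈ D0 w (wd L) := fun γ => by
    have : closure {v | v ∈ wd L} ≤ (D0 w (wd L)).comap s :=
      (closure_le _).2 fun v hv => subset_closure (Or.inl ⟨v, sP v hv⟩)
    exact this (hS.2.2.1 ▸ mem_top γ)
  have sU : ∀ γ, PU w (s γ) := fun γ => gD _ _ (sD γ)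
  let β : G →* G := MonoidHom.mk' (fun γ => α.symm (tr (s γ))⁻¹) fun γ δ => by
    rw [map_mul, (gm _ _ (sU γ) (sU δ)).2, mul_inv_rev, map_mul]
  have hβ : ∀ γ, β γ = α.symm (tr (s γ))⁻¹ := fun _ => rfl
  have ββ : ∀ γ, β (β γ) = γ := by
    refine DFunLike.congr_fun (h1.1 G G (wd L) (β.comp β) (MonoidHom.id G) hS fun v hv => ?_)
    obtain ⟨L₁, h, L₂, e, hv⟩ := mem_PKer hv
    obtain ⟨⟨ψ, ⟨a, -⟩, a'⟩, φ, ⟨b, -⟩, b'⟩ := hd L₁ h L₂ e
    have k : ∀ y z ψ, P y ψ → tr ψ = α z → β y = z⁻¹ := fun y z ψ ⟨c, a1, a2⟩ a' => by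
      rw [hβ, trz _ _ (sU y) a2.1 (agree y _ _ (sP y (((h7 G).2.1 _ _).2 ⟨c, a1⟩)) ⟨c, a1, a2⟩),
        a', map_inv, MulEquiv.symm_apply_apply]
    have k1 := k _ _ _ a a'
    have k2 := k _ _ _ b b'
    rcases hv with rfl | rfl | rfl | rfl <;> simp [k1, k2]
  refine ⟨fun γ => ⟨s (β (α.symm γ⁻¹)), sD _, ?_⟩, fun ψ hψ h0 => ?_⟩
  · exact inv_injective (α.symm.injective ((hβ _).symm.trans (ββ _)))
  have key : ∃ γ, Zc w ((s γ)⁻¹ * ψ) := by
    clear h0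
    induction hψ using closure_induction with
    | mem ψ h =>
      rcases h with ⟨y, c, a1, a2⟩ | h
      · exact ⟨y, agree y _ _ ⟨c, a1, a2⟩ (sP y (((h7 G).2.1 _ _).2 ⟨c, a1⟩))⟩
      · exact ⟨1, by simpa using h⟩
    | one => exact ⟨1, by simpa using ⟨g1, fun _ => rfl⟩⟩
    | mul ψ φ _ _ a b =>
      obtain ⟨γ, a⟩ := a
      obtain ⟨δ, b⟩ := b
      have c := gc _ _ (gi _ (sU δ)).1 a
      have e : (s (γ * δ))⁻¹ * (ψ * φ) =
          (s δ)⁻¹ * ((s γ)⁻¹ * ψ) * (s δ)⁻¹⁻¹ * ((s δ)⁻¹ * φ) := by rw [map_mul]; group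
      refine ⟨γ * δ, e ▸ ⟨(gm _ _ c.1 b.1).1, fun x => ?_⟩⟩
      rw [MulAut.mul_apply, b.2, c.2]
    | inv ψ _ a =>
      obtain ⟨γ, a⟩ := a
      have c : Zc w ((s γ)⁻¹ * ψ)⁻¹ := ⟨(gi _ a.1).1, fun x =>
        ((s γ)⁻¹ * ψ).symm_apply_eq.2 (a.2 x).symm⟩
      have e : (s γ⁻¹)⁻¹ * ψ⁻¹ = s γ * ((s γ)⁻¹ * ψ)⁻¹ * (s γ)⁻¹ := by rw [map_inv]; group
      exact ⟨γ⁻¹, e ▸ gc _ _ (sU γ) c⟩
  obtain ⟨γ, hγ⟩ := key
  have e := trz _ _ (gD _ _ hψ) (sU γ) hγ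
  have e' : γ = 1 := by rw [← ββ γ, hβ γ, ← e, h0, inv_one, map_one, map_one]
  simpa [e'] using hγ

end Pool.Agent.MP_4a02af_gt

end PartPKer

section PartPFoot

open Monoid Monoid.Coprod Subgroup

namespace Pool.Agent.MP_4a02af_gt

section

variable {G : Type} [Group G]

/-- the quarter turn of the last handle -/
def rho_PFoot (G : Type) [Group G] : G ∗ F2 ≃* G ∗ F2 :=
  MonoidHom.toMulEquiv
    (Coprod.lift inl (FreeGroup.lift fun b : Bool => if b then mm * tt * mm⁻¹ else mm⁻¹))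
    (Coprod.lift inl (FreeGroup.lift fun b : Bool => if b then tt⁻¹ else tt * mm * tt⁻¹))
    (by
      refine Coprod.hom_ext (MonoidHom.ext fun x => by simp) (FreeGroup.ext_hom _ _ fun b => ?_)
      cases b <;> simp [tt, mm, fa, fb, mul_assoc])
    (by
      refine Coprod.hom_ext (MonoidHom.ext fun x => by simp) (FreeGroup.ext_hom _ _ fun b => ?_)
      cases b <;> simp [tt, mm, fa, fb, mul_assoc])

theorem r1_PFoot (γ : G) : rho_PFoot G (inl γ) = inl γ := by simp [rho_PFoot]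

theorem r2_PFoot : rho_PFoot G tt = mm⁻¹ := by simp [rho_PFoot, tt, fa]

theorem r3_PFoot : rho_PFoot G mm = mm * tt * mm⁻¹ := by simp [rho_PFoot, mm, fb]

theorem back_PFoot {y : G ∗ F2} (hy : y ∈ normalClosure {(mm : G ∗ F2)}) :
    (rho_PFoot G).symm y ∈ normalClosure {(tt : G ∗ F2)} := by
  refine normalClosure_le_normal
    (N := (normalClosure {(tt : G ∗ F2)}).comap (rho_PFoot G).symm.toMonoidHom) ?_ hy
  rintro _ rfl
  have h : (rho_PFoot G).symm mm = tt⁻¹ := by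
    rw [MulEquiv.symm_apply_eq, map_inv, r2_PFoot, inv_inv]
  change (rho_PFoot G).symm mm ∈ normalClosure {(tt : G ∗ F2)}
  rw [h]
  exact inv_mem (subset_normalClosure rfl)

theorem le_PFoot (K : Subgroup G) :
    normalClosure {(tt : G ∗ F2)} ≤ ncs K (normalClosure {fa}) := by
  refine normalClosure_mono ?_
  rintro _ rfl
  exact Or.inr ⟨fa, subset_normalClosure rfl, rfl⟩

theorem into_PFoot (K : Subgroup G) (χ : G ∗ F2 →* G ∗ F2) (h1 : χ tt = tt)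
    (h2 : ∀ γ : G, χ (inl γ) * (inl γ)⁻¹ ∈ normalClosure {(tt : G ∗ F2)}) {y : G ∗ F2}
    (hy : y ∈ ncs K (normalClosure {fa})) : χ y ∈ ncs K (normalClosure {fa}) := by
  have : (ncs K (normalClosure {fa})).Normal := normalClosure_normal
  refine normalClosure_le_normal (N := (ncs K (normalClosure {fa})).comap χ) ?_ hy
  rintro _ (⟨γ, hγ, rfl⟩ | ⟨z, hz, rfl⟩)
  · have h3 : (inl γ : G ∗ F2) ∈ ncs K (normalClosure {fa}) :=
      subset_normalClosure (Or.inl ⟨γ, hγ, rfl⟩)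
    have h4 := mul_mem (le_PFoot K (h2 γ)) h3
    rwa [inv_mul_cancel_right] at h4
  · refine normalClosure_le_normal
      (N := (ncs K (normalClosure {fa})).comap (χ.comp inr)) ?_ hz
    rintro _ rfl
    change χ tt ∈ ncs K (normalClosure {fa})
    rw [h1]
    exact le_PFoot K (subset_normalClosure rfl)

theorem aa_PFoot {y : G ∗ F2} (hy : y ∈ AA G) :
    y * (inl (Coprod.fst y))⁻¹ ∈ normalClosure {(mm : G ∗ F2)} := by
  have hN : (normalClosure {(mm : G ∗ F2)}).Normal := normalClosure_normal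
  have hm : (mm : G ∗ F2) ∈ normalClosure {(mm : G ∗ F2)} := subset_normalClosure rfl
  induction hy using closure_induction with
  | mem x hx =>
    rcases hx with ⟨γ, rfl⟩ | rfl
    · rw [fst_apply_inl, mul_inv_cancel]
      exact one_mem _
    · have h0 : Coprod.fst (dd : G ∗ F2) = 1 := by simp [dd, tt, mm]
      rw [h0, map_one, inv_one, mul_one]
      exact hN.conj_mem _ hm tt
  | one =>
    rw [map_one, map_one, inv_one, mul_one]
    exact one_mem _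
  | mul x y _ _ hx hy =>
    have h := mul_mem (hN.conj_mem _ hy x) hx
    have e : x * (y * (inl (Coprod.fst y))⁻¹) * x⁻¹ * (x * (inl (Coprod.fst x))⁻¹) =
        x * y * (inl (Coprod.fst (x * y)))⁻¹ := by
      rw [map_mul, map_mul]
      group
    rwa [e] at h
  | inv x _ hx =>
    have h := hN.conj_mem _ (inv_mem hx) x⁻¹
    have e : x⁻¹ * (x * (inl (Coprod.fst x))⁻¹)⁻¹ * x⁻¹⁻¹ = x⁻¹ * (inl (Coprod.fst x⁻¹))⁻¹ := by
      rw [map_inv, map_inv]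
      group
    rwa [e] at h

theorem conj_PFoot {w : G} {ψ : MulAut (G ∗ F2)} (h : IsPush w ψ) :
    (rho_PFoot G).symm (ψ (rho_PFoot G tt)) = tt ∧ ∀ γ : G,
      (rho_PFoot G).symm (ψ (rho_PFoot G (inl γ))) * (inl γ)⁻¹ ∈
        normalClosure {(tt : G ∗ F2)} := by
  refine ⟨by rw [MulEquiv.symm_apply_eq, r2_PFoot, map_inv, h.1], fun γ => ?_⟩
  have h1 := back_PFoot (h.2.2.2 γ).2
  have h2 : (rho_PFoot G).symm (inl γ) = inl γ := by rw [MulEquiv.symm_apply_eq, r1_PFoot]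
  rwa [map_mul, map_inv, h2, ← r1_PFoot γ, r1_PFoot γ] at h1

theorem iff_PFoot {w : G} {ψ : MulAut (G ∗ F2)} (h : PU w ψ) (K : Subgroup G) (y : G ∗ F2) :
    (rho_PFoot G).symm (ψ⁻¹ (rho_PFoot G y)) ∈ ncs K (normalClosure {fa}) ↔
      y ∈ ncs K (normalClosure {fa}) := by
  constructor
  · intro hy
    have h1 := into_PFoot K ((rho_PFoot G).trans (ψ.trans (rho_PFoot G).symm)).toMonoidHom
      (conj_PFoot h.1).1 (conj_PFoot h.1).2 hy
    simpa using h1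
  · exact into_PFoot K ((rho_PFoot G).trans (ψ⁻¹.trans (rho_PFoot G).symm)).toMonoidHom
      (conj_PFoot h.2).1 (conj_PFoot h.2).2

end

theorem pFoot (h1 : BSplit) (h2 : PGrp) (h3 : PKer) : PFoot := by
  rintro G _ w A B L₀ a b x ⟨hG, rfl, rfl⟩ hx
  obtain ⟨G₀, _, w₀, L, e, hL, e0, ea, eb, ew, eA, eB⟩ := h1 G w L₀ (a, b, true) hG
  have hv : ∀ v ∈ wd L₀, ∃ γ : G₀, inl γ = e v := fun v hv => by
    have h := List.mem_map_of_mem (f := e.toMonoidHom) hv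
    rw [← wd_mp, show mp e.toMonoidHom L₀ = mp inl L from e0, wd_mp] at h
    obtain ⟨γ, -, hγ⟩ := List.mem_map.1 h
    exact ⟨γ, hγ⟩
  obtain ⟨x₀, hx₀⟩ : e x ∈ (inl : G₀ →* G₀ ∗ F2).range :=
    (closure_le ((inl : G₀ →* G₀ ∗ F2).range.comap e.toMonoidHom)).2 hv hx
  obtain ⟨ψ, hψ, ht⟩ := (h3 G₀ w₀ L hL).1 x₀
  have hP : PU w₀ ψ := (h2 G₀ w₀).2.2.2.2.2.1 _ ψ hψ
  have mem : ∀ {C : Subgroup G} {D : Subgroup (G₀ ∗ F2)}, C.map e.toMonoidHom = D →
      ∀ y, y ∈ C ↔ e y ∈ D := fun h y => by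
    rw [← h]
    exact (mem_map_iff_mem e.injective).symm
  have fix : ∀ {C : Subgroup G} {K : Subgroup G₀},
      C.map e.toMonoidHom = ncs K (normalClosure {fa}) → C.map (e.trans (((rho_PFoot G₀).trans
        (ψ.trans (rho_PFoot G₀).symm)).trans e.symm)).toMonoidHom = C := fun h => by
    ext y
    rw [mem_map_equiv, mem h, mem h y, ← iff_PFoot hP _ (e y)]
    simp
  refine ⟨e.trans (((rho_PFoot G₀).trans (ψ.trans (rho_PFoot G₀).symm)).trans e.symm), ?_,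
    fix eA, fix eB, fun v hv' => ?_, ?_⟩
  · have h : rho_PFoot G₀ (e w) = inl w₀ * dd * mm⁻¹ := by
      have h4 : (inr (cm fa fb) : G₀ ∗ F2) = tt * mm * tt⁻¹ * mm⁻¹ := by simp [cm, tt, mm]
      rw [ew, h4]
      simp only [map_mul, map_inv, r1_PFoot, r2_PFoot, r3_PFoot, dd]
      group
    simp only [MulEquiv.trans_apply]
    rw [MulEquiv.symm_apply_eq, MulEquiv.symm_apply_eq, h, map_mul, map_inv, hP.1.1, hP.1.2.1]
  · obtain ⟨γ, hγ⟩ := hv v hv'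
    rw [mem eA]
    simp only [MulEquiv.trans_apply, map_mul, map_inv, MulEquiv.apply_symm_apply, ← hγ]
    exact le_PFoot _ ((conj_PFoot hP.1).2 γ)
  · have h4 := aa_PFoot hP.1.2.2.1
    have h5 : Coprod.fst (ψ tt * tt⁻¹) = x₀ := by
      rw [map_mul, map_inv, show Coprod.fst (ψ tt) = x₀ from ht]
      simp [tt]
    rw [h5] at h4
    have hm : (mm : G₀ ∗ F2) ∈ normalClosure {(mm : G₀ ∗ F2)} := subset_normalClosure rfl
    have h6 := back_PFoot (mul_mem (mul_mem hm h4)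
      (normalClosure_normal.conj_mem _ (inv_mem hm) (inl x₀)))
    rw [mem eA]
    refine le_PFoot _ ?_
    have h7 : e b = mm := eb
    simp only [MulEquiv.trans_apply, map_mul e, map_inv e, MulEquiv.apply_symm_apply, ← hx₀, h7]
    rw [← (rho_PFoot G₀).symm_apply_apply (inl x₀ * mm), ← map_inv, ← map_mul]
    have h8 : ψ (rho_PFoot G₀ mm) * (rho_PFoot G₀ (inl x₀ * mm))⁻¹ =
        mm * (ψ tt * tt⁻¹ * (inl x₀)⁻¹) * (inl x₀ * mm⁻¹ * (inl x₀)⁻¹) := by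
      simp only [map_mul, map_inv, r1_PFoot, r3_PFoot, hP.1.1]
      group
    rwa [h8]

end Pool.Agent.MP_4a02af_gt

end PartPFoot

section PartPAct

open Monoid Monoid.Coprod Subgroup

namespace Pool.Agent.MP_4a02af_gt

section aux

variable {G : Type} [Group G]

theorem sg_inl_PAct (j : Fin 3) (γ : G) : sg j (inl γ : G ∗ F2) = inl γ := by
  simp [sg]

theorem sg_tt_PAct (j : Fin 3) : sg j (tt : G ∗ F2) = 1 := by
  simp [sg, tt, fa]

theorem sg_mm_PAct (j : Fin 3) : sg j (mm : G ∗ F2) = inr (dJ j) := by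
  simp [sg, mm, fb]

theorem sg_dd_PAct (j : Fin 3) : sg j (dd : G ∗ F2) = inr (dJ j) := by
  simp [dd, sg_tt_PAct, sg_mm_PAct]

theorem act_inl_PAct (j : Fin 3) (ψ : MulAut (G ∗ F2)) (γ : G) :
    actE j ψ (inl γ) = sg j (ψ (inl γ)) := by
  simp [actE]

theorem act_of_PAct (j : Fin 3) (ψ : MulAut (G ∗ F2)) (i : Fin 4) :
    actE j ψ (inr (FreeGroup.of i)) =
      cJ j (sg j (ψ tt)) (fun i => (inr (FreeGroup.of i) : G ∗ F4)) i := by
  simp [actE]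

theorem cJ_map_PAct {H K : Type} [Group H] [Group K] (Φ : H →* K) (j : Fin 3) (x : H)
    (f : Fin 4 → H) (i : Fin 4) : Φ (cJ j x f i) = cJ j (Φ x) (fun i => Φ (f i)) i := by
  fin_cases j <;> fin_cases i <;> simp [cJ]

theorem cJ_cJ_PAct {H : Type} [Group H] (j : Fin 3) (x y : H) (f : Fin 4 → H) (i : Fin 4) :
    cJ j y (cJ j x f) i = cJ j (y * x) f i := by
  fin_cases j <;> fin_cases i <;> simp [cJ, mul_assoc]

theorem cJ_one_PAct {H : Type} [Group H] (j : Fin 3) (f : Fin 4 → H) (i : Fin 4) :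
    cJ j 1 f i = f i := by
  fin_cases j <;> fin_cases i <;> simp [cJ]

theorem act_dJ_PAct (j : Fin 3) (ψ : MulAut (G ∗ F2)) :
    actE j ψ (inr (dJ j)) = sg j (ψ tt) * inr (dJ j) * (sg j (ψ tt))⁻¹ := by
  have h0 := act_of_PAct j ψ 0
  have h1 := act_of_PAct j ψ 1
  have h2 := act_of_PAct j ψ 2
  have h3 := act_of_PAct j ψ 3
  generalize sg j (ψ tt) = x at h0 h1 h2 h3 ⊢
  generalize actE j ψ = Φ at h0 h1 h2 h3 ⊢
  fin_cases j <;> simp [cJ] at h0 h1 h2 h3 <;>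
    simp [dJ, hb, cm, gu, gn, gt, gm, h0, h1, h2, h3] <;> group

theorem act_hb_PAct (j : Fin 3) (ψ : MulAut (G ∗ F2)) :
    ∃ r : G ∗ F4, (inr hb : G ∗ F4) = inr (dJ j) * r ∧ actE j ψ r = r := by
  have h1 := act_of_PAct j ψ 1
  have h2 := act_of_PAct j ψ 2
  have h3 := act_of_PAct j ψ 3
  generalize sg j (ψ tt) = x at h1 h2 h3 ⊢
  generalize actE j ψ = Φ at h1 h2 h3 ⊢
  fin_cases j
  · refine ⟨inr (gn⁻¹ * cm gt gm), ?_, ?_⟩
    · simp [dJ, hb, cm, mul_assoc]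
    · simp [cJ] at h1 h2 h3
      simp [cm, gn, gt, gm, h1, h2, h3]
  · refine ⟨inr gm⁻¹, ?_, ?_⟩
    · simp [dJ, hb, cm, mul_assoc]
    · simp [cJ] at h3
      simp [gm, h3]
  · refine ⟨1, ?_, ?_⟩
    · simp [dJ]
    · simp

theorem act_sg_PAct (j : Fin 3) (ψ : MulAut (G ∗ F2)) (hm : ψ mm = mm) (x : G ∗ F2)
    (hx : x ∈ AA G) : actE j ψ (sg j x) = sg j (ψ x) := by
  induction hx using closure_induction with
  | mem y hy =>
    rcases hy with ⟨γ, rfl⟩ | hy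
    · rw [sg_inl_PAct, act_inl_PAct]
    · have : y = dd := hy
      subst this
      rw [sg_dd_PAct, act_dJ_PAct]
      simp only [dd, map_mul, map_inv, hm, sg_mm_PAct]
  | one => simp
  | mul a b _ _ ha hb => simp only [map_mul, ha, hb]
  | inv a _ ha => simp only [map_inv, ha]

theorem act_one_PAct (j : Fin 3) : actE j (1 : MulAut (G ∗ F2)) = MonoidHom.id _ := by
  refine Coprod.hom_ext ?_ ?_
  · ext γ
    simp [act_inl_PAct, sg_inl_PAct]
  · ext i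
    simp [act_of_PAct, sg_tt_PAct, cJ_one_PAct]

theorem act_mul_PAct (j : Fin 3) (w : G) (ψ φ : MulAut (G ∗ F2)) (hψ : IsPush w ψ)
    (hφ : IsPush w φ) : actE j (ψ * φ) = (actE j ψ).comp (actE j φ) := by
  refine Coprod.hom_ext ?_ ?_
  · ext γ
    simp only [MonoidHom.comp_apply, act_inl_PAct, MulAut.mul_apply]
    rw [act_sg_PAct j ψ hψ.1 _ (hφ.2.2.2 γ).1]
  · ext i
    simp only [MonoidHom.comp_apply, act_of_PAct, MulAut.mul_apply]
    rw [cJ_map_PAct]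
    have e1 : (fun i => actE j ψ (inr (FreeGroup.of i) : G ∗ F4)) =
        cJ j (sg j (ψ tt)) (fun i => (inr (FreeGroup.of i) : G ∗ F4)) := by
      funext i
      exact act_of_PAct j ψ i
    rw [e1, cJ_cJ_PAct]
    have e2 : sg j (φ tt) = sg j (φ tt * tt⁻¹) := by simp [sg_tt_PAct]
    have e3 : actE j ψ (sg j (φ tt)) * sg j (ψ tt) = sg j (ψ (φ tt)) := by
      rw [e2, act_sg_PAct j ψ hψ.1 _ hφ.2.2.1]
      simp
    rw [e3]

theorem sg_nc_PAct (j : Fin 3) (x : G ∗ F2) (hx : x ∈ normalClosure {(mm : G ∗ F2)}) :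
    sg j x ∈ normalClosure {(inr (dJ j) : G ∗ F4)} := by
  have h : normalClosure {(mm : G ∗ F2)} ≤
      (normalClosure {(inr (dJ j) : G ∗ F4)}).comap (sg j) := by
    refine normalClosure_le_normal ?_
    intro y hy
    have : y = mm := hy
    subst this
    change sg j mm ∈ normalClosure {(inr (dJ j) : G ∗ F4)}
    rw [sg_mm_PAct]
    exact subset_normalClosure rfl
  exact h hx

end aux

theorem pAct (h1 : PGrp) : PAct := by
  intro G _ w j
  refine ⟨act_one_PAct j, fun ψ φ hψ hφ => act_mul_PAct j w ψ φ hψ.1 hφ.1, ?_⟩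
  intro ψ hψ
  refine ⟨?_, fun x hx => act_sg_PAct j ψ hψ.1.1 x hx, ?_, ?_⟩
  · obtain ⟨r, hr, hr'⟩ := act_hb_PAct j ψ
    have hA : (inl w * dd : G ∗ F2) ∈ AA G :=
      mul_mem (subset_closure (Or.inl ⟨w, rfl⟩)) (subset_closure (Or.inr rfl))
    have e : (inl w * inr (dJ j) : G ∗ F4) = sg j (inl w * dd) := by
      rw [map_mul, sg_inl_PAct, sg_dd_PAct]
    rw [hr, ← mul_assoc, map_mul, hr', e, act_sg_PAct j ψ hψ.1.1 _ hA, hψ.1.2.1]
  · intro γ
    have h := sg_nc_PAct j _ (hψ.1.2.2.2 γ).2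
    rw [map_mul, map_inv, sg_inl_PAct] at h
    rw [act_inl_PAct]
    exact h
  · have e1 : (actE j ψ⁻¹).comp (actE j ψ) = MonoidHom.id _ := by
      rw [← act_mul_PAct j w _ _ hψ.2 hψ.1, inv_mul_cancel, act_one_PAct]
    have e2 : (actE j ψ).comp (actE j ψ⁻¹) = MonoidHom.id _ := by
      rw [← act_mul_PAct j w _ _ hψ.1 hψ.2, mul_inv_cancel, act_one_PAct]
    exact ⟨MonoidHom.toMulEquiv (actE j ψ) (actE j ψ⁻¹) e1 e2, rfl, rfl⟩

end Pool.Agent.MP_4a02af_gt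

end PartPAct
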