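import Pool.Agent.MP_4a02af_gt.Stm

section PartDAG

/-! The action on three holes preserves the kernels. -/

open Monoid Monoid.Coprod Subgroup

namespace Pool.Agent.MP_4a02af_gt

section

variable {G : Type} [Group G]

instance normal_DAG {H : Type} [Group H] (A : Subgroup G) (B : Subgroup H) : (ncs A B).Normal :=
  normalClosure_normal

theorem inl_DAG {H : Type} [Group H] {A : Subgroup G} (B : Subgroup H) {a : G} (ha : a ∈ A) :
    (inl a : G ∗ H) ∈ ncs A B := subset_normalClosure (Or.inl ⟨a, ha, rfl⟩)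

theorem inr_DAG {H : Type} [Group H] (A : Subgroup G) {B : Subgroup H} {b : H} (hb : b ∈ B) :
    (inr b : G ∗ H) ∈ ncs A B := subset_normalClosure (Or.inr ⟨b, hb, rfl⟩)

theorem le_DAG {A : Subgroup G} {B : Subgroup F4} (φ : G ∗ F4 →* G ∗ F4)
    (h1 : ∀ a ∈ A, φ (inl a) ∈ ncs A B) (h2 : ∀ b ∈ B, φ (inr b) ∈ ncs A B) :
    ∀ y ∈ ncs A B, φ y ∈ ncs A B := by
  have : ncs A B ≤ (ncs A B).comap φ := by
    refine normalClosure_le_normal ?_
    rintro _ (⟨a, ha, rfl⟩ | ⟨b, hb, rfl⟩)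
    · exact h1 a ha
    · exact h2 b hb
  exact fun y hy => this hy

theorem gen_DAG {K : Subgroup (G ∗ F4)} [K.Normal] {S : Set F4} (φ : G ∗ F4 →* G ∗ F4)
    (h : ∀ s ∈ S, φ (inr s) ∈ K) : ∀ b ∈ normalClosure S, φ (inr b) ∈ K := by
  have : normalClosure S ≤ K.comap (φ.comp inr) := normalClosure_le_normal fun s hs => h s hs
  exact fun b hb => this hb

theorem eq_DAG (h2 : PAct) {w : G} {j : Fin 3} {ψ : MulAut (G ∗ F2)} (hψ : PU w ψ)
    {K : Subgroup (G ∗ F4)} (a : ∀ y ∈ K, actE j ψ y ∈ K) (b : ∀ y ∈ K, actE j ψ⁻¹ y ∈ K) :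
    K.map (actE j ψ) = K := by
  obtain ⟨β, e1, e2⟩ := ((h2 G w j).2.2 ψ hψ).2.2.2
  refine le_antisymm ?_ fun y hy => ⟨_, b y hy, ?_⟩
  · rintro _ ⟨y, hy, rfl⟩
    exact a y hy
  · rw [← e1, ← e2]
    exact β.apply_symm_apply y

theorem of_DAG (j : Fin 3) (ψ : MulAut (G ∗ F2)) (i : Fin 4) :
    actE j ψ (inr (FreeGroup.of i)) =
      cJ j (sg j (ψ tt)) (fun i => inr (FreeGroup.of i)) i := by
  simp [actE]

theorem act_DAG (j : Fin 3) (ψ : MulAut (G ∗ F2)) (γ : G) :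
    actE j ψ (inl γ) = sg j (ψ (inl γ)) := by
  simp [actE]

theorem conj_DAG (ψ : MulAut (G ∗ F2)) (f : F4) :
    actE 2 ψ (inr f) = sg 2 (ψ tt) * inr f * (sg 2 (ψ tt))⁻¹ := by
  have : (actE 2 ψ).comp inr =
      (MulAut.conj (sg 2 (ψ tt))).toMonoidHom.comp (inr : F4 →* G ∗ F4) := by
    ext i
    simp [of_DAG, cJ]
  exact DFunLike.congr_fun this f

theorem left_DAG (h2 : PAct) {w : G} {j : Fin 3} {ψ : MulAut (G ∗ F2)} (hψ : PU w ψ)
    {A : Subgroup G} {B : Subgroup F4} (hd : dJ j ∈ B) :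
    ∀ a ∈ A, actE j ψ (inl a) ∈ ncs A B := by
  intro a ha
  have h3 := ((h2 G w j).2.2 ψ hψ).2.2.1 a
  have h4 : normalClosure {(inr (dJ j) : G ∗ F4)} ≤ ncs A B :=
    normalClosure_le_normal (Set.singleton_subset_iff.mpr (inr_DAG A hd))
  simpa using mul_mem (h4 h3) (inl_DAG B ha)

end

theorem cml_DAG {H : Type} [Group H] {N : Subgroup H} [hN : N.Normal] {a : H} (ha : a ∈ N)
    (b : H) : cm a b ∈ N := by
  have := mul_mem ha (hN.conj_mem _ (inv_mem ha) b)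
  simpa [cm, mul_assoc] using this

theorem cmr_DAG {H : Type} [Group H] {N : Subgroup H} [hN : N.Normal] (a : H) {b : H}
    (hb : b ∈ N) : cm a b ∈ N := mul_mem (hN.conj_mem _ hb a) (inv_mem hb)

theorem d0_DAG : dJ 0 ∈ hK 0 :=
  (normalClosure_normal (s := {gn, gt})).conj_mem _ (subset_normalClosure (by simp)) gu

theorem d1_DAG : dJ 1 ∈ hK 2 := by
  show cm gu gn * (gt * gm * gt⁻¹) ∈ normalClosure {gu, gm}
  exact mul_mem (cml_DAG (subset_normalClosure (by simp)) _)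
    (normalClosure_normal.conj_mem _ (subset_normalClosure (by simp)) gt)

theorem d2_DAG (i : Fin 3) : dJ 2 ∈ hK i := by
  fin_cases i
  · show cm gu gn * cm gt gm ∈ normalClosure {gn, gt}
    exact mul_mem (cmr_DAG _ (subset_normalClosure (by simp)))
      (cml_DAG (subset_normalClosure (by simp)) _)
  · show cm gu gn * cm gt gm ∈ normalClosure {gu * gt, gn⁻¹ * (gt * gm * gt⁻¹)}
    set N := normalClosure ({gu * gt, gn⁻¹ * (gt * gm * gt⁻¹)} : Set F4) with hN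
    have a1 : QuotientGroup.mk' N (gu * gt) = 1 :=
      (QuotientGroup.eq_one_iff _).mpr (subset_normalClosure (by simp))
    have a2 : QuotientGroup.mk' N (gn⁻¹ * (gt * gm * gt⁻¹)) = 1 :=
      (QuotientGroup.eq_one_iff _).mpr (subset_normalClosure (by simp))
    rw [map_mul] at a1
    rw [map_mul, map_inv, inv_mul_eq_one, map_mul, map_mul, map_inv] at a2
    refine (QuotientGroup.eq_one_iff _).mp (?_ : QuotientGroup.mk' N _ = 1)
    simp only [cm, map_mul, map_inv]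
    rw [eq_inv_of_mul_eq_one_left a1, a2]
    group
  · show cm gu gn * cm gt gm ∈ normalClosure {gu, gm}
    exact mul_mem (cml_DAG (subset_normalClosure (by simp)) _)
      (cmr_DAG _ (subset_normalClosure (by simp)))

theorem dA (h1 : PGrp) (h2 : PAct) : DA := by
  intro G _ w A ψ hψ
  have hψ' := ((h1 G w).2.2.1 ψ hψ).1
  have k0 : ∀ φ, PU w φ → ∀ y ∈ ncs A (hK 0), actE 0 φ y ∈ ncs A (hK 0) := fun φ hφ => by
    refine le_DAG _ (left_DAG h2 hφ d0_DAG) (gen_DAG _ ?_)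
    rintro s (rfl | rfl)
    · rw [gn, of_DAG]
      exact inr_DAG A (subset_normalClosure (s := {gn, gt}) (Or.inl rfl))
    · rw [gt, of_DAG]
      exact inr_DAG A (subset_normalClosure (s := {gn, gt}) (Or.inr rfl))
  have k1 : ∀ φ, PU w φ → ∀ y ∈ ncs A (hK 2), actE 1 φ y ∈ ncs A (hK 2) := fun φ hφ => by
    refine le_DAG _ (left_DAG h2 hφ d1_DAG) (gen_DAG _ ?_)
    rintro s (rfl | rfl)
    · rw [gu, of_DAG]
      exact (normal_DAG A (hK 2)).conj_mem _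
        (inr_DAG A (subset_normalClosure (s := {gu, gm}) (Or.inl rfl))) _
    · rw [gm, of_DAG]
      exact inr_DAG A (subset_normalClosure (s := {gu, gm}) (Or.inr rfl))
  have k2 : ∀ i φ, PU w φ → ∀ y ∈ ncs A (hK i), actE 2 φ y ∈ ncs A (hK i) := fun i φ hφ => by
    refine le_DAG _ (left_DAG h2 hφ (d2_DAG i)) fun b hb => ?_
    rw [conj_DAG]
    exact (normal_DAG A (hK i)).conj_mem _ (inr_DAG A hb) _
  exact ⟨eq_DAG h2 hψ (k0 _ hψ) (k0 _ hψ'), eq_DAG h2 hψ (k1 _ hψ) (k1 _ hψ'),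
    fun i => eq_DAG h2 hψ (k2 i _ hψ) (k2 i _ hψ')⟩

section

variable {G : Type} [Group G]

theorem sg_DAG (j : Fin 3) (A : Subgroup G) (B : Subgroup F4) :
    ∀ y ∈ nl A, sg j y ∈ ncs A B := by
  have : nl A ≤ (ncs A B).comap (sg j) := by
    refine normalClosure_le_normal ?_
    rintro _ ⟨a, ha, rfl⟩
    have e : sg j (inl a : G ∗ F2) = inl a := by simp [sg]
    show sg j (inl a) ∈ ncs A B
    rw [e]
    exact inl_DAG B ha
  exact fun y hy => this hy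

theorem good_DAG (j : Fin 3) {A : Subgroup G} (B : Subgroup F4) (ψ : MulAut (G ∗ F2))
    (h1 : ∀ y ∈ nl A, ψ y ∈ nl A) (h2 : ψ tt * tt⁻¹ ∈ nl A) :
    ∀ y ∈ ncs A B, actE j ψ y ∈ ncs A B := by
  have hx : sg j (ψ tt) ∈ ncs A B := by
    have e : sg j (tt : G ∗ F2) = 1 := by simp [sg, tt, fa]
    simpa [e] using sg_DAG j A B _ h2
  have hq : QuotientGroup.mk' (ncs A B) (sg j (ψ tt)) = 1 := (QuotientGroup.eq_one_iff _).mpr hx
  have he : (QuotientGroup.mk' (ncs A B)).comp ((actE j ψ).comp inr) =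
      (QuotientGroup.mk' (ncs A B)).comp inr := by
    ext i
    simp only [MonoidHom.comp_apply, of_DAG]
    fin_cases j <;> fin_cases i <;>
      simp only [cJ, Fin.reduceFinMk, Matrix.cons_val, map_mul, map_inv] <;>
      simp only [Fin.reduceFinMk] at hq <;> simp only [hq, one_mul, inv_one, mul_one]
  refine le_DAG _ (fun a ha => ?_) fun b hb => ?_
  · rw [act_DAG]
    exact sg_DAG j A B _ (h1 _ (subset_normalClosure ⟨a, ha, rfl⟩))
  · refine (QuotientGroup.eq_one_iff _).mp ?_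
    exact (DFunLike.congr_fun he b).trans ((QuotientGroup.eq_one_iff _).mpr (inr_DAG A hb))

end

theorem dG (_h1 : PGrp) (h2 : PAct) : DG := by
  intro G _ w A ψ hψ hG
  have a1 : ∀ y ∈ nl A, ψ y ∈ nl A := fun y hy => hG.1.le ⟨y, hy, rfl⟩
  have a2 : ∀ y ∈ nl A, ψ⁻¹ y ∈ nl A := fun y hy => by
    obtain ⟨z, hz, rfl⟩ := hG.1.ge hy
    have : ψ⁻¹ (ψ.toMonoidHom z) = z := ψ.symm_apply_apply z
    rwa [this]
  have a3 : ψ⁻¹ tt * tt⁻¹ ∈ nl A := by
    have := a2 _ (inv_mem hG.2)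
    have e : ψ⁻¹ (ψ tt) = tt := ψ.symm_apply_apply tt
    rwa [mul_inv_rev, inv_inv, map_mul, map_inv, e] at this
  have k : ∀ j B, (ncs A B).map (actE j ψ) = ncs A B := fun j B =>
    eq_DAG h2 hψ (good_DAG j B ψ a1 hG.2) (good_DAG j B ψ⁻¹ a2 a3)
  exact ⟨k _ _, k _ _, k _ _⟩

end Pool.Agent.MP_4a02af_gt

end PartDAG

section PartDB

open Monoid Monoid.Coprod Subgroup

namespace Pool.Agent.MP_4a02af_gt

section
variable {G : Type} [Group G]

/-- the generators of `MM` -/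
def dM_DB : Fin 3 → F4 := ![gn, gn⁻¹ * (gt * gm * gt⁻¹), gm]

/-- the further generators of `JJ` -/
def aJ_DB : Fin 3 → F4 := ![gt, gu * gt, gu]

def bJ_DB : Fin 3 → F4 := ![gm, gm, gn]

theorem MM_DB (i : Fin 3) : MM G i = normalClosure {inr (dM_DB i)} := by
  fin_cases i <;> rfl

theorem JJ_DB (i : Fin 3) :
    JJ G i = closure (Set.range inl ∪ {inr (aJ_DB i), inr (bJ_DB i)}) ⊔ MM G i := by
  fin_cases i <;> rfl

theorem nM_DB (i : Fin 3) : (MM G i).Normal := by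
  rw [MM_DB]
  infer_instance

theorem MJ_DB (i : Fin 3) : MM G i ≤ JJ G i := by
  rw [JJ_DB]
  exact le_sup_right

theorem d_DB (i : Fin 3) : inr (dM_DB i) ∈ MM G i := by
  rw [MM_DB]
  exact subset_normalClosure rfl

theorem gen_DB (i : Fin 3) : (∀ γ : G, inl γ ∈ JJ G i) ∧ inr (aJ_DB i) ∈ JJ G i ∧
    inr (bJ_DB i) ∈ JJ G i := by
  rw [JJ_DB]
  exact ⟨fun γ => mem_sup_left (subset_closure (Or.inl ⟨γ, rfl⟩)),
    mem_sup_left (subset_closure (Or.inr (Or.inl rfl))),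
    mem_sup_left (subset_closure (Or.inr (Or.inr rfl)))⟩

theorem le_DB {i : Fin 3} {K : Subgroup (G ∗ F4)} (h1 : ∀ γ : G, inl γ ∈ K)
    (h2 : inr (aJ_DB i) ∈ K) (h3 : inr (bJ_DB i) ∈ K) (h4 : MM G i ≤ K) : JJ G i ≤ K := by
  rw [JJ_DB]
  refine sup_le ((closure_le _).2 ?_) h4
  rintro _ (⟨γ, rfl⟩ | rfl | rfl)
  exacts [h1 γ, h2, h3]

theorem dJ1_DB : dJ 1 = dJ 0 * dM_DB 1 := by
  change cm gu gn * _ = gu * gn * gu⁻¹ * (gn⁻¹ * _)
  rw [cm, mul_assoc _ gn⁻¹]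

theorem dJ2_DB : dJ 2 = dJ 1 * (dM_DB 2)⁻¹ := by
  change cm gu gn * cm gt gm = cm gu gn * (gt * gm * gt⁻¹) * gm⁻¹
  rw [mul_assoc (cm gu gn)]
  rfl

theorem dJ_DB (j i : Fin 3) : inr (dJ j) ∈ JJ G i := by
  obtain ⟨K, hK⟩ : ∃ K : Subgroup F4, K = (JJ G i).comap inr := ⟨_, rfl⟩
  have a : aJ_DB i ∈ K := hK ▸ (gen_DB i).2.1
  have b : bJ_DB i ∈ K := hK ▸ (gen_DB i).2.2
  have c : ∀ g, g * dM_DB i * g⁻¹ ∈ K := fun g =>
    hK ▸ comap_mono (MJ_DB i) (((nM_DB i).comap inr).conj_mem _ (d_DB i) g)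
  have c1 : dM_DB i ∈ K := by simpa using c 1
  have h : dJ 0 ∈ K ∧ dM_DB 1 ∈ K ∧ dM_DB 2 ∈ K := by
    fin_cases i
    · exact ⟨c gu, mul_mem (inv_mem c1) (mul_mem (mul_mem a b) (inv_mem a)), b⟩
    · refine ⟨?_, c1, b⟩
      have e : dJ 0 = gu * gt * gm * (gu * gt)⁻¹ *
          (gu * (gn⁻¹ * (gt * gm * gt⁻¹)) * gu⁻¹)⁻¹ := by
        change gu * gn * gu⁻¹ = _
        group
      rw [e]
      exact mul_mem (mul_mem (mul_mem a b) (inv_mem a)) (inv_mem (c gu))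
    · exact ⟨mul_mem (mul_mem a b) (inv_mem a), mul_mem (inv_mem b) (c gt), c1⟩
  have h1 : dJ 1 ∈ K := dJ1_DB ▸ mul_mem h.1 h.2.1
  have h2 : dJ 2 ∈ K := dJ2_DB ▸ mul_mem h1 (inv_mem h.2.2)
  rw [hK] at h h1 h2
  fin_cases j
  exacts [h.1, h1, h2]

theorem sg_DB (j i : Fin 3) (y : G ∗ F2) : sg j y ∈ JJ G i := by
  induction y using Coprod.induction_on with
  | inl g => exact (gen_DB i).1 g
  | inr f =>
    induction f using FreeGroup.induction_on with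
    | C1 => simp
    | of b => cases b <;> simp [sg, dJ_DB]
    | inv_of b h => rw [map_inv, map_inv]; exact inv_mem h
    | mul x y hx hy => rw [map_mul, map_mul]; exact mul_mem hx hy
  | mul x y hx hy => rw [map_mul]; exact mul_mem hx hy

theorem cong_DB {Q : Type} [Group Q] (π : G ∗ F4 →* Q) {j k : Fin 3}
    (h : π (inr (dJ j)) = π (inr (dJ k))) (y : G ∗ F2) : π (sg j y) = π (sg k y) := by
  have : π.comp (sg j) = π.comp (sg k) := by
    refine Coprod.hom_ext rfl (FreeGroup.ext_hom _ _ fun b => ?_)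
    cases b <;> simp [sg, h]
  exact congrArg (· y) this

theorem inl_DB (j : Fin 3) (ψ : MulAut (G ∗ F2)) (γ : G) :
    actE j ψ (inl γ) = sg j (ψ (inl γ)) := rfl

theorem of_DB (j : Fin 3) (ψ : MulAut (G ∗ F2)) (i : Fin 4) :
    actE j ψ (inr (FreeGroup.of i)) = cJ j (sg j (ψ tt)) (fun i => inr (FreeGroup.of i)) i := by
  simp [actE]

theorem tab_DB (ψ : MulAut (G ∗ F2)) (j i : Fin 3) :
    (∃ z, actE j ψ (inr (dM_DB i)) = z * inr (dM_DB i) * z⁻¹) ∧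
    (∃ a b : ℤ, actE j ψ (inr (aJ_DB i)) =
      sg j (ψ tt) ^ a * inr (aJ_DB i) * sg j (ψ tt) ^ b) ∧
    ∃ a : ℤ, actE j ψ (inr (bJ_DB i)) =
      sg j (ψ tt) ^ a * inr (bJ_DB i) * sg j (ψ tt) ^ (-a) := by
  refine ⟨⟨sg j (ψ tt) ^ (![![0, 0, 0], ![1, 1, 0], ![1, 1, 1]] j i : ℤ), ?_⟩,
    ⟨![![0, 1, 1], ![1, 1, 1], ![1, 1, 1]] j i, ![![0, 0, 0], ![0, 0, -1], ![-1, -1, -1]] j i, ?_⟩,
    ![![0, 0, 0], ![0, 0, 1], ![1, 1, 1]] j i, ?_⟩ <;>
  fin_cases j <;> fin_cases i <;>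
  simp [dM_DB, aJ_DB, bJ_DB, gu, gn, gt, gm, of_DB, cJ, mul_assoc]

theorem act_DB (ψ : MulAut (G ∗ F2)) (j i : Fin 3) :
    MM G i ≤ (MM G i).comap (actE j ψ) ∧ JJ G i ≤ (JJ G i).comap (actE j ψ) := by
  obtain ⟨⟨z, h1⟩, ⟨a, b, h2⟩, c, h3⟩ := tab_DB ψ j i
  have h : MM G i ≤ (MM G i).comap (actE j ψ) := by
    have := (nM_DB (G := G) i).comap (actE j ψ)
    refine (MM_DB i).le.trans (normalClosure_le_normal (Set.singleton_subset_iff.2 ?_))
    rw [SetLike.mem_coe, mem_comap, h1]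
    exact (nM_DB i).conj_mem _ (d_DB i) z
  have x := fun a : ℤ => zpow_mem (sg_DB j i (ψ tt)) a
  refine ⟨h, le_DB (fun γ => sg_DB j i _) ?_ ?_ (h.trans (comap_mono (MJ_DB i)))⟩
  · rw [mem_comap, h2]
    exact mul_mem (mul_mem (x a) (gen_DB i).2.1) (x b)
  · rw [mem_comap, h3]
    exact mul_mem (mul_mem (x c) (gen_DB i).2.2) (x _)

theorem agree_DB {i : Fin 3} [(MM G i).Normal] {a b : G ∗ F4 →* G ∗ F4}
    (ha : MM G i ≤ (MM G i).comap a) (hb : MM G i ≤ (MM G i).comap b)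
    (h1 : ∀ γ : G, QuotientGroup.mk' (MM G i) (a (inl γ)) = QuotientGroup.mk' _ (b (inl γ)))
    (h2 : QuotientGroup.mk' (MM G i) (a (inr (aJ_DB i))) = QuotientGroup.mk' _ (b (inr (aJ_DB i))))
    (h3 : QuotientGroup.mk' (MM G i) (a (inr (bJ_DB i))) = QuotientGroup.mk' _ (b (inr (bJ_DB i)))) :
    ∀ y ∈ JJ G i, a y * (b y)⁻¹ ∈ MM G i := fun y hy => by
  have h : QuotientGroup.mk' (MM G i) (a y) = QuotientGroup.mk' _ (b y) :=
    le_DB (K := ((QuotientGroup.mk' (MM G i)).comp a).eqLocus ((QuotientGroup.mk' _).comp b))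
      h1 h2 h3 (fun z hz => ((QuotientGroup.eq_one_iff (a z)).2 (mem_comap.1 (ha hz))).trans
        ((QuotientGroup.eq_one_iff (b z)).2 (mem_comap.1 (hb hz))).symm) hy
  rw [← QuotientGroup.eq_one_iff, ← QuotientGroup.mk'_apply, map_mul, map_inv, h, mul_inv_cancel]

end

theorem dB1 (_h1 : PGrp) (_h2 : PAct) : DB1 := fun _ _ _ ψ j i _ =>
  ⟨(act_DB ψ j i).1, (act_DB ψ j i).2⟩

theorem dB2 (_h1 : PGrp) (h2 : PAct) : DB2 := by
  intro G _ w
  have n := nM_DB (G := G)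
  have k : ∀ i, QuotientGroup.mk' (MM G i) (inr (dM_DB i)) = 1 := fun i =>
    (QuotientGroup.eq_one_iff _).2 (d_DB i)
  refine ⟨fun ψ hψ => ⟨?_, ?_, ?_⟩, fun A i => ⟨n i, MJ_DB i, ?_, ?_⟩⟩
  · refine agree_DB (b := MonoidHom.id _) (act_DB ψ 0 0).1 le_rfl (fun γ => ?_) ?_ ?_
    · rw [← mul_inv_eq_one, ← map_inv, ← map_mul, QuotientGroup.mk'_apply,
        QuotientGroup.eq_one_iff]
      refine normalClosure_le_normal (Set.singleton_subset_iff.2 ?_)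
        (((h2 G w 0).2.2 ψ hψ).2.2.1 γ)
      exact ((n 0).comap inr).conj_mem (dM_DB 0) (mem_comap.2 (d_DB 0)) gu
    · simp [aJ_DB, gt, of_DB, cJ]
    · simp [bJ_DB, gm, of_DB, cJ]
  · have c := cong_DB (QuotientGroup.mk' (MM G 1)) (j := 1) (k := 0) (by
      rw [dJ1_DB, map_mul, map_mul, k, mul_one])
    refine agree_DB (act_DB ψ 1 1).1 (act_DB ψ 0 1).1 (fun γ => c _) ?_ ?_
    · simpa [aJ_DB, gu, gt, of_DB, cJ] using c _
    · simp [bJ_DB, gm, of_DB, cJ]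
  · have c := cong_DB (QuotientGroup.mk' (MM G 2)) (j := 2) (k := 1) (by
      rw [dJ2_DB, map_mul, map_mul, map_inv, map_inv, k, inv_one, mul_one])
    refine agree_DB (act_DB ψ 2 2).1 (act_DB ψ 1 2).1 (fun γ => c _) ?_ ?_ <;>
      simp only [QuotientGroup.mk'_apply] at c
    · simp [aJ_DB, gu, of_DB, cJ, c]
    · simp [bJ_DB, gn, of_DB, cJ, c]
  · refine (MM_DB i).le.trans (normalClosure_mono (Set.singleton_subset_iff.2
      (Or.inr ⟨_, ?_, rfl⟩)))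
    fin_cases i
    exacts [subset_normalClosure (Or.inl rfl), subset_normalClosure (Or.inr rfl),
      subset_normalClosure (Or.inr rfl)]
  · have e : hK i = normalClosure {aJ_DB i, dM_DB i} := by
      fin_cases i
      exacts [congrArg normalClosure (Set.pair_comm _ _), rfl, rfl]
    refine ⟨inl '' (A : Set G) ∪ inr '' {aJ_DB i, dM_DB i}, ?_, le_antisymm
      (normalClosure_le_normal (Set.union_subset
        (Set.subset_union_left.trans subset_normalClosure) (Set.image_subset_iff.2 ?_)))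
      (normalClosure_mono (Set.union_subset_union_right _ (Set.image_mono ?_)))⟩
    · rintro _ (⟨γ, -, rfl⟩ | ⟨_, rfl | rfl, rfl⟩)
      exacts [(gen_DB i).1 γ, (gen_DB i).2.1, MJ_DB i (d_DB i)]
    · rw [e]
      have : normalClosure {aJ_DB i, dM_DB i} ≤ (normalClosure (inl '' (A : Set G) ∪
          inr '' {aJ_DB i, dM_DB i} : Set (G ∗ F4))).comap inr :=
        normalClosure_le_normal fun x hx =>
          mem_comap.2 (subset_normalClosure (Set.mem_union_right _ (Set.mem_image_of_mem _ hx)))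
      exact this
    · rw [e]
      exact subset_normalClosure

end Pool.Agent.MP_4a02af_gt

end PartDB

section PartDKC

open Monoid Monoid.Coprod Subgroup

namespace Pool.Agent.MP_4a02af_gt

section aux

variable {G : Type} [Group G]

def InB_DKC (w : G) (β : MulAut (G ∗ F4)) : Prop :=
  β (inl w * inr hb) = inl w * inr hb ∧ ∀ i,
    (∀ y ∈ MM G i, β y ∈ MM G i ∧ β⁻¹ y ∈ MM G i) ∧ ∀ y ∈ JJ G i, β y ∈ JJ G i ∧ β⁻¹ y ∈ JJ G i

def InP_DKC (w : G) (i : Fin 3) (β : MulAut (G ∗ F4)) : Prop :=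
  InB_DKC w β ∧ ∀ y ∈ JJ G i, β y * y⁻¹ ∈ MM G i

def act_DKC (β : MulAut (G ∗ F4)) (K : Subgroup (G ∗ F4)) : Subgroup (G ∗ F4) :=
  K.map β.toMonoidHom

theorem act_mul_DKC (β γ : MulAut (G ∗ F4)) (K : Subgroup (G ∗ F4)) :
    act_DKC (β * γ) K = act_DKC β (act_DKC γ K) := by
  unfold act_DKC
  rw [Subgroup.map_map]
  rfl

theorem act_one_DKC (K : Subgroup (G ∗ F4)) : act_DKC 1 K = K := Subgroup.map_id K

theorem act_inv_DKC {β : MulAut (G ∗ F4)} {K : Subgroup (G ∗ F4)} (h : act_DKC β K = K) :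
    act_DKC β⁻¹ K = K := by
  conv_lhs => rw [← h, ← act_mul_DKC, inv_mul_cancel, act_one_DKC]

theorem InB_DKC.mul {w : G} {β γ : MulAut (G ∗ F4)} (hβ : InB_DKC w β) (hγ : InB_DKC w γ) :
    InB_DKC w (β * γ) := by
  refine ⟨by rw [MulAut.mul_apply, hγ.1, hβ.1], fun i => ⟨fun y hy => ⟨?_, ?_⟩, fun y hy => ⟨?_, ?_⟩⟩⟩
  · exact ((hβ.2 i).1 _ ((hγ.2 i).1 y hy).1).1
  · rw [mul_inv_rev]
    exact ((hγ.2 i).1 _ ((hβ.2 i).1 y hy).2).2
  · exact ((hβ.2 i).2 _ ((hγ.2 i).2 y hy).1).1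
  · rw [mul_inv_rev]
    exact ((hγ.2 i).2 _ ((hβ.2 i).2 y hy).2).2

theorem InB_DKC.inv {w : G} {β : MulAut (G ∗ F4)} (hβ : InB_DKC w β) : InB_DKC w β⁻¹ := by
  refine ⟨?_, fun i => ⟨fun y hy => ⟨((hβ.2 i).1 y hy).2, ?_⟩,
    fun y hy => ⟨((hβ.2 i).2 y hy).2, ?_⟩⟩⟩
  · conv_lhs => rw [← hβ.1]
    exact MulAut.inv_apply_self _ β _
  · rw [inv_inv]
    exact ((hβ.2 i).1 y hy).1
  · rw [inv_inv]
    exact ((hβ.2 i).2 y hy).1

theorem InP_DKC.mul {w : G} {i : Fin 3} {β γ : MulAut (G ∗ F4)} (hβ : InP_DKC w i β)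
    (hγ : InP_DKC w i γ) : InP_DKC w i (β * γ) := by
  refine ⟨hβ.1.mul hγ.1, fun y hy => ?_⟩
  have := mul_mem (hβ.2 _ ((hγ.1.2 i).2 y hy).1) (hγ.2 y hy)
  rw [MulAut.mul_apply]
  convert this using 1
  group

theorem InP_DKC.inv {w : G} {i : Fin 3} {β : MulAut (G ∗ F4)} (hβ : InP_DKC w i β) :
    InP_DKC w i β⁻¹ := by
  refine ⟨hβ.1.inv, fun y hy => ?_⟩
  have := inv_mem (hβ.2 _ ((hβ.1.2 i).2 y hy).2)
  rw [MulAut.apply_inv_self] at this
  convert this using 1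
  group

theorem InP_DKC.conj {w : G} {i : Fin 3} {β γ : MulAut (G ∗ F4)} (hβ : InP_DKC w i β)
    (hγ : InB_DKC w γ) : InP_DKC w i (γ * β * γ⁻¹) := by
  refine ⟨(hγ.mul hβ.1).mul hγ.inv, fun y hy => ?_⟩
  have := ((hγ.2 i).1 _ (hβ.2 _ ((hγ.2 i).2 y hy).2)).1
  rw [map_mul, map_inv, MulAut.apply_inv_self] at this
  exact this

theorem InP_DKC.le {w : G} {i : Fin 3} {β : MulAut (G ∗ F4)} (hβ : InP_DKC w i β)
    {X : Set (G ∗ F4)} (hX : X ⊆ JJ G i) (hM : MM G i ≤ normalClosure X) :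
    act_DKC β (normalClosure X) ≤ normalClosure X := by
  unfold act_DKC
  rw [Subgroup.map_le_iff_le_comap]
  refine normalClosure_le_normal fun x hx => ?_
  have := mul_mem (hM (hβ.2 x (hX hx))) (subset_normalClosure hx)
  rw [inv_mul_cancel_right] at this
  exact this

theorem InP_DKC.fix (h6 : DB2) {w : G} {i : Fin 3} {β : MulAut (G ∗ F4)} (hβ : InP_DKC w i β)
    (A : Subgroup G) : act_DKC β (ncs A (hK i)) = ncs A (hK i) := by
  obtain ⟨-, -, hM, X, hX, hE⟩ := (h6 G w).2 A i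
  rw [hE] at hM ⊢
  refine le_antisymm (hβ.le hX hM) ?_
  have h := Subgroup.map_mono (f := β.toMonoidHom) (hβ.inv.le hX hM)
  change act_DKC β (act_DKC β⁻¹ _) ≤ act_DKC β _ at h
  rwa [← act_mul_DKC, mul_inv_cancel, act_one_DKC] at h

theorem InP_DKC.fix' (h6 : DB2) {w : G} {i : Fin 3} {β γ : MulAut (G ∗ F4)}
    (hβ : InP_DKC w i β) (hγ : InB_DKC w γ) (A : Subgroup G) :
    act_DKC (β * γ) (ncs A (hK i)) = act_DKC γ (ncs A (hK i)) := by
  have h := (hβ.conj hγ.inv).fix h6 A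
  conv_rhs => rw [← h, ← act_mul_DKC]
  congr 1
  group

theorem ex_DKC (h1 : PGrp) (h2 : PAct) (h5 : DB1) (w : G) (j : Fin 3) (ψ : MulAut (G ∗ F2))
    (hψ : PU w ψ) : ∃ β : MulAut (G ∗ F4), β.toMonoidHom = actE j ψ ∧
      β⁻¹.toMonoidHom = actE j ψ⁻¹ ∧ InB_DKC w β := by
  obtain ⟨a1, -, -, β, a2, a3⟩ := (h2 G w j).2.2 ψ hψ
  have hψ' := ((h1 G w).2.2.1 ψ hψ).1
  have e1 : ∀ y, β y = actE j ψ y := fun y => by rw [← a2]; rfl
  have e2 : ∀ y, β⁻¹ y = actE j ψ⁻¹ y := fun y => by rw [← a3]; rfl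
  refine ⟨β, a2, a3, by rw [e1, a1], fun i => ⟨fun y hy => ?_, fun y hy => ?_⟩⟩
  · rw [e1, e2]
    exact ⟨(h5 G w ψ j i hψ).1 y hy, (h5 G w ψ⁻¹ j i hψ').1 y hy⟩
  · rw [e1, e2]
    exact ⟨(h5 G w ψ j i hψ).2 y hy, (h5 G w ψ⁻¹ j i hψ').2 y hy⟩

theorem quo_DKC {w : G} {i : Fin 3} {β γ : MulAut (G ∗ F4)} (hβ : InB_DKC w β)
    (hγ : InB_DKC w γ) (h : ∀ y ∈ JJ G i, β y * (γ y)⁻¹ ∈ MM G i) : InP_DKC w i (β * γ⁻¹) := by
  refine ⟨hβ.mul hγ.inv, fun y hy => ?_⟩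
  have := h _ ((hγ.2 i).2 y hy).2
  rwa [MulAut.apply_inv_self] at this

end aux

theorem iso_DKC (T : Dg) (ψ φ : MulAut (T.G ∗ F2)) (β P Q : MulAut (T.G ∗ F4))
    (hP : P.toMonoidHom = actE 0 ψ) (hQ : Q.toMonoidHom = actE 0 φ) (hβ : InB_DKC T.bd β)
    (h0 : act_DKC β (ncs (T.K 0) (hK 0)) = ncs (T.K 0) (hK 0))
    (h1 : act_DKC (β * P) (ncs (T.K 1) (hK 1)) = act_DKC Q (ncs (T.K 1) (hK 1)))
    (h2 : act_DKC β (ncs (T.K 2) (hK 2)) = ncs (T.K 2) (hK 2)) : (TT T ψ).Iso (TT T φ) := by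
  refine ⟨β, hβ.1, fun i => ?_⟩
  rw [act_mul_DKC] at h1
  unfold act_DKC at h1
  rw [hP, hQ] at h1
  fin_cases i
  · exact h0
  · exact h1
  · exact h2

theorem dK (h0 : BIso) (h1 : PGrp) (h2 : PAct) (h3 : DA) (h4 : DG) (h5 : DB1) (h6 : DB2) :
    DK := by
  intro T d e hd he
  obtain ⟨A, a1, -, a3⟩ := ex_DKC h1 h2 h5 T.bd 0 e he
  obtain ⟨B, b1, -, b3⟩ := ex_DKC h1 h2 h5 T.bd 1 e he
  obtain ⟨P, p1, -, p3⟩ := ex_DKC h1 h2 h5 T.bd 0 d hd
  have eA : ∀ y, A y = actE 0 e y := fun y => by rw [← a1]; rfl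
  have eB : ∀ y, B y = actE 1 e y := fun y => by rw [← b1]; rfl
  have hAP : (A * P).toMonoidHom = actE 0 (e * d) := by
    rw [(h2 T.G T.bd 0).2.1 e d he hd, ← a1, ← p1]; rfl
  have hPA : (P * A).toMonoidHom = actE 0 (d * e) := by
    rw [(h2 T.G T.bd 0).2.1 d e hd he, ← a1, ← p1]; rfl
  have k2 : InP_DKC T.bd 1 (B * A⁻¹) := quo_DKC b3 a3 fun y hy => by
    rw [eA, eB]; exact ((h6 T.G T.bd).1 e he).2.1 y hy
  refine ⟨fun hG => h0.2.1 _ _ ?_, fun hG => ?_, fun hG => h0.2.1 _ _ ?_, ?_⟩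
  · refine iso_DKC T d (e * d) B P (A * P) p1 hAP b3 ?_ ?_ ?_
    · unfold act_DKC; rw [b1]; exact (h4 T.G T.bd _ e he hG).2.2
    · rw [← k2.fix' h6 (a3.mul p3)]
      congr 1
      group
    · unfold act_DKC; rw [b1]; exact (h3 T.G T.bd _ e he).2.1
  · refine iso_DKC T (d * e) d 1 (P * A) P hPA p1 (by simpa using a3.mul a3.inv)
      (act_one_DKC _) ?_ (act_one_DKC _)
    rw [one_mul, act_mul_DKC]
    congr 1
    unfold act_DKC; rw [a1]; exact (h4 T.G T.bd _ e he hG).1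
  · refine iso_DKC T d (e * d) A P (A * P) p1 hAP a3 ?_ rfl ?_
    · unfold act_DKC; rw [a1]; exact (h3 T.G T.bd _ e he).1
    · unfold act_DKC; rw [a1]; exact (h4 T.G T.bd _ e he hG).2.1
  · refine ⟨MulEquiv.refl _, rfl, fun i => ?_⟩
    fin_cases i
    · exact Subgroup.map_id _
    · refine (Subgroup.map_id _).trans ?_
      show (ncs (T.K 1) (hK 1)).map (actE 0 1) = _
      rw [(h2 T.G T.bd 0).1]
      exact Subgroup.map_id _
    · exact Subgroup.map_id _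

theorem dC (h0 : BIso) (h1 : PGrp) (h2 : PAct) (h3 : DA) (h5 : DB1) (h6 : DB2) : DC := by
  intro T d e hd he
  obtain ⟨A, a1, a2, a3⟩ := ex_DKC h1 h2 h5 T.bd 0 e he
  obtain ⟨B, b1, -, b3⟩ := ex_DKC h1 h2 h5 T.bd 1 e he
  obtain ⟨C, c1, -, c3⟩ := ex_DKC h1 h2 h5 T.bd 2 e he
  obtain ⟨P, p1, -, p3⟩ := ex_DKC h1 h2 h5 T.bd 0 d hd
  have eA : ∀ y, A y = actE 0 e y := fun y => by rw [← a1]; rfl
  have eB : ∀ y, B y = actE 1 e y := fun y => by rw [← b1]; rfl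
  have eC : ∀ y, C y = actE 2 e y := fun y => by rw [← c1]; rfl
  have eP : ∀ y, P y = actE 0 d y := fun y => by rw [← p1]; rfl
  have hed := ((h1 T.G T.bd).2.1 e d he hd).1
  have he' := ((h1 T.G T.bd).2.2.1 e he).1
  have hP' : (A * P * A⁻¹).toMonoidHom = actE 0 (e * d * e⁻¹) := by
    rw [(h2 T.G T.bd 0).2.1 _ _ hed he', (h2 T.G T.bd 0).2.1 e d he hd, ← a1, ← p1, ← a2]; rfl
  have k0 : InP_DKC T.bd 0 P := ⟨p3, fun y hy => by
    rw [eP]; exact ((h6 T.G T.bd).1 d hd).1 y hy⟩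
  have k2 : InP_DKC T.bd 1 (B * A⁻¹) := quo_DKC b3 a3 fun y hy => by
    rw [eA, eB]; exact ((h6 T.G T.bd).1 e he).2.1 y hy
  have k3 : InP_DKC T.bd 2 (C * B⁻¹) := quo_DKC c3 b3 fun y hy => by
    rw [eB, eC]; exact ((h6 T.G T.bd).1 e he).2.2 y hy
  have p' := k0.conj a3
  have q := p'.conj k2.1
  have n0 := ((q.conj k3.1).mul q.inv).inv
  have n2 := (k3.mul (k3.inv.conj q.1)).inv
  have hC : ∀ i, act_DKC C (ncs (T.K i) (hK i)) = ncs (T.K i) (hK i) := fun i => by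
    unfold act_DKC; rw [c1]; exact (h3 T.G T.bd _ e he).2.2 i
  set n := (C * B⁻¹ * (B * A⁻¹ * (A * P * A⁻¹) * (B * A⁻¹)⁻¹) * (C * B⁻¹)⁻¹ *
    (B * A⁻¹ * (A * P * A⁻¹) * (B * A⁻¹)⁻¹)⁻¹)⁻¹ with hn
  have n2' : InP_DKC T.bd 2 n := by
    convert n2 using 1
    rw [hn]
    group
  refine h0.2.1 _ _ (iso_DKC T d _ (n * C) P _ p1 hP' (n0.1.mul c3) ?_ ?_ ?_)
  · rw [act_mul_DKC, hC, n0.fix h6]
  · conv_lhs => rw [← act_inv_DKC (hC 1), ← act_mul_DKC]
    rw [← k2.fix' h6 p'.1]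
    conv_rhs => rw [← k2.inv.fix h6 (T.K 1), ← act_mul_DKC]
    congr 1
    rw [hn]
    group
  · rw [act_mul_DKC, hC, n2'.fix h6]

end Pool.Agent.MP_4a02af_gt

end PartDKC

section PartDS

open Monoid Monoid.Coprod Subgroup

namespace Pool.Agent.MP_4a02af_gt

theorem dS (h0 : BIso) (h1 : BBr) (h2 : Zies) (h3 : PGrp) (h4 : PSl) (h5 : PKer) (h6 : PGood)
    (h7 : DK) (h8 : DC) : DS := by
  intro T g k L hT hL hg γ hγ
  obtain ⟨p1, pm, pi, t1, -, pd, -, -⟩ := h3 T.G T.bd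
  obtain ⟨rf, sy, tn, -, -, -⟩ := h0
  let S : MulAut (T.G ∗ F2) → Prop := fun e =>
    e ∈ D0 T.bd (wd L) ∧ ∀ d, PU T.bd d → (TT T (e * d)).Iso (TT T d)
  have su : ∀ e, S e → PU T.bd e := fun e he => pd _ e he.1
  have sc : ∀ e f, S e → f ∈ D0 T.bd (wd L) → S (f * e * f⁻¹) := fun e f he hf => by
    refine ⟨mul_mem (mul_mem hf he.1) (inv_mem hf), fun d hd => ?_⟩
    have uf := pd _ f hf
    have u1 : PU T.bd (f⁻¹ * d * f⁻¹⁻¹) := (pm _ _ (pm _ _ (pi f uf).1 hd).1 (pi _ (pi f uf).1).1).1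
    have e1 : f * e * f⁻¹ * d = f * (e * (f⁻¹ * d * f⁻¹⁻¹)) * f⁻¹ := by group
    rw [e1]
    exact tn _ _ _ (h8 T _ f (pm _ _ (su e he) u1).1 uf)
      (tn _ _ _ (he.2 _ u1) (h8 T d f⁻¹ hd (pi f uf).1))
  let N : Subgroup T.G :=
    { carrier := {x | ∃ e, S e ∧ tr e = x}
      one_mem' := ⟨1, ⟨one_mem _, fun d _ => by rw [one_mul]; exact rf _⟩, t1⟩
      mul_mem' := by
        rintro _ _ ⟨e, he, rfl⟩ ⟨f, hf, rfl⟩
        refine ⟨f * e, ⟨mul_mem hf.1 he.1, fun d hd => ?_⟩, (pm _ _ (su f hf) (su e he)).2⟩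
        rw [mul_assoc]
        exact tn _ _ _ (hf.2 _ (pm _ _ (su e he) hd).1) (he.2 d hd)
      inv_mem' := by
        rintro _ ⟨e, he, rfl⟩
        refine ⟨e⁻¹, ⟨inv_mem he.1, fun d hd => ?_⟩, (pi e (su e he)).2⟩
        have := he.2 _ (pm _ _ (pi e (su e he)).1 hd).1
        rw [mul_inv_cancel_left] at this
        exact sy _ _ this }
  have hN : N.Normal := ⟨by
    rintro _ ⟨e, he, rfl⟩ x
    obtain ⟨f, hf, e1⟩ := (h5 _ _ L hL).1 x⁻¹
    have uf := pd _ f hf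
    refine ⟨_, sc e f he hf, ?_⟩
    rw [(pm _ _ (pm _ _ uf (su e he)).1 (pi f uf).1).2, (pm _ _ uf (su e he)).2, (pi f uf).2, e1,
      inv_inv, mul_assoc]⟩
  have hK : ∀ i, T.K i ≤ N := fun i => by
    obtain ⟨L', ⟨hG, e1, -⟩, hl, -⟩ := (h1 _ _ _ _ _ _).1 (hT i)
    have e2 : D0 T.bd (wd L') = D0 T.bd (wd L) :=
      h2 _ _ L (fun W => D0 T.bd W = D0 T.bd (wd L)) hL
        (fun W W' a b c => by rw [h4 _ _ W W' a b c]) rfl _ hG.1 hG.2
        (by rw [length_wd, length_wd, hl, hg])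
    rw [e1]
    refine normalClosure_le_normal ?_
    rintro _ ⟨h, hh, rfl⟩
    obtain ⟨e, he, hgood, hc⟩ := h6 _ _ L' h hG hh
    rw [e2] at he
    rw [← e1] at hgood
    have ue := pd _ e he
    have hs : S e := ⟨he, fun d hd => by
      fin_cases i
      · exact (h7 T d e hd ue).1 hgood
      · have := h8 T (d * e) e (pm _ _ hd ue).1 ue
        rw [show e * (d * e) * e⁻¹ = e * d by group] at this
        exact tn _ _ _ this ((h7 T d e hd ue).2.1 hgood)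
      · exact (h7 T d e hd ue).2.2.1 hgood⟩
    obtain ⟨c, hc⟩ := isConj_iff.1 hc
    have : h.1⁻¹ ∈ N := hc ▸ hN.conj_mem _ ⟨e, hs, rfl⟩ c
    exact inv_mem_iff.1 this
  have ht : T.tot ≤ N := normalClosure_le_normal
    (Set.union_subset (Set.union_subset (hK 0) (hK 1)) (hK 2))
  obtain ⟨e, he, rfl⟩ := ht hγ
  refine ⟨e, he.1, rfl, sy _ _ (tn _ _ _ ?_ (h7 T 1 1 p1 p1).2.2.2)⟩
  simpa using he.2 1 p1

end Pool.Agent.MP_4a02af_gt

end PartDS

section PartET2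

open Monoid Monoid.Coprod Subgroup

namespace Pool.Agent.MP_4a02af_gt

theorem ncs_normal_ET2 {G H : Type} [Group G] [Group H] (A : Subgroup G) (B : Subgroup H) :
    (ncs A B).Normal := normalClosure_normal

theorem inl_mem_ET2 {G H : Type} [Group G] [Group H] {A : Subgroup G} (B : Subgroup H) {x : G}
    (hx : x ∈ A) : (inl x : G ∗ H) ∈ ncs A B := subset_normalClosure (Or.inl ⟨x, hx, rfl⟩)

theorem inr_mem_ET2 {G H : Type} [Group G] [Group H] (A : Subgroup G) (y : H) :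
    (inr y : G ∗ H) ∈ ncs A (normalClosure {y}) :=
  subset_normalClosure (Or.inr ⟨y, subset_normalClosure rfl, rfl⟩)

theorem keep_ET2 {G : Type} [Group G] {w : G} (A : Subgroup G) {φ : MulAut (G ∗ F2)}
    (h : IsPush w φ) : ncs A (normalClosure {fb}) ≤
      (ncs A (normalClosure {fb})).comap φ.toMonoidHom := by
  have := ncs_normal_ET2 A (normalClosure {fb})
  have hm : (mm : G ∗ F2) ∈ ncs A (normalClosure {fb}) := inr_mem_ET2 A fb
  refine normalClosure_le_normal ?_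
  rintro _ (⟨x, hx, rfl⟩ | ⟨y, hy, rfl⟩)
  · have a1 := normalClosure_le_normal (Set.singleton_subset_iff.2 hm) (h.2.2.2 x).2
    have a2 := mul_mem a1 (inl_mem_ET2 _ hx)
    rw [inv_mul_cancel_right] at a2
    exact a2
  · have : normalClosure {fb} ≤
        (ncs A (normalClosure {fb})).comap (φ.toMonoidHom.comp (inr : F2 →* G ∗ F2)) := by
      refine normalClosure_le_normal (Set.singleton_subset_iff.2 ?_)
      change φ mm ∈ ncs A (normalClosure {fb})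
      rw [h.1]
      exact hm
    exact this hy

theorem map_ET2 {G : Type} [Group G] {w : G} (A : Subgroup G) {φ : MulAut (G ∗ F2)}
    (h : PU w φ) : (ncs A (normalClosure {fb})).map φ.toMonoidHom = ncs A (normalClosure {fb}) := by
  refine le_antisymm (map_le_iff_le_comap.2 (keep_ET2 A h.1)) fun x hx => ?_
  exact ⟨φ⁻¹ x, keep_ET2 A h.2 hx, φ.apply_symm_apply x⟩

theorem eT2 (h1 : BBr) (h2 : BStd) (h3 : PGrp) : ET2 := by
  intro T g k ψ ht hψ
  obtain ⟨L1, a1, a2, a3⟩ := (h1 _ _ _ _ _ _).1 (ht 1)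
  obtain ⟨L2, b1, b2, b3⟩ := (h1 _ _ _ _ _ _).1 (ht 2)
  have hb : ψ (inl T.bd * inr (cm fa fb)) = inl T.bd * inr (cm fa fb) := by
    have e : (inl T.bd * inr (cm fa fb) : T.G ∗ F2) = inl T.bd * dd * mm⁻¹ := by
      simp only [cm, dd, tt, mm, map_mul, map_inv, mul_assoc]
    rw [e, map_mul, map_inv, hψ.1.1, hψ.1.2.1]
  obtain ⟨N, hN⟩ : ∃ N : Subgroup (T.G ∗ F2), N = (T2 T ψ).tot := ⟨_, rfl⟩
  have : N.Normal := hN ▸ normalClosure_normal
  have k0 : ncs (T.K 0) (normalClosure {fa}) ≤ N := fun x hx =>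
    hN ▸ subset_normalClosure (Or.inl (Or.inl hx))
  have k1 : (ncs (T.K 1) (normalClosure {fa})).map ψ.toMonoidHom ≤ N := fun x hx =>
    hN ▸ subset_normalClosure (Or.inl (Or.inr hx))
  have k2 : ncs (T.K 2) (normalClosure {fb}) ≤ N := fun x hx =>
    hN ▸ subset_normalClosure (Or.inr hx)
  have hm : (mm : T.G ∗ F2) ∈ N := k2 (inr_mem_ET2 _ fb)
  rw [← hN]
  refine ⟨(h1 (T.G ∗ F2) _ _ _ _ _).2 ?_, (h1 (T.G ∗ F2) _ _ _ _ _).2 ?_, ?_,
    k0 (inr_mem_ET2 _ fa), hm⟩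
  · have c1 := h2.1 _ _ ψ _ _ _ _ (h2.2.1 _ _ _ _ _ _ _ _ _ _ a1 h2.2.2.1)
    rw [hb, map_ET2 _ hψ] at c1
    refine ⟨_, c1, ?_, ?_⟩
    · rw [length_mp, List.length_append, length_mp, length_mp, a2]
      rfl
    · rw [fl_mp, fl_append, fl_mp, fl_mp, a3]
      rfl
  · refine ⟨_, h2.2.1 _ _ _ _ _ _ _ _ _ _ b1 h2.2.2.2.2.1, ?_, ?_⟩
    · rw [List.length_append, length_mp, length_mp, b2]
      rfl
    · rw [fl_append, fl_mp, fl_mp, b3]
      rfl
  · have : T.tot ≤ Subgroup.comap (inl : T.G →* T.G ∗ F2) N := by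
      refine normalClosure_le_normal ?_
      rintro x ((hx | hx) | hx)
      · exact k0 (inl_mem_ET2 _ hx)
      · have c1 := normalClosure_le_normal (N := N) (Set.singleton_subset_iff.2 hm)
          (hψ.1.2.2.2 x).2
        have c2 : ψ (inl x) ∈ N := k1 ⟨inl x, inl_mem_ET2 _ hx, rfl⟩
        have c3 := mul_mem (inv_mem c1) c2
        have c4 : ((ψ (inl x) * (inl x)⁻¹)⁻¹ * ψ (inl x) : T.G ∗ F2) = inl x := by group
        rw [c4] at c3
        exact c3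
      · exact k2 (inl_mem_ET2 _ hx)
    exact fun x hx => this hx

end Pool.Agent.MP_4a02af_gt

end PartET2

section PartSurg

open Monoid Monoid.Coprod Subgroup

namespace Pool.Agent.MP_4a02af_gt

theorem tot_normal_Surg (T : Dg) : T.tot.Normal := by
  unfold Dg.tot; infer_instance

theorem tot_map_Surg (T U : Dg) (e : T.G ≃* U.G)
    (he : ∀ i, (T.K i).map e.toMonoidHom = U.K i) : ∀ x ∈ T.tot, e x ∈ U.tot := by
  have := tot_normal_Surg U
  have h : T.tot ≤ U.tot.comap e.toMonoidHom := by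
    unfold Dg.tot
    apply normalClosure_le_normal
    have key : ∀ i, ∀ x ∈ T.K i, e x ∈ U.K i := fun i x hx => by
      rw [← he i]; exact ⟨x, hx, rfl⟩
    rintro x ((hx | hx) | hx)
    · exact subset_normalClosure (Or.inl (Or.inl (key 0 x hx)))
    · exact subset_normalClosure (Or.inl (Or.inr (key 1 x hx)))
    · exact subset_normalClosure (Or.inr (key 2 x hx))
  intro x hx
  exact h hx

theorem fa_ne_one_Surg : fa ≠ 1 := FreeGroup.of_ne_one false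

theorem fb_ne_fa_Surg : fb ≠ fa := fun h => by
  have := FreeGroup.of_injective h
  cases this

theorem fb_ne_fa_inv_Surg : fb ≠ fa⁻¹ := fun h => by
  have := congrArg (FreeGroup.lift fun b : Bool =>
    if b then (Multiplicative.ofAdd (1 : ℤ)) else 1) h
  simp [fa, fb] at this

theorem mp_mp_Surg {G H K : Type} (φ : G → H) (ψ : H → K) (L : List (Hd G)) :
    mp ψ (mp φ L) = mp (fun x => ψ (φ x)) L := by
  simp [mp]

theorem len_fl_Surg {G H : Type} (φ : G → H) (L : List (Hd G)) (h₁ h₂ : Hd H)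
    (hf₁ : h₁.2.2 = false) (hf₂ : h₂.2.2 = false) :
    (mp φ L ++ [h₁, h₂]).length = L.length + 2 ∧ fl (mp φ L ++ [h₁, h₂]) = fl L := by
  refine ⟨by rw [List.length_append, length_mp]; rfl, ?_⟩
  rw [fl_append, fl_mp]
  simp [fl, hf₁, hf₂]

theorem inr_mem_Surg {G : Type} [Group G] (N : Subgroup (G ∗ F2)) (ht : (tt : G ∗ F2) ∈ N)
    (hm : (mm : G ∗ F2) ∈ N) (n : F2) : (inr n : G ∗ F2) ∈ N := by
  have h : N.comap (inr : F2 →* G ∗ F2) = ⊤ := by
    rw [eq_top_iff, ← FreeGroup.closure_range_of, closure_le]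
    rintro _ ⟨b, rfl⟩
    cases b
    · exact ht
    · exact hm
  have : n ∈ N.comap (inr : F2 →* G ∗ F2) := by rw [h]; trivial
  exact this

/-- the push along the last handle -/
theorem last_Surg (h7 : PGrp) (h8 : PEx) (h9 : PCen) (h10 : PKer) (G : Type) [Group G] (w₀ : G)
    (L : List (Hd G)) (hL : Geo w₀ L)
    (hG : Geo (inl w₀ * inr (cm fa fb) : G ∗ F2)
      (mp inl L ++ [((inr fa, inr fb, true) : Hd (G ∗ F2))]))
    (ε : MulAut ((G ∗ F2) ∗ F2))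
    (hε : ε ∈ D0 (inl w₀ * inr (cm fa fb) : G ∗ F2)
      (wd (mp inl L ++ [((inr fa, inr fb, true) : Hd (G ∗ F2))])))
    (htr : tr ε = inr (fb * fa * fb * fa⁻¹ * fb⁻¹)) :
    ∃ j : ℤ, Last j ε := by
  set w : G ∗ F2 := inl w₀ * inr (cm fa fb) with hw
  set L' : List (Hd (G ∗ F2)) := mp inl L ++ [((inr fa, inr fb, true) : Hd (G ∗ F2))] with hL'
  have hW : wd L' = wd (mp inl L) ++ (inr fa : G ∗ F2) :: [inr fb] ++
      (inr fa : G ∗ F2)⁻¹ :: [(inr fb : G ∗ F2)⁻¹] := by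
    rw [hL', wd_append, wd_cons, wd_nil]; simp
  obtain ⟨ψ, hψ, -, hψt⟩ := h8 (G ∗ F2) w (wd L') (wd (mp inl L)) [inr fb] [(inr fb)⁻¹]
    (inr fa) hG.1 hG.2 hW
  have hc : ([inr fb] : List (G ∗ F2)).prod * (inr fa)⁻¹ * [((inr fb : G ∗ F2))⁻¹].prod =
      inr (fb * fa⁻¹ * fb⁻¹) := by simp
  have hx : ([((inr fb : G ∗ F2))⁻¹].prod)⁻¹ * inr fa * ([inr fb] : List (G ∗ F2)).prod *
      (inr fa)⁻¹ * [((inr fb : G ∗ F2))⁻¹].prod = inr (fb * fa * fb * fa⁻¹ * fb⁻¹) := by simp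
  rw [hc] at hψ
  rw [hx] at hψt
  have hψD : ψ ∈ D0 w (wd L') := by
    apply Subgroup.subset_closure
    refine Or.inl ⟨inr fa, _, ⟨wd (mp inl L), [inr fb, (inr fa)⁻¹, (inr fb)⁻¹], ?_, ?_⟩, hψ⟩
    · rw [hW]; simp
    · simp [mul_assoc]
  obtain ⟨-, hmul, hinv, -, -, hD, -, -⟩ := h7 (G ∗ F2) w
  have hψtr : tr ψ = inr (fb * fa * fb * fa⁻¹ * fb⁻¹) := by
    unfold tr; rw [hψt]; simp [tt]
  have hεP : PU w ε := hD _ _ hε
  have hζD : ψ⁻¹ * ε ∈ D0 w (wd L') := mul_mem (inv_mem hψD) hε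
  have hζtr : tr (ψ⁻¹ * ε) = 1 := by
    rw [(hmul _ _ (hinv ψ hψ.1).1 hεP).2, (hinv ψ hψ.1).2, htr, hψtr, mul_inv_cancel]
  have hζ : Zc w (ψ⁻¹ * ε) := (h10 (G ∗ F2) w L' hG).2 _ hζD hζtr
  obtain ⟨⟨j, hj⟩, -⟩ := h9 (G ∗ F2) w L' _ hG.1 hζ
  have hεψ : ∀ z, ε z = ψ ((ψ⁻¹ * ε) z) := fun z => by simp
  have hεl : ∀ γ : G ∗ F2, ε (inl γ) = ψ (inl γ) := fun γ => by rw [hεψ, hζ.2]
  refine ⟨j, ?_, ?_, ?_, hεP.1.1, ?_⟩
  · intro γ
    rw [hεl]
    have hext : (ψ.toMonoidHom.comp inl).comp (inl : G →* G ∗ F2) =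
        (inl : G ∗ F2 →* (G ∗ F2) ∗ F2).comp (inl : G →* G ∗ F2) := by
      apply MonoidHom.eq_of_eqOn_dense hL.1.2.2.1
      intro v hv
      have hv' : v ∈ wd L := hv
      refine hψ.2.2 (inl v) ?_ ?_ ?_
      · rw [hW, wd_mp]
        simp only [List.mem_append, List.mem_map]
        exact Or.inl (Or.inl ⟨v, hv', rfl⟩)
      · intro h
        have := congrArg Coprod.snd h
        simp only [snd_apply_inl, snd_apply_inr] at this
        exact fa_ne_one_Surg this.symm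
      · intro h
        have := congrArg Coprod.snd h
        simp only [snd_apply_inl, map_inv, snd_apply_inr] at this
        exact fa_ne_one_Surg (inv_eq_one.1 this.symm)
    exact DFunLike.congr_fun hext γ
  · rw [hεl]
    refine hψ.2.2 (inr fb) ?_ ?_ ?_
    · rw [hW]; simp
    · intro h
      have := congrArg Coprod.snd h
      simp only [snd_apply_inr] at this
      exact fb_ne_fa_Surg this
    · intro h
      have := congrArg Coprod.snd h
      simp only [map_inv, snd_apply_inr] at this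
      exact fb_ne_fa_inv_Surg this
  · rw [hεl]; exact hψ.2.1
  · rw [hεψ, hj, map_mul, map_zpow, hψt, hψ.1.1.1]

theorem surg (h0 : BIso) (h1 : BBr) (h2 : BStd) (h3 : BSplit) (h4 : BTyp) (h5 : BHyp)
    (h6 : BEqv) (h7 : PGrp) (h8 : PEx) (h9 : PCen) (h10 : PKer) (h11 : DS) (h12 : EDes)
    (h13 : EStd) (h14 : ET2) : Surg := by
  intro T g k L₀ a b hT hS hlen hb
  obtain ⟨G₀, inst, w₀, L, e, hGeo, hmp, hea, heb, hew, hKA, hKB⟩ :=
    h3 T.G T.bd L₀ (a, b, true) hS.1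
  let T' : Dg := TL G₀ w₀ (KA L) (KB L) ((T.K 2).map e.toMonoidHom)
  have hKe : ∀ i, (T.K i).map e.toMonoidHom = T'.K i := by
    intro i
    fin_cases i
    · exact (congrArg (fun A => Subgroup.map e.toMonoidHom A) hS.2.1).trans hKA
    · exact (congrArg (fun A => Subgroup.map e.toMonoidHom A) hS.2.2).trans hKB
    · rfl
  have hIso : T.Iso T' := ⟨e, hew, hKe⟩
  have hT' : T'.Typ g k := h4.1 T T' g k hIso hT
  have hL' : mp e (L₀ ++ [(a, b, true)]) =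
      mp inl L ++ [((inr fa, inr fb, true) : Hd (G₀ ∗ F2))] := by
    rw [mp_append, hmp]
    have hea' : e a = inr fa := hea
    have heb' : e b = inr fb := heb
    simp [mp, hea', heb']
  have hG : Geo (inl w₀ * inr (cm fa fb) : G₀ ∗ F2)
      (mp inl L ++ [((inr fa, inr fb, true) : Hd (G₀ ∗ F2))]) := by
    have := (h2.1 T.G (G₀ ∗ F2) e T.bd (T.K 0) (T.K 1) _ hS).1
    rwa [hew, hL'] at this
  have hLl : L.length = L₀.length := by
    have := congrArg List.length hmp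
    rw [length_mp, length_mp] at this
    exact this.symm
  have hLf : fl L = fl L₀ := by
    have := congrArg fl hmp
    rw [fl_mp, fl_mp] at this
    exact this.symm
  have hlen' : (mp inl L ++ [((inr fa, inr fb, true) : Hd (G₀ ∗ F2))]).length = g := by
    rw [List.length_append, length_mp, hLl]; exact hlen
  have htot : ∀ x ∈ T.tot, e x ∈ T'.tot := tot_map_Surg T T' e hKe
  have hx : (inr (fb * fa * fb * fa⁻¹ * fb⁻¹) : G₀ ∗ F2) ∈ T'.tot := by
    have h := (tot_normal_Surg T').conj_mem _ (htot b hb) (inr (fb * fa) : G₀ ∗ F2)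
    have heb' : e b = inr fb := heb
    have hq : (inr (fb * fa * fb * fa⁻¹ * fb⁻¹) : G₀ ∗ F2) =
        inr (fb * fa) * e b * (inr (fb * fa))⁻¹ := by
      rw [heb']; simp [mul_assoc]
    rw [hq]; exact h
  obtain ⟨ε, hεD, hεtr, hεI⟩ := h11 T' g k
    (mp inl L ++ [((inr fa, inr fb, true) : Hd (G₀ ∗ F2))]) hT' hG hlen' _ hx
  obtain ⟨j, hj⟩ := last_Surg h7 h8 h9 h10 G₀ w₀ L hGeo hG ε hεD hεtr
  have hP : PU T'.bd ε := (h7 T'.G T'.bd).2.2.2.2.2.1 _ _ hεD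
  obtain ⟨h₁, h₂, hf₁, hf₂, hStd⟩ := h13 G₀ w₀ (KA L) (KB L) ((T.K 2).map e.toMonoidHom) L j ε hj
    ⟨hGeo, rfl, rfl⟩
  obtain ⟨hs1, hs2, hin, htt, hmm⟩ := h14 T' g k ε hT' hP
  let φ : T.G →* (T2 T' ε).G := (inl : G₀ ∗ F2 →* (G₀ ∗ F2) ∗ F2).comp e.toMonoidHom
  have hφ : mp φ L₀ = mp (fun x => (inl (inl x : G₀ ∗ F2) : (G₀ ∗ F2) ∗ F2)) L := by
    have h := congrArg (mp (fun x : G₀ ∗ F2 => (inl x : (G₀ ∗ F2) ∗ F2))) hmp
    rw [mp_mp_Surg, mp_mp_Surg] at h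
    exact h
  have hTyp : (T2 T' ε).Typ (g + 1) ![fl L₀, k 1, k 2] := by
    intro i
    fin_cases i
    · refine (h1 _ _ _ _ _ _).2 ⟨_, hStd, ?_, ?_⟩
      · exact (len_fl_Surg _ L h₁ h₂ hf₁ hf₂).1.trans (by omega)
      · exact (len_fl_Surg _ L h₁ h₂ hf₁ hf₂).2.trans hLf
    · exact hs1
    · exact hs2
  refine ⟨T2 T' ε, φ, h₁, h₂, ?_, hTyp, hf₁, hf₂, ?_, fun x hx => hin _ (htot x hx), ?_⟩
  · have hv : (T.sum hyp).Valid := ⟨_, _, h4.2.1 T hyp g 2 k _ hT h5⟩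
    have i1 : (T.sum hyp).Iso (T'.sum hyp) := h0.2.2.2.1 _ _ _ _ hIso (h0.1 hyp)
    have i2 : (TT T' ε).Iso ((T2 T' ε).sum (sph 2)) :=
      h12 G₀ w₀ (KA L) (KB L) ((T.K 2).map e.toMonoidHom) j ε hj hP
    have i3 := h0.2.2.1 _ _ _ (h0.2.2.1 _ _ _ i1 hεI) i2
    have e1 : Eqv (T.sum hyp) ((T2 T' ε).sum (sph 2)) := h6.2.1 _ _ hv i3
    have e2 : Step (T2 T' ε) ((T2 T' ε).sum (sph 2)) :=
      ⟨⟨_, _, hTyp⟩, Or.inr ⟨2, h0.1 _⟩⟩
    exact Relation.EqvGen.trans _ _ _ e1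
      (Relation.EqvGen.symm _ _ (Relation.EqvGen.rel _ _ e2))
  · rw [hφ]; exact hStd
  · rw [eq_top_iff]
    intro x _
    induction x using Coprod.induction_on with
    | inl m => exact mem_sup_left ⟨e.symm m, congrArg inl (e.apply_symm_apply m)⟩
    | inr n => exact mem_sup_right (inr_mem_Surg _ htt hmm n)
    | mul x y hx hy => exact mul_mem (hx trivial) (hy trivial)

end Pool.Agent.MP_4a02af_gt

end PartSurg

section PartRAdd

open Monoid Monoid.Coprod Subgroup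

namespace Pool.Agent.MP_4a02af_gt

theorem le_tot_RAdd (T : Dg) (i : Fin 3) : T.K i ≤ T.tot := fun x hx => by
  refine subset_normalClosure ?_
  fin_cases i
  exacts [Or.inl (Or.inl hx), Or.inl (Or.inr hx), Or.inr hx]

theorem snd_wd_RAdd {G : Type} [Group G] {L : List (Hd G)} {h : Hd G} (hh : h ∈ L) :
    h.2.1 ∈ wd L := List.mem_flatMap.2 ⟨h, hh, by simp⟩

theorem rAdd (h0 : BIso) (h1 : BStd) (h2 : BTyp) (h3 : PFoot) : RAdd := by
  rintro T g k m x X ⟨hT, L, M, hL, hg, hk, hM, hm, hf, hG⟩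
  set U := T.sum (sph 2) with hU
  have hs : StdL (G := T.G ∗ F2) U.bd (U.K 0) (U.K 1)
      (mp inl L ++ [((inr (fa * fb * fa⁻¹), inr fa⁻¹, true) : Hd (T.G ∗ F2))]) :=
    h1.2.1 _ _ _ _ _ L _ _ _ _ hL h1.2.2.2.2.2
  have hx : (inl x : T.G ∗ F2) ∈ closure {v | v ∈ wd (mp (inl : T.G →* T.G ∗ F2) L)} := by
    have : (⊤ : Subgroup T.G) ≤ (closure {v | v ∈ wd (mp (inl : T.G →* T.G ∗ F2) L)}).comap inl := by
      rw [← hL.1.1.2.2.1, closure_le]
      intro v hv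
      refine subset_closure ?_
      rw [Set.mem_ofPred_eq, wd_mp]
      exact List.mem_map_of_mem hv
    exact this (mem_top x)
  obtain ⟨φ, e1, e2, e3, e4, e5⟩ := h3 (T.G ∗ F2) _ _ _ _ _ _ _ hs hx
  have hs' : StdL (G := T.G ∗ F2) U.bd (U.K 0) (U.K 1) _ :=
    e1 ▸ e2 ▸ e3 ▸ h1.1 _ _ φ _ _ _ _ hs
  refine ⟨U, X.map (inl : T.G →* T.G ∗ F2), .rel _ _ ⟨⟨g, k, hT⟩, Or.inr ⟨2, h0.1 _⟩⟩, by simp, ?_,
    _, mp φ (mp inl M ++ [((inr (fa * fb * fa⁻¹), inr fa⁻¹, true) : Hd (T.G ∗ F2))]), hs', ?_, ?_, ?_,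
    ?_, ?_, ?_⟩
  · convert h2.2.1 T (sph 2) g 1 k _ hT (h2.2.2.1 2) using 1
    funext i
    fin_cases i <;> simp
  · exact (length_mp _ _).trans (by simp [length_mp, hg])
  · exact (fl_mp _ _).trans ((fl_append _ _).trans (by rw [fl_mp, hk]; rfl))
  · exact ((hM.map _).append_right _).map _
  · exact (length_mp _ _).trans (by simp [length_mp, hm])
  · intro h hh
    obtain ⟨h', hh', rfl⟩ := List.mem_map.1 hh
    rcases List.mem_append.1 hh' with a | a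
    · obtain ⟨h'', a', rfl⟩ := List.mem_map.1 a
      exact hf h'' a'
    · rw [List.mem_singleton.1 a]
  · have hn : U.tot.Normal := normalClosure_normal
    unfold Gen at hG ⊢
    generalize hN : Subgroup.closure _ ⊔ U.tot = N
    have t1 : U.tot ≤ N := hN ▸ le_sup_right
    have t2 : ∀ h ∈ mp inl M ++ [((inr (fa * fb * fa⁻¹), inr fa⁻¹, true) : Hd (T.G ∗ F2))],
        φ h.2.1 ∈ N := fun h hh => by
      rw [← hN]
      exact mem_sup_left (subset_closure (Or.inl ⟨_, List.mem_map_of_mem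
        (f := fun h : Hd (T.G ∗ F2) => (φ h.1, φ h.2.1, h.2.2)) hh, rfl⟩))
    have t3 : ∀ i, ∀ y ∈ (sph 2).K i, (inr y : T.G ∗ F2) ∈ N := fun i y hy =>
      t1 (le_tot_RAdd U i (subset_normalClosure (Or.inr ⟨y, hy, rfl⟩)))
    have t4 : ∀ y : F2, (inr y : T.G ∗ F2) ∈ N := fun y => by
      have : (⊤ : Subgroup F2) ≤ N.comap (inr : F2 →* T.G ∗ F2) := by
        rw [← FreeGroup.closure_range_of, closure_le]
        rintro _ ⟨_ | _, rfl⟩
        exacts [t3 2 _ (subset_normalClosure rfl), t3 0 _ (subset_normalClosure rfl)]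
      exact this (mem_top y)
    have t5 : ∀ {u v : T.G ∗ F2}, u * v⁻¹ ∈ U.K 0 → u ∈ N → v ∈ N := fun {u v} h hu => by
      have := N.mul_mem (N.inv_mem (t1 (le_tot_RAdd U 0 h))) hu
      exact (show ((u * v⁻¹)⁻¹ * u : T.G ∗ F2) = v by group) ▸ this
    have t6 : (⊤ : Subgroup T.G) ≤ N.comap (inl : T.G →* T.G ∗ F2) := by
      rw [← hG, sup_le_iff, closure_le]
      refine ⟨?_, le_trans ?_ (comap_mono t1)⟩
      · rintro y (⟨h, hh, rfl⟩ | hy)
        · have a : ((inl h.1, inl h.2.1, h.2.2) : Hd (T.G ∗ F2)) ∈ mp inl M :=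
            List.mem_map_of_mem (f := fun h : Hd T.G =>
              ((inl h.1, inl h.2.1, h.2.2) : Hd (T.G ∗ F2))) hh
          exact t5 (e4 _ (snd_wd_RAdd ((hM.map _).subset a))) (t2 _ (List.mem_append_left _ a))
        · rcases List.mem_cons.1 hy with rfl | hy
          · have a := t5 e5 (t2 _ (List.mem_append_right _ (List.mem_singleton_self _)))
            exact (N.mul_mem_cancel_right (t4 _)).1 a
          · rw [← hN]
            exact mem_sup_left (subset_closure (Or.inr (List.mem_map_of_mem hy)))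
      · refine @normalClosure_le_normal _ _ _ _ (hn.comap _) ?_
        rintro y ((hy | hy) | hy)
        exacts [le_tot_RAdd U 0 (subset_normalClosure (Or.inl ⟨y, hy, rfl⟩)),
          le_tot_RAdd U 1 (subset_normalClosure (Or.inl ⟨y, hy, rfl⟩)),
          le_tot_RAdd U 2 (subset_normalClosure (Or.inl ⟨y, hy, rfl⟩))]
    rw [eq_top_iff]
    rintro (y : T.G ∗ F2) -
    induction y using Coprod.induction_on with
    | inl y => exact t6 (mem_top y)
    | inr y => exact t4 y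
    | mul y z a b => exact N.mul_mem a b

end Pool.Agent.MP_4a02af_gt

end PartRAdd

section PartRDel

open Monoid Monoid.Coprod Subgroup

namespace Pool.Agent.MP_4a02af_gt

theorem fl_cons_RDel {G : Type} (h : Hd G) (L : List (Hd G)) :
    fl (h :: L) = fl L + if h.2.2 = true then 1 else 0 := by
  simp [fl, List.countP_cons]

theorem split_RDel {G : Type} {M L : List (Hd G)} (hs : M.Sublist L) :
    (∀ h ∈ M, h.2.2 = true) → M.length < fl L →
    ∃ (L₁ : List (Hd G)) (h : Hd G) (L₂ M₁ M₂ : List (Hd G)), L = L₁ ++ h :: L₂ ∧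
      h.2.2 = true ∧ M = M₁ ++ M₂ ∧ M₁.Sublist L₁ ∧ M₂.Sublist L₂ := by
  induction hs with
  | slnil => intro _ h; simp [fl] at h
  | @cons M L a hs ih =>
    intro hM hl
    by_cases ha : a.2.2 = true
    · exact ⟨[], a, L, [], M, rfl, ha, rfl, List.Sublist.slnil, hs⟩
    · rw [fl_cons_RDel, if_neg ha] at hl
      obtain ⟨L₁, h, L₂, M₁, M₂, e1, e2, e3, e4, e5⟩ := ih hM (by omega)
      exact ⟨a :: L₁, h, L₂, M₁, M₂, by rw [e1]; rfl, e2, e3, e4.cons a, e5⟩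
  | @cons_cons M L a hs ih =>
    intro hM hl
    have ha : a.2.2 = true := hM a (List.mem_cons_self ..)
    rw [fl_cons_RDel, if_pos ha, List.length_cons] at hl
    obtain ⟨L₁, h, L₂, M₁, M₂, e1, e2, e3, e4, e5⟩ :=
      ih (fun h hh => hM h (List.mem_cons_of_mem _ hh)) (by omega)
    exact ⟨a :: L₁, h, L₂, a :: M₁, M₂, by rw [e1]; rfl, e2, by rw [e3]; rfl,
      e4.cons_cons a, e5⟩

theorem mem_mp_RDel {G H : Type} (φ : G → H) {L : List (Hd G)} {h : Hd G} (hh : h ∈ L) :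
    ((φ h.1, φ h.2.1, h.2.2) : Hd H) ∈ mp φ L :=
  List.mem_map.2 ⟨h, hh, rfl⟩

theorem flag_mp_RDel {G H : Type} (φ : G → H) {L : List (Hd G)}
    (hL : ∀ h ∈ L, h.2.2 = true) : ∀ h ∈ mp φ L, h.2.2 = true := by
  intro h hh
  obtain ⟨h', hh', rfl⟩ := List.mem_map.1 hh
  exact hL h' hh'

theorem sub_mp_RDel {G H : Type} (φ : G → H) {M L : List (Hd G)} (hs : M.Sublist L) :
    (mp φ M).Sublist (mp φ L) := hs.map _

theorem snd_mem_wd_RDel {G : Type} [Group G] {L : List (Hd G)} {h : Hd G} (hh : h ∈ L) :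
    h.2.1 ∈ wd L := by
  unfold wd
  exact List.mem_flatMap.2 ⟨h, hh, by simp⟩

/-- the subgroup generated by the second curves -/
def cs_RDel {G : Type} [Group G] (M : List (Hd G)) : Subgroup G :=
  closure ({x | ∃ h ∈ M, x = h.2.1} ∪ {x | x ∈ ([] : List G)})

theorem mem_cs_RDel {G : Type} [Group G] {M : List (Hd G)} {h : Hd G} (hh : h ∈ M) :
    h.2.1 ∈ cs_RDel M :=
  subset_closure (Or.inl ⟨h, hh, rfl⟩)

theorem cs_le_RDel {G : Type} [Group G] {M : List (Hd G)} {N : Subgroup G}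
    (hN : ∀ h ∈ M, h.2.1 ∈ N) : cs_RDel M ≤ N := by
  unfold cs_RDel
  rw [closure_le]
  rintro x (⟨h, hh, rfl⟩ | hx)
  · exact hN h hh
  · simp at hx

theorem gen_iff_RDel (T : Dg) (M : List (Hd T.G)) :
    Gen T M [] ↔ cs_RDel M ⊔ T.tot = ⊤ := Iff.rfl

theorem gen_of_RDel (T : Dg) {M M' : List (Hd T.G)} (hM : Gen T M [])
    (h : ∀ x ∈ M, x.2.1 ∈ cs_RDel M' ⊔ T.tot) : Gen T M' [] := by
  rw [gen_iff_RDel] at hM ⊢
  rw [eq_top_iff, ← hM]
  exact sup_le (cs_le_RDel h) le_sup_right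

theorem tot_normal_RDel (T : Dg) : T.tot.Normal := normalClosure_normal

theorem K0_le_RDel (T : Dg) : T.K 0 ≤ T.tot := fun _ hx =>
  subset_normalClosure (Or.inl (Or.inl hx))

theorem rDel (h1 : BStd) (h2 : BMove) (h3 : PFoot) (h4 : Surg) : RDel := by
  intro T g k m hSt hm
  obtain ⟨hT, L, M, hL, hlen, hfl, hsub, hmlen, hflag, hgen⟩ := hSt
  obtain ⟨L₁, h, L₂, M₁, M₂, rfl, hh, rfl, s1, s2⟩ :=
    split_RDel hsub hflag (by omega)
  obtain ⟨a, b, fg⟩ := h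
  simp only at hh
  subst hh
  have := tot_normal_RDel T
  have hK0 := K0_le_RDel T
  -- the commutator lies in the total kernel
  have ha : a ∈ T.tot := by
    apply hK0
    rw [hL.2.1]
    exact subset_normalClosure ⟨(a, b, true), by simp, rfl⟩
  have hc : cm a b ∈ T.tot := by
    have h' : b * a⁻¹ * b⁻¹ ∈ T.tot := (tot_normal_RDel T).conj_mem _ (inv_mem ha) b
    have e : cm a b = a * (b * a⁻¹ * b⁻¹) := by unfold cm; group
    rw [e]; exact mul_mem ha h'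
  have hmv := h2 T.G T.bd (T.K 0) (T.K 1) L₁ L₂ (a, b, true) hL
  simp only at hmv
  set cj : T.G → T.G := fun x => cm a b * x * (cm a b)⁻¹ with hcj
  set L₀ : List (Hd T.G) := L₁ ++ mp cj L₂ with hL₀
  set M' : List (Hd T.G) := M₁ ++ mp cj M₂ with hM'
  have hsub' : M'.Sublist L₀ := s1.append (sub_mp_RDel cj s2)
  have hflag' : ∀ h ∈ M', h.2.2 = true := by
    intro h hh
    rcases List.mem_append.1 hh with hh | hh
    · exact hflag h (List.mem_append_left _ hh)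
    · exact flag_mp_RDel cj (fun h hh => hflag h (List.mem_append_right _ hh)) h hh
  have hmlen' : M'.length = m := by
    rw [hM', List.length_append, length_mp, ← hmlen, List.length_append]
  have hlen' : L₀.length + 1 = g := by
    rw [hL₀, List.length_append, length_mp, ← hlen, List.length_append, List.length_cons]
    omega
  have hfl' : fl L₀ = k 0 - 1 := by
    rw [hL₀, fl_append, fl_mp, ← hfl, fl_append, fl_cons_RDel]
    simp only [if_true]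
    omega
  have hgen' : Gen T M' [] := by
    refine gen_of_RDel T hgen fun x hx => ?_
    rcases List.mem_append.1 hx with hx | hx
    · exact mem_sup_left (mem_cs_RDel (List.mem_append_left _ hx))
    · have h5 : cj x.2.1 ∈ cs_RDel M' :=
        mem_cs_RDel (List.mem_append_right M₁ (mem_mp_RDel cj hx))
      have e : x.2.1 = (cm a b)⁻¹ * cj x.2.1 * cm a b := by rw [hcj]; group
      rw [e]
      exact mul_mem (mul_mem (mem_sup_right (inv_mem hc)) (mem_sup_left h5)) (mem_sup_right hc)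
  -- the foot push
  have hb : b⁻¹ ∈ cs_RDel M' ⊔ T.tot := by
    rw [(gen_iff_RDel T M').1 hgen']; exact mem_top _
  obtain ⟨x, hx, n, hn, hxn⟩ := mem_sup_of_normal_right.1 hb
  have hx' : x ∈ closure {v | v ∈ wd L₀} :=
    cs_le_RDel (fun h hh => subset_closure (snd_mem_wd_RDel (hsub'.subset hh))) hx
  obtain ⟨φ, f1, f2, f3, f4, f5⟩ := h3 T.G T.bd (T.K 0) (T.K 1) L₀ a b x hmv hx'
  have hxb : x * b ∈ T.tot := by
    have e : x * b = b⁻¹ * n⁻¹ * b⁻¹⁻¹ := by rw [← hxn]; group; rw [← inv_inv b, ← hxn]; group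
    rw [e]
    exact (tot_normal_RDel T).conj_mem _ (inv_mem hn) b⁻¹
  have hφb : φ b ∈ T.tot := by
    have e : φ b = φ b * (x * b)⁻¹ * (x * b) := by group
    rw [e]; exact mul_mem (hK0 f5) hxb
  have hstd := h1.1 T.G T.G φ T.bd (T.K 0) (T.K 1) _ hmv
  rw [f1, f2, f3, mp_append] at hstd
  have hgen'' : Gen T (mp φ M') [] := by
    refine gen_of_RDel T hgen' fun y hy => ?_
    have h5 : φ y.2.1 ∈ cs_RDel (mp φ M') := mem_cs_RDel (mem_mp_RDel φ hy)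
    have h6 : φ y.2.1 * y.2.1⁻¹ ∈ T.tot := hK0 (f4 _ (snd_mem_wd_RDel (hsub'.subset hy)))
    have e : y.2.1 = (φ y.2.1 * y.2.1⁻¹)⁻¹ * φ y.2.1 := by group
    rw [e]
    exact mul_mem (mem_sup_right (inv_mem h6)) (mem_sup_left h5)
  obtain ⟨U, ψ, k₁, k₂, u1, u2, u3, u4, u5, u6, u7⟩ :=
    h4 T g k (mp φ L₀) (φ a) (φ b) hT hstd (by rw [length_mp]; exact hlen') hφb
  rw [fl_mp, hfl'] at u2
  refine ⟨U, u1, u2, mp ψ (mp φ L₀) ++ [k₁, k₂], mp ψ (mp φ M'), u5, ?_, ?_, ?_, ?_, ?_, ?_⟩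
  · rw [List.length_append, length_mp, length_mp]
    simp only [List.length_cons, List.length_nil]
    omega
  · rw [fl_append, fl_mp, fl_mp, hfl', fl_cons_RDel, fl_cons_RDel, u3, u4]
    simp [fl]
  · exact (sub_mp_RDel ψ (sub_mp_RDel φ hsub')).trans (List.sublist_append_left _ _)
  · rw [length_mp, length_mp, hmlen']
  · exact flag_mp_RDel ψ (flag_mp_RDel φ hflag')
  · rw [gen_iff_RDel, eq_top_iff, ← u7]
    refine sup_le ?_ le_sup_right
    rintro _ ⟨y, rfl⟩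
    have hy : y ∈ cs_RDel (mp φ M') ⊔ T.tot := by
      rw [(gen_iff_RDel T _).1 hgen'']; exact mem_top _
    have hle : cs_RDel (mp φ M') ⊔ T.tot ≤
        (cs_RDel (mp ψ (mp φ M')) ⊔ U.tot).comap ψ := by
      refine sup_le (cs_le_RDel fun z hz => ?_) fun z hz => ?_
      · exact mem_comap.2 (mem_sup_left (mem_cs_RDel (mem_mp_RDel ψ hz)))
      · exact mem_comap.2 (mem_sup_right (u6 z hz))
    exact mem_comap.1 (hle hy)

end Pool.Agent.MP_4a02af_gt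

end PartRDel
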