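import Pool.Agent.MP_4a02af_gt.MA
import Pool.Agent.MP_4a02af_gt.MB
import Pool.Agent.MP_4a02af_gt.MC
import Pool.Agent.MP_4a02af_gt.MD
import Pool.Agent.MP_4a02af_gt.EDes
import Pool.Agent.MP_4a02af_gt.EStd

open Monoid Monoid.Coprod Subgroup

namespace Pool.Agent.MP_4a02af_gt

theorem eqv_refl_Fin (T : Dg) : Eqv T T := Relation.EqvGen.refl T

theorem eqv_symm_Fin {T U : Dg} (h : Eqv T U) : Eqv U T := Relation.EqvGen.symm _ _ h

theorem eqv_trans_Fin {T U V : Dg} (h : Eqv T U) (h' : Eqv U V) : Eqv T V :=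
  Relation.EqvGen.trans _ _ _ h h'

theorem rot_sph_Fin (i : Fin 3) : (sph i).rot = sph (i + 2) := by
  unfold Dg.rot sph
  congr 1
  funext j
  have : (j + 1 = i) = (j = i + 2) := by
    apply propext
    revert i j
    decide
  simp only [this]

theorem rot_sum_Fin (T U : Dg) : (T.sum U).rot = T.rot.sum U.rot := rfl

theorem sumN_succ_Fin (T : Dg) (n : ℕ) : T.sumN (n + 1) = (T.sumN n).sum hyp := rfl

theorem bEqv (h1 : BTyp) (h2 : BIso) (h3 : BHyp) (h4 : BRot) : BEqv := by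
  obtain ⟨t1, t2, t3, t4⟩ := h1
  obtain ⟨i1, i2, i3, i4, i5, -⟩ := h2
  have vs : ∀ T U : Dg, T.Valid → U.Valid → (T.sum U).Valid :=
    fun T U ⟨g, k, h⟩ ⟨g', k', h'⟩ => ⟨_, _, t2 T U g g' k k' h h'⟩
  have vi : ∀ T U : Dg, T.Iso U → T.Valid → U.Valid :=
    fun T U h ⟨g, k, h'⟩ => ⟨g, k, t1 T U g k h h'⟩
  have vsp : ∀ i, (sph i).Valid := fun i => ⟨_, _, t3 i⟩
  have vh : hyp.Valid := ⟨_, _, h3⟩
  have e1 : ∀ T U : Dg, Eqv T U → (T.Valid ↔ U.Valid) := by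
    intro T U h
    induction h with
    | rel T U h =>
      refine ⟨fun _ => ?_, fun _ => h.1⟩
      rcases h.2 with h' | ⟨i, h'⟩
      · exact vi _ _ h' h.1
      · exact vi _ _ h' (vs _ _ h.1 (vsp i))
    | refl T => exact Iff.rfl
    | symm T U _ ih => exact ih.symm
    | trans T U V _ _ ih ih' => exact ih.trans ih'
  have e3 : ∀ T U Y : Dg, Eqv T U → Y.Valid → Eqv (T.sum Y) (U.sum Y) := by
    intro T U Y h hY
    induction h with
    | rel T U h =>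
      refine Relation.EqvGen.rel _ _ ⟨vs _ _ h.1 hY, ?_⟩
      rcases h.2 with h' | ⟨i, h'⟩
      · exact Or.inl (i4 _ _ _ _ h' (i1 Y))
      · exact Or.inr ⟨i, i3 _ _ _ (i5 T Y (sph i)) (i4 _ _ _ _ h' (i1 Y))⟩
    | refl T => exact eqv_refl_Fin _
    | symm T U _ ih => exact eqv_symm_Fin ih
    | trans T U V _ _ ih ih' => exact eqv_trans_Fin ih ih'
  have ri : ∀ T U : Dg, T.Iso U → T.rot.Iso U.rot :=
    fun T U ⟨e, he, hK⟩ => ⟨e, he, fun i => hK (i + 1)⟩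
  refine ⟨fun T U h => (e1 T U h).1, fun T U hT h => Relation.EqvGen.rel _ _ ⟨hT, Or.inl h⟩, e3,
    ?_, ?_, ?_, ?_, ?_, ?_⟩
  · intro T U h
    induction h with
    | rel T U h =>
      obtain ⟨⟨g, k, hT⟩, h'⟩ := h
      refine Relation.EqvGen.rel _ _ ⟨⟨_, _, t4 T g k hT⟩, ?_⟩
      rcases h' with h' | ⟨i, h'⟩
      · exact Or.inl (ri _ _ h')
      · refine Or.inr ⟨i + 2, ?_⟩
        rw [← rot_sph_Fin, ← rot_sum_Fin]
        exact ri _ _ h'
    | refl T => exact eqv_refl_Fin _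
    | symm T U _ ih => exact eqv_symm_Fin ih
    | trans T U V _ _ ih ih' => exact eqv_trans_Fin ih ih'
  · intro T U n h
    induction n with
    | zero => exact h
    | succ n ih => exact e3 _ _ _ ih vh
  · intro T n
    induction n with
    | zero => exact i1 _
    | succ n ih =>
      rw [sumN_succ_Fin, sumN_succ_Fin, rot_sum_Fin]
      exact i4 _ _ _ _ ih h4
  · intro T
    refine ⟨MulEquiv.refl T.G, rfl, fun i => ?_⟩
    have : i + 1 + 1 + 1 = i := by revert i; decide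
    show (T.K (i + 1 + 1 + 1)).map (MonoidHom.id T.G) = T.K i
    rw [this, Subgroup.map_id]
  · intro T m n
    induction n with
    | zero => rfl
    | succ n ih =>
      show ((T.sumN m).sumN n).sum hyp = (T.sumN (m + n)).sum hyp
      rw [ih]
  · intro T g k n hT
    induction n with
    | zero => exact hT
    | succ n ih =>
      have := t2 _ _ _ _ _ _ ih h3
      simp only [add_zero] at this
      have e : g + 2 * (n + 1) = g + 2 * n + 2 := by ring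
      rw [e]
      exact this

theorem redJ (h1 : BBr) (h2 : BEqv) (h4 : IRk) (h5 : IInv) (h6 : RAdd) (h7 : RDel) :
    ∀ (T : Dg) (g : ℕ) (k : Fin 3 → ℕ) (n c : ℕ), T.Typ g k → k 0 = c + n →
      ∃ U : Dg, Eqv (T.sumN n) U ∧ U.Typ (g + rk T.pi1 + n) ![rk T.pi1 + c, k 1, k 2] := by
  obtain ⟨q1, q2, q3, q4, q5, q6, q7, q8, q9⟩ := h2
  have add : ∀ (r : ℕ) (T : Dg) (g : ℕ) (k : Fin 3 → ℕ) (m : ℕ) (X : List T.G), X.length = r →
      St T g k m X → ∃ U : Dg, Eqv T U ∧ St U (g + r) ![k 0 + r, k 1, k 2] (m + r) [] := by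
    intro r
    induction r with
    | zero =>
      intro T g k m X hX h
      obtain rfl := List.length_eq_zero_iff.1 hX
      have e : ![k 0 + 0, k 1, k 2] = k := by funext i; fin_cases i <;> rfl
      rw [e]
      exact ⟨T, eqv_refl_Fin _, h⟩
    | succ r ih =>
      intro T g k m X hX h
      obtain ⟨x, X', rfl⟩ := List.exists_cons_of_length_eq_add_one hX
      obtain ⟨U, Y, hE, hY, hS⟩ := h6 T g k m x X' h
      obtain ⟨V, hE', hS'⟩ := ih U _ _ _ Y (by simpa [hY] using hX) hS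
      refine ⟨V, eqv_trans_Fin hE hE', ?_⟩
      have a1 : g + 1 + r = g + (r + 1) := by ring
      have a2 : m + 1 + r = m + (r + 1) := by ring
      have a3 : k 0 + 1 + r = k 0 + (r + 1) := by ring
      simpa [a1, a2, a3] using hS'
  have del : ∀ (j : ℕ) (T : Dg) (g m c a b : ℕ), St T g ![m + c + j, a, b] m [] →
      ∃ U : Dg, Eqv (T.sumN j) U ∧ St U (g + j) ![m + c, a, b] m [] := by
    intro j
    induction j with
    | zero => intro T g m c a b h; exact ⟨T, eqv_refl_Fin _, h⟩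
    | succ j ih =>
      intro T g m c a b h
      obtain ⟨U, hE, hS⟩ := h7 T g _ m h (by simp; omega)
      have hS' : St U (g + 1) ![m + c + j, a, b] m [] := by simpa using hS
      obtain ⟨V, hE', hV⟩ := ih U _ m c a b hS'
      refine ⟨V, ?_, ?_⟩
      · have := q5 _ _ j hE
        have e : (T.sum hyp).sumN j = T.sumN (j + 1) := by
          rw [add_comm j 1, ← q8]; rfl
        rw [e] at this
        exact eqv_trans_Fin this hE'
      · have a1 : g + 1 + j = g + (j + 1) := by ring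
        rwa [a1] at hV
  intro T g k n c hT hc
  obtain ⟨X, hX, hl⟩ := h4.2.2.1 T.pi1 (h5.1 T g k hT).1
  obtain ⟨L, hL, hg, hk⟩ := (h1 T.G T.bd g (k 0) _ _).1 (hT 0)
  have hS : St T g k 0 (X.map Quotient.out) := by
    refine ⟨hT, L, [], hL, hg, hk, List.nil_sublist _, rfl, by simp, ?_⟩
    unfold Gen
    rw [eq_top_iff]
    intro x _
    have h0 : (QuotientGroup.mk x : T.pi1) ∈ closure {y | y ∈ X} := by rw [hX]; trivial
    have key : ∀ y ∈ closure {y : T.pi1 | y ∈ X}, ∀ z : T.G, (QuotientGroup.mk z : T.pi1) = y →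
        z ∈ closure ({x | ∃ h ∈ ([] : List (Hd T.G)), x = h.2.1} ∪
          {x | x ∈ X.map Quotient.out}) ⊔ T.tot := by
      intro y hy
      induction hy using closure_induction with
      | mem y hy =>
        intro z hz
        have a1 : (Quotient.out y)⁻¹ * z ∈ T.tot := by
          apply QuotientGroup.eq.1
          exact (Quotient.out_eq y).trans hz.symm
        have a2 : z = Quotient.out y * ((Quotient.out y)⁻¹ * z) := by group
        rw [a2]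
        refine mul_mem (mem_sup_left (subset_closure (Or.inr ?_))) (mem_sup_right a1)
        exact List.mem_map.2 ⟨y, hy, rfl⟩
      | one =>
        intro z hz
        have : (T.tot).Normal := normalClosure_normal
        exact mem_sup_right ((QuotientGroup.eq_one_iff z).1 hz)
      | mul y y' _ _ ih ih' =>
        intro z hz
        have a2 : z = Quotient.out y * ((Quotient.out y)⁻¹ * z) := by group
        rw [a2]
        have a3 : (QuotientGroup.mk (Quotient.out y) : T.pi1) = y := Quotient.out_eq y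
        refine mul_mem (ih _ a3) (ih' _ ?_)
        rw [QuotientGroup.mk_mul, QuotientGroup.mk_inv, a3, hz]
        group
      | inv y _ ih =>
        intro z hz
        have := ih z⁻¹ (by rw [QuotientGroup.mk_inv, hz, inv_inv])
        simpa using inv_mem this
    exact key _ h0 x rfl
  obtain ⟨U, hE, hU⟩ := add (rk T.pi1) T g k 0 _ (by simpa using hl) hS
  rw [zero_add, add_comm (k 0), hc, ← add_assoc] at hU
  obtain ⟨V, hE', hV⟩ := del n U _ _ _ _ _ hU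
  exact ⟨V, eqv_trans_Fin (q5 _ _ _ hE) hE', hV.1⟩

theorem red0 (h1 : BBr) (h2 : BEqv) (h4 : IRk) (h5 : IInv) (h6 : RAdd) (h7 : RDel) : Red0 :=
  fun T g k hT => redJ h1 h2 h4 h5 h6 h7 T g k (k 0) 0 hT (zero_add _).symm

theorem red3 (h1 : BTyp) (h2 : BEqv) (h3 : IRk) (h4 : IPi) (h5 : IInv) (h6 : Red0) : Red3 := by
  obtain ⟨q1, q2, q3, q4, q5, q6, q7, q8, q9⟩ := h2
  have stp : ∀ (T : Dg) (g : ℕ) (k : Fin 3 → ℕ), T.Typ g k → ∃ U : Dg,
      Eqv (T.sumN (k 0)).rot U ∧ U.Typ (g + rk T.pi1 + k 0) ![k 1, k 2, rk T.pi1] ∧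
        rk U.pi1 = rk T.pi1 := by
    intro T g k hT
    obtain ⟨U, hE, hU⟩ := h6 T g k hT
    refine ⟨U.rot, q4 _ _ hE, ?_, ?_⟩
    · have := h1.2.2.2 U _ _ hU
      have e : (fun i : Fin 3 => ![rk T.pi1, k 1, k 2] (i + 1)) = ![k 1, k 2, rk T.pi1] := by
        funext i; fin_cases i <;> rfl
      rwa [e] at this
    · rw [h3.1 _ _ (h4.2.2 U), ← (h5.2.2.1 _ _ _ _ _ _ hE (q9 T g k _ hT) hU).2,
        h5.2.2.2 T _ ⟨g, k, hT⟩]
  have cmp : ∀ (T U V : Dg) (m n : ℕ), T.Valid → Eqv T.rot U → Eqv (U.sumN n).rot V →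
      Eqv (T.sumN n).rot.rot V := by
    intro T U V m n ⟨g, k, hT⟩ h h'
    refine eqv_trans_Fin (q4 _ _ ?_) h'
    refine eqv_trans_Fin (eqv_symm_Fin (q2 _ _ ?_ (q6 T n))) (q5 _ _ n h)
    exact ⟨_, _, q9 _ _ _ n (h1.2.2.2 T g k hT)⟩
  intro T g k hT
  obtain ⟨U, e1, t1, r1⟩ := stp T g k hT
  obtain ⟨V, e2, t2, r2⟩ := stp U _ _ t1
  obtain ⟨W, e3, t3, r3⟩ := stp V _ _ t2
  simp only [Matrix.cons_val_zero, Matrix.cons_val_one, Matrix.cons_val_two, r1, r2,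
    Matrix.head_cons, Matrix.tail_cons] at e2 t2 e3 t3
  have v1 : (T.sumN (k 0)).Typ _ k := q9 T g k (k 0) hT
  have c1 := cmp _ _ _ 0 (k 1) ⟨_, _, v1⟩ e1 e2
  rw [q8] at c1
  have v2 : (T.sumN (k 0 + k 1)).Typ _ k := q9 T g k _ hT
  have c2 := cmp (T.sumN (k 0 + k 1)).rot _ _ 0 (k 2) ⟨_, _, h1.2.2.2 _ _ _ v2⟩ c1 e3
  have v3 : (T.sumN (k 0 + k 1 + k 2)).Typ _ k := q9 T g k _ hT
  have c3 : Eqv ((T.sumN (k 0 + k 1)).rot.sumN (k 2)) (T.sumN (k 0 + k 1 + k 2)).rot := by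
    rw [← q8 T (k 0 + k 1) (k 2)]
    exact q2 _ _ ⟨_, _, q9 _ _ _ _ (h1.2.2.2 _ _ _ v2)⟩ (q6 _ _)
  have c4 := q4 _ _ (q4 _ _ c3)
  have c5 : Eqv (T.sumN (k 0 + k 1 + k 2)).rot.rot.rot (T.sumN (k 0 + k 1 + k 2)) :=
    q2 _ _ ⟨_, _, h1.2.2.2 _ _ _ (h1.2.2.2 _ _ _ (h1.2.2.2 _ _ _ v3))⟩ (q7 _)
  refine ⟨W, eqv_trans_Fin (eqv_symm_Fin c5) (eqv_trans_Fin (eqv_symm_Fin c4) c2), ?_⟩
  have a1 : g + rk T.pi1 + k 0 + rk T.pi1 + k 1 + rk T.pi1 + k 2 =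
      g + 3 * rk T.pi1 + (k 0 + k 1 + k 2) := by ring
  have a2 : ![rk T.pi1, rk T.pi1, rk T.pi1] = fun _ => rk T.pi1 := by
    funext i; fin_cases i <;> rfl
  rw [← a1, ← a2]
  exact t3

theorem up_Fin {T U : Dg} {g : ℕ} {k : Fin 3 → ℕ} (h : Eqv T U) (hU : U.Typ g k) :
    T.genus ≤ g := Nat.sInf_le ⟨U, k, h, hU⟩

theorem low_Fin (h5 : IInv) {T : Dg} {g : ℕ} {k : Fin 3 → ℕ} (hT : T.Typ g k) :
    g + 3 * rk T.pi1 ≤ T.genus + (k 0 + k 1 + k 2) := by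
  obtain ⟨U, k', hE, hU⟩ : T.genus ∈ {g | ∃ U k, Eqv T U ∧ U.Typ g k} :=
    Nat.sInf_mem ⟨g, T, k, eqv_refl_Fin T, hT⟩
  obtain ⟨a1, a2⟩ := h5.2.2.1 _ _ _ _ _ _ hE hT hU
  have a3 := (h5.1 U _ _ hU).2
  have b0 := a3 0
  have b1 := a3 1
  have b2 := a3 2
  omega

theorem thA (h2 : BEqv) (h5 : IInv) (h6 : Red3) : ThA := by
  obtain ⟨q1, q2, q3, q4, q5, q6, q7, q8, q9⟩ := h2
  intro T g k n hT hn
  obtain ⟨j, rfl⟩ := Nat.exists_eq_add_of_le hn
  obtain ⟨U, hE, hU⟩ := h6 T g k hT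
  have e1 := q5 _ _ j hE
  rw [q8] at e1
  have u := up_Fin e1 (q9 _ _ _ j hU)
  have l := low_Fin h5 (q9 T g k (k 0 + k 1 + k 2 + j) hT)
  rw [h5.2.2.2 T _ ⟨g, k, hT⟩] at l
  omega

theorem sub_Fin (h1 : BTyp) (h0 : BIso) (h2 : BEqv) {T U : Dg} (hT : T.Valid) (hU : U.Valid) :
    (T.sum U).genus ≤ T.genus + U.genus := by
  obtain ⟨q1, q2, q3, q4, q5, q6, q7, q8, q9⟩ := h2
  obtain ⟨g, k, hT⟩ := hT
  obtain ⟨g', k', hU⟩ := hU
  obtain ⟨T', l, e, t⟩ : T.genus ∈ {g | ∃ U k, Eqv T U ∧ U.Typ g k} :=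
    Nat.sInf_mem ⟨g, T, k, eqv_refl_Fin T, hT⟩
  obtain ⟨U', l', e', t'⟩ : U.genus ∈ {g | ∃ V k, Eqv U V ∧ V.Typ g k} :=
    Nat.sInf_mem ⟨g', U, k', eqv_refl_Fin U, hU⟩
  refine up_Fin (U := T'.sum U') ?_ (h1.2.1 _ _ _ _ _ _ t t')
  refine eqv_trans_Fin (q3 _ _ _ e ⟨_, _, hU⟩) ?_
  refine eqv_trans_Fin (q2 _ _ ⟨_, _, h1.2.1 _ _ _ _ _ _ t hU⟩ (h0.2.2.2.2.2 _ _)) ?_
  refine eqv_trans_Fin (q3 _ _ _ e' ⟨_, _, t⟩) ?_
  exact q2 _ _ ⟨_, _, h1.2.1 _ _ _ _ _ _ t' t⟩ (h0.2.2.2.2.2 _ _)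

theorem thC (h0 : BIso) (h1 : BTyp) (h2 : BEqv) (h5 : IInv) (h6 : ThA) : ThC := by
  intro T U g g' k k' n m hT hU hn hm
  have q9 := h2.2.2.2.2.2.2.2.2
  have a1 := h6 T g k n hT hn
  have a2 := h6 U g' k' m hU hm
  have t1 := q9 T g k n hT
  have t2 := q9 U g' k' m hU
  have a3 := sub_Fin h1 h0 h2 ⟨_, _, t1⟩ ⟨_, _, t2⟩
  have a4 := low_Fin h5 (h1.2.1 _ _ _ _ _ _ t1 t2)
  rw [h5.2.1 _ _ ⟨_, _, t1⟩ ⟨_, _, t2⟩, h5.2.2.2 T n ⟨_, _, hT⟩, h5.2.2.2 U m ⟨_, _, hU⟩] at a4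
  omega

theorem thB (h1 : BTyp) (h2 : BEqv) (h3 : BHyp) (h5 : IInv) (h6 : ThA) : ThB := by
  have q9 := h2.2.2.2.2.2.2.2.2
  unfold ThB
  tfae_have 1 → 2 := by
    intro h T hT
    have a1 := h6 hyp 2 _ 0 h3 (by simp)
    have a2 := (h5.1 hyp 2 _ h3).2 0
    have a3 : hyp.sumN 0 = hyp := rfl
    rw [a3] at a1
    rw [h T hyp hT ⟨_, _, h3⟩]
    omega
  tfae_have 2 → 3 := by
    intro h T g k hT
    have a1 : ∀ n, (T.sumN n).genus = T.genus + 2 * n := by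
      intro n
      induction n with
      | zero => rfl
      | succ n ih =>
        have := h (T.sumN n) ⟨_, _, q9 T g k n hT⟩
        show ((T.sumN n).sum hyp).genus = _
        omega
    have a2 := h6 T g k _ hT le_rfl
    rw [a1] at a2
    omega
  tfae_have 3 → 1 := by
    intro h T U ⟨g, k, hT⟩ ⟨g', k', hU⟩
    have a1 := h T g k hT
    have a2 := h U g' k' hU
    have a3 := h _ _ _ (h1.2.1 _ _ _ _ _ _ hT hU)
    rw [h5.2.1 _ _ ⟨_, _, hT⟩ ⟨_, _, hU⟩] at a3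
    omega
  tfae_finish

theorem cFree : BFree := bFree bSys
theorem cBr : BBr := bBr bSys cFree
theorem cStd : BStd := bStd bSys cFree
theorem cTyp : BTyp := bTyp cBr cStd
theorem cMove : BMove := bMove bSys cStd
theorem cSplit : BSplit := bSplit bSys cFree cStd
theorem cHyp : BHyp := bHyp cBr cStd bSys cFree
theorem cEqv : BEqv := bEqv cTyp bIso cHyp bRot
theorem cGru : Gru := gru iRk (grMain iRk grTie grCon) grSub
theorem cInv : IInv := iInv iRk (iStd iRk) iPi cGru cTyp cHyp cEqv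
theorem cZies : Zies := zies bSys cFree (zSl bSys) (zAdj bSys) zRed zCore zFin zW
theorem cEx : PEx := pEx bSys
theorem cLem : PLem := pLem bSys pGrp cEx
theorem cCen : PCen := pCen cFree pGrp
theorem cSl : PSl := pSl bSys (zSl bSys) pGrp cLem pSuf
theorem cKer : PKer := pKer bSys pGrp cEx cLem cCen (pDual bSys) pSuf
theorem cFoot : PFoot := pFoot cSplit pGrp cKer
theorem cAct : PAct := pAct pGrp
theorem cDK : DK :=
  dK bIso pGrp cAct (dA pGrp cAct) (dG pGrp cAct) (dB1 pGrp cAct) (dB2 pGrp cAct)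
theorem cDC : DC := dC bIso pGrp cAct (dA pGrp cAct) (dB1 pGrp cAct) (dB2 pGrp cAct)
theorem cDS : DS := dS bIso cBr cZies pGrp cSl cKer (pGood cEx) cDK cDC
theorem cSurg : Surg :=
  surg bIso cBr cStd cSplit cTyp cHyp cEqv pGrp cEx cCen cKer cDS (eDes pGrp cAct) (eStd cStd)
    (eT2 cBr cStd pGrp)
theorem cRed0 : Red0 :=
  red0 cBr cEqv iRk cInv (rAdd bIso cStd cTyp cFoot) (rDel cStd cMove cFoot cSurg)
theorem cRed3 : Red3 := red3 cTyp cEqv iRk iPi cInv cRed0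
theorem cThA : ThA := thA cEqv cInv cRed3
theorem cThB : ThB := thB cTyp cEqv cHyp cInv cThA
theorem cThC : ThC := thC bIso cTyp cEqv cInv cThA

theorem genus_eqv_All {T U : Dg} (h : Eqv T U) : T.genus = U.genus := by
  unfold Dg.genus
  congr 1
  ext g
  exact ⟨fun ⟨V, k, e, t⟩ => ⟨V, k, eqv_trans_Fin (eqv_symm_Fin h) e, t⟩,
    fun ⟨V, k, e, t⟩ => ⟨V, k, eqv_trans_Fin h e, t⟩⟩

theorem genus_rot_All {T : Dg} (hT : T.Valid) : T.rot.genus ≤ T.genus := by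
  obtain ⟨g, k, hT⟩ := hT
  obtain ⟨U, l, e, t⟩ : T.genus ∈ {g | ∃ U k, Eqv T U ∧ U.Typ g k} :=
    Nat.sInf_mem ⟨g, T, k, eqv_refl_Fin T, hT⟩
  exact up_Fin (cEqv.2.2.2.1 _ _ e) (cTyp.2.2.2 _ _ _ t)

theorem genus_rot_sumN_All {T : Dg} (hT : T.Valid) (n : ℕ) :
    (T.sumN n).genus ≤ (T.rot.sumN n).genus := by
  obtain ⟨q1, q2, q3, q4, q5, q6, q7, q8, q9⟩ := cEqv
  obtain ⟨g, k, hT⟩ := hT
  have t0 := q9 T g k n hT
  have t1 := cTyp.2.2.2 _ _ _ t0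
  have t2 := cTyp.2.2.2 _ _ _ t1
  have t3 := cTyp.2.2.2 _ _ _ t2
  have a1 := genus_eqv_All (q2 _ _ ⟨_, _, q9 _ _ _ n (cTyp.2.2.2 _ _ _ hT)⟩ (q6 T n))
  have a2 := genus_eqv_All (q2 _ _ ⟨_, _, t3⟩ (q7 _))
  have a3 := genus_rot_All ⟨_, _, t1⟩
  have a4 := genus_rot_All ⟨_, _, t2⟩
  omega

/-- trading handles in one sector -/
theorem trade_All (T : Dg) (g : ℕ) (k : Fin 3 → ℕ) (n : ℕ) (i : Fin 3) (hT : T.Typ g k)
    (hn : n ≤ k i) : (T.sumN n).genus ≤ g + rk T.pi1 + n := by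
  have z : ∀ (T : Dg) (g : ℕ) (k : Fin 3 → ℕ), T.Typ g k → n ≤ k 0 →
      (T.sumN n).genus ≤ g + rk T.pi1 + n := by
    intro T g k hT hn
    obtain ⟨U, e, t⟩ := redJ cBr cEqv iRk cInv (rAdd bIso cStd cTyp cFoot)
      (rDel cStd cMove cFoot cSurg) T g k n (k 0 - n) hT (by omega)
    exact up_Fin e t
  have t1 := cTyp.2.2.2 _ _ _ hT
  have t2 := cTyp.2.2.2 _ _ _ t1
  have r1 := iRk.1 _ _ (iPi.2.2 T)
  have r2 := iRk.1 _ _ (iPi.2.2 T.rot)
  have g1 := genus_rot_sumN_All ⟨_, _, hT⟩ n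
  have g2 := genus_rot_sumN_All ⟨_, _, t1⟩ n
  fin_cases i
  · exact z T g k hT hn
  · have := z _ _ _ t1 hn
    omega
  · have := z _ _ _ t2 hn
    omega

theorem local_All (T : Dg) (g : ℕ) (k : Fin 3 → ℕ) (hT : T.Typ g k) : List.TFAE
    [(T.sumN (rk T.pi1 + 1)).genus = T.genus + 2 * (rk T.pi1 + 1),
     ∀ n, (T.sumN n).genus = T.genus + 2 * n,
     T.genus + (k 0 + k 1 + k 2) = g + 3 * rk T.pi1] := by
  obtain ⟨q1, q2, q3, q4, q5, q6, q7, q8, q9⟩ := cEqv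
  obtain ⟨U, l, e, t⟩ : T.genus ∈ {g | ∃ U k, Eqv T U ∧ U.Typ g k} :=
    Nat.sInf_mem ⟨g, T, k, eqv_refl_Fin T, hT⟩
  obtain ⟨a1, a2⟩ := cInv.2.2.1 _ _ _ _ _ _ e hT t
  tfae_have 1 → 3 := by
    intro h
    have b := (cInv.1 U _ _ t).2
    have c : ∀ i, l i ≤ rk T.pi1 := by
      intro i
      by_contra hi
      have d := trade_All U _ l (rk T.pi1 + 1) i t (by omega)
      rw [← genus_eqv_All (q5 _ _ _ e)] at d
      omega
    have b0 := b 0
    have b1 := b 1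
    have b2 := b 2
    have c0 := c 0
    have c1 := c 1
    have c2 := c 2
    omega
  tfae_have 3 → 2 := by
    intro h n
    have u := up_Fin (q5 _ _ n e) (q9 _ _ _ n t)
    have w := low_Fin cInv (q9 T g k n hT)
    rw [cInv.2.2.2 T n ⟨g, k, hT⟩] at w
    omega
  tfae_have 2 → 1 := fun h => h _
  tfae_finish

end Pool.Agent.MP_4a02af_gt
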