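import Pool.Agent.MP_4a02af_gt.Stm2
import Pool.Agent.MP_4a02af_gt.All

section PartXOne

set_option linter.unusedSimpArgs false

open Monoid Monoid.Coprod Subgroup

namespace Pool.Agent.MP_4a02af_gt

namespace N_XOne

abbrev GX := F2 ∗ F4

def aX : GX := inl fa
def bX : GX := inl fb
def uX : GX := inr gu
def nX : GX := inr gn
def tX : GX := inr gt
def mX : GX := inr gm

/-- the endomorphism with given images of the six generators -/
def hm (a b u n t m : GX) : GX →* GX :=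
  Coprod.lift (FreeGroup.lift fun x : Bool => cond x b a) (FreeGroup.lift ![u, n, t, m])

theorem hm_a (a b u n t m : GX) : hm a b u n t m aX = a := by simp [hm, aX, fa]
theorem hm_b (a b u n t m : GX) : hm a b u n t m bX = b := by simp [hm, bX, fb]
theorem hm_u (a b u n t m : GX) : hm a b u n t m uX = u := by simp [hm, uX, gu]
theorem hm_n (a b u n t m : GX) : hm a b u n t m nX = n := by simp [hm, nX, gn]
theorem hm_t (a b u n t m : GX) : hm a b u n t m tX = t := by simp [hm, tX, gt]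
theorem hm_m (a b u n t m : GX) : hm a b u n t m mX = m := by simp [hm, mX, gm]

theorem ext6 {f g : GX →* GX} (ha : f aX = g aX) (hb : f bX = g bX) (hu : f uX = g uX)
    (hn : f nX = g nX) (ht : f tX = g tX) (hm : f mX = g mX) : f = g := by
  refine Coprod.hom_ext (FreeGroup.ext_hom _ _ fun x => ?_) (FreeGroup.ext_hom _ _ fun i => ?_)
  · cases x
    exacts [ha, hb]
  · fin_cases i
    exacts [hu, hn, ht, hm]

def be : GX →* GX := hm
  (bX⁻¹ * uX * nX⁻¹ * uX⁻¹ * bX * aX)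
  (tX * mX⁻¹ * tX⁻¹ * nX * bX)
  (tX * mX⁻¹ * tX⁻¹ * nX * uX * nX⁻¹ * uX⁻¹ * bX * aX * bX⁻¹ * nX⁻¹ * tX * mX * tX⁻¹ * aX⁻¹ *
    bX⁻¹ * uX * tX * mX⁻¹ * tX⁻¹ * nX * bX * aX⁻¹ * bX⁻¹ * uX * nX * uX⁻¹ * nX⁻¹ * tX * mX *
    tX⁻¹)
  (tX * mX⁻¹ * tX⁻¹ * nX * uX * nX⁻¹ * uX⁻¹ * bX * aX * bX⁻¹ * nX⁻¹ * tX * mX * tX⁻¹ * nX * tX *
    mX⁻¹ * tX⁻¹ * nX * bX * aX⁻¹ * bX⁻¹ * uX * nX * uX⁻¹ * nX⁻¹ * tX * mX * tX⁻¹)
  (tX * mX⁻¹ * tX⁻¹ * nX * uX * nX⁻¹ * uX⁻¹ * bX * aX * bX⁻¹ * nX⁻¹ * tX * mX)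
  (mX)

theorem be_a : be aX =
    bX⁻¹ * uX * nX⁻¹ * uX⁻¹ * bX * aX := hm_a ..
theorem be_b : be bX =
    tX * mX⁻¹ * tX⁻¹ * nX * bX := hm_b ..
theorem be_u : be uX =
    tX * mX⁻¹ * tX⁻¹ * nX * uX * nX⁻¹ * uX⁻¹ * bX * aX * bX⁻¹ * nX⁻¹ * tX * mX * tX⁻¹ * aX⁻¹ *
    bX⁻¹ * uX * tX * mX⁻¹ * tX⁻¹ * nX * bX * aX⁻¹ * bX⁻¹ * uX * nX * uX⁻¹ * nX⁻¹ * tX * mX *
    tX⁻¹ := hm_u ..
theorem be_n : be nX =
    tX * mX⁻¹ * tX⁻¹ * nX * uX * nX⁻¹ * uX⁻¹ * bX * aX * bX⁻¹ * nX⁻¹ * tX * mX * tX⁻¹ * nX * tX *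
    mX⁻¹ * tX⁻¹ * nX * bX * aX⁻¹ * bX⁻¹ * uX * nX * uX⁻¹ * nX⁻¹ * tX * mX * tX⁻¹ := hm_n ..
theorem be_t : be tX =
    tX * mX⁻¹ * tX⁻¹ * nX * uX * nX⁻¹ * uX⁻¹ * bX * aX * bX⁻¹ * nX⁻¹ * tX * mX := hm_t ..
theorem be_m : be mX =
    mX := hm_m ..

def ga : GX →* GX := hm
  (aX * bX * aX⁻¹ * bX⁻¹ * uX * nX * uX⁻¹ * bX * aX * bX⁻¹)
  (bX * aX⁻¹ * bX⁻¹ * nX⁻¹ * tX * mX * tX⁻¹ * bX * aX)
  (bX * aX⁻¹ * bX⁻¹ * nX⁻¹ * tX * mX * tX⁻¹ * bX * aX * aX * bX * aX⁻¹ * bX⁻¹ * uX * nX * bX *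
    aX * bX⁻¹)
  (bX * aX⁻¹ * bX⁻¹ * nX * bX * aX * bX⁻¹)
  (bX * aX⁻¹ * bX⁻¹ * tX)
  (mX)

theorem ga_a : ga aX =
    aX * bX * aX⁻¹ * bX⁻¹ * uX * nX * uX⁻¹ * bX * aX * bX⁻¹ := hm_a ..
theorem ga_b : ga bX =
    bX * aX⁻¹ * bX⁻¹ * nX⁻¹ * tX * mX * tX⁻¹ * bX * aX := hm_b ..
theorem ga_u : ga uX =
    bX * aX⁻¹ * bX⁻¹ * nX⁻¹ * tX * mX * tX⁻¹ * bX * aX * aX * bX * aX⁻¹ * bX⁻¹ * uX * nX * bX *
    aX * bX⁻¹ := hm_u ..
theorem ga_n : ga nX =
    bX * aX⁻¹ * bX⁻¹ * nX * bX * aX * bX⁻¹ := hm_n ..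
theorem ga_t : ga tX =
    bX * aX⁻¹ * bX⁻¹ * tX := hm_t ..
theorem ga_m : ga mX =
    mX := hm_m ..

def eqv : GX ≃* GX := MonoidHom.toMulEquiv be ga
  (by
    apply ext6 <;> simp only [MonoidHom.comp_apply, MonoidHom.id_apply,
      be_a, be_b, be_u, be_n, be_t, be_m, ga_a, ga_b, ga_u, ga_n, ga_t, ga_m,
      map_mul, map_inv] <;> group)
  (by
    apply ext6 <;> simp only [MonoidHom.comp_apply, MonoidHom.id_apply,
      be_a, be_b, be_u, be_n, be_t, be_m, ga_a, ga_b, ga_u, ga_n, ga_t, ga_m,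
      map_mul, map_inv] <;> group)

theorem bd_eq : be (cm aX bX * (cm uX nX * cm tX mX)) = cm aX bX * (cm uX nX * cm tX mX) := by
  simp only [cm, be_a, be_b, be_u, be_n, be_t, be_m, ga_a, ga_b, ga_u, ga_n, ga_t, ga_m,
      map_mul, map_inv]
  group

theorem ncs_eq {G H : Type} [Group G] [Group H] (x : G) (y z : H) :
    ncs (normalClosure {x}) (normalClosure {y, z}) =
      normalClosure ({inl x, inr y, inr z} : Set (G ∗ H)) := by
  refine le_antisymm (normalClosure_le_normal ?_) (normalClosure_mono ?_)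
  · rintro _ (⟨g, hg, rfl⟩ | ⟨g, hg, rfl⟩)
    · refine normalClosure_le_normal (N := comap inl (normalClosure
        ({inl x, inr y, inr z} : Set (G ∗ H)))) ?_ hg
      rintro _ rfl
      exact subset_normalClosure (s := ({inl _, inr y, inr z} : Set (G ∗ H))) (by simp)
    · refine normalClosure_le_normal (N := comap inr (normalClosure
        ({inl x, inr y, inr z} : Set (G ∗ H)))) ?_ hg
      rintro _ (rfl | rfl)
      · exact subset_normalClosure (s := ({inl x, inr _, inr z} : Set (G ∗ H))) (by simp)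
      · exact subset_normalClosure (s := ({inl x, inr y, inr _} : Set (G ∗ H))) (by simp)
  · rintro _ (rfl | rfl | rfl)
    · exact Or.inl ⟨x, subset_normalClosure rfl, rfl⟩
    · exact Or.inr ⟨y, subset_normalClosure (by simp), rfl⟩
    · exact Or.inr ⟨z, subset_normalClosure (by simp), rfl⟩

theorem ncl {G : Type} [Group G] {a b c x : G}
    (h : ∀ (Q : Type) [Group Q] (π : G →* Q), π a = 1 → π b = 1 → π c = 1 → π x = 1) :
    x ∈ normalClosure ({a, b, c} : Set G) :=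
  (QuotientGroup.eq_one_iff x).1 (h _ (QuotientGroup.mk' (normalClosure ({a, b, c} : Set G)))
    ((QuotientGroup.eq_one_iff a).2 (subset_normalClosure (by simp)))
    ((QuotientGroup.eq_one_iff b).2 (subset_normalClosure (by simp)))
    ((QuotientGroup.eq_one_iff c).2 (subset_normalClosure (by simp))))

theorem le3 {G : Type} [Group G] (f : G →* G) {a b c : G} {S : Set G}
    (ha : f a ∈ normalClosure S) (hb : f b ∈ normalClosure S) (hc : f c ∈ normalClosure S) :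
    normalClosure ({a, b, c} : Set G) ≤ (normalClosure S).comap f := by
  refine normalClosure_le_normal ?_
  rintro x (rfl | rfl | rfl)
  exacts [ha, hb, hc]

theorem eq3 {A B : Subgroup GX} (h1 : A ≤ B.comap be) (h2 : B ≤ A.comap ga) :
    A.map eqv.toMonoidHom = B :=
  le_antisymm (map_le_iff_le_comap.2 h1) fun x hx => ⟨eqv.symm x, h2 hx, eqv.apply_symm_apply x⟩

theorem k1 {x : GX} (h : ∀ (Q : Type) [Group Q] (π : GX →* Q), π bX = 1 → π uX = (π tX)⁻¹ →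
    π nX = π tX * π mX * (π tX)⁻¹ → π x = 1) :
    x ∈ normalClosure ({bX, uX * tX, nX⁻¹ * (tX * mX * tX⁻¹)} : Set GX) :=
  ncl fun Q _ π h0 h1 h2 => h Q π h0 (by rwa [map_mul, mul_eq_one_iff_eq_inv] at h1) (by
    rwa [map_mul, map_inv, inv_mul_eq_one, map_mul, map_mul, map_inv] at h2)

theorem k1' {x : GX} (h : ∀ (Q : Type) [Group Q] (π : GX →* Q), π bX = 1 →
    π uX = π mX * (π tX)⁻¹ → π nX = π tX * π mX * (π tX)⁻¹ → π x = 1) :
    x ∈ normalClosure ({bX, uX * nX⁻¹ * tX, nX⁻¹ * (tX * mX * tX⁻¹)} : Set GX) :=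
  ncl fun Q _ π h0 h1 h2 => by
    rw [map_mul, map_inv, inv_mul_eq_one, map_mul, map_mul, map_inv] at h2
    rw [map_mul, map_mul, map_inv, mul_eq_one_iff_eq_inv, mul_inv_eq_iff_eq_mul, h2] at h1
    exact h Q π h0 (by rw [h1]; group) h2

theorem k2 {x : GX} (h : ∀ (Q : Type) [Group Q] (π : GX →* Q), π bX = (π aX)⁻¹ → π uX = 1 →
    π mX = 1 → π x = 1) : x ∈ normalClosure ({aX * bX, uX, mX} : Set GX) :=
  ncl fun Q _ π h0 h1 h2 => h Q π (by rwa [map_mul, mul_eq_one_iff_inv_eq, eq_comm] at h0) h1 h2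

theorem m0 : (normalClosure ({aX, nX, tX} : Set GX)).map eqv.toMonoidHom =
    normalClosure ({aX, nX, tX} : Set GX) := by
  refine eq3 (le3 be (ncl ?_) (ncl ?_) (ncl ?_)) (le3 ga (ncl ?_) (ncl ?_) (ncl ?_)) <;>
  intro Q _ π h0 h1 h2 <;>
  simp only [be_a, be_b, be_u, be_n, be_t, be_m, ga_a, ga_b, ga_u, ga_n, ga_t, ga_m,
      map_mul, map_inv, h0, h1, h2] <;> group

theorem m1 : (normalClosure ({bX, uX * tX, nX⁻¹ * (tX * mX * tX⁻¹)} : Set GX)).map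
    eqv.toMonoidHom = normalClosure ({bX, uX * nX⁻¹ * tX, nX⁻¹ * (tX * mX * tX⁻¹)} : Set GX) := by
  refine eq3 (le3 be (k1' ?_) (k1' ?_) (k1' ?_)) (le3 ga (k1 ?_) (k1 ?_) (k1 ?_)) <;>
  intro Q _ π h0 h1 h2 <;>
  simp only [be_a, be_b, be_u, be_n, be_t, be_m, ga_a, ga_b, ga_u, ga_n, ga_t, ga_m,
      map_mul, map_inv, h0, h1, h2] <;> group

theorem m2 : (normalClosure ({aX * bX, uX, mX} : Set GX)).map eqv.toMonoidHom =
    normalClosure ({aX * bX, uX, mX} : Set GX) := by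
  refine eq3 (le3 be (k2 ?_) (k2 ?_) (k2 ?_)) (le3 ga (k2 ?_) (k2 ?_) (k2 ?_)) <;>
  intro Q _ π h0 h1 h2 <;>
  simp only [be_a, be_b, be_u, be_n, be_t, be_m, ga_a, ga_b, ga_u, ga_n, ga_t, ga_m,
      map_mul, map_inv, h0, h1, h2] <;> group

end N_XOne

open N_XOne in
theorem xOne : XOne := by
  have e : (inl (cm fa fb) * inr hb : GX) = cm aX bX * (cm uX nX * cm tX mX) := by
    simp only [hb, cm, aX, bX, uX, nX, tX, mX, map_mul, map_inv]
  refine ⟨eqv, ?_, fun i => ?_⟩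
  · change be (inl (cm fa fb) * inr hb) = inl (cm fa fb) * inr hb
    rw [e]
    exact bd_eq
  · fin_cases i
    · change (ncs (normalClosure {fa}) (normalClosure {gn, gt})).map eqv.toMonoidHom =
        ncs (normalClosure {fa}) (normalClosure {gn, gt})
      rw [ncs_eq]
      exact m0
    · change (ncs (normalClosure {fb})
          (normalClosure {gu * gt, gn⁻¹ * (gt * gm * gt⁻¹)})).map eqv.toMonoidHom =
        ncs (normalClosure {fb}) (normalClosure {gu * gn⁻¹ * gt, gn⁻¹ * (gt * gm * gt⁻¹)})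
      rw [ncs_eq, ncs_eq]
      simp only [map_mul, map_inv]
      exact m1
    · change (ncs (normalClosure {fa * fb}) (normalClosure {gu, gm})).map eqv.toMonoidHom =
        ncs (normalClosure {fa * fb}) (normalClosure {gu, gm})
      rw [ncs_eq, map_mul]
      exact m2

end Pool.Agent.MP_4a02af_gt

end PartXOne

section PartXTwo

open Monoid Monoid.Coprod Subgroup

namespace Pool.Agent.MP_4a02af_gt

set_option linter.unusedSimpArgs false
set_option linter.unusedVariables false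

section words

variable {G H : Type} [Group G] [Group H]

def fu_XTwo (p q r s : G) : G :=
  q * p⁻¹ * q⁻¹ * r * s * r⁻¹ * r⁻¹ * q * p * q⁻¹

def fn_XTwo (p q r s : G) : G :=
  q * p⁻¹ * q⁻¹ * r * r * s⁻¹ * r⁻¹ * q * p * q⁻¹ * p * q * p⁻¹ * q⁻¹ * r * s * r⁻¹ * r⁻¹ * r⁻¹ * q * p * q⁻¹

def ft_XTwo (p q r s : G) : G :=
  q * p⁻¹ * q⁻¹ * r * r * s⁻¹ * r⁻¹ * q * p * q⁻¹ * p * q * p⁻¹ * q⁻¹ * r * s * r⁻¹ * r⁻¹ * q * p * q⁻¹

def fm_XTwo (p q r s : G) : G :=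
  q * p * q * p⁻¹ * q⁻¹ * r * s * r⁻¹ * r⁻¹ * q * p * q⁻¹

def gp_XTwo (u n t m : G) : G :=
  u * t * u⁻¹

def gq_XTwo (u n t m : G) : G :=
  m * t⁻¹ * u⁻¹

def gr_XTwo (u n t m : G) : G :=
  m * t * m⁻¹ * n⁻¹ * t * m * t⁻¹ * m⁻¹

def gs_XTwo (u n t m : G) : G :=
  m * t * m⁻¹ * t⁻¹ * n * u * n⁻¹ * t * n⁻¹ * t * m * t⁻¹ * m⁻¹

theorem mem_XTwo {a b x : G}
    (h : ∀ (Q : Type) [Group Q] (φ : G →* Q), φ a = 1 → φ b = 1 → φ x = 1) :
    x ∈ normalClosure {a, b} :=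
  (QuotientGroup.eq_one_iff x).1 (h _ (QuotientGroup.mk' (normalClosure {a, b}))
    ((QuotientGroup.eq_one_iff a).2 (subset_normalClosure (by simp)))
    ((QuotientGroup.eq_one_iff b).2 (subset_normalClosure (by simp))))

theorem map_XTwo (e : G ≃* H) {S : Set G} {T : Set H} (h1 : ∀ x ∈ S, e x ∈ normalClosure T)
    (h2 : ∀ y ∈ T, e.symm y ∈ normalClosure S) :
    (normalClosure S).map e.toMonoidHom = normalClosure T := by
  refine le_antisymm (map_le_iff_le_comap.2 (normalClosure_le_normal h1)) fun y hy => ?_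
  exact ⟨e.symm y, normalClosure_le_normal (N := (normalClosure S).comap e.symm.toMonoidHom) h2 hy,
    e.apply_symm_apply y⟩

theorem ncs_XTwo (a : G) (b : H) :
    normalClosure (inl '' (normalClosure {a} : Set G) ∪ inr '' (normalClosure {b} : Set H)) =
      normalClosure {(inl a : G ∗ H), inr b} := by
  refine le_antisymm (normalClosure_le_normal ?_) (normalClosure_mono ?_)
  · rintro _ (⟨x, hx, rfl⟩ | ⟨x, hx, rfl⟩)
    · exact normalClosure_le_normal (N := (normalClosure {(inl a : G ∗ H), inr b}).comap inl)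
        (fun y hy => subset_normalClosure (Or.inl (by rw [Set.mem_singleton_iff.1 hy]))) hx
    · exact normalClosure_le_normal (N := (normalClosure {(inl a : G ∗ H), inr b}).comap inr)
        (fun y hy => subset_normalClosure (Or.inr (by rw [Set.mem_singleton_iff.1 hy]; rfl))) hx
  · rintro _ (rfl | rfl)
    · exact Or.inl ⟨a, subset_normalClosure rfl, rfl⟩
    · exact Or.inr ⟨b, subset_normalClosure rfl, rfl⟩

theorem conj_XTwo {x y : G} (c : G) (h : y = c * x * c⁻¹ ∨ y = c * x⁻¹ * c⁻¹) :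
    normalClosure ({x} : Set G) = normalClosure {y} := by
  have hx : x ∈ normalClosure ({x} : Set G) := subset_normalClosure rfl
  have hy : y ∈ normalClosure ({y} : Set G) := subset_normalClosure rfl
  refine le_antisymm (normalClosure_le_normal ?_) (normalClosure_le_normal ?_) <;>
    rintro _ rfl <;> rcases h with rfl | rfl
  · simpa [mul_assoc] using normalClosure_normal.conj_mem _ hy c⁻¹
  · simpa [mul_assoc] using inv_mem (normalClosure_normal.conj_mem _ hy c⁻¹)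
  · exact normalClosure_normal.conj_mem _ hx c
  · exact normalClosure_normal.conj_mem _ (inv_mem hx) c

end words

def F_XTwo : F4 →* F2 ∗ F2 := FreeGroup.lift
  ![fu_XTwo (inl fa) (inl fb) (inr fa) (inr fb), fn_XTwo (inl fa) (inl fb) (inr fa) (inr fb),
    ft_XTwo (inl fa) (inl fb) (inr fa) (inr fb), fm_XTwo (inl fa) (inl fb) (inr fa) (inr fb)]

def G_XTwo : F2 ∗ F2 →* F4 := Coprod.lift
  (FreeGroup.lift fun b : Bool => if b then gq_XTwo gu gn gt gm else gp_XTwo gu gn gt gm)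
  (FreeGroup.lift fun b : Bool => if b then gs_XTwo gu gn gt gm else gr_XTwo gu gn gt gm)

theorem Fu_XTwo : F_XTwo gu = fu_XTwo (inl fa) (inl fb) (inr fa) (inr fb) :=
  FreeGroup.lift_apply_of

theorem Fn_XTwo : F_XTwo gn = fn_XTwo (inl fa) (inl fb) (inr fa) (inr fb) :=
  FreeGroup.lift_apply_of

theorem Ft_XTwo : F_XTwo gt = ft_XTwo (inl fa) (inl fb) (inr fa) (inr fb) :=
  FreeGroup.lift_apply_of

theorem Fm_XTwo : F_XTwo gm = fm_XTwo (inl fa) (inl fb) (inr fa) (inr fb) :=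
  FreeGroup.lift_apply_of

theorem Gp_XTwo : G_XTwo (inl fa) = gp_XTwo gu gn gt gm := by simp [G_XTwo, fa, fb]

theorem Gq_XTwo : G_XTwo (inl fb) = gq_XTwo gu gn gt gm := by simp [G_XTwo, fa, fb]

theorem Gr_XTwo : G_XTwo (inr fa) = gr_XTwo gu gn gt gm := by simp [G_XTwo, fa, fb]

theorem Gs_XTwo : G_XTwo (inr fb) = gs_XTwo gu gn gt gm := by simp [G_XTwo, fa, fb]

def e_XTwo : F4 ≃* F2 ∗ F2 := MonoidHom.toMulEquiv F_XTwo G_XTwo
  (FreeGroup.ext_hom _ _ fun i => by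
    have : G_XTwo (F_XTwo gu) = gu ∧ G_XTwo (F_XTwo gn) = gn ∧ G_XTwo (F_XTwo gt) = gt ∧
        G_XTwo (F_XTwo gm) = gm := by
      simp only [map_mul, map_inv, Fu_XTwo, Fn_XTwo, Ft_XTwo, Fm_XTwo, Gp_XTwo, Gq_XTwo, Gr_XTwo, Gs_XTwo,
      fu_XTwo, fn_XTwo, ft_XTwo, fm_XTwo, gp_XTwo, gq_XTwo, gr_XTwo, gs_XTwo,
      mul_inv_rev, inv_inv, mul_assoc, mul_inv_cancel_left,
      inv_mul_cancel_left, mul_inv_cancel, inv_mul_cancel, mul_one, one_mul, inv_one, and_self]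
    fin_cases i
    exacts [this.1, this.2.1, this.2.2.1, this.2.2.2])
  (by
    have : F_XTwo (G_XTwo (inl fa)) = inl fa ∧ F_XTwo (G_XTwo (inl fb)) = inl fb ∧
        F_XTwo (G_XTwo (inr fa)) = inr fa ∧ F_XTwo (G_XTwo (inr fb)) = inr fb := by
      simp only [map_mul, map_inv, Fu_XTwo, Fn_XTwo, Ft_XTwo, Fm_XTwo, Gp_XTwo, Gq_XTwo, Gr_XTwo, Gs_XTwo,
      fu_XTwo, fn_XTwo, ft_XTwo, fm_XTwo, gp_XTwo, gq_XTwo, gr_XTwo, gs_XTwo,
      mul_inv_rev, inv_inv, mul_assoc, mul_inv_cancel_left,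
      inv_mul_cancel_left, mul_inv_cancel, inv_mul_cancel, mul_one, one_mul, inv_one, and_self]
    refine Coprod.hom_ext (FreeGroup.ext_hom _ _ fun b => ?_) (FreeGroup.ext_hom _ _ fun b => ?_)
    · cases b
      exacts [this.1, this.2.1]
    · cases b
      exacts [this.2.2.1, this.2.2.2])

theorem xTwo : XTwo := by
  have e1 : ∀ x, e_XTwo x = F_XTwo x := fun _ => rfl
  have e2 : ∀ x, e_XTwo.symm x = G_XTwo x := fun _ => rfl
  refine ⟨e_XTwo, ?_, fun i => ?_⟩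
  · change F_XTwo hb = (inl (cm fa fb) : F2 ∗ F2) * (inr (cm fa fb) : F2 ∗ F2)
    simp only [hb, cm, map_mul, map_inv, Fu_XTwo, Fn_XTwo, Ft_XTwo, Fm_XTwo, Gp_XTwo, Gq_XTwo, Gr_XTwo, Gs_XTwo,
      fu_XTwo, fn_XTwo, ft_XTwo, fm_XTwo, gp_XTwo, gq_XTwo, gr_XTwo, gs_XTwo,
      mul_inv_rev, inv_inv, mul_assoc, mul_inv_cancel_left,
      inv_mul_cancel_left, mul_inv_cancel, inv_mul_cancel, mul_one, one_mul, inv_one]
  fin_cases i
  · refine Eq.trans ?_ (ncs_XTwo fa fa).symm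
    refine map_XTwo e_XTwo ?_ ?_ <;> rintro _ (rfl | rfl) <;>
      refine mem_XTwo fun Q _ φ h1 h2 => ?_ <;>
      simp only [e1, e2, h1, h2, map_mul, map_inv, Fu_XTwo, Fn_XTwo, Ft_XTwo, Fm_XTwo, Gp_XTwo, Gq_XTwo, Gr_XTwo, Gs_XTwo,
      fu_XTwo, fn_XTwo, ft_XTwo, fm_XTwo, gp_XTwo, gq_XTwo, gr_XTwo, gs_XTwo,
      mul_inv_rev, inv_inv, mul_assoc, mul_inv_cancel_left,
      inv_mul_cancel_left, mul_inv_cancel, inv_mul_cancel, mul_one, one_mul, inv_one]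
  · refine Eq.trans ?_ (ncs_XTwo fb fb).symm
    refine map_XTwo e_XTwo ?_ ?_
    · rintro _ (rfl | rfl) <;> refine mem_XTwo fun Q _ φ h1 h2 => ?_ <;>
        simp only [e1, h1, h2, map_mul, map_inv, Fu_XTwo, Fn_XTwo, Ft_XTwo, Fm_XTwo, Gp_XTwo, Gq_XTwo, Gr_XTwo, Gs_XTwo,
      fu_XTwo, fn_XTwo, ft_XTwo, fm_XTwo, gp_XTwo, gq_XTwo, gr_XTwo, gs_XTwo,
      mul_inv_rev, inv_inv, mul_assoc, mul_inv_cancel_left,
      inv_mul_cancel_left, mul_inv_cancel, inv_mul_cancel, mul_one, one_mul, inv_one]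
    · have k : ∀ (Q : Type) [Group Q] (φ : F4 →* Q), φ (gu * gn⁻¹ * gt) = 1 →
          φ (gn⁻¹ * (gt * gm * gt⁻¹)) = 1 →
          φ gn = φ gt * φ gm * (φ gt)⁻¹ ∧ φ gu = φ gm * (φ gt)⁻¹ := by
        intro Q _ φ h1 h2
        simp only [map_mul, map_inv, inv_mul_eq_one] at h1 h2
        rw [mul_eq_one_iff_eq_inv, mul_inv_eq_iff_eq_mul, h2] at h1
        exact ⟨h2, by rw [h1]; group⟩
      rintro _ (rfl | rfl) <;> refine mem_XTwo fun Q _ φ h1 h2 => ?_ <;>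
        simp only [e2, (k Q φ h1 h2).1, (k Q φ h1 h2).2, map_mul, map_inv, Fu_XTwo, Fn_XTwo, Ft_XTwo, Fm_XTwo, Gp_XTwo, Gq_XTwo, Gr_XTwo, Gs_XTwo,
      fu_XTwo, fn_XTwo, ft_XTwo, fm_XTwo, gp_XTwo, gq_XTwo, gr_XTwo, gs_XTwo,
      mul_inv_rev, inv_inv, mul_assoc, mul_inv_cancel_left,
      inv_mul_cancel_left, mul_inv_cancel, inv_mul_cancel, mul_one, one_mul, inv_one]
  · refine Eq.trans ?_ (ncs_XTwo (fa * fb) (fa * fb⁻¹)).symm
    refine map_XTwo e_XTwo ?_ ?_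
    · have k : ∀ (Q : Type) [Group Q] (φ : F2 ∗ F2 →* Q), φ (inl (fa * fb)) = 1 →
          φ (inr (fa * fb⁻¹)) = 1 →
          φ (inl fa) = (φ (inl fb))⁻¹ ∧ φ (inr fa) = φ (inr fb) := by
        intro Q _ φ h1 h2
        simp only [map_mul, map_inv, mul_inv_eq_one] at h1 h2
        exact ⟨eq_inv_of_mul_eq_one_left h1, h2⟩
      rintro _ (rfl | rfl) <;> refine mem_XTwo fun Q _ φ h1 h2 => ?_ <;>
        simp only [e1, (k Q φ h1 h2).1, (k Q φ h1 h2).2, map_mul, map_inv, Fu_XTwo, Fn_XTwo, Ft_XTwo, Fm_XTwo, Gp_XTwo, Gq_XTwo, Gr_XTwo, Gs_XTwo,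
      fu_XTwo, fn_XTwo, ft_XTwo, fm_XTwo, gp_XTwo, gq_XTwo, gr_XTwo, gs_XTwo,
      mul_inv_rev, inv_inv, mul_assoc, mul_inv_cancel_left,
      inv_mul_cancel_left, mul_inv_cancel, inv_mul_cancel, mul_one, one_mul, inv_one]
    · rintro _ (rfl | rfl) <;> refine mem_XTwo fun Q _ φ h1 h2 => ?_ <;>
        simp only [e2, h1, h2, map_mul, map_inv, Fu_XTwo, Fn_XTwo, Ft_XTwo, Fm_XTwo, Gp_XTwo, Gq_XTwo, Gr_XTwo, Gs_XTwo,
      fu_XTwo, fn_XTwo, ft_XTwo, fm_XTwo, gp_XTwo, gq_XTwo, gr_XTwo, gs_XTwo,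
      mul_inv_rev, inv_inv, mul_assoc, mul_inv_cancel_left,
      inv_mul_cancel_left, mul_inv_cancel, inv_mul_cancel, mul_one, one_mul, inv_one]

/-- an automorphism of the free group of rank two -/
def au_XTwo (a b a' b' : F2)
    (h1 : FreeGroup.lift (fun c : Bool => if c then b' else a') a = fa)
    (h2 : FreeGroup.lift (fun c : Bool => if c then b' else a') b = fb)
    (h3 : FreeGroup.lift (fun c : Bool => if c then b else a) a' = fa)
    (h4 : FreeGroup.lift (fun c : Bool => if c then b else a) b' = fb) : F2 ≃* F2 :=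
  MonoidHom.toMulEquiv (FreeGroup.lift fun c : Bool => if c then b else a)
    (FreeGroup.lift fun c : Bool => if c then b' else a')
    (FreeGroup.ext_hom _ _ fun c => by cases c <;> simpa)
    (FreeGroup.ext_hom _ _ fun c => by cases c <;> simpa)

theorem nc_XTwo (e : F2 ≃* F2) (x : F2) :
    (normalClosure {x}).map e.toMonoidHom = normalClosure {e x} := by
  rw [map_normalClosure _ _ e.surjective, Set.image_singleton]
  rfl

theorem au_fa_XTwo (a b a' b' : F2) (h1 h2 h3 h4) : au_XTwo a b a' b' h1 h2 h3 h4 fa = a :=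
  FreeGroup.lift_apply_of

theorem au_fb_XTwo (a b a' b' : F2) (h1 h2 h3 h4) : au_XTwo a b a' b' h1 h2 h3 h4 fb = b :=
  FreeGroup.lift_apply_of

theorem std_XTwo (h1 : BBr) (h2 : BStd) (a b a' b' : F2) (he : cm a b = cm fa fb)
    (h : FreeGroup.lift (fun c : Bool => if c then b' else a') a = fa ∧
      FreeGroup.lift (fun c : Bool => if c then b' else a') b = fb ∧
      FreeGroup.lift (fun c : Bool => if c then b else a) a' = fa ∧
      FreeGroup.lift (fun c : Bool => if c then b else a) b' = fb) :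
    Std (cm fa fb) 1 0 (normalClosure {a}) (normalClosure {b}) := by
  have := h2.1 _ _ (au_XTwo a b a' b' h.1 h.2.1 h.2.2.1 h.2.2.2) _ _ _ _ h2.2.2.1
  rw [nc_XTwo, nc_XTwo, cm, map_mul, map_mul, map_mul, map_inv, map_inv, au_fa_XTwo,
    au_fb_XTwo] at this
  exact he ▸ (h1 _ _ _ _ _ _).2 ⟨_, this, rfl, rfl⟩

theorem xTyp (h1 : BBr) (h2 : BStd) : XTyp := by
  have s0 := std_XTwo h1 h2 fa fb fa fb rfl (by decide)
  have c1 : normalClosure {fa * fb * fa⁻¹} = normalClosure {fb} :=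
    (conj_XTwo fa (Or.inl rfl)).symm
  have c2 : normalClosure {fa⁻¹} = normalClosure {fa} := (conj_XTwo 1 (Or.inr (by group))).symm
  have c3 : normalClosure {fb * fa⁻¹} = normalClosure {fa * fb⁻¹} :=
    conj_XTwo 1 (Or.inr (by group))
  refine ⟨fun i => ?_, fun i => ?_, ?_⟩
  · fin_cases i
    · exact s0
    · have := std_XTwo h1 h2 (fa * fb * fa⁻¹) (fa * fb)⁻¹ (fa⁻¹ * fb⁻¹) (fb * fa * fb⁻¹)
        (by decide) (by decide)
      rw [c1, ← conj_XTwo (x := fa * fb) (y := (fa * fb)⁻¹) 1 (Or.inr (by group))] at this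
      exact this
    · have := std_XTwo h1 h2 (fa * fb) fa⁻¹ fb⁻¹ (fb * fa) (by decide) (by decide)
      rw [c2] at this
      exact this
  · fin_cases i
    · exact s0
    · have := std_XTwo h1 h2 (fa * fb * fa⁻¹) (fb * fa⁻¹) (fa * fb⁻¹) (fb * fa * fb⁻¹)
        (by decide) (by decide)
      rw [c1, c3] at this
      exact this
    · have := std_XTwo h1 h2 (fa * fb⁻¹) (fb * fa * fb⁻¹) (fa * fb * fa⁻¹) (fb * fa⁻¹)
        (by decide) (by decide)
      rw [← conj_XTwo (x := fa) (y := fb * fa * fb⁻¹) fb (Or.inl rfl)] at this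
      exact this
  · let e := au_XTwo fa⁻¹ (fa * fb * fa⁻¹) fa⁻¹ (fa * fb * fa⁻¹) (by decide) (by decide)
      (by decide) (by decide)
    have ea : e fa = fa⁻¹ := au_fa_XTwo _ _ _ _ _ _ _ _
    have eb : e fb = fa * fb * fa⁻¹ := au_fb_XTwo _ _ _ _ _ _ _ _
    refine ⟨e, ?_, fun i => ?_⟩
    · change e (cm fa fb)⁻¹ = cm fa fb
      simp only [cm, map_mul, map_inv, ea, eb]
      group
    fin_cases i
    · exact (nc_XTwo e fa).trans (by rw [ea, c2]; rfl)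
    · exact (nc_XTwo e fb).trans (by rw [eb, c1]; rfl)
    · exact (nc_XTwo e (fa * fb)).trans (by
        rw [map_mul, ea, eb, mul_assoc fa, inv_mul_cancel_left, c3]; rfl)

end Pool.Agent.MP_4a02af_gt

end PartXTwo

section PartXMir

open Monoid Monoid.Coprod Subgroup

namespace Pool.Agent.MP_4a02af_gt

theorem map_nc_XMir {G : Type} [Group G] (e : G ≃* G) (S : Set G)
    (h1 : ∀ x ∈ S, e x ∈ normalClosure S) (h2 : ∀ x ∈ S, e.symm x ∈ normalClosure S) :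
    (normalClosure S).map e.toMonoidHom = normalClosure S := by
  apply le_antisymm
  · rw [map_le_iff_le_comap]
    exact normalClosure_le_normal fun x hx => h1 x hx
  · have : normalClosure S ≤ (normalClosure S).comap e.symm.toMonoidHom :=
      normalClosure_le_normal fun x hx => h2 x hx
    exact fun x hx => ⟨e.symm x, this hx, e.apply_symm_apply x⟩

theorem nc_eq_XMir {G ι : Type} [Group G] {u v : ι → G} (σ : ι → ι) (hσ : Function.Surjective σ)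
    (h : ∀ i, (∃ c, v i = c * u (σ i) * c⁻¹) ∨ v i = (u (σ i))⁻¹) :
    normalClosure (Set.range u) = normalClosure (Set.range v) := by
  apply le_antisymm <;> apply normalClosure_le_normal
  · rintro _ ⟨j, rfl⟩
    obtain ⟨i, rfl⟩ := hσ j
    have hv : v i ∈ normalClosure (Set.range v) := subset_normalClosure ⟨i, rfl⟩
    rcases h i with ⟨c, e⟩ | e
    · have := normalClosure_normal.conj_mem _ hv c⁻¹
      rw [e] at this
      simpa [mul_assoc] using this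
    · rw [e] at hv
      exact inv_mem_iff.1 hv
  · rintro _ ⟨i, rfl⟩
    have hu : u (σ i) ∈ normalClosure (Set.range u) := subset_normalClosure ⟨_, rfl⟩
    rcases h i with ⟨c, e⟩ | e <;> rw [e]
    · exact normalClosure_normal.conj_mem _ hu c
    · exact inv_mem hu

theorem std_XMir {G : Type} [Group G] {w : G} {g k : ℕ} {A B : Subgroup G} (h : Std w g k A B) :
    Std w⁻¹ g k A B := by
  obtain ⟨e, S, hS, hw, hA, hB⟩ := h
  let f : G →* G := e.lift fun p =>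
    if p.2 then (e (p.1, true))⁻¹ else e (p.1, true) * e (p.1, false) * (e (p.1, true))⁻¹
  have fe : ∀ p, f (e p) =
      if p.2 then (e (p.1, true))⁻¹ else e (p.1, true) * e (p.1, false) * (e (p.1, true))⁻¹ :=
    fun p => congrFun (e.lift.symm_apply_apply _) p
  have f1 : ∀ i, f (e (i, true)) = (e (i, true))⁻¹ := fun i => fe _
  have f0 : ∀ i, f (e (i, false)) = e (i, true) * e (i, false) * (e (i, true))⁻¹ := fun i => fe _
  have ff : f.comp f = MonoidHom.id G := e.ext_hom _ _ (by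
    rintro ⟨i, _ | _⟩ <;> simp only [MonoidHom.comp_apply, MonoidHom.id_apply, f0, f1, map_mul,
      map_inv] <;> group)
  let e' := (e.reindex (Equiv.prodCongr Fin.revPerm (Equiv.refl Bool))).map (f.toMulEquiv f ff ff)
  have he : ∀ i s, e' (i, s) = f (e (i.rev, s)) := fun i s => by
    simp only [e', FreeGroupBasis.map_apply, FreeGroupBasis.reindex_apply]
    rfl
  refine ⟨e', S.map Fin.revPerm.toEmbedding, by rw [Finset.card_map, hS], ?_, ?_, ?_⟩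
  · rw [← hw, List.prod_inv_reverse]
    congr 1
    apply List.ext_getElem (by simp)
    intro n h1 h2
    simp only [List.length_ofFn] at h1
    simp only [List.getElem_ofFn, List.getElem_reverse, List.getElem_map, List.length_map,
      List.length_ofFn, he, f0, f1, cm]
    have : Fin.rev ⟨n, h1⟩ = ⟨g - 1 - n, by omega⟩ := Fin.ext (by simp only [Fin.val_rev]; omega)
    rw [this]
    group
  · rw [hA]
    exact nc_eq_XMir Fin.rev Fin.rev_surjective fun i => Or.inl ⟨_, by rw [he, f0]⟩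
  · rw [hB]
    refine nc_eq_XMir Fin.rev Fin.rev_surjective fun i => ?_
    have : i ∈ S.map Fin.revPerm.toEmbedding ↔ i.rev ∈ S := by
      rw [Finset.mem_map_equiv]; rfl
    by_cases hi : i.rev ∈ S
    · exact Or.inl ⟨_, by rw [if_pos hi, if_pos (this.2 hi), he, f0]⟩
    · exact Or.inr (by rw [if_neg hi, if_neg (mt this.1 hi), he, f1])

/-- conjugation of the second factor -/
def cj_XMir {G H : Type} [Group G] [Group H] (t : G) : G ∗ H →* G ∗ H :=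
  Coprod.lift inl ((MulAut.conj (inl t : G ∗ H)).toMonoidHom.comp inr)

theorem cj_cj_XMir {G H : Type} [Group G] [Group H] (t : G) :
    (cj_XMir t⁻¹).comp (cj_XMir t) = MonoidHom.id (G ∗ H) := by
  ext x <;> simp [cj_XMir, mul_assoc]

theorem cj_mem_XMir {G H : Type} [Group G] [Group H] (t : G) (A : Set G) (B : Set H) :
    ∀ x ∈ (inl '' A ∪ inr '' B : Set (G ∗ H)),
      cj_XMir t x ∈ normalClosure (inl '' A ∪ inr '' B : Set (G ∗ H)) := by
  intro x hx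
  have h := subset_normalClosure hx
  rcases hx with ⟨y, -, rfl⟩ | ⟨y, -, rfl⟩
  · simpa [cj_XMir] using h
  · simpa [cj_XMir] using normalClosure_normal.conj_mem _ h (inl t)

/-- the reflection of the punctured torus -/
def rf_XMir : F2 →* F2 := FreeGroup.lift fun b => if b then fa * fb * fa⁻¹ else fa⁻¹

theorem rf_a_XMir : rf_XMir fa = fa⁻¹ := by simp [rf_XMir, fa]

theorem rf_b_XMir : rf_XMir fb = fa * fb * fa⁻¹ := by simp [rf_XMir, fb]

theorem rf_rf_XMir : rf_XMir.comp rf_XMir = MonoidHom.id F2 := by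
  ext b
  cases b
  · change rf_XMir (rf_XMir fa) = fa
    rw [rf_a_XMir, map_inv, rf_a_XMir, inv_inv]
  · change rf_XMir (rf_XMir fb) = fb
    rw [rf_b_XMir, map_mul, map_mul, map_inv, rf_a_XMir, rf_b_XMir]
    group

theorem xMir (_h1 : BBr) (_h2 : BStd) (_h3 : BSys) : XMir := by
  refine ⟨fun T g k h i => std_XMir (h i), ?_, fun T U => ?_, fun i => ?_, fun T => ?_⟩
  · rintro T U ⟨e, h1, h2⟩
    exact ⟨e, (map_inv e T.bd).trans (congrArg (·⁻¹) h1), h2⟩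
  · have a := cj_cj_XMir (H := U.G) T.bd⁻¹
    have b := cj_cj_XMir (H := U.G) T.bd
    rw [inv_inv] at a
    refine ⟨(cj_XMir T.bd⁻¹).toMulEquiv (cj_XMir T.bd) a b, ?_, fun i =>
      map_nc_XMir _ _ (cj_mem_XMir _ _ _) (cj_mem_XMir _ _ _)⟩
    change cj_XMir T.bd⁻¹ ((inl T.bd * inr U.bd : T.G ∗ U.G)⁻¹) = inl T.bd⁻¹ * inr U.bd⁻¹
    simp [cj_XMir, mul_assoc]
  · have m : ∀ j : Fin 3, ∀ x ∈ ({if j = i then fa else fb} : Set F2),
        rf_XMir x ∈ normalClosure ({if j = i then fa else fb} : Set F2) := by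
      rintro j _ rfl
      have h : (if j = i then fa else fb) ∈ normalClosure ({if j = i then fa else fb} : Set F2) :=
        subset_normalClosure rfl
      split_ifs at h ⊢
      · rw [rf_a_XMir]; exact inv_mem h
      · rw [rf_b_XMir]; exact normalClosure_normal.conj_mem _ h fa
    refine ⟨rf_XMir.toMulEquiv rf_XMir rf_rf_XMir rf_rf_XMir, ?_, fun j =>
      map_nc_XMir _ _ (m j) (m j)⟩
    change rf_XMir (cm fa fb)⁻¹ = cm fa fb
    simp only [cm, map_mul, map_inv, rf_a_XMir, rf_b_XMir]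
    group
  · exact ⟨MulEquiv.refl _, inv_inv T.bd, fun i => Subgroup.map_id _⟩

end Pool.Agent.MP_4a02af_gt

end PartXMir

section PartFin2

open Monoid Monoid.Coprod Subgroup

namespace Pool.Agent.MP_4a02af_gt

theorem genus_eqv_Fin2 {T U : Dg} (h : Eqv T U) : T.genus = U.genus := by
  unfold Dg.genus
  congr 1
  ext g
  exact ⟨fun ⟨V, k, e, t⟩ => ⟨V, k, eqv_trans_Fin (eqv_symm_Fin h) e, t⟩,
    fun ⟨V, k, e, t⟩ => ⟨V, k, eqv_trans_Fin h e, t⟩⟩

theorem eqv_mir_Fin2 (h0 : BIso) (hm : XMir) {T U : Dg} (h : Eqv T U) : Eqv T.mir U.mir := by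
  obtain ⟨m1, m2, m3, m4, -⟩ := hm
  obtain ⟨i1, i2, i3, i4, -, -⟩ := h0
  induction h with
  | rel T U h =>
    obtain ⟨⟨g, k, hT⟩, h'⟩ := h
    refine Relation.EqvGen.rel _ _ ⟨⟨_, _, m1 T g k hT⟩, ?_⟩
    rcases h' with h' | ⟨i, h'⟩
    · exact Or.inl (m2 _ _ h')
    · refine Or.inr ⟨i, i3 _ _ _ ?_ (m2 _ _ h')⟩
      exact i3 _ _ _ (i4 _ _ _ _ (i1 _) (i2 _ _ (m4 i))) (i2 _ _ (m3 _ _))
  | refl T => exact eqv_refl_Fin _
  | symm T U _ ih => exact eqv_symm_Fin ih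
  | trans T U V _ _ ih ih' => exact eqv_trans_Fin ih ih'

theorem genus_mir_Fin2 (h0 : BIso) (h2 : BEqv) (hm : XMir) {T : Dg} (hT : T.Valid) :
    T.mir.genus = T.genus := by
  have le : ∀ T : Dg, T.Valid → T.mir.genus ≤ T.genus := by
    intro T ⟨g, k, hT⟩
    obtain ⟨U, l, e, t⟩ : T.genus ∈ {g | ∃ U k, Eqv T U ∧ U.Typ g k} :=
      Nat.sInf_mem ⟨g, T, k, eqv_refl_Fin T, hT⟩
    exact up_Fin (eqv_mir_Fin2 h0 hm e) (hm.1 _ _ _ t)
  obtain ⟨g, k, hT⟩ := hT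
  refine le_antisymm (le T ⟨g, k, hT⟩) ?_
  have a := le T.mir ⟨g, k, hm.1 _ _ _ hT⟩
  rwa [genus_eqv_Fin2 (h2.2.1 _ _ ⟨g, k, hm.1 _ _ _ (hm.1 _ _ _ hT)⟩ (hm.2.2.2.2 T))] at a

theorem thD (h0 : BIso) (h1 : BTyp) (h2 : BEqv) (h3 : BHyp) (h5 : IInv) (h6 : ThB) (x1 : XOne)
    (x2 : XTwo) (x3 : XTyp) (hm : XMir) : ThD := by
  have i0 := h0
  obtain ⟨i1, i2, i3, i4, i5, i6⟩ := h0
  have vs : ∀ T U : Dg, T.Valid → U.Valid → (T.sum U).Valid :=
    fun T U ⟨g, k, h⟩ ⟨g', k', h'⟩ => ⟨_, _, h1.2.1 T U g g' k k' h h'⟩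
  have vp : cp.Valid := ⟨_, _, x3.1⟩
  have vq : cq.Valid := ⟨_, _, x3.2.1⟩
  have vh : hyp.Valid := ⟨_, _, h3⟩
  have gi : ∀ T U : Dg, T.Valid → T.Iso U → T.genus = U.genus :=
    fun T U hT h => genus_eqv_Fin2 (h2.2.1 T U hT h)
  have asc : ∀ T U V : Dg, ((T.sum U).sum V).Iso (T.sum (U.sum V)) := fun T U V =>
    i3 _ _ _ (i4 _ _ _ _ (i6 T U) (i1 V)) (i3 _ _ _ (i5 U T V) (i6 _ _))
  unfold ThB at h6
  unfold ThD
  tfae_have 1 ↔ 2 := h6.out 0 1
  tfae_have 1 ↔ 4 := h6.out 0 2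
  tfae_have 1 → 3 := by
    intro h T hT
    have a1 := up_Fin (eqv_refl_Fin cp) x3.1
    have a2 := low_Fin h5 x3.1
    rw [h T cp hT vp]
    omega
  tfae_have 3 → 2 := by
    intro h T hT
    have hq : ∀ T : Dg, T.Valid → (T.sum cq).genus = T.genus + 1 := by
      intro T hT
      have vm : T.mir.Valid := by
        obtain ⟨g, k, t⟩ := hT
        exact ⟨g, k, hm.1 _ _ _ t⟩
      have v2 := vs _ _ vm vp
      have v3 : (T.mir.sum cp).mir.Valid := by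
        obtain ⟨g, k, t⟩ := v2
        exact ⟨g, k, hm.1 _ _ _ t⟩
      have a1 := gi _ _ v3 (i3 _ _ _ (hm.2.2.1 _ _) (i4 _ _ _ _ (hm.2.2.2.2 T) x3.2.2))
      rw [← a1, genus_mir_Fin2 i0 h2 hm v2, h _ vm, genus_mir_Fin2 i0 h2 hm hT]
    have b1 : ((T.sum hyp).sum cp).Iso (((T.sum cp).sum cp).sum cq) := by
      refine i3 _ _ _ (i5 _ _ _) (i3 _ _ _ (asc _ _ _) ?_)
      refine i3 _ _ _ (i4 _ _ _ _ (i1 T) (i3 _ _ _ x1 (i4 _ _ _ _ (i1 cp) x2))) ?_
      exact i3 _ _ _ (i2 _ _ (asc _ _ _)) (i2 _ _ (asc _ _ _))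
    have b2 := gi _ _ (vs _ _ (vs _ _ hT vh) vp) b1
    rw [h _ (vs _ _ hT vh), hq _ (vs _ _ (vs _ _ hT vp) vp), h _ (vs _ _ hT vp), h _ hT] at b2
    omega
  tfae_finish

end Pool.Agent.MP_4a02af_gt

end PartFin2

namespace Pool.Agent.MP_4a02af_gt

theorem cThD : ThD :=
  thD bIso cTyp cEqv cHyp cInv cThB xOne xTwo (xTyp cBr cStd) (xMir cBr cStd bSys)

end Pool.Agent.MP_4a02af_gt
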