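import Mathlib

/-! Trisection diagrams, written in the fundamental group of the central surface minus a disc. -/

open Monoid Monoid.Coprod Subgroup

namespace Pool.Agent.MP_4a02af_gt

/-- a group, a boundary element and three subgroups -/
structure Dg where
  G : Type
  [grp : Group G]
  bd : G
  K : Fin 3 → Subgroup G

attribute [instance] Dg.grp

/-- commutator -/
def cm {G : Type} [Group G] (a b : G) : G := a * b * a⁻¹ * b⁻¹

/-- the pair `A`, `B` is the pair of handlebody kernels of the standard genus `g` splitting of the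
connected sum of `k` copies of `S¹ × S²`, in a free basis whose product of commutators is `w` -/
def Std {G : Type} [Group G] (w : G) (g k : ℕ) (A B : Subgroup G) : Prop :=
  ∃ (e : FreeGroupBasis (Fin g × Bool) G) (S : Finset (Fin g)), S.card = k ∧
    (List.ofFn fun i => cm (e (i, false)) (e (i, true))).prod = w ∧
    A = normalClosure (Set.range fun i => e (i, false)) ∧
    B = normalClosure (Set.range fun i => if i ∈ S then e (i, false) else e (i, true))

/-- `T` is a trisection diagram of genus `g` and type `k` -/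
def Dg.Typ (T : Dg) (g : ℕ) (k : Fin 3 → ℕ) : Prop :=
  ∀ i, Std T.bd g (k i) (T.K i) (T.K (i + 1))

def Dg.Valid (T : Dg) : Prop := ∃ g k, T.Typ g k

/-- connected sum -/
def Dg.sum (T U : Dg) : Dg where
  G := T.G ∗ U.G
  bd := inl T.bd * inr U.bd
  K i := normalClosure (inl '' (T.K i : Set T.G) ∪ inr '' (U.K i : Set U.G))

def Dg.Iso (T U : Dg) : Prop :=
  ∃ e : T.G ≃* U.G, e T.bd = U.bd ∧ ∀ i, (T.K i).map e.toMonoidHom = U.K i

/-- the three genus one diagrams of the four-sphere -/
def sph (i : Fin 3) : Dg where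
  G := FreeGroup Bool
  bd := cm (FreeGroup.of false) (FreeGroup.of true)
  K j := normalClosure {if j = i then FreeGroup.of false else FreeGroup.of true}

/-- the genus two diagram of `S² × S²` -/
def hyp : Dg where
  G := FreeGroup (Fin 4)
  bd := cm (FreeGroup.of 0) (FreeGroup.of 1) * cm (FreeGroup.of 2) (FreeGroup.of 3)
  K := ![normalClosure {FreeGroup.of 1, FreeGroup.of 2},
    normalClosure {FreeGroup.of 0 * FreeGroup.of 2,
      (FreeGroup.of 1)⁻¹ * (FreeGroup.of 2 * FreeGroup.of 3 * (FreeGroup.of 2)⁻¹)},
    normalClosure {FreeGroup.of 0, FreeGroup.of 3}]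

/-- an isomorphism or a stabilisation of a trisection diagram -/
def Step (T U : Dg) : Prop := T.Valid ∧ (T.Iso U ∨ ∃ i, (T.sum (sph i)).Iso U)

/-- the diagrams describe the same oriented four-manifold -/
def Eqv : Dg → Dg → Prop := Relation.EqvGen Step

/-- trisection genus -/
noncomputable def Dg.genus (T : Dg) : ℕ := sInf {g | ∃ U k, Eqv T U ∧ U.Typ g k}

/-- fundamental group of the four-manifold -/
abbrev Dg.pi1 (T : Dg) : Type :=
  T.G ⧸ normalClosure ((T.K 0 : Set T.G) ∪ (T.K 1 : Set T.G) ∪ (T.K 2 : Set T.G))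

/-- least number of generators -/
noncomputable def rk (G : Type) [Group G] : ℕ :=
  sInf {n | ∃ S : Finset G, S.card = n ∧ closure (S : Set G) = ⊤}

/-- connected sum with `n` copies of `S² × S²` -/
def Dg.sumN (T : Dg) : ℕ → Dg
  | 0 => T
  | n + 1 => (T.sumN n).sum hyp

end Pool.Agent.MP_4a02af_gt
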