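import Pool.Agent.MP_4a02af_gt.Defs

open Subgroup

namespace Pool.Agent.MP_4a02af_gt

/-- the genus one diagram of the complex projective plane -/
def cp : Dg where
  G := FreeGroup Bool
  bd := cm (FreeGroup.of false) (FreeGroup.of true)
  K := ![normalClosure {FreeGroup.of false}, normalClosure {FreeGroup.of true},
    normalClosure {FreeGroup.of false * FreeGroup.of true}]

end Pool.Agent.MP_4a02af_gt
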