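import Pool.Agent.MP_4a02af_gt.Stm

section PartBSys

open Monoid Monoid.Coprod Subgroup

namespace Pool.Agent.MP_4a02af_gt

theorem ext_BSys {G H : Type} [Group G] [Group H] {W : List G} {φ ψ : G →* H} (h : Sys W)
    (e : ∀ v ∈ W, φ v = ψ v) : φ = ψ :=
  MonoidHom.eq_of_eqOn_dense h.2.2.1 fun v hv => e v hv

theorem perm_BSys {G : Type} [Group G] {W W' : List G} (p : W.Perm W') (h : Sys W) : Sys W' := by
  obtain ⟨h1, h2, h3, h4⟩ := h
  refine ⟨p.nodup_iff.1 h1, fun v hv => ?_, ?_, fun H _ f hf => ?_⟩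
  · exact ⟨p.mem_iff.1 (h2 v (p.mem_iff.2 hv)).1, (h2 v (p.mem_iff.2 hv)).2⟩
  · rw [← h3]
    congr 1
    ext v
    exact p.mem_iff.symm
  · obtain ⟨φ, hφ⟩ := h4 H f fun v hv => hf v (p.mem_iff.1 hv)
    exact ⟨φ, fun v hv => hφ v (p.mem_iff.2 hv)⟩

theorem map_BSys {G H : Type} [Group G] [Group H] (e : G ≃* H) {W : List G} (h : Sys W) :
    Sys (W.map e) := by
  obtain ⟨h1, h2, h3, h4⟩ := h
  refine ⟨h1.map e.injective, fun v hv => ?_, ?_, fun K _ f hf => ?_⟩
  · obtain ⟨u, hu, rfl⟩ := List.mem_map.1 hv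
    rw [← map_inv]
    exact ⟨List.mem_map.2 ⟨_, (h2 u hu).1, rfl⟩, fun h => (h2 u hu).2 (e.injective h)⟩
  · have : {v | v ∈ W.map e} = e.toMonoidHom '' {v | v ∈ W} := by
      ext v
      simp
    rw [this, ← MonoidHom.map_closure, h3]
    exact Subgroup.map_top_of_surjective _ e.surjective
  · obtain ⟨φ, hφ⟩ := h4 K (fun v => f (e v)) fun v hv => by
      rw [map_inv]; exact hf _ (List.mem_map.2 ⟨v, hv, rfl⟩)
    refine ⟨φ.comp e.symm.toMonoidHom, fun v hv => ?_⟩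
    obtain ⟨u, hu, rfl⟩ := List.mem_map.1 hv
    simpa using hφ u hu

theorem sum_BSys {G H : Type} [Group G] [Group H] {W : List G} {W' : List H} (h : Sys W)
    (h' : Sys W') : Sys (W.map (inl : G →* G ∗ H) ++ W'.map (inr : H →* G ∗ H)) := by
  obtain ⟨h1, h2, h3, h4⟩ := h
  obtain ⟨k1, k2, k3, k4⟩ := h'
  have il : Function.Injective (inl : G →* G ∗ H) := inl_injective
  have ir : Function.Injective (inr : H →* G ∗ H) := inr_injective
  refine ⟨?_, fun v hv => ?_, ?_, fun K _ f hf => ?_⟩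
  · refine List.nodup_append.2 ⟨h1.map il, k1.map ir, fun a ha b hb hab => ?_⟩
    obtain ⟨u, hu, rfl⟩ := List.mem_map.1 ha
    obtain ⟨w, -, rfl⟩ := List.mem_map.1 hb
    have : u = 1 := by simpa using congrArg (fst : G ∗ H →* G) hab
    exact (h2 u hu).2 (by rw [this, inv_one])
  · rcases List.mem_append.1 hv with hv | hv
    · obtain ⟨u, hu, rfl⟩ := List.mem_map.1 hv
      rw [← map_inv]
      exact ⟨List.mem_append_left _ (List.mem_map.2 ⟨_, (h2 u hu).1, rfl⟩),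
        fun h => (h2 u hu).2 (il h)⟩
    · obtain ⟨u, hu, rfl⟩ := List.mem_map.1 hv
      rw [← map_inv]
      exact ⟨List.mem_append_right _ (List.mem_map.2 ⟨_, (k2 u hu).1, rfl⟩),
        fun h => (k2 u hu).2 (ir h)⟩
  · have e : {v | v ∈ W.map (inl : G →* G ∗ H) ++ W'.map (inr : H →* G ∗ H)} =
        (inl : G →* G ∗ H) '' {v | v ∈ W} ∪ (inr : H →* G ∗ H) '' {v | v ∈ W'} := by
      ext v
      simp
    rw [e, Subgroup.closure_union, ← MonoidHom.map_closure, ← MonoidHom.map_closure, h3, k3,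
      ← MonoidHom.range_eq_map, ← MonoidHom.range_eq_map]
    exact range_inl_sup_range_inr
  · obtain ⟨φ, hφ⟩ := h4 K (fun v => f (inl v)) fun v hv => by
      rw [map_inv]; exact hf _ (List.mem_append_left _ (List.mem_map.2 ⟨v, hv, rfl⟩))
    obtain ⟨ψ, hψ⟩ := k4 K (fun v => f (inr v)) fun v hv => by
      rw [map_inv]; exact hf _ (List.mem_append_right _ (List.mem_map.2 ⟨v, hv, rfl⟩))
    refine ⟨lift φ ψ, fun v hv => ?_⟩
    rcases List.mem_append.1 hv with hv | hv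
    · obtain ⟨u, hu, rfl⟩ := List.mem_map.1 hv
      rw [lift_apply_inl]; exact hφ u hu
    · obtain ⟨u, hu, rfl⟩ := List.mem_map.1 hv
      rw [lift_apply_inr]; exact hψ u hu

theorem upd_BSys {G H : Type} [Group G] [Group H] {W : List G} {y : G} (φ₀ : G →* H) (z : H)
    (h : Sys W) (hy : y ∈ W) : ∃ φ : G →* H, φ y = z ∧ ∀ v ∈ W, v ≠ y → v ≠ y⁻¹ → φ v = φ₀ v := by
  classical
  obtain ⟨-, h2, -, h4⟩ := h
  have ny := (h2 y hy).2
  obtain ⟨φ, hφ⟩ := h4 H (fun v => if v = y then z else if v = y⁻¹ then z⁻¹ else φ₀ v)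
    fun v _ => by
      by_cases a : v = y
      · subst a
        simp [ny]
      · by_cases b : v = y⁻¹
        · subst b
          simp [ny]
        · have c : v⁻¹ ≠ y := fun h => b (by rw [← h, inv_inv])
          have d : v⁻¹ ≠ y⁻¹ := fun h => a (inv_injective h)
          simp [a, b, c]
  refine ⟨φ, by simpa using hφ y hy, fun v hv a b => ?_⟩
  simpa [a, b] using hφ v hv

theorem bSys : BSys :=
  ⟨fun _ _ _ _ _ _ _ h e => ext_BSys h e, fun _ _ _ _ p h => perm_BSys p h,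
    fun _ _ _ _ e _ h => map_BSys e h, fun _ _ _ _ _ _ h h' => sum_BSys h h',
    fun _ _ _ _ _ _ φ₀ z h hy => upd_BSys φ₀ z h hy⟩

end Pool.Agent.MP_4a02af_gt

end PartBSys

section PartBBr

open Monoid Monoid.Coprod Subgroup

namespace Pool.Agent.MP_4a02af_gt

section aux

variable {G : Type} [Group G] {n : ℕ}

def cv_BBr {G : Type} {n : ℕ} (c : Fin n → Hd G) (p : Fin n × Bool) : G :=
  if p.2 then (c p.1).2.1 else (c p.1).1

def lt_BBr (c : Fin n → Hd G) (q : (Fin n × Bool) × Bool) : G :=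
  if q.2 then (cv_BBr c q.1)⁻¹ else cv_BBr c q.1

def idx_BBr (n : ℕ) : List ((Fin n × Bool) × Bool) :=
  (List.finRange n).flatMap fun i =>
    [((i, false), false), ((i, true), false), ((i, false), true), ((i, true), true)]

theorem mem_idx_BBr (q : (Fin n × Bool) × Bool) : q ∈ idx_BBr n := by
  obtain ⟨⟨i, s⟩, t⟩ := q
  refine List.mem_flatMap.2 ⟨i, List.mem_finRange i, ?_⟩
  cases s <;> cases t <;> simp

theorem nodup_idx_BBr : (idx_BBr n).Nodup := by
  refine List.nodup_flatMap.2 ⟨fun i _ => by simp, ?_⟩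
  refine (List.nodup_finRange n).imp fun {i j} hij => ?_
  intro q h1 h2
  have a1 : q.1.1 = i := by
    simp only [List.mem_cons, List.not_mem_nil, or_false] at h1
    rcases h1 with h | h | h | h <;> rw [h]
  have a2 : q.1.1 = j := by
    simp only [List.mem_cons, List.not_mem_nil, or_false] at h2
    rcases h2 with h | h | h | h <;> rw [h]
  exact hij (a1.symm.trans a2)

theorem wd_ofFn_BBr (c : Fin n → Hd G) : wd (List.ofFn c) = (idx_BBr n).map (lt_BBr c) := by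
  rw [List.ofFn_eq_map, wd, idx_BBr, List.flatMap_map, List.map_flatMap]
  rfl

theorem mem_wd_BBr (c : Fin n → Hd G) (v : G) : v ∈ wd (List.ofFn c) ↔ ∃ q, lt_BBr c q = v := by
  rw [wd_ofFn_BBr, List.mem_map]
  exact ⟨fun ⟨q, _, h⟩ => ⟨q, h⟩, fun ⟨q, h⟩ => ⟨q, mem_idx_BBr q, h⟩⟩

theorem nodup_wd_BBr (c : Fin n → Hd G) :
    (wd (List.ofFn c)).Nodup ↔ Function.Injective (lt_BBr c) := by
  rw [wd_ofFn_BBr, List.nodup_map_iff_inj_on nodup_idx_BBr]
  exact ⟨fun h a b hab => h a (mem_idx_BBr a) b (mem_idx_BBr b) hab, fun h a _ b _ hab => h hab⟩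

theorem lt_inv_BBr (c : Fin n → Hd G) (q : (Fin n × Bool) × Bool) :
    (lt_BBr c q)⁻¹ = lt_BBr c (q.1, !q.2) := by
  obtain ⟨p, t⟩ := q
  cases t <;> simp [lt_BBr]

theorem prod_wd_BBr (L : List (Hd G)) :
    (wd L).prod = (L.map fun h => cm h.1 h.2.1).prod := by
  induction L with
  | nil => rfl
  | cons h L ih =>
    rw [wd_cons]
    simp only [List.prod_cons, List.map_cons, ih, cm, mul_assoc]

theorem fl_ofFn_BBr {G : Type} (c : Fin n → Hd G) :
    fl (List.ofFn c) = (Finset.univ.filter fun i => (c i).2.2 = true).card := by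
  rw [fl, List.ofFn_eq_map, List.countP_map, List.countP_eq_length_filter]
  rw [← List.toFinset_card_of_nodup ((List.nodup_finRange n).filter _)]
  congr 1
  ext i
  simp

theorem stdL_ofFn_BBr (c : Fin n → Hd G) (w : G) (A B : Subgroup G) :
    StdL w A B (List.ofFn c) ↔ Sys (wd (List.ofFn c)) ∧
      (List.ofFn fun i => cm (c i).1 (c i).2.1).prod = w ∧
      A = normalClosure (Set.range fun i => (c i).1) ∧
      B = normalClosure (Set.range fun i => if (c i).2.2 then (c i).1 else (c i).2.1) := by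
  have e1 : (wd (List.ofFn c)).prod = (List.ofFn fun i => cm (c i).1 (c i).2.1).prod := by
    rw [prod_wd_BBr, List.map_ofFn]; rfl
  have e2 : KA (List.ofFn c) = normalClosure (Set.range fun i => (c i).1) := by
    rw [KA]; congr 1; ext x
    constructor
    · rintro ⟨h, hh, rfl⟩
      obtain ⟨i, rfl⟩ := List.mem_ofFn.1 hh
      exact ⟨i, rfl⟩
    · rintro ⟨i, rfl⟩
      exact ⟨c i, List.mem_ofFn.2 ⟨i, rfl⟩, rfl⟩
  have e3 : KB (List.ofFn c) =
      normalClosure (Set.range fun i => if (c i).2.2 then (c i).1 else (c i).2.1) := by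
    rw [KB]; congr 1; ext x
    constructor
    · rintro ⟨h, hh, rfl⟩
      obtain ⟨i, rfl⟩ := List.mem_ofFn.1 hh
      exact ⟨i, rfl⟩
    · rintro ⟨i, rfl⟩
      exact ⟨c i, List.mem_ofFn.2 ⟨i, rfl⟩, rfl⟩
  rw [StdL, Geo, e1, e2, e3, and_assoc]

theorem free_BBr (h1 : BSys) (c : Fin n → Hd G) (hs : Sys (wd (List.ofFn c))) :
    ∃ e : G ≃* FreeGroup (Fin n × Bool), ∀ p, e (cv_BBr c p) = FreeGroup.of p := by
  classical
  have hinj := (nodup_wd_BBr c).1 hs.1
  let g : (Fin n × Bool) × Bool → FreeGroup (Fin n × Bool) := fun q =>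
    if q.2 then (FreeGroup.of q.1)⁻¹ else FreeGroup.of q.1
  let f : G → FreeGroup (Fin n × Bool) := Function.extend (lt_BBr c) g fun _ => 1
  have hf : ∀ q, f (lt_BBr c q) = g q := fun q => hinj.extend_apply g _ q
  obtain ⟨φ, hφ⟩ := hs.2.2.2 (FreeGroup (Fin n × Bool)) f (by
    intro v hv
    obtain ⟨⟨p, t⟩, rfl⟩ := (mem_wd_BBr c v).1 hv
    rw [lt_inv_BBr, hf, hf]
    cases t <;> simp [g])
  have hφ' : ∀ q, φ (lt_BBr c q) = g q := fun q => by
    rw [hφ _ ((mem_wd_BBr c _).2 ⟨q, rfl⟩), hf]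
  have hp : ∀ p, φ (cv_BBr c p) = FreeGroup.of p := fun p => by
    simpa [lt_BBr, g] using hφ' (p, false)
  let ψ : FreeGroup (Fin n × Bool) →* G := FreeGroup.lift (cv_BBr c)
  have a1 : ψ.comp φ = MonoidHom.id G := by
    refine h1.1 G G _ _ _ hs fun v hv => ?_
    obtain ⟨⟨p, t⟩, rfl⟩ := (mem_wd_BBr c v).1 hv
    rw [MonoidHom.comp_apply, hφ']
    cases t <;> simp [g, ψ, lt_BBr]
  have a2 : φ.comp ψ = MonoidHom.id _ := by
    refine FreeGroup.ext_hom _ _ fun p => ?_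
    simp [ψ, hp]
  exact ⟨MonoidHom.toMulEquiv φ ψ a1 a2, hp⟩

theorem of_ne_inv_BBr {α : Type} (a b : α) : FreeGroup.of a ≠ (FreeGroup.of b)⁻¹ := by
  intro h
  have h2 := congrArg (FreeGroup.lift fun _ : α => Multiplicative.ofAdd (1 : ℤ)) h
  rw [map_inv, FreeGroup.lift_apply_of, FreeGroup.lift_apply_of, ← ofAdd_neg] at h2
  have h3 : (1 : ℤ) = -1 := Multiplicative.ofAdd.injective h2
  omega

end aux

theorem bFree (h1 : BSys) : BFree := by
  refine ⟨fun G _ L hs => ?_, fun g f => ?_⟩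
  · obtain ⟨e, he⟩ := free_BBr h1 L.get (by rw [List.ofFn_get]; exact hs)
    exact ⟨e, fun i => ⟨he (i, false), he (i, true)⟩⟩
  · set c : Fin g → Hd (FreeGroup (Fin g × Bool)) := fun i =>
      (FreeGroup.of (i, false), FreeGroup.of (i, true), f i) with hc
    have hcv : ∀ p, cv_BBr c p = FreeGroup.of p := by
      rintro ⟨i, s⟩
      cases s <;> rfl
    have hinj : Function.Injective (lt_BBr c) := by
      rintro ⟨p, s⟩ ⟨q, t⟩ h
      cases s <;> cases t <;> simp only [lt_BBr, hcv, Bool.false_eq_true, if_true, if_false] at h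
      · rw [FreeGroup.of_injective h]
      · exact absurd h (of_ne_inv_BBr _ _)
      · exact absurd h.symm (of_ne_inv_BBr _ _)
      · rw [FreeGroup.of_injective (inv_injective h)]
    refine ⟨(nodup_wd_BBr c).2 hinj, fun v hv => ?_, ?_, fun H _ F hF => ?_⟩
    · obtain ⟨q, rfl⟩ := (mem_wd_BBr c v).1 hv
      refine ⟨(mem_wd_BBr c _).2 ⟨_, (lt_inv_BBr c q).symm⟩, fun h => ?_⟩
      rw [lt_inv_BBr] at h
      have h2 : (!q.2) = q.2 := congrArg Prod.snd (hinj h)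
      simp at h2
    · rw [eq_top_iff, ← FreeGroup.closure_range_of]
      refine closure_mono ?_
      rintro _ ⟨p, rfl⟩
      exact (mem_wd_BBr c _).2 ⟨(p, false), by simp [lt_BBr, hcv]⟩
    · refine ⟨FreeGroup.lift fun p => F (FreeGroup.of p), fun v hv => ?_⟩
      obtain ⟨⟨p, t⟩, rfl⟩ := (mem_wd_BBr c v).1 hv
      have hm : FreeGroup.of p ∈ wd (List.ofFn c) :=
        (mem_wd_BBr c _).2 ⟨(p, false), by simp [lt_BBr, hcv]⟩
      cases t
      · simp [lt_BBr, hcv]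
      · simp [lt_BBr, hcv, hF _ hm]

theorem bBr (h1 : BSys) (h2 : BFree) : BBr := by
  classical
  intro G _ w g k A B
  constructor
  · rintro ⟨e, S, hS, hw, hA, hB⟩
    let c : Fin g → Hd G := fun i => (e (i, false), e (i, true), decide (i ∈ S))
    refine ⟨List.ofFn c, (stdL_ofFn_BBr c w A B).2 ⟨?_, hw, hA, ?_⟩, List.length_ofFn, ?_⟩
    · have hs := h1.2.2.1 _ _ e.repr.symm _ (h2.2 g fun i => decide (i ∈ S))
      have e1 := wd_mp e.repr.symm.toMonoidHom (List.ofFn fun i : Fin g =>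
        ((FreeGroup.of (i, false), FreeGroup.of (i, true), decide (i ∈ S)) :
          Hd (FreeGroup (Fin g × Bool))))
      have e2 : mp e.repr.symm.toMonoidHom (List.ofFn fun i : Fin g =>
        ((FreeGroup.of (i, false), FreeGroup.of (i, true), decide (i ∈ S)) :
          Hd (FreeGroup (Fin g × Bool)))) = List.ofFn c := by
        rw [mp, List.map_ofFn]; rfl
      rw [e2] at e1
      rw [e1]
      exact hs
    · rw [hB]; congr 2; funext i
      simp [c]
    · rw [fl_ofFn_BBr, ← hS]; congr 1; ext i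
      simp [c]
  · rintro ⟨L, hL, rfl, rfl⟩
    obtain ⟨e, he⟩ := h2.1 G L hL.1.1
    have b1 : ∀ i, FreeGroupBasis.ofRepr e (i, false) = (L.get i).1 := fun i =>
      (e.symm_apply_eq).2 (he i).1.symm
    have b2 : ∀ i, FreeGroupBasis.ofRepr e (i, true) = (L.get i).2.1 := fun i =>
      (e.symm_apply_eq).2 (he i).2.symm
    have hL' : StdL w A B (List.ofFn L.get) := by rw [List.ofFn_get]; exact hL
    obtain ⟨-, hw, hA, hB⟩ := (stdL_ofFn_BBr L.get w A B).1 hL'
    refine ⟨FreeGroupBasis.ofRepr e, Finset.univ.filter fun i => (L.get i).2.2 = true, ?_, ?_,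
      ?_, ?_⟩
    · rw [← fl_ofFn_BBr, List.ofFn_get]
    · simp only [b1, b2]; exact hw
    · simp only [b1]; exact hA
    · simp only [b1, b2, Finset.mem_filter, Finset.mem_univ, true_and]; exact hB

end Pool.Agent.MP_4a02af_gt

end PartBBr

section PartBStd

open Monoid Monoid.Coprod Subgroup

namespace Pool.Agent.MP_4a02af_gt

section

variable {G H : Type} [Group G] [Group H]

theorem setA_BStd (φ : G →* H) (L : List (Hd G)) :
    {x | ∃ h ∈ mp φ L, x = h.1} = φ '' {x | ∃ h ∈ L, x = h.1} := by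
  ext x
  constructor
  · rintro ⟨_, hh, rfl⟩
    obtain ⟨h, hh', rfl⟩ := List.mem_map.1 hh
    exact ⟨_, ⟨h, hh', rfl⟩, rfl⟩
  · rintro ⟨_, ⟨h, hh, rfl⟩, rfl⟩
    exact ⟨_, List.mem_map.2 ⟨h, hh, rfl⟩, rfl⟩

theorem setB_BStd (φ : G →* H) (L : List (Hd G)) :
    {x | ∃ h ∈ mp φ L, x = if h.2.2 then h.1 else h.2.1} =
      φ '' {x | ∃ h ∈ L, x = if h.2.2 then h.1 else h.2.1} := by
  ext x
  constructor
  · rintro ⟨_, hh, rfl⟩
    obtain ⟨h, hh', rfl⟩ := List.mem_map.1 hh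
    exact ⟨_, ⟨h, hh', rfl⟩, apply_ite φ _ _ _⟩
  · rintro ⟨_, ⟨h, hh, rfl⟩, rfl⟩
    exact ⟨_, List.mem_map.2 ⟨h, hh, rfl⟩, apply_ite φ _ _ _⟩

omit [Group G] in
theorem setU_BStd (f : Hd G → G) (L L' : List (Hd G)) :
    {x | ∃ h ∈ L ++ L', x = f h} = {x | ∃ h ∈ L, x = f h} ∪ {x | ∃ h ∈ L', x = f h} := by
  ext x
  simp only [List.mem_append, or_and_right, exists_or, Set.mem_union, Set.mem_ofPred_eq]

theorem ncs_BStd (X : Set G) (Y : Set H) :
    ncs (normalClosure X) (normalClosure Y) = normalClosure (inl '' X ∪ inr '' Y) := by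
  refine le_antisymm (normalClosure_le_normal ?_) (normalClosure_mono
    (Set.union_subset_union (Set.image_mono subset_normalClosure)
      (Set.image_mono subset_normalClosure)))
  have h1 : normalClosure X ≤ (normalClosure (inl '' X ∪ inr '' Y : Set (G ∗ H))).comap inl :=
    normalClosure_le_normal fun x hx => subset_normalClosure (Or.inl ⟨x, hx, rfl⟩)
  have h2 : normalClosure Y ≤ (normalClosure (inl '' X ∪ inr '' Y : Set (G ∗ H))).comap inr :=
    normalClosure_le_normal fun x hx => subset_normalClosure (Or.inr ⟨x, hx, rfl⟩)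
  rintro _ (⟨x, hx, rfl⟩ | ⟨x, hx, rfl⟩)
  · exact h1 hx
  · exact h2 hx

theorem oneA_BStd (a b : G) (c : Bool) : normalClosure {a} = KA [(a, b, c)] := by
  unfold KA
  congr 1
  ext x
  simp

theorem oneT_BStd (a b : G) : normalClosure {a} = KB [(a, b, true)] := by
  unfold KB
  congr 1
  ext x
  simp

theorem oneF_BStd (a b : G) : normalClosure {b} = KB [(a, b, false)] := by
  unfold KB
  congr 1
  ext x
  simp

theorem conj_BStd (a b : G) : normalClosure {b} = normalClosure {a * b * a⁻¹} := by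
  refine le_antisymm (normalClosure_le_normal (Set.singleton_subset_iff.2 ?_))
    (normalClosure_le_normal (Set.singleton_subset_iff.2 ?_))
  · have := (normalClosure_normal (s := {a * b * a⁻¹})).conj_mem _
      (subset_normalClosure (Set.mem_singleton _)) a⁻¹
    simpa [mul_assoc] using this
  · exact (normalClosure_normal (s := {b})).conj_mem _
      (subset_normalClosure (Set.mem_singleton _)) a

theorem inv_BStd (a : G) : normalClosure {a} = normalClosure {a⁻¹} := by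
  refine le_antisymm (normalClosure_le_normal (Set.singleton_subset_iff.2 ?_))
    (normalClosure_le_normal (Set.singleton_subset_iff.2 ?_))
  · exact inv_mem_iff.1 (subset_normalClosure (Set.mem_singleton _))
  · exact inv_mem (subset_normalClosure (Set.mem_singleton _))

end

theorem sys_BStd : Sys [fa, fb, fa⁻¹, fb⁻¹] := by
  refine ⟨by decide, by decide, ?_, fun H _ f hf => ?_⟩
  · rw [eq_top_iff, ← FreeGroup.closure_range_of]
    refine closure_mono ?_
    rintro _ ⟨b, rfl⟩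
    cases b
    · exact List.mem_cons_self
    · exact List.mem_cons_of_mem _ List.mem_cons_self
  · refine ⟨FreeGroup.lift fun b => f (FreeGroup.of b), fun v hv => ?_⟩
    have h1 := hf fa (by simp)
    have h2 := hf fb (by simp)
    simp only [List.mem_cons, List.not_mem_nil, or_false] at hv
    rcases hv with rfl | rfl | rfl | rfl
    · simp [fa]
    · simp [fb]
    · rw [h1]; simp [fa]
    · rw [h2]; simp [fb]

/-- a quarter turn of the punctured torus -/
def rot_BStd : F2 ≃* F2 :=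
  MonoidHom.toMulEquiv (FreeGroup.lift fun b : Bool => if b then fa⁻¹ else fa * fb * fa⁻¹)
    (FreeGroup.lift fun b : Bool => if b then fb * fa * fb⁻¹ else fb⁻¹)
    (by ext b; cases b <;> simp [fa, fb, mul_assoc]) (by ext b; cases b <;> simp [fa, fb, mul_assoc])

theorem geo_BStd (b : Bool) : Geo (cm fa fb) [(fa, fb, b)] :=
  ⟨sys_BStd, by simp [wd, cm, mul_assoc]⟩

theorem geo2_BStd (h1 : BSys) (b : Bool) : Geo (cm fa fb) [(fa * fb * fa⁻¹, fa⁻¹, b)] := by
  refine ⟨?_, by simp [wd, cm, mul_assoc]⟩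
  have h := h1.2.2.1 _ _ rot_BStd _ sys_BStd
  have e1 : rot_BStd fa = fa * fb * fa⁻¹ := by simp [rot_BStd, fa]
  have e2 : rot_BStd fb = fa⁻¹ := by simp [rot_BStd, fb]
  simp only [List.map_cons, List.map_nil, map_inv, e1, e2] at h
  exact h

theorem bStd (h1 : BSys) (h2 : BFree) : BStd := by
  refine ⟨?_, ?_, ⟨geo_BStd false, oneA_BStd fa fb false, oneF_BStd fa fb⟩,
    ⟨geo_BStd true, oneA_BStd fa fb true, oneT_BStd fa fb⟩,
    ⟨geo2_BStd h1 false, (conj_BStd fa fb).trans (oneA_BStd (fa * fb * fa⁻¹) fa⁻¹ false),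
      (inv_BStd fa).trans (oneF_BStd (fa * fb * fa⁻¹) fa⁻¹)⟩,
    ⟨geo2_BStd h1 true, (conj_BStd fa fb).trans (oneA_BStd (fa * fb * fa⁻¹) fa⁻¹ true),
      (conj_BStd fa fb).trans (oneT_BStd (fa * fb * fa⁻¹) fa⁻¹)⟩⟩
  · rintro G H _ _ e w A B L ⟨⟨hS, rfl⟩, rfl, rfl⟩
    have e1 : wd (mp e L) = (wd L).map e := wd_mp e.toMonoidHom L
    refine ⟨⟨e1 ▸ h1.2.2.1 G H e _ hS, by rw [e1, map_list_prod]⟩, ?_, ?_⟩
    · exact (map_normalClosure _ e.toMonoidHom e.surjective).trans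
        (congrArg normalClosure (setA_BStd e.toMonoidHom L).symm)
    · exact (map_normalClosure _ e.toMonoidHom e.surjective).trans
        (congrArg normalClosure (setB_BStd e.toMonoidHom L).symm)
  · rintro G H _ _ w A B L w' A' B' L' ⟨⟨hS, rfl⟩, rfl, rfl⟩ ⟨⟨hS', rfl⟩, rfl, rfl⟩
    refine ⟨⟨?_, ?_⟩, ?_, ?_⟩
    · rw [wd_append, wd_mp, wd_mp]
      exact h1.2.2.2.1 G H _ _ hS hS'
    · rw [wd_append, wd_mp, wd_mp, List.prod_append, map_list_prod, map_list_prod]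
    · rw [KA, KA, KA, ncs_BStd, setU_BStd (fun h => h.1), setA_BStd, setA_BStd]
    · rw [KB, KB, KB, ncs_BStd, setU_BStd (fun h => if h.2.2 then h.1 else h.2.1), setB_BStd,
        setB_BStd]

theorem bTyp (h1 : BBr) (h2 : BStd) : BTyp := by
  refine ⟨?_, ?_, ?_, fun T g k h i => h (i + 1)⟩
  · rintro T U g k ⟨e, he, hK⟩ h i
    obtain ⟨L, a1, a2, a3⟩ := (h1 _ _ _ _ _ _).1 (h i)
    have := h2.1 _ _ e _ _ _ L a1
    rw [he, hK, hK] at this
    exact (h1 _ _ _ _ _ _).2 ⟨_, this, (length_mp _ _).trans a2, (fl_mp _ _).trans a3⟩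
  · intro T U g g' k k' h h' i
    obtain ⟨L, a1, a2, a3⟩ := (h1 _ _ _ _ _ _).1 (h i)
    obtain ⟨L', b1, b2, b3⟩ := (h1 _ _ _ _ _ _).1 (h' i)
    exact (h1 (T.G ∗ U.G) _ _ _ _ _).2 ⟨_, h2.2.1 _ _ _ _ _ L _ _ _ L' a1 b1,
      by rw [List.length_append, length_mp, length_mp, a2, b2],
      by rw [fl_append, fl_mp, fl_mp, a3, b3]⟩
  · have a1 := (h1 F2 _ 1 0 _ _).2 ⟨_, h2.2.2.1, rfl, rfl⟩
    have a2 := (h1 F2 _ 1 0 _ _).2 ⟨_, h2.2.2.2.2.1, rfl, rfl⟩
    have a3 := (h1 F2 _ 1 1 _ _).2 ⟨_, h2.2.2.2.2.2, rfl, rfl⟩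
    intro i j
    fin_cases i <;> fin_cases j
    exacts [a1, a3, a2, a2, a1, a3, a3, a2, a1]

end Pool.Agent.MP_4a02af_gt

end PartBStd

section PartBMove

open Monoid Monoid.Coprod Subgroup

namespace Pool.Agent.MP_4a02af_gt

theorem inv_mem_wd_BMove {G : Type} [Group G] (L : List (Hd G)) (v : G) :
    v⁻¹ ∈ wd L ↔ v ∈ wd L := by
  have key : ∀ v : G, v ∈ wd L → v⁻¹ ∈ wd L := fun v hv => by
    obtain ⟨h, hh, hv⟩ := List.mem_flatMap.1 hv
    refine List.mem_flatMap.2 ⟨h, hh, ?_⟩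
    simp only [List.mem_cons, List.not_mem_nil, or_false] at hv ⊢
    rcases hv with rfl | rfl | rfl | rfl <;> simp
  exact ⟨fun h => by simpa using key _ h, key v⟩

theorem ncl_BMove {G : Type} [Group G] (k : G) (p : Hd G → G) (L₁ L₂ : List (Hd G)) (h : Hd G)
    (hp : ∀ x : Hd G, p (k * x.1 * k⁻¹, k * x.2.1 * k⁻¹, x.2.2) = k * p x * k⁻¹) :
    normalClosure {x | ∃ y ∈ L₁ ++ h :: L₂, x = p y} =
      normalClosure {x | ∃ y ∈ L₁ ++ mp (fun x => k * x * k⁻¹) L₂ ++ [h], x = p y} := by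
  apply le_antisymm <;> refine normalClosure_le_normal ?_
  · rintro _ ⟨y, hy, rfl⟩
    simp only [List.mem_append, List.mem_cons] at hy
    rcases hy with hy | rfl | hy
    · exact subset_normalClosure ⟨y, by simp [hy], rfl⟩
    · exact subset_normalClosure ⟨y, by simp, rfl⟩
    · have : k * p y * k⁻¹ ∈ normalClosure
          {x | ∃ y ∈ L₁ ++ mp (fun x => k * x * k⁻¹) L₂ ++ [h], x = p y} :=
        subset_normalClosure ⟨_, List.mem_append_left _ (List.mem_append_right _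
          (List.mem_map.2 ⟨y, hy, rfl⟩)), (hp y).symm⟩
      have h2 := normalClosure_normal.conj_mem _ this k⁻¹
      rwa [show k⁻¹ * (k * p y * k⁻¹) * k⁻¹⁻¹ = p y by group] at h2
  · rintro _ ⟨y, hy, rfl⟩
    simp only [List.mem_append, List.mem_singleton] at hy
    rcases hy with (hy | hy) | rfl
    · exact subset_normalClosure ⟨y, by simp [hy], rfl⟩
    · obtain ⟨z, hz, rfl⟩ := List.mem_map.1 hy
      rw [hp]
      refine normalClosure_normal.conj_mem _ (subset_normalClosure ?_) k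
      exact ⟨z, by simp [hz], rfl⟩
    · exact subset_normalClosure ⟨y, by simp, rfl⟩

theorem bMove (h1 : BSys) (_h2 : BStd) : BMove := by
  classical
  rintro G _ w A B L₁ L₂ h ⟨⟨hS, hw⟩, hA, hB⟩
  obtain ⟨k, hk⟩ : ∃ k, k = cm h.1 h.2.1 := ⟨_, rfl⟩
  rw [← hk]
  have hex : ∀ c : G, ∃ φ : G →* G, ∀ v ∈ wd (L₁ ++ h :: L₂),
      φ v = if v ∈ wd L₂ then c * v * c⁻¹ else v := fun c =>
    hS.2.2.2 G _ fun v _ => by
      by_cases hv : v ∈ wd L₂
      · rw [if_pos hv, if_pos ((inv_mem_wd_BMove _ _).2 hv)]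
        group
      · rw [if_neg hv, if_neg fun h => hv ((inv_mem_wd_BMove _ _).1 h)]
  have e0 : wd (L₁ ++ h :: L₂) = (wd L₁ ++ wd [h]) ++ wd L₂ := by
    rw [← wd_append, ← wd_append, List.append_assoc]
    rfl
  have hnd := hS.1
  rw [e0] at hnd
  have hout : ∀ v ∈ wd L₁ ++ wd [h], v ∉ wd L₂ := fun v hv hv' =>
    (List.nodup_append.1 hnd).2.2 v hv v hv' rfl
  have key : ∀ (c : G) (φ : G →* G), (∀ v ∈ wd (L₁ ++ h :: L₂),
      φ v = if v ∈ wd L₂ then c * v * c⁻¹ else v) →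
      (∀ v ∈ wd L₁ ++ wd [h], φ v = v) ∧ (∀ v ∈ wd L₂, φ v = c * v * c⁻¹) ∧ φ k = k := by
    intro c φ hφ
    have a1 : ∀ v ∈ wd L₁ ++ wd [h], φ v = v := fun v hv => by
      rw [hφ v (e0 ▸ List.mem_append_left _ hv), if_neg (hout v hv)]
    refine ⟨a1, fun v hv => by rw [hφ v (e0 ▸ List.mem_append_right _ hv), if_pos hv], ?_⟩
    rw [hk, cm, map_mul, map_mul, map_mul, map_inv, map_inv, a1 h.1 (by simp [wd]),
      a1 h.2.1 (by simp [wd])]
  obtain ⟨φ, hφ⟩ := hex k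
  obtain ⟨ψ, hψ⟩ := hex k⁻¹
  obtain ⟨a1, a2, a3⟩ := key _ _ hφ
  obtain ⟨b1, b2, b3⟩ := key _ _ hψ
  let e : G ≃* G := MonoidHom.toMulEquiv φ ψ
    (h1.1 _ _ _ _ _ hS fun v hv => by
      rw [e0] at hv
      rcases List.mem_append.1 hv with hv | hv
      · rw [MonoidHom.comp_apply, a1 v hv, b1 v hv, MonoidHom.id_apply]
      · rw [MonoidHom.comp_apply, a2 v hv, map_mul, map_mul, map_inv, b2 v hv, b3,
          MonoidHom.id_apply]
        group)
    (h1.1 _ _ _ _ _ hS fun v hv => by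
      rw [e0] at hv
      rcases List.mem_append.1 hv with hv | hv
      · rw [MonoidHom.comp_apply, b1 v hv, a1 v hv, MonoidHom.id_apply]
      · rw [MonoidHom.comp_apply, b2 v hv, inv_inv, map_mul, map_mul, map_inv, a2 v hv, a3,
          MonoidHom.id_apply]
        group)
  have e1 : wd (mp (fun x => k * x * k⁻¹) L₂) = (wd L₂).map (MulAut.conj k).toMonoidHom :=
    wd_mp (MulAut.conj k).toMonoidHom L₂
  refine ⟨⟨?_, ?_⟩, hA.trans (ncl_BMove k (fun y => y.1) _ _ _ fun _ => rfl),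
    hB.trans (ncl_BMove k (fun y => if y.2.2 then y.1 else y.2.1) _ _ _ fun x => by
      dsimp only
      split_ifs <;> rfl)⟩
  · have hp : (wd (L₁ ++ h :: L₂)).Perm (wd L₁ ++ wd L₂ ++ wd [h]) := by
      rw [e0, List.append_assoc, List.append_assoc]
      exact List.perm_append_comm.append_left _
    have h3 := h1.2.2.1 _ _ e _ (h1.2.1 _ _ _ hp hS)
    have e2 : (wd L₁).map e = wd L₁ :=
      (List.map_congr_left fun v hv => a1 v (List.mem_append_left _ hv)).trans (List.map_id _)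
    have e3 : (wd [h]).map e = wd [h] :=
      (List.map_congr_left fun v hv => a1 v (List.mem_append_right _ hv)).trans (List.map_id _)
    have e4 : (wd L₂).map e = (wd L₂).map (MulAut.conj k).toMonoidHom :=
      List.map_congr_left fun v hv => a2 v hv
    rw [List.map_append, List.map_append, e2, e3, e4] at h3
    rwa [wd_append, wd_append, e1]
  · have e2 : (wd [h]).prod = k := by simp [wd, hk, cm, mul_assoc]
    rw [← hw, e0, wd_append, wd_append, e1, List.prod_append, List.prod_append, List.prod_append,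
      List.prod_append, ← map_list_prod, e2]
    change _ * (k * _ * k⁻¹) * k = _
    group

theorem bSplit (_h1 : BSys) (h2 : BFree) (h3 : BStd) : BSplit := by
  rintro G _ w L₀ h ⟨hS, hw⟩
  obtain ⟨e₁, he₁⟩ := h2.1 G _ hS
  have hl : (L₀ ++ [h]).length = L₀.length + 1 := by simp
  let f : FreeGroup (Fin (L₀ ++ [h]).length × Bool) →* FreeGroup (Fin L₀.length × Bool) ∗ F2 :=
    FreeGroup.lift fun p => if hp : p.1.val < L₀.length then inl (FreeGroup.of (⟨p.1.val, hp⟩, p.2))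
      else inr (FreeGroup.of p.2)
  let g : FreeGroup (Fin L₀.length × Bool) ∗ F2 →* FreeGroup (Fin (L₀ ++ [h]).length × Bool) :=
    Coprod.lift (FreeGroup.lift fun p => FreeGroup.of (⟨p.1.val, by omega⟩, p.2))
      (FreeGroup.lift fun b => FreeGroup.of (⟨L₀.length, by omega⟩, b))
  let e₂ := MonoidHom.toMulEquiv f g
    (FreeGroup.ext_hom _ _ fun p => by
      simp only [f, g, MonoidHom.comp_apply, FreeGroup.lift_apply_of, MonoidHom.id_apply]
      split_ifs with hp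
      · simp
      · have : p.1 = ⟨L₀.length, by omega⟩ := Fin.ext (by have := p.1.2; simp only; omega)
        rw [Coprod.lift_apply_inr, FreeGroup.lift_apply_of, ← this])
    (Coprod.hom_ext (FreeGroup.ext_hom _ _ fun p => by simp [f, g])
      (FreeGroup.ext_hom _ _ fun p => by simp [f, g]))
  let L : List (Hd (FreeGroup (Fin L₀.length × Bool))) := List.ofFn fun i : Fin L₀.length =>
    (FreeGroup.of (i, false), FreeGroup.of (i, true), (L₀.get i).2.2)
  have hG : Geo (wd L).prod L := ⟨h2.2 _ _, rfl⟩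
  let e := e₁.trans e₂
  have a1 : mp e L₀ = mp inl L := by
    refine List.ext_getElem (by simp [mp, L]) fun i hi hi' => ?_
    have hi0 : i < L₀.length := by simpa [mp] using hi
    have := he₁ ⟨i, by omega⟩
    simp only [List.get_eq_getElem, List.getElem_append_left hi0] at this
    simp [mp, L, e, this, e₂, f, hi0]
  have a2 : e h.1 = inr fa ∧ e h.2.1 = inr fb := by
    have := he₁ ⟨L₀.length, by omega⟩
    simp only [List.get_eq_getElem, List.getElem_concat_length] at this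
    simp [e, this, e₂, f, fa, fb]
  have a3 : mp e (L₀ ++ [(h.1, h.2.1, true)]) = mp inl L ++ mp inr [(fa, fb, true)] := by
    rw [mp_append, a1]
    simp [mp, a2.1, a2.2]
  have e3 : wd (L₀ ++ [(h.1, h.2.1, true)]) = wd (L₀ ++ [h]) := by
    rw [wd_append, wd_append]
    rfl
  have b1 := h3.1 _ _ e w _ _ (L₀ ++ [(h.1, h.2.1, true)]) ⟨⟨e3 ▸ hS, e3 ▸ hw⟩, rfl, rfl⟩
  have b2 := h3.2.1 _ _ _ _ _ L _ _ _ _ ⟨hG, rfl, rfl⟩ h3.2.2.2.1
  rw [a3] at b1
  exact ⟨_, inferInstance, _, L, e, hG, a1, a2.1, a2.2, b1.1.2.symm.trans b2.1.2,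
    b1.2.1.trans b2.2.1.symm, b1.2.2.trans b2.2.2.symm⟩

end Pool.Agent.MP_4a02af_gt

end PartBMove

section PartBHyp

set_option linter.unusedSimpArgs false

open Monoid Monoid.Coprod Subgroup

namespace Pool.Agent.MP_4a02af_gt

theorem std_map_BHyp {G H : Type} [Group G] [Group H] (e : G ≃* H) {w : G} {g k : ℕ}
    {A B : Subgroup G} (h : Std w g k A B) :
    Std (e w) g k (A.map e.toMonoidHom) (B.map e.toMonoidHom) := by
  obtain ⟨b, S, h1, h2, h3, h4⟩ := h
  refine ⟨b.map e, S, h1, ?_, ?_, ?_⟩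
  · rw [← h2, map_list_prod, List.map_ofFn]
    congr 2
    funext i
    simp [cm]
  · rw [h3, Subgroup.map_normalClosure _ _ e.surjective, ← Set.range_comp]
    rfl
  · rw [h4, Subgroup.map_normalClosure _ _ e.surjective, ← Set.range_comp]
    congr 2
    funext i
    by_cases hi : i ∈ S <;> simp [hi]

theorem ncl_BHyp {G : Type} [Group G] {a b x : G}
    (h : ∀ (Q : Type) [Group Q] (π : G →* Q), π a = 1 → π b = 1 → π x = 1) :
    x ∈ normalClosure ({a, b} : Set G) :=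
  (QuotientGroup.eq_one_iff x).1 (h _ (QuotientGroup.mk' (normalClosure ({a, b} : Set G)))
    ((QuotientGroup.eq_one_iff a).2 (subset_normalClosure (by simp)))
    ((QuotientGroup.eq_one_iff b).2 (subset_normalClosure (by simp))))

theorem le_BHyp {G H : Type} [Group G] [Group H] (f : G →* H) {a b : G} {c d : H}
    (ha : f a ∈ normalClosure ({c, d} : Set H)) (hb : f b ∈ normalClosure ({c, d} : Set H)) :
    normalClosure ({a, b} : Set G) ≤ (normalClosure ({c, d} : Set H)).comap f := by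
  refine normalClosure_le_normal ?_
  rintro x (rfl | rfl)
  · exact ha
  · exact hb

theorem eq_BHyp {G H : Type} [Group G] [Group H] (e : G ≃* H) {A : Subgroup G} {B : Subgroup H}
    (h1 : A ≤ B.comap e.toMonoidHom) (h2 : B ≤ A.comap e.symm.toMonoidHom) :
    A.map e.toMonoidHom = B :=
  le_antisymm (map_le_iff_le_comap.2 h1) fun x hx => ⟨e.symm x, h2 hx, e.apply_symm_apply x⟩

def ph_BHyp : F4 →* F4 := FreeGroup.lift
  ![gt, gt⁻¹ * gn⁻¹ * gt * gm, gt⁻¹ * gn * gu⁻¹ * gn⁻¹ * gt * gm * gt⁻¹ * gm⁻¹,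
    gm * gt * gm⁻¹ * gt⁻¹ * gn * gu * gn⁻¹ * gu⁻¹ * gn⁻¹ * gt * gm * gt⁻¹ * gm⁻¹]

def ps_BHyp : F4 →* F4 := FreeGroup.lift
  ![gu * gn * gu⁻¹ * gn⁻¹ * gt * gm * gt⁻¹ * gm⁻¹ * gt⁻¹ * gu⁻¹, gu * gt * gm⁻¹ * gt⁻¹ * gu⁻¹, gu,
    gt * gm⁻¹ * gt⁻¹ * gn]

theorem phu_BHyp : ph_BHyp gu = gt := FreeGroup.lift_apply_of
theorem phn_BHyp : ph_BHyp gn = gt⁻¹ * gn⁻¹ * gt * gm := FreeGroup.lift_apply_of
theorem pht_BHyp : ph_BHyp gt = gt⁻¹ * gn * gu⁻¹ * gn⁻¹ * gt * gm * gt⁻¹ * gm⁻¹ :=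
  FreeGroup.lift_apply_of
theorem phm_BHyp : ph_BHyp gm =
    gm * gt * gm⁻¹ * gt⁻¹ * gn * gu * gn⁻¹ * gu⁻¹ * gn⁻¹ * gt * gm * gt⁻¹ * gm⁻¹ :=
  FreeGroup.lift_apply_of
theorem psu_BHyp : ps_BHyp gu = gu * gn * gu⁻¹ * gn⁻¹ * gt * gm * gt⁻¹ * gm⁻¹ * gt⁻¹ * gu⁻¹ :=
  FreeGroup.lift_apply_of
theorem psn_BHyp : ps_BHyp gn = gu * gt * gm⁻¹ * gt⁻¹ * gu⁻¹ := FreeGroup.lift_apply_of
theorem pst_BHyp : ps_BHyp gt = gu := FreeGroup.lift_apply_of
theorem psm_BHyp : ps_BHyp gm = gt * gm⁻¹ * gt⁻¹ * gn := FreeGroup.lift_apply_of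

theorem ext_BHyp {H : Type} [Group H] {f g : F4 →* H} (h0 : f gu = g gu) (h1 : f gn = g gn)
    (h2 : f gt = g gt) (h3 : f gm = g gm) : f = g := by
  refine FreeGroup.ext_hom _ _ fun i => ?_
  fin_cases i
  exacts [h0, h1, h2, h3]

def rot_BHyp : F4 ≃* F4 := MonoidHom.toMulEquiv ph_BHyp ps_BHyp
  (by
    apply ext_BHyp <;>
    simp only [MonoidHom.comp_apply, MonoidHom.id_apply, phu_BHyp, phn_BHyp, pht_BHyp, phm_BHyp,
      psu_BHyp, psn_BHyp, pst_BHyp, psm_BHyp, map_mul, map_inv] <;> group)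
  (by
    apply ext_BHyp <;>
    simp only [MonoidHom.comp_apply, MonoidHom.id_apply, phu_BHyp, phn_BHyp, pht_BHyp, phm_BHyp,
      psu_BHyp, psn_BHyp, pst_BHyp, psm_BHyp, map_mul, map_inv] <;> group)

theorem rot_bd_BHyp : rot_BHyp hb = hb := by
  change ph_BHyp hb = hb
  simp only [hb, cm, phu_BHyp, phn_BHyp, pht_BHyp, phm_BHyp, map_mul, map_inv]
  group

theorem k1_BHyp {x : F4}
    (h : ∀ (Q : Type) [Group Q] (π : F4 →* Q), π gu = (π gt)⁻¹ → π gn = π gt * π gm * (π gt)⁻¹ →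
      π x = 1) : x ∈ normalClosure ({gu * gt, gn⁻¹ * (gt * gm * gt⁻¹)} : Set F4) :=
  ncl_BHyp fun Q _ π h1 h2 => h Q π (by rwa [map_mul, mul_eq_one_iff_eq_inv] at h1) (by
    rwa [map_mul, map_inv, inv_mul_eq_one, map_mul, map_mul, map_inv] at h2)

theorem rot0_BHyp : (hK 0).map rot_BHyp.toMonoidHom = hK 1 := by
  refine eq_BHyp _ (le_BHyp ph_BHyp (k1_BHyp ?_) (k1_BHyp ?_))
    (le_BHyp ps_BHyp (ncl_BHyp ?_) (ncl_BHyp ?_)) <;>
  intro Q _ π h1 h2 <;>
  simp only [phu_BHyp, phn_BHyp, pht_BHyp, phm_BHyp, psu_BHyp, psn_BHyp, pst_BHyp, psm_BHyp,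
    map_mul, map_inv, h1, h2] <;> group

theorem rot1_BHyp : (hK 1).map rot_BHyp.toMonoidHom = hK 2 := by
  refine eq_BHyp _ (le_BHyp ph_BHyp (ncl_BHyp ?_) (ncl_BHyp ?_))
    (le_BHyp ps_BHyp (k1_BHyp ?_) (k1_BHyp ?_)) <;>
  intro Q _ π h1 h2 <;>
  simp only [phu_BHyp, phn_BHyp, pht_BHyp, phm_BHyp, psu_BHyp, psn_BHyp, pst_BHyp, psm_BHyp,
    map_mul, map_inv, h1, h2] <;> group

theorem rot2_BHyp : (hK 2).map rot_BHyp.toMonoidHom = hK 0 := by
  refine eq_BHyp _ (le_BHyp ph_BHyp (ncl_BHyp ?_) (ncl_BHyp ?_))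
    (le_BHyp ps_BHyp (ncl_BHyp ?_) (ncl_BHyp ?_)) <;>
  intro Q _ π h1 h2 <;>
  simp only [phu_BHyp, phn_BHyp, pht_BHyp, phm_BHyp, psu_BHyp, psn_BHyp, pst_BHyp, psm_BHyp,
    map_mul, map_inv, h1, h2] <;> group

theorem bRot : BRot := by
  refine ⟨rot_BHyp, rot_bd_BHyp, fun i => ?_⟩
  fin_cases i
  exacts [rot0_BHyp, rot1_BHyp, rot2_BHyp]

def bf_BHyp : FreeGroup (Fin 2 × Bool) →* F4 := FreeGroup.lift fun i =>
  ![cond i.2 gn gu, cond i.2 gt⁻¹ (gt * gm * gt⁻¹)] i.1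

def bg_BHyp : F4 →* FreeGroup (Fin 2 × Bool) := FreeGroup.lift
  ![FreeGroup.of (0, false), FreeGroup.of (0, true), (FreeGroup.of (1, true))⁻¹,
    FreeGroup.of (1, true) * FreeGroup.of (1, false) * (FreeGroup.of (1, true))⁻¹]

theorem bf0_BHyp : bf_BHyp (FreeGroup.of (0, false)) = gu := FreeGroup.lift_apply_of
theorem bf1_BHyp : bf_BHyp (FreeGroup.of (0, true)) = gn := FreeGroup.lift_apply_of
theorem bf2_BHyp : bf_BHyp (FreeGroup.of (1, false)) = gt * gm * gt⁻¹ := FreeGroup.lift_apply_of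
theorem bf3_BHyp : bf_BHyp (FreeGroup.of (1, true)) = gt⁻¹ := FreeGroup.lift_apply_of
theorem bg0_BHyp : bg_BHyp gu = FreeGroup.of (0, false) := FreeGroup.lift_apply_of
theorem bg1_BHyp : bg_BHyp gn = FreeGroup.of (0, true) := FreeGroup.lift_apply_of
theorem bg2_BHyp : bg_BHyp gt = (FreeGroup.of (1, true))⁻¹ := FreeGroup.lift_apply_of
theorem bg3_BHyp : bg_BHyp gm =
    FreeGroup.of (1, true) * FreeGroup.of (1, false) * (FreeGroup.of (1, true))⁻¹ :=
  FreeGroup.lift_apply_of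

def bas_BHyp : F4 ≃* FreeGroup (Fin 2 × Bool) := MonoidHom.toMulEquiv bg_BHyp bf_BHyp
  (by
    apply ext_BHyp <;>
    simp only [MonoidHom.comp_apply, MonoidHom.id_apply, bf0_BHyp, bf1_BHyp, bf2_BHyp, bf3_BHyp,
      bg0_BHyp, bg1_BHyp, bg2_BHyp, bg3_BHyp, map_mul, map_inv] <;> group)
  (by
    have a0 : (bg_BHyp.comp bf_BHyp) (FreeGroup.of (0, false)) = FreeGroup.of (0, false) := by
      simp only [MonoidHom.comp_apply, bf0_BHyp, bg0_BHyp]
    have a1 : (bg_BHyp.comp bf_BHyp) (FreeGroup.of (0, true)) = FreeGroup.of (0, true) := by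
      simp only [MonoidHom.comp_apply, bf1_BHyp, bg1_BHyp]
    have a2 : (bg_BHyp.comp bf_BHyp) (FreeGroup.of (1, false)) = FreeGroup.of (1, false) := by
      simp only [MonoidHom.comp_apply, bf2_BHyp, bg2_BHyp, bg3_BHyp, map_mul, map_inv]
      group
    have a3 : (bg_BHyp.comp bf_BHyp) (FreeGroup.of (1, true)) = FreeGroup.of (1, true) := by
      simp only [MonoidHom.comp_apply, bf3_BHyp, bg2_BHyp, map_inv, inv_inv]
    refine FreeGroup.ext_hom _ _ ?_
    rintro ⟨i, b⟩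
    fin_cases i <;> cases b
    exacts [a0, a1, a2, a3])

theorem range2_BHyp {G : Type} (f : Fin 2 → G) : Set.range f = {f 0, f 1} := by
  ext x
  simp [Fin.exists_fin_two, eq_comm]

theorem std2_BHyp : Std hb 2 0 (hK 2) (hK 0) := by
  have e : ∀ i, (FreeGroupBasis.ofRepr bas_BHyp) i = bf_BHyp (FreeGroup.of i) := fun _ => rfl
  refine ⟨FreeGroupBasis.ofRepr bas_BHyp, ∅, rfl, ?_, ?_, ?_⟩
  · simp only [e, List.ofFn_succ, List.ofFn_zero, List.prod_cons, List.prod_nil, Fin.succ_zero_eq_one,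
      bf0_BHyp, bf1_BHyp, bf2_BHyp, bf3_BHyp, hb, cm]
    group
  · rw [range2_BHyp, e, e, bf0_BHyp, bf2_BHyp]
    refine le_antisymm (le_BHyp (MonoidHom.id _) (ncl_BHyp ?_) (ncl_BHyp ?_))
      (le_BHyp (MonoidHom.id _) (ncl_BHyp ?_) (ncl_BHyp ?_)) <;> intro Q _ π h1 h2
    · exact h1
    · simp only [map_mul, map_inv, mul_inv_eq_one, mul_eq_left] at h2
      exact h2
    · exact h1
    · simp only [MonoidHom.id_apply, map_mul, map_inv, h2, mul_one, mul_inv_cancel]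
  · simp only [Finset.notMem_empty, if_false]
    rw [range2_BHyp, e, e, bf1_BHyp, bf3_BHyp]
    refine le_antisymm (le_BHyp (MonoidHom.id _) (ncl_BHyp ?_) (ncl_BHyp ?_))
      (le_BHyp (MonoidHom.id _) (ncl_BHyp ?_) (ncl_BHyp ?_)) <;> intro Q _ π h1 h2
    · exact h1
    · rwa [map_inv, inv_eq_one] at h2
    · exact h1
    · simp only [MonoidHom.id_apply, map_inv, h2, inv_one]

theorem bHyp (_h1 : BBr) (_h2 : BStd) (_h3 : BSys) (_h4 : BFree) : BHyp := by
  have s0 : Std hb 2 0 (hK 0) (hK 1) := by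
    have := std_map_BHyp rot_BHyp std2_BHyp
    rwa [rot_bd_BHyp, rot2_BHyp, rot0_BHyp] at this
  have s1 : Std hb 2 0 (hK 1) (hK 2) := by
    have := std_map_BHyp rot_BHyp s0
    rwa [rot_bd_BHyp, rot0_BHyp, rot1_BHyp] at this
  intro i
  fin_cases i
  exacts [s0, s1, std2_BHyp]

end Pool.Agent.MP_4a02af_gt

end PartBHyp

section PartBIso

/-! Isomorphisms of diagrams. -/

open Monoid Monoid.Coprod Subgroup

namespace Pool.Agent.MP_4a02af_gt

section

variable {G H J : Type} [Group G] [Group H] [Group J]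

theorem nor_BIso (A : Subgroup G) (B : Subgroup H) : (ncs A B).Normal := normalClosure_normal

theorem inl_BIso {A : Subgroup G} (B : Subgroup H) {a : G} (ha : a ∈ A) :
    (inl a : G ∗ H) ∈ ncs A B := subset_normalClosure (Or.inl ⟨a, ha, rfl⟩)

theorem inr_BIso (A : Subgroup G) {B : Subgroup H} {b : H} (hb : b ∈ B) :
    (inr b : G ∗ H) ∈ ncs A B := subset_normalClosure (Or.inr ⟨b, hb, rfl⟩)

theorem le_BIso {A : Subgroup G} {B : Subgroup H} {N : Subgroup J} (hN : N.Normal)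
    (φ : G ∗ H →* J) (h1 : ∀ a ∈ A, φ (inl a) ∈ N) (h2 : ∀ b ∈ B, φ (inr b) ∈ N) :
    ∀ y ∈ ncs A B, φ y ∈ N := by
  have : ncs A B ≤ N.comap φ := by
    refine normalClosure_le_normal ?_
    rintro _ (⟨a, ha, rfl⟩ | ⟨b, hb, rfl⟩)
    · exact h1 a ha
    · exact h2 b hb
  exact fun y hy => this hy

theorem map_BIso (e : G ≃* H) {A : Subgroup G} {B : Subgroup H}
    (h1 : ∀ x ∈ A, e.toMonoidHom x ∈ B) (h2 : ∀ y ∈ B, e.symm.toMonoidHom y ∈ A) :
    A.map e.toMonoidHom = B := by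
  refine le_antisymm ?_ fun y hy => ⟨_, h2 y hy, e.apply_symm_apply y⟩
  rintro _ ⟨x, hx, rfl⟩
  exact h1 x hx

theorem fw_BIso {e : G ≃* H} {A : Subgroup G} {B : Subgroup H} (h : A.map e.toMonoidHom = B)
    {x : G} (hx : x ∈ A) : e x ∈ B := h.le ⟨x, hx, rfl⟩

theorem bw_BIso {e : G ≃* H} {A : Subgroup G} {B : Subgroup H} (h : A.map e.toMonoidHom = B)
    {y : H} (hy : y ∈ B) : e.symm y ∈ A := by
  obtain ⟨x, hx, rfl⟩ := h.ge hy
  have : e.symm (e.toMonoidHom x) = x := e.symm_apply_apply x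
  rwa [this]

/-- exchange of the factors, with a conjugation -/
def sw_BIso (t : G) : G ∗ H ≃* H ∗ G :=
  MonoidHom.toMulEquiv
    (Coprod.lift inr ((MulAut.conj (inr t : H ∗ G)⁻¹).toMonoidHom.comp inl))
    (Coprod.lift ((MulAut.conj (inl t : G ∗ H)).toMonoidHom.comp inr) inl)
    (by ext x <;> simp [mul_assoc]) (by ext x <;> simp [mul_assoc])

theorem as_BIso (a : G) (b : H) (c : J) :
    MulEquiv.coprodAssoc G H J (inl (inl a * inr b) * inr c) = inl a * inr (inl b * inr c) := by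
  simp [mul_assoc]

end

theorem symm_BIso (T U : Dg) (h : T.Iso U) : U.Iso T := by
  obtain ⟨e, h1, h2⟩ := h
  refine ⟨e.symm, by rw [← h1, e.symm_apply_apply], fun i => map_BIso e.symm ?_ ?_⟩
  · exact fun y hy => bw_BIso (h2 i) hy
  · exact fun y hy => fw_BIso (h2 i) hy

theorem trans_BIso (T U V : Dg) (h : T.Iso U) (h' : U.Iso V) : T.Iso V := by
  obtain ⟨e, h1, h2⟩ := h
  obtain ⟨f, h3, h4⟩ := h'
  refine ⟨e.trans f, by rw [MulEquiv.trans_apply, h1, h3], fun i => map_BIso _ ?_ ?_⟩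
  · exact fun y hy => fw_BIso (h4 i) (fw_BIso (h2 i) hy)
  · exact fun y hy => bw_BIso (h2 i) (bw_BIso (h4 i) hy)

theorem refl_BIso (T : Dg) : T.Iso T :=
  ⟨MulEquiv.refl _, rfl, fun _ => map_BIso _ (fun _ h => h) fun _ h => h⟩

theorem congr_BIso (T T' U U' : Dg) (h : T.Iso T') (h' : U.Iso U') :
    (T.sum U).Iso (T'.sum U') := by
  obtain ⟨e, h1, h2⟩ := h
  obtain ⟨f, h3, h4⟩ := h'
  refine ⟨MulEquiv.coprodCongr e f, ?_, fun i => map_BIso (MulEquiv.coprodCongr e f) ?_ ?_⟩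
  · show MulEquiv.coprodCongr e f (inl T.bd * inr U.bd) = inl T'.bd * inr U'.bd
    rw [← h1, ← h3, map_mul]
    rfl
  · exact le_BIso (nor_BIso _ _) _ (fun a ha => inl_BIso _ (fw_BIso (h2 i) ha))
      fun b hb => inr_BIso _ (fw_BIso (h4 i) hb)
  · exact le_BIso (nor_BIso _ _) _ (fun a ha => inl_BIso _ (bw_BIso (h2 i) ha))
      fun b hb => inr_BIso _ (bw_BIso (h4 i) hb)

theorem comm_BIso (T U : Dg) : (T.sum U).Iso (U.sum T) := by
  refine ⟨sw_BIso T.bd, ?_, fun i => map_BIso (sw_BIso T.bd) ?_ ?_⟩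
  · show sw_BIso T.bd (inl T.bd * inr U.bd) = inl U.bd * inr T.bd
    simp [sw_BIso, mul_assoc]
  · exact le_BIso (nor_BIso _ _) _ (fun a ha => inr_BIso _ ha)
      fun b hb => (nor_BIso _ _).conj_mem _ (inl_BIso (T.K i) hb) (inr T.bd)⁻¹
  · exact le_BIso (nor_BIso _ _) _
      (fun a ha => (nor_BIso _ _).conj_mem _ (inr_BIso (T.K i) ha) (inl T.bd))
      fun b hb => inl_BIso _ hb

theorem assoc_BIso (T U V : Dg) : ((T.sum U).sum V).Iso (T.sum (U.sum V)) := by
  refine ⟨MulEquiv.coprodAssoc T.G U.G V.G, ?_,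
    fun i => map_BIso (MulEquiv.coprodAssoc T.G U.G V.G) ?_ ?_⟩
  · exact as_BIso T.bd U.bd V.bd
  · refine le_BIso (nor_BIso _ _) _ ?_ fun c hc => inr_BIso _ (inr_BIso _ hc)
    exact le_BIso (nor_BIso (T.K i) (ncs (U.K i) (V.K i)))
      ((MulEquiv.coprodAssoc T.G U.G V.G).toMonoidHom.comp inl) (fun a ha => inl_BIso _ ha)
      fun b hb => inr_BIso _ (inl_BIso _ hb)
  · refine le_BIso (nor_BIso _ _) _ (fun a ha => inl_BIso _ (inl_BIso _ ha)) ?_
    exact le_BIso (nor_BIso (ncs (T.K i) (U.K i)) (V.K i))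
      ((MulEquiv.coprodAssoc T.G U.G V.G).symm.toMonoidHom.comp inr)
      (fun a ha => inl_BIso _ (inr_BIso _ ha)) fun b hb => inr_BIso _ hb

theorem bIso : BIso :=
  ⟨refl_BIso, symm_BIso, trans_BIso, congr_BIso, fun T U V =>
    trans_BIso _ _ _ (assoc_BIso T U V) (trans_BIso _ _ _
      (congr_BIso _ _ _ _ (refl_BIso T) (comm_BIso U V)) (symm_BIso _ _ (assoc_BIso T V U))),
    comm_BIso⟩

end Pool.Agent.MP_4a02af_gt

end PartBIso

section PartIRk

open Monoid Monoid.Coprod Subgroup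

namespace Pool.Agent.MP_4a02af_gt

theorem le_IRk (G : Type) [Group G] (S : Finset G) (h : closure (S : Set G) = ⊤) :
    rk G ≤ S.card := Nat.sInf_le ⟨S, rfl, h⟩

theorem ex_IRk (G : Type) [Group G] (h : Group.FG G) :
    ∃ S : Finset G, S.card = rk G ∧ closure (S : Set G) = ⊤ := by
  obtain ⟨S, hS⟩ := h.out
  exact Nat.sInf_mem (s := {n | ∃ S : Finset G, S.card = n ∧ closure (S : Set G) = ⊤})
    ⟨_, S, rfl, hS⟩

theorem list_IRk (G : Type) [Group G] (X : List G) (h : closure {x | x ∈ X} = ⊤) :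
    rk G ≤ X.length := by
  classical
  exact (le_IRk G X.toFinset (by rw [List.coe_toFinset]; exact h)).trans X.toFinset_card_le

theorem exl_IRk (G : Type) [Group G] (h : Group.FG G) :
    ∃ X : List G, closure {x | x ∈ X} = ⊤ ∧ X.length = rk G := by
  obtain ⟨S, h1, h2⟩ := ex_IRk G h
  exact ⟨S.toList, by simpa using h2, by rw [Finset.length_toList, h1]⟩

theorem sub_IRk {G H : Type} [Group G] [Group H] (e : G ≃* H) {n : ℕ}
    (h : ∃ S : Finset G, S.card = n ∧ closure (S : Set G) = ⊤) :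
    ∃ S : Finset H, S.card = n ∧ closure (S : Set H) = ⊤ := by
  obtain ⟨S, h1, h2⟩ := h
  refine ⟨S.map e.toEquiv.toEmbedding, by rw [Finset.card_map, h1], ?_⟩
  have := MonoidHom.map_closure e.toMonoidHom (S : Set G)
  rw [h2, map_top_of_surjective _ e.surjective] at this
  rw [Finset.coe_map]
  exact this.symm

theorem free_IRk (α : Type) [Fintype α] : rk (FreeGroup α) = Fintype.card α := by
  classical
  have h0 : closure ((Finset.univ.image FreeGroup.of : Finset (FreeGroup α)) :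
      Set (FreeGroup α)) = ⊤ := by
    rw [Finset.coe_image, Finset.coe_univ, Set.image_univ, FreeGroup.closure_range_of]
  refine le_antisymm ((le_IRk _ _ h0).trans Finset.card_image_le) ?_
  obtain ⟨S, h1, h2⟩ := ex_IRk (FreeGroup α) ⟨⟨_, h0⟩⟩
  have h3 := Fintype.card_le_of_injective
    (fun (f : α → Multiplicative (ZMod 2)) (s : S) => FreeGroup.lift f s.1) fun f g h =>
      FreeGroup.lift.injective (MonoidHom.eq_of_eqOn_dense h2 fun s hs => congrFun h ⟨s, hs⟩)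
  simp only [Fintype.card_fun, Fintype.card_multiplicative, ZMod.card, Fintype.card_coe] at h3
  rw [← h1]
  exact (Nat.pow_le_pow_iff_right (by norm_num)).1 h3

theorem iRk : IRk := by
  refine ⟨fun G H _ _ ⟨e⟩ => ?_, list_IRk, exl_IRk, fun G H _ _ f hf h => ?_, free_IRk⟩
  · exact congrArg sInf (Set.ext fun n => ⟨sub_IRk e, sub_IRk e.symm⟩)
  · classical
    obtain ⟨S, h1, h2⟩ := ex_IRk G h
    refine (le_IRk H (S.image f) ?_).trans (h1 ▸ Finset.card_image_le)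
    rw [Finset.coe_image, ← MonoidHom.map_closure, h2, map_top_of_surjective _ hf]

theorem gru (h1 : IRk) (h2 : GrMain) (h3 : GrSub) : Gru := by
  classical
  intro G H _ _ hG hH
  obtain ⟨S, s1, s2⟩ := ex_IRk G hG
  obtain ⟨T, t1, t2⟩ := ex_IRk H hH
  have h0 : closure ((S.image inl ∪ T.image inr : Finset (G ∗ H)) : Set (G ∗ H)) = ⊤ := by
    rw [Finset.coe_union, Finset.coe_image, Finset.coe_image, Subgroup.closure_union,
      ← MonoidHom.map_closure, ← MonoidHom.map_closure, s2, t2, ← MonoidHom.range_eq_map,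
      ← MonoidHom.range_eq_map, range_inl_sup_range_inr]
  refine le_antisymm ((le_IRk _ _ h0).trans ((Finset.card_union_le _ _).trans
    (add_le_add (s1 ▸ Finset.card_image_le) (t1 ▸ Finset.card_image_le)))) ?_
  obtain ⟨X, x1, x2⟩ := h1.2.2.1 (G ∗ H) ⟨⟨_, h0⟩⟩
  obtain ⟨V, E, E', a1, a2, a3, a4⟩ := h3 G H X x1
  have := h2 G H V E E' 0 a1 a2 a3
  omega

end Pool.Agent.MP_4a02af_gt

end PartIRk

section PartIStd

open Monoid Monoid.Coprod Subgroup

namespace Pool.Agent.MP_4a02af_gt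

theorem quo_IStd {G H : Type} [Group G] [Group H] (N : Subgroup G) [N.Normal] (f : G →* H)
    (hf : N ≤ f.ker) (s : H →* G ⧸ N) (h1 : s.comp f = QuotientGroup.mk' N)
    (h2 : (QuotientGroup.lift N f hf).comp s = MonoidHom.id H) : Nonempty (G ⧸ N ≃* H) :=
  ⟨MonoidHom.toMulEquiv (QuotientGroup.lift N f hf) s
    (QuotientGroup.monoidHom_ext N (MonoidHom.ext fun x => DFunLike.congr_fun h1 x)) h2⟩

theorem iStd (h1 : IRk) : IStd := by
  classical
  rintro G _ w g k A B ⟨e, S, hS, -, hA, hB⟩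
  obtain ⟨r1, -, -, -, r5⟩ := h1
  refine ⟨Group.fg_of_surjective (f := e.repr.symm.toMonoidHom) e.repr.symm.surjective, ?_, ?_⟩
  · rw [r1 G _ ⟨e.repr⟩, r5]
    simp [mul_comm]
  have hl : ∀ {H : Type} [Group H] (F : Fin g × Bool → H) (i), e.lift F (e i) = F i :=
    fun F i => congrFun (e.lift.symm_apply_apply F) i
  let F : Fin g × Bool → FreeGroup S := fun p =>
    if h : p.2 = true ∧ p.1 ∈ S then FreeGroup.of ⟨p.1, h.2⟩ else 1
  have hf : normalClosure ((A : Set G) ∪ (B : Set G)) ≤ (e.lift F).ker := by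
    refine normalClosure_le_normal (Set.union_subset ?_ ?_)
    · rw [hA]
      refine normalClosure_le_normal ?_
      rintro _ ⟨i, rfl⟩
      simp [hl, F]
    · rw [hB]
      refine normalClosure_le_normal ?_
      rintro _ ⟨i, rfl⟩
      by_cases hi : i ∈ S <;> simp [hl, F, hi]
  have ha : ∀ i, QuotientGroup.mk' (normalClosure ((A : Set G) ∪ (B : Set G))) (e (i, false)) = 1 :=
    fun i => (QuotientGroup.eq_one_iff _).mpr (subset_normalClosure (Or.inl
      (hA ▸ subset_normalClosure ⟨i, rfl⟩)))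
  have hb : ∀ i, i ∉ S →
      QuotientGroup.mk' (normalClosure ((A : Set G) ∪ (B : Set G))) (e (i, true)) = 1 :=
    fun i hi => (QuotientGroup.eq_one_iff _).mpr (subset_normalClosure (Or.inr
      (hB ▸ subset_normalClosure ⟨i, if_neg hi⟩)))
  rw [r1 _ _ (quo_IStd _ (e.lift F) hf
    (FreeGroup.lift fun i : S => QuotientGroup.mk' _ (e (i.1, true))) ?_ ?_), r5,
    Fintype.card_coe, hS]
  · refine e.ext_hom _ _ ?_
    rintro ⟨i, b⟩
    rw [MonoidHom.comp_apply, hl]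
    cases b
    · rw [ha]
      simp [F]
    · by_cases hi : i ∈ S
      · simp [F, hi]
      · rw [hb i hi]
        simp [F, hi]
  · refine FreeGroup.ext_hom _ _ fun i => ?_
    simp [hl, F]

theorem le_tot_IStd (T : Dg) (i : Fin 3) : T.K i ≤ T.tot := by
  intro x hx
  refine subset_normalClosure ?_
  fin_cases i
  exacts [Or.inl (Or.inl hx), Or.inl (Or.inr hx), Or.inr hx]

theorem tot_le_IStd (T : Dg) (N : Subgroup T.G) (_ : N.Normal) (h : ∀ i, T.K i ≤ N) :
    T.tot ≤ N :=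
  normalClosure_le_normal (Set.union_subset (Set.union_subset (h 0) (h 1)) (h 2))

instance nrm_IStd (T : Dg) : T.tot.Normal := normalClosure_normal

theorem iPi : IPi := by
  refine ⟨?_, fun T U => ?_, fun T => ?_⟩
  · rintro T U ⟨e, -, he⟩
    refine ⟨QuotientGroup.congr T.tot U.tot e ?_⟩
    have h : ∀ i, (e : T.G →* U.G) '' (T.K i : Set T.G) = U.K i := fun i => by
      rw [← he i]
      rfl
    rw [Dg.tot, Dg.tot, Subgroup.map_normalClosure _ _ e.surjective, Set.image_union,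
      Set.image_union, h, h, h]
  · have hf : (T.sum U).tot ≤
        (Coprod.map (QuotientGroup.mk' T.tot) (QuotientGroup.mk' U.tot)).ker := by
      refine tot_le_IStd _ _ (MonoidHom.normal_ker _) fun i =>
        normalClosure_le_normal (G := T.G ∗ U.G) ?_
      rintro _ (⟨x, hx, rfl⟩ | ⟨x, hx, rfl⟩)
      · have h : QuotientGroup.mk' T.tot x = 1 :=
          (QuotientGroup.eq_one_iff _).mpr (le_tot_IStd T i hx)
        rw [SetLike.mem_coe, MonoidHom.mem_ker, map_apply_inl, h, map_one]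
      · have h : QuotientGroup.mk' U.tot x = 1 :=
          (QuotientGroup.eq_one_iff _).mpr (le_tot_IStd U i hx)
        rw [SetLike.mem_coe, MonoidHom.mem_ker, map_apply_inr, h, map_one]
    have hl : T.tot ≤ (T.sum U).tot.comap (inl : T.G →* T.G ∗ U.G) :=
      tot_le_IStd _ _ ((nrm_IStd (T.sum U)).comap _) fun i x hx =>
        le_tot_IStd (T.sum U) i (subset_normalClosure (Or.inl ⟨x, hx, rfl⟩))
    have hr : U.tot ≤ (T.sum U).tot.comap (inr : U.G →* T.G ∗ U.G) :=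
      tot_le_IStd _ _ ((nrm_IStd (T.sum U)).comap _) fun i x hx =>
        le_tot_IStd (T.sum U) i (subset_normalClosure (Or.inr ⟨x, hx, rfl⟩))
    refine quo_IStd (T.sum U).tot _ hf
      (Coprod.lift (QuotientGroup.map _ _ _ hl) (QuotientGroup.map _ _ _ hr)) ?_ ?_
    · exact Coprod.hom_ext (MonoidHom.ext fun _ => rfl) (MonoidHom.ext fun _ => rfl)
    · exact Coprod.hom_ext (QuotientGroup.monoidHom_ext _ (MonoidHom.ext fun _ => rfl))
        (QuotientGroup.monoidHom_ext _ (MonoidHom.ext fun _ => rfl))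
  · refine ⟨@QuotientGroup.quotientMulEquivOfEq T.G _ _ _ (nrm_IStd T.rot) (nrm_IStd T)
      (le_antisymm (tot_le_IStd T.rot T.tot (nrm_IStd T) fun i => le_tot_IStd T (i + 1))
        (tot_le_IStd T T.rot.tot (nrm_IStd T.rot) fun i => ?_))⟩
    have h := le_tot_IStd T.rot (i - 1)
    have h' : T.rot.K (i - 1) = T.K i := congrArg T.K (sub_add_cancel i 1)
    rwa [h'] at h

end Pool.Agent.MP_4a02af_gt

end PartIStd

section PartIInv

open Monoid Monoid.Coprod Subgroup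

namespace Pool.Agent.MP_4a02af_gt

theorem one_IInv (h1 : IRk) (h2 : IStd) (T : Dg) (g : ℕ) (k : Fin 3 → ℕ) (h : T.Typ g k) :
    Group.FG T.pi1 ∧ ∀ i, rk T.pi1 ≤ k i := by
  have fg : Group.FG T.G := (h2 _ _ _ _ _ _ (h 0)).1
  refine ⟨Group.fg_of_surjective (QuotientGroup.mk'_surjective _), fun i => ?_⟩
  have hs : ∀ j, (T.K j : Set T.G) ⊆ (T.K 0 : Set T.G) ∪ (T.K 1 : Set T.G) ∪ (T.K 2 : Set T.G) :=
    fun j x hx => by
      fin_cases j
      exacts [.inl (.inl hx), .inl (.inr hx), .inr hx]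
  rw [← (h2 _ _ _ _ _ _ (h i)).2.2]
  refine h1.2.2.2.1 _ _ (QuotientGroup.map _ _ (MonoidHom.id _)
    (normalClosure_mono (Set.union_subset (hs i) (hs (i + 1))))) (fun y => ?_)
    (Group.fg_of_surjective (QuotientGroup.mk'_surjective _))
  obtain ⟨x, rfl⟩ := QuotientGroup.mk_surjective y
  exact ⟨x, rfl⟩

theorem uniq_IInv (h2 : IStd) {T : Dg} {g g' : ℕ} {k k' : Fin 3 → ℕ} (h : T.Typ g k)
    (h' : T.Typ g' k') : g = g' ∧ k = k' := by
  refine ⟨?_, funext fun i => (h2 _ _ _ _ _ _ (h i)).2.2.symm.trans (h2 _ _ _ _ _ _ (h' i)).2.2⟩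
  have a := (h2 _ _ _ _ _ _ (h 0)).2.1
  have b := (h2 _ _ _ _ _ _ (h' 0)).2.1
  omega

theorem iInv (h1 : IRk) (h2 : IStd) (h3 : IPi) (h4 : Gru) (h5 : BTyp) (h6 : BHyp) (h7 : BEqv) :
    IInv := by
  have p2 : ∀ T U : Dg, T.Valid → U.Valid → rk (T.sum U).pi1 = rk T.pi1 + rk U.pi1 :=
    fun T U ⟨g, k, h⟩ ⟨g', k', h'⟩ => (h1.1 _ _ (h3.2.1 T U)).trans
      (h4 _ _ (one_IInv h1 h2 T g k h).1 (one_IInv h1 h2 U g' k' h').1)
  refine ⟨one_IInv h1 h2, p2, fun T U g g' k k' e => ?_, fun T n ⟨g, k, h⟩ => ?_⟩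
  · induction e generalizing g g' k k' with
    | rel T U s =>
      intro h h'
      rcases s.2 with e | ⟨i, e⟩
      · obtain ⟨rfl, rfl⟩ := uniq_IInv h2 (h5.1 _ _ _ _ e h) h'
        exact ⟨rfl, h1.1 _ _ (h3.1 _ _ e)⟩
      · have a := h5.2.2.1 i
        obtain ⟨rfl, rfl⟩ := uniq_IInv h2 (h5.1 _ _ _ _ e (h5.2.1 _ _ _ _ _ _ h a)) h'
        have b := (one_IInv h1 h2 _ _ _ a).2 i
        have c := p2 _ _ s.1 ⟨_, _, a⟩
        rw [h1.1 _ _ (h3.1 _ _ e)] at c
        fin_cases i <;> simp at b c ⊢ <;> omega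
    | refl T =>
      intro h h'
      obtain ⟨rfl, rfl⟩ := uniq_IInv h2 h h'
      exact ⟨rfl, rfl⟩
    | symm T U _ ih =>
      intro h h'
      exact ⟨(ih _ _ _ _ h' h).1.symm, (ih _ _ _ _ h' h).2.symm⟩
    | trans T M U e _ ih ih' =>
      intro h h'
      obtain ⟨m, l, hm⟩ := h7.1 T M e ⟨g, k, h⟩
      have a := ih _ _ _ _ h hm
      have b := ih' _ _ _ _ hm h'
      exact ⟨by omega, a.2.trans b.2⟩
  · induction n with
    | zero => rfl
    | succ n ih =>
      have a := p2 (T.sumN n) hyp ⟨_, _, h7.2.2.2.2.2.2.2.2 T g k n h⟩ ⟨_, _, h6⟩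
      have b := (one_IInv h1 h2 _ _ _ h6).2 0
      show rk ((T.sumN n).sum hyp).pi1 = _
      omega

end Pool.Agent.MP_4a02af_gt

end PartIInv
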