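import Pool.Agent.MP_4a02af_gt.Defs

open Monoid Monoid.Coprod Subgroup

namespace Pool.Agent.MP_4a02af_gt

section defs

variable {G H : Type} [Group G] [Group H]

/-- `W` lists a free basis together with the inverses -/
def Sys (W : List G) : Prop :=
  W.Nodup ∧ (∀ v ∈ W, v⁻¹ ∈ W ∧ v⁻¹ ≠ v) ∧ closure {v | v ∈ W} = ⊤ ∧
  ∀ (H : Type) [Group H] (f : G → H), (∀ v ∈ W, f v⁻¹ = (f v)⁻¹) →
    ∃ φ : G →* H, ∀ v ∈ W, φ v = f v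

/-- a handle with a flag -/
abbrev Hd (G : Type) := G × G × Bool

def wd (L : List (Hd G)) : List G := L.flatMap fun h => [h.1, h.2.1, h.1⁻¹, h.2.1⁻¹]

def mp {G H : Type} (φ : G → H) (L : List (Hd G)) : List (Hd H) :=
  L.map fun h => (φ h.1, φ h.2.1, h.2.2)

def fl {G : Type} (L : List (Hd G)) : ℕ := L.countP fun h => h.2.2

def Geo (w : G) (L : List (Hd G)) : Prop := Sys (wd L) ∧ (wd L).prod = w

def KA (L : List (Hd G)) : Subgroup G := normalClosure {x | ∃ h ∈ L, x = h.1}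

def KB (L : List (Hd G)) : Subgroup G :=
  normalClosure {x | ∃ h ∈ L, x = if h.2.2 then h.1 else h.2.1}

def StdL (w : G) (A B : Subgroup G) (L : List (Hd G)) : Prop := Geo w L ∧ A = KA L ∧ B = KB L

def ncs (A : Subgroup G) (B : Subgroup H) : Subgroup (G ∗ H) :=
  normalClosure (inl '' (A : Set G) ∪ inr '' (B : Set H))

abbrev F2 := FreeGroup Bool
abbrev F4 := FreeGroup (Fin 4)

def fa : F2 := FreeGroup.of false
def fb : F2 := FreeGroup.of true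

theorem wd_append (L L' : List (Hd G)) : wd (L ++ L') = wd L ++ wd L' := by simp [wd]

theorem wd_cons (h : Hd G) (L : List (Hd G)) :
    wd (h :: L) = h.1 :: h.2.1 :: h.1⁻¹ :: h.2.1⁻¹ :: wd L := by simp [wd]

theorem wd_nil : wd ([] : List (Hd G)) = [] := rfl

theorem length_wd (L : List (Hd G)) : (wd L).length = 4 * L.length := by
  induction L with
  | nil => rfl
  | cons h L ih => rw [wd_cons]; simp [ih]; omega

theorem wd_mp (φ : G →* H) (L : List (Hd G)) : wd (mp φ L) = (wd L).map φ := by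
  induction L with
  | nil => rfl
  | cons h L ih =>
    have : mp φ (h :: L) = (φ h.1, φ h.2.1, h.2.2) :: mp φ L := rfl
    rw [this, wd_cons, wd_cons, ih]; simp

theorem mp_append {G H : Type} (φ : G → H) (L L' : List (Hd G)) :
    mp φ (L ++ L') = mp φ L ++ mp φ L' := by simp [mp]

theorem length_mp {G H : Type} (φ : G → H) (L : List (Hd G)) : (mp φ L).length = L.length := by
  simp [mp]

theorem fl_append {G : Type} (L L' : List (Hd G)) : fl (L ++ L') = fl L + fl L' := by simp [fl]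

theorem fl_mp {G H : Type} (φ : G → H) (L : List (Hd G)) : fl (mp φ L) = fl L := by
  simp [fl, mp, List.countP_map, Function.comp_def]

/-! ### slides -/

/-- the chord slide that replaces `y` by `y * z` -/
def SlD (y z : G) (W W' : List G) : Prop := ∃ A B C : List G,
  (W = A ++ y :: z :: B ++ y⁻¹ :: C ∧ W' = A ++ (y * z) :: B ++ z :: (y * z)⁻¹ :: C) ∨
  (W = A ++ y⁻¹ :: B ++ y :: z :: C ∧ W' = A ++ z :: (y * z)⁻¹ :: B ++ (y * z) :: C)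

def Sl (W W' : List G) : Prop := ∃ y z : G, z ≠ y⁻¹ ∧ SlD y z W W'

/-- `c` is the product of the letters that follow `v` -/
def Suf (W : List G) (v c : G) : Prop := ∃ A B : List G, W = A ++ v :: B ∧ B.prod = c

/-- no slide shortens the adjacent pair -/
def IrP {α : Type} [DecidableEq α] (R : FreeGroup α → Prop) (v u : FreeGroup α) : Prop :=
  v.norm ≤ (v * u).norm ∧ u.norm ≤ (v * u).norm ∧ ((v * u).norm = u.norm → R v) ∧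
    ((v * u).norm = v.norm → R u⁻¹)

def Bet {α : Type} [DecidableEq α] (h : FreeGroup α → ℕ) (x v : FreeGroup α) : Prop :=
  x.norm < v.norm ∨ (x.norm = v.norm ∧ h x + h x⁻¹ < h v + h v⁻¹)

/-- corner lengths of an irreducible word -/
def Cor {α : Type} [DecidableEq α] (R : FreeGroup α → Prop) (W : List (FreeGroup α))
    (c : ℕ → ℕ) : Prop :=
  c 0 = 0 ∧ W.prod.toWord.length = W.length ∧ ∀ (i : ℕ) (v : FreeGroup α), W[i]? = some v →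
    v.norm = c i + c (i + 1) + 1 ∧ v.toWord[c i]? = W.prod.toWord[i]? ∧
    2 * c i ≤ v.norm ∧ 2 * c (i + 1) ≤ v.norm ∧ (2 * c (i + 1) = v.norm → R v) ∧
    (2 * c i = v.norm → R v⁻¹)

/-- the standard word in letters -/
def lw {α : Type} (P : List (α × α)) : List (α × Bool) :=
  P.flatMap fun p => [(p.1, true), (p.2, true), (p.1, false), (p.2, false)]

/-! ### pushes -/

def tt : G ∗ F2 := inr fa
def mm : G ∗ F2 := inr fb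
def dd : G ∗ F2 := tt * mm * tt⁻¹

/-- the hole placed in front of the suffix with value `c` -/
def dl (c : G) : G ∗ F2 := inl c * dd * (inl c)⁻¹

def AA (G : Type) [Group G] : Subgroup (G ∗ F2) := closure (Set.range inl ∪ {dd})

def IsPush (w : G) (ψ : MulAut (G ∗ F2)) : Prop :=
  ψ mm = mm ∧ ψ (inl w * dd) = inl w * dd ∧ ψ tt * tt⁻¹ ∈ AA G ∧
  ∀ γ : G, ψ (inl γ) ∈ AA G ∧ ψ (inl γ) * (inl γ)⁻¹ ∈ normalClosure {(mm : G ∗ F2)}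

def PU (w : G) (ψ : MulAut (G ∗ F2)) : Prop := IsPush w ψ ∧ IsPush w ψ⁻¹

/-- the loop of a push -/
def tr (ψ : MulAut (G ∗ F2)) : G := Coprod.fst (ψ tt)

/-- elementary push across the letter `y`, which is followed by letters with product `c` -/
def ElAt (w : G) (W : List G) (y c : G) (ψ : MulAut (G ∗ F2)) : Prop :=
  PU w ψ ∧ ψ (inl y) = inl y * dl c ∧ ∀ v ∈ W, v ≠ y → v ≠ y⁻¹ → ψ (inl v) = inl v

def El (w : G) (W : List G) (ψ : MulAut (G ∗ F2)) : Prop := ∃ y c, Suf W y c ∧ ElAt w W y c ψ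

def Zc (w : G) (ψ : MulAut (G ∗ F2)) : Prop := PU w ψ ∧ ∀ γ : G, ψ (inl γ) = inl γ

def D0 (w : G) (W : List G) : Subgroup (MulAut (G ∗ F2)) := closure {ψ | El w W ψ ∨ Zc w ψ}

def nl (A : Subgroup G) : Subgroup (G ∗ F2) := normalClosure (inl '' (A : Set G))

def Good (A : Subgroup G) (ψ : MulAut (G ∗ F2)) : Prop :=
  (nl A).map ψ.toMonoidHom = nl A ∧ ψ tt * tt⁻¹ ∈ nl A

/-! ### three holes -/

def gu : F4 := FreeGroup.of 0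
def gn : F4 := FreeGroup.of 1
def gt : F4 := FreeGroup.of 2
def gm : F4 := FreeGroup.of 3

def hb : F4 := cm gu gn * cm gt gm

def hK : Fin 3 → Subgroup F4 :=
  ![normalClosure {gn, gt}, normalClosure {gu * gt, gn⁻¹ * (gt * gm * gt⁻¹)},
    normalClosure {gu, gm}]

theorem hyp_bd : hyp.bd = hb := rfl
theorem hyp_K : hyp.K = hK := rfl

def dJ : Fin 3 → F4 := ![gu * gn * gu⁻¹, cm gu gn * (gt * gm * gt⁻¹), hb]

def cJ (j : Fin 3) (x : H) (f : Fin 4 → H) : Fin 4 → H :=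
  ![![x * f 0, f 1, f 2, f 3], ![x * f 0 * x⁻¹, x * f 1 * x⁻¹, x * f 2, f 3],
    fun i => x * f i * x⁻¹] j

def sg (j : Fin 3) : G ∗ F2 →* G ∗ F4 :=
  Coprod.lift inl (FreeGroup.lift fun b : Bool => if b then inr (dJ j) else 1)

def actE (j : Fin 3) (ψ : MulAut (G ∗ F2)) : G ∗ F4 →* G ∗ F4 :=
  Coprod.lift ((sg j).comp (ψ.toMonoidHom.comp inl))
    (FreeGroup.lift (cJ j (sg j (ψ tt)) fun i => inr (FreeGroup.of i)))

def MM (G : Type) [Group G] : Fin 3 → Subgroup (G ∗ F4) :=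
  ![normalClosure {inr gn}, normalClosure {inr (gn⁻¹ * (gt * gm * gt⁻¹))},
    normalClosure {inr gm}]

def JJ (G : Type) [Group G] : Fin 3 → Subgroup (G ∗ F4) :=
  ![closure (Set.range inl ∪ {inr gt, inr gm}) ⊔ MM G 0,
    closure (Set.range inl ∪ {inr (gu * gt), inr gm}) ⊔ MM G 1,
    closure (Set.range inl ∪ {inr gu, inr gn}) ⊔ MM G 2]

/-- generated paths in a graph with labels -/
inductive Pth {A : Type} [Group A] (E : List (ℕ × A × ℕ)) : ℕ → A → ℕ → Prop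
  | nil (v : ℕ) : Pth E v 1 v
  | fwd {u v z : ℕ} {x y : A} : (u, x, v) ∈ E → Pth E v y z → Pth E u (x * y) z
  | bwd {u v z : ℕ} {x y : A} : (v, x, u) ∈ E → Pth E v y z → Pth E u (x⁻¹ * y) z

def cmb (E : List (ℕ × G × ℕ)) (E' : List (ℕ × H × ℕ)) : List (ℕ × (G ∗ H) × ℕ) :=
  E.map (fun e => (e.1, inl e.2.1, e.2.2)) ++ E'.map fun e => (e.1, inr e.2.1, e.2.2)

def InS {A : Type} (S : Finset ℕ) (E : List (ℕ × A × ℕ)) : Prop := ∀ e ∈ E, e.1 ∈ S ∧ e.2.2 ∈ S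

/-- connected, and every element is read on a loop at `0` -/
def Onto {A : Type} [Group A] (S : Finset ℕ) (E : List (ℕ × A × ℕ)) (v₀ : ℕ) : Prop :=
  v₀ ∈ S ∧ (∀ v ∈ S, ∃ x, Pth E v₀ x v) ∧ ∀ x, Pth E v₀ x v₀

end defs

def Dg.tot (T : Dg) : Subgroup T.G :=
  normalClosure ((T.K 0 : Set T.G) ∪ (T.K 1 : Set T.G) ∪ (T.K 2 : Set T.G))

def Dg.rot (T : Dg) : Dg := { G := T.G, bd := T.bd, K := fun i => T.K (i + 1) }

/-- surgery along the loop of a push -/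
def TT (T : Dg) (ψ : MulAut (T.G ∗ F2)) : Dg where
  G := T.G ∗ F4
  bd := inl T.bd * inr hb
  K := ![ncs (T.K 0) (hK 0), (ncs (T.K 1) (hK 1)).map (actE 0 ψ), ncs (T.K 2) (hK 2)]

/-- the same surgery with two holes -/
def T2 (T : Dg) (ψ : MulAut (T.G ∗ F2)) : Dg where
  G := T.G ∗ F2
  bd := inl T.bd * inr (cm fa fb)
  K := ![ncs (T.K 0) (normalClosure {fa}),
    (ncs (T.K 1) (normalClosure {fa})).map ψ.toMonoidHom, ncs (T.K 2) (normalClosure {fb})]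

/-- a diagram with a last handle on which the first two systems agree -/
def TL (G : Type) [Group G] (w : G) (A B : Subgroup G) (C : Subgroup (G ∗ F2)) : Dg where
  G := G ∗ F2
  bd := inl w * inr (cm fa fb)
  K := ![ncs A (normalClosure {fa}), ncs B (normalClosure {fa}), C]

/-- the push across the first curve of the last handle, with twist `j` -/
def Last {G : Type} [Group G] (j : ℤ) (ψ : MulAut ((G ∗ F2) ∗ F2)) : Prop :=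
  (∀ γ : G, ψ (inl (inl γ : G ∗ F2)) = inl (inl γ : G ∗ F2)) ∧
  ψ (inl (inr fb : G ∗ F2)) = inl (inr fb : G ∗ F2) ∧
  ψ (inl (inr fa : G ∗ F2)) =
    inl (inr fa : G ∗ F2) * dl (inr (fb * fa⁻¹ * fb⁻¹) : G ∗ F2) ∧ ψ mm = mm ∧
  ψ tt = inl (inr (fb * fa * fb * fa⁻¹ * fb⁻¹) : G ∗ F2) * tt * (mm : (G ∗ F2) ∗ F2) ^ j

/-! ### basics -/

def BSys : Prop :=
  (∀ (G H : Type) [Group G] [Group H] (W : List G) (φ ψ : G →* H), Sys W →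
    (∀ v ∈ W, φ v = ψ v) → φ = ψ) ∧
  (∀ (G : Type) [Group G] (W W' : List G), W.Perm W' → Sys W → Sys W') ∧
  (∀ (G H : Type) [Group G] [Group H] (e : G ≃* H) (W : List G), Sys W → Sys (W.map e)) ∧
  (∀ (G H : Type) [Group G] [Group H] (W : List G) (W' : List H), Sys W → Sys W' →
    Sys (W.map (inl : G →* G ∗ H) ++ W'.map (inr : H →* G ∗ H))) ∧
  (∀ (G H : Type) [Group G] [Group H] (W : List G) (y : G) (φ₀ : G →* H) (z : H), Sys W →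
    y ∈ W → ∃ φ : G →* H, φ y = z ∧ ∀ v ∈ W, v ≠ y → v ≠ y⁻¹ → φ v = φ₀ v)

def BFree : Prop :=
  (∀ (G : Type) [Group G] (L : List (Hd G)), Sys (wd L) →
    ∃ e : G ≃* FreeGroup (Fin L.length × Bool), ∀ i : Fin L.length,
      e (L.get i).1 = FreeGroup.of (i, false) ∧ e (L.get i).2.1 = FreeGroup.of (i, true)) ∧
  (∀ (g : ℕ) (f : Fin g → Bool), Sys (wd (List.ofFn fun i : Fin g =>
    ((FreeGroup.of (i, false), FreeGroup.of (i, true), f i) : Hd (FreeGroup (Fin g × Bool))))))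

def BBr : Prop := ∀ (G : Type) [Group G] (w : G) (g k : ℕ) (A B : Subgroup G),
  Std w g k A B ↔ ∃ L, StdL w A B L ∧ L.length = g ∧ fl L = k

def BStd : Prop :=
  (∀ (G H : Type) [Group G] [Group H] (e : G ≃* H) (w : G) (A B : Subgroup G) (L : List (Hd G)),
    StdL w A B L → StdL (e w) (A.map e.toMonoidHom) (B.map e.toMonoidHom) (mp e L)) ∧
  (∀ (G H : Type) [Group G] [Group H] (w : G) (A B : Subgroup G) (L : List (Hd G)) (w' : H)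
    (A' B' : Subgroup H) (L' : List (Hd H)), StdL w A B L → StdL w' A' B' L' →
    StdL (inl w * inr w' : G ∗ H) (ncs A A') (ncs B B') (mp inl L ++ mp inr L')) ∧
  StdL (cm fa fb) (normalClosure {fa}) (normalClosure {fb}) [(fa, fb, false)] ∧
  StdL (cm fa fb) (normalClosure {fa}) (normalClosure {fa}) [(fa, fb, true)] ∧
  StdL (cm fa fb) (normalClosure {fb}) (normalClosure {fa}) [(fa * fb * fa⁻¹, fa⁻¹, false)] ∧
  StdL (cm fa fb) (normalClosure {fb}) (normalClosure {fb}) [(fa * fb * fa⁻¹, fa⁻¹, true)]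

def BMove : Prop := ∀ (G : Type) [Group G] (w : G) (A B : Subgroup G) (L₁ L₂ : List (Hd G))
  (h : Hd G), StdL w A B (L₁ ++ h :: L₂) →
  StdL w A B (L₁ ++ mp (fun x => cm h.1 h.2.1 * x * (cm h.1 h.2.1)⁻¹) L₂ ++ [h])

def BSplit : Prop := ∀ (G : Type) [Group G] (w : G) (L₀ : List (Hd G)) (h : Hd G),
  Geo w (L₀ ++ [h]) → ∃ (G₀ : Type) (_ : Group G₀) (w₀ : G₀) (L : List (Hd G₀))
    (e : G ≃* G₀ ∗ F2), Geo w₀ L ∧ mp e L₀ = mp inl L ∧ e h.1 = inr fa ∧ e h.2.1 = inr fb ∧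
    e w = inl w₀ * inr (cm fa fb) ∧ (KA (L₀ ++ [(h.1, h.2.1, true)])).map e.toMonoidHom =
      ncs (KA L) (normalClosure {fa}) ∧
    (KB (L₀ ++ [(h.1, h.2.1, true)])).map e.toMonoidHom = ncs (KB L) (normalClosure {fa})

def BTyp : Prop :=
  (∀ (T U : Dg) (g : ℕ) (k : Fin 3 → ℕ), T.Iso U → T.Typ g k → U.Typ g k) ∧
  (∀ (T U : Dg) (g g' : ℕ) (k k' : Fin 3 → ℕ), T.Typ g k → U.Typ g' k' →
    (T.sum U).Typ (g + g') fun i => k i + k' i) ∧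
  (∀ i : Fin 3, (sph i).Typ 1 fun j => if j = i + 1 then 1 else 0) ∧
  (∀ (T : Dg) (g : ℕ) (k : Fin 3 → ℕ), T.Typ g k → T.rot.Typ g fun i => k (i + 1))

def BHyp : Prop := hyp.Typ 2 fun _ => 0

def BRot : Prop := hyp.Iso hyp.rot

def BIso : Prop :=
  (∀ T : Dg, T.Iso T) ∧ (∀ T U : Dg, T.Iso U → U.Iso T) ∧
  (∀ T U V : Dg, T.Iso U → U.Iso V → T.Iso V) ∧
  (∀ T T' U U' : Dg, T.Iso T' → U.Iso U' → (T.sum U).Iso (T'.sum U')) ∧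
  (∀ T U V : Dg, ((T.sum U).sum V).Iso ((T.sum V).sum U)) ∧
  (∀ T U : Dg, (T.sum U).Iso (U.sum T))

def BEqv : Prop :=
  (∀ T U : Dg, Eqv T U → T.Valid → U.Valid) ∧
  (∀ T U : Dg, T.Valid → T.Iso U → Eqv T U) ∧
  (∀ T U Y : Dg, Eqv T U → Y.Valid → Eqv (T.sum Y) (U.sum Y)) ∧
  (∀ T U : Dg, Eqv T U → Eqv T.rot U.rot) ∧
  (∀ (T U : Dg) (n : ℕ), Eqv T U → Eqv (T.sumN n) (U.sumN n)) ∧
  (∀ (T : Dg) (n : ℕ), (T.rot.sumN n).Iso (T.sumN n).rot) ∧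
  (∀ T : Dg, T.rot.rot.rot.Iso T) ∧
  (∀ (T : Dg) (m n : ℕ), (T.sumN m).sumN n = T.sumN (m + n)) ∧
  (∀ (T : Dg) (g : ℕ) (k : Fin 3 → ℕ) (n : ℕ), T.Typ g k → (T.sumN n).Typ (g + 2 * n) k)

/-! ### invariants -/

def IRk : Prop :=
  (∀ (G H : Type) [Group G] [Group H], Nonempty (G ≃* H) → rk G = rk H) ∧
  (∀ (G : Type) [Group G] (X : List G), closure {x | x ∈ X} = ⊤ → rk G ≤ X.length) ∧
  (∀ (G : Type) [Group G], Group.FG G → ∃ X : List G, closure {x | x ∈ X} = ⊤ ∧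
    X.length = rk G) ∧
  (∀ (G H : Type) [Group G] [Group H] (f : G →* H), Function.Surjective f → Group.FG G →
    rk H ≤ rk G) ∧
  (∀ (α : Type) [Fintype α], rk (FreeGroup α) = Fintype.card α)

def IStd : Prop := ∀ (G : Type) [Group G] (w : G) (g k : ℕ) (A B : Subgroup G), Std w g k A B →
  Group.FG G ∧ rk G = 2 * g ∧ rk (G ⧸ normalClosure ((A : Set G) ∪ (B : Set G))) = k

def IPi : Prop :=
  (∀ T U : Dg, T.Iso U → Nonempty (T.pi1 ≃* U.pi1)) ∧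
  (∀ T U : Dg, Nonempty ((T.sum U).pi1 ≃* T.pi1 ∗ U.pi1)) ∧
  (∀ T : Dg, Nonempty (T.rot.pi1 ≃* T.pi1))

def IInv : Prop :=
  (∀ (T : Dg) (g : ℕ) (k : Fin 3 → ℕ), T.Typ g k → Group.FG T.pi1 ∧ ∀ i, rk T.pi1 ≤ k i) ∧
  (∀ T U : Dg, T.Valid → U.Valid → rk (T.sum U).pi1 = rk T.pi1 + rk U.pi1) ∧
  (∀ (T U : Dg) (g g' : ℕ) (k k' : Fin 3 → ℕ), Eqv T U → T.Typ g k → U.Typ g' k' →
    g + (k' 0 + k' 1 + k' 2) = g' + (k 0 + k 1 + k 2) ∧ rk T.pi1 = rk U.pi1) ∧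
  (∀ (T : Dg) (n : ℕ), T.Valid → rk (T.sumN n).pi1 = rk T.pi1)

/-! ### Grushko -/

def GrTie : Prop := ∀ (G H : Type) [Group G] [Group H] (E : List (ℕ × G × ℕ))
  (E' : List (ℕ × H × ℕ)) (u v : ℕ), u ≠ v → Pth (cmb E E') u 1 v →
  ∃ u' v', u' ≠ v' ∧ (Pth E u' 1 v' ∨ Pth E' u' 1 v')

def GrCon : Prop := ∀ (G : Type) [Group G] (S : Finset ℕ) (E : List (ℕ × G × ℕ)) (v v' : ℕ),
  InS S E → v ≠ v' → Pth E v 1 v' → v ∈ S ∧ v' ∈ S ∧ ∃ E₁ : List (ℕ × G × ℕ),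
    InS (S.erase v') E₁ ∧ E₁.length + 1 ≤ E.length ∧ ∀ e ∈ E,
      Pth E₁ (if e.1 = v' then v else e.1) e.2.1 (if e.2.2 = v' then v else e.2.2)

def GrMain : Prop := ∀ (G H : Type) [Group G] [Group H] (S : Finset ℕ) (E : List (ℕ × G × ℕ))
  (E' : List (ℕ × H × ℕ)) (v₀ : ℕ), InS S E → InS S E' → Onto S (cmb E E') v₀ →
  rk G + rk H + S.card ≤ E.length + E'.length + 1

def GrSub : Prop := ∀ (G H : Type) [Group G] [Group H] (X : List (G ∗ H)),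
  closure {x | x ∈ X} = ⊤ → ∃ (S : Finset ℕ) (E : List (ℕ × G × ℕ)) (E' : List (ℕ × H × ℕ)),
    InS S E ∧ InS S E' ∧ Onto S (cmb E E') 0 ∧ E.length + E'.length + 1 ≤ X.length + S.card

def Gru : Prop := ∀ (G H : Type) [Group G] [Group H], Group.FG G → Group.FG H →
  rk (G ∗ H) = rk G + rk H

/-! ### the theorem of Zieschang -/

def ZSl : Prop := ∀ (G : Type) [Group G],
  (∀ W W' : List G, Sl W W' → W'.prod = W.prod ∧ W'.length = W.length ∧ (Sys W ↔ Sys W')) ∧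
  (∀ (W A B : List G) (v u : G), Sys W → W = A ++ v :: u :: B → u ≠ v⁻¹ →
    (∃ W' X, Sl W W' ∧ W.Perm (v :: v⁻¹ :: X) ∧ W'.Perm ((v * u) :: (v * u)⁻¹ :: X)) ∧
    (∃ W' X, Sl W' W ∧ W.Perm (u :: u⁻¹ :: X) ∧ W'.Perm ((v * u) :: (v * u)⁻¹ :: X)))

def ZAdj : Prop := ∀ (G : Type) [Group G] (w : G) (L : List (Hd G)) (A B : List G) (v : G),
  Geo w L → Sys (A ++ v :: v⁻¹ :: B) → (A ++ v :: v⁻¹ :: B).prod ≠ w

def ZRed : Prop := ∀ (α : Type) [DecidableEq α] [Fintype α],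
  ∃ (R : FreeGroup α → Prop) (h : FreeGroup α → ℕ), (∀ v, R v → ¬ R v⁻¹) ∧
    ∀ v u : FreeGroup α, v ≠ 1 → u ≠ 1 → IrP R v u ∨ Bet h (v * u) v ∨ Bet h (v * u) u

def ZCore : Prop := ∀ (α : Type) [DecidableEq α] (R : FreeGroup α → Prop)
  (W : List (FreeGroup α)), (∀ v, R v → ¬ R v⁻¹) → (∀ v ∈ W, v ≠ 1) →
  (∀ (A : List (FreeGroup α)) v u B, W = A ++ v :: u :: B → IrP R v u) →
  W.prod.norm ≤ W.length → ∃ c, Cor R W c

def ZFin : Prop := ∀ (α : Type) [DecidableEq α] (R : FreeGroup α → Prop)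
  (W : List (FreeGroup α)) (P : List (α × α)) (c : ℕ → ℕ), (∀ v, R v → ¬ R v⁻¹) →
  (∀ v ∈ W, v⁻¹ ∈ W) → (lw P).Nodup → W.prod.toWord = lw P → Cor R W c →
  W = (lw P).map fun p => FreeGroup.mk [p]

def ZW : Prop := ∀ (α : Type) [DecidableEq α] (P : List (α × α)), (lw P).Nodup →
  ((lw P).map fun p => FreeGroup.mk [p]).prod.toWord = lw P

def Zies : Prop := ∀ (G : Type) [Group G] (w : G) (L : List (Hd G)) (Q : List G → Prop),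
  Geo w L → (∀ W W', Sys W → W.prod = w → Sl W W' → (Q W ↔ Q W')) → Q (wd L) →
  ∀ W, Sys W → W.prod = w → W.length = (wd L).length → Q W

/-! ### pushes -/

def PGrp : Prop := ∀ (G : Type) [Group G] (w : G),
  PU w 1 ∧ (∀ ψ φ, PU w ψ → PU w φ → PU w (ψ * φ) ∧ tr (ψ * φ) = tr φ * tr ψ) ∧
  (∀ ψ, PU w ψ → PU w ψ⁻¹ ∧ tr ψ⁻¹ = (tr ψ)⁻¹) ∧ tr (1 : MulAut (G ∗ F2)) = 1 ∧
  (∀ ψ, PU w ψ → ∀ x ∈ AA G, ψ x ∈ AA G ∧ Coprod.fst (ψ x) = Coprod.fst x ∧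
    ψ x * x⁻¹ ∈ normalClosure {(mm : G ∗ F2)}) ∧
  (∀ W ψ, ψ ∈ D0 w W → PU w ψ) ∧
  (∀ ψ φ, PU w ψ → PU w φ → (∀ γ : G, ψ (inl γ) = φ (inl γ)) → Zc w (φ⁻¹ * ψ)) ∧
  (∀ ψ φ, PU w ψ → Zc w φ → Zc w (ψ * φ * ψ⁻¹))

def PEx : Prop := ∀ (G : Type) [Group G] (w : G) (W U V Z : List G) (y : G), Sys W →
  W.prod = w → W = U ++ y :: V ++ y⁻¹ :: Z →
  ∃ ψ, ElAt w W y (V.prod * y⁻¹ * Z.prod) ψ ∧ ElAt w W y⁻¹ Z.prod ψ⁻¹ ∧
    ψ tt = inl (Z.prod⁻¹ * y * V.prod * y⁻¹ * Z.prod) * tt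

def PLem : Prop := ∀ (G : Type) [Group G] (w : G) (W : List G) (y c : G), Sys W →
  W.prod = w → Suf W y c → (∃ ψ, ElAt w W y c ψ) ∧
    ∀ ψ c', ElAt w W y c ψ → Suf W y⁻¹ c' → ψ (dl (y⁻¹ * c')) = dl c ∧
      ∀ φ, ElAt w W y⁻¹ c' φ → Zc w (ψ * φ)

def PCen : Prop := ∀ (G : Type) [Group G] (w : G) (L : List (Hd G)) (ψ : MulAut (G ∗ F2)),
  Sys (wd L) → Zc w ψ → (∃ m : ℤ, ψ tt = tt * mm ^ m) ∧ tr ψ = 1

def PSuf : Prop := ∀ (G : Type) [Group G],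
  (∀ (W : List G) (v c c' : G), W.Nodup → Suf W v c → Suf W v c' → c = c') ∧
  (∀ (W : List G) (v : G), v ∈ W ↔ ∃ c, Suf W v c) ∧
  ∀ (W W' : List G) (y z : G), SlD y z W W' → W.Nodup → W'.Nodup →
    (∀ v c, v ≠ y → v ≠ y⁻¹ → v ≠ z → v ≠ y * z → v ≠ (y * z)⁻¹ → (Suf W v c ↔ Suf W' v c)) ∧
    (∃ c c', Suf W z c ∧ Suf W y (z * c) ∧ Suf W' (y * z) c ∧ Suf W y⁻¹ c' ∧
      Suf W' (y * z)⁻¹ c') ∧
    (∀ v, v ∈ W' ↔ (v ∈ W ∧ v ≠ y ∧ v ≠ y⁻¹) ∨ v = y * z ∨ v = (y * z)⁻¹) ∧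
    (∀ v ∈ W, v ≠ y → v ≠ y⁻¹ → v ≠ y * z ∧ v ≠ (y * z)⁻¹) ∧
    z ≠ y ∧ z ≠ y⁻¹ ∧ z ≠ y * z ∧ z ≠ (y * z)⁻¹ ∧ y ≠ y⁻¹

def PSl : Prop := ∀ (G : Type) [Group G] (w : G) (W W' : List G), Sys W → W.prod = w →
  Sl W W' → D0 w W = D0 w W'

def PDual : Prop := ∀ (G : Type) [Group G] (L : List (Hd G)), Sys (wd L) →
  ∃ α : G ≃* G, ∀ (L₁ : List (Hd G)) h L₂, L = L₁ ++ h :: L₂ →
    α h.1 = (wd L₂).prod⁻¹ * (h.2.1 * h.1⁻¹ * h.2.1⁻¹) * (wd L₂).prod ∧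
    α h.2.1 = (wd L₂).prod⁻¹ * (h.2.1 * h.1 * h.2.1 * h.1⁻¹ * h.2.1⁻¹) * (wd L₂).prod

def PKer : Prop := ∀ (G : Type) [Group G] (w : G) (L : List (Hd G)), Geo w L →
  (∀ γ : G, ∃ ψ ∈ D0 w (wd L), tr ψ = γ) ∧ ∀ ψ ∈ D0 w (wd L), tr ψ = 1 → Zc w ψ

def PGood : Prop := ∀ (G : Type) [Group G] (w : G) (L : List (Hd G)) (h : Hd G), Geo w L →
  h ∈ L → ∃ ψ ∈ D0 w (wd L), Good (KA L) ψ ∧ IsConj (tr ψ) h.1⁻¹

def PFoot : Prop := ∀ (G : Type) [Group G] (w : G) (A B : Subgroup G) (L₀ : List (Hd G))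
  (a b x : G), StdL w A B (L₀ ++ [(a, b, true)]) → x ∈ closure {v | v ∈ wd L₀} →
  ∃ φ : G ≃* G, φ w = w ∧ A.map φ.toMonoidHom = A ∧ B.map φ.toMonoidHom = B ∧
    (∀ v ∈ wd L₀, φ v * v⁻¹ ∈ A) ∧ φ b * (x * b)⁻¹ ∈ A

/-! ### three holes -/

def PAct : Prop := ∀ (G : Type) [Group G] (w : G) (j : Fin 3),
  actE j (1 : MulAut (G ∗ F2)) = MonoidHom.id _ ∧
  (∀ ψ φ, PU w ψ → PU w φ → actE j (ψ * φ) = (actE j ψ).comp (actE j φ)) ∧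
  (∀ ψ, PU w ψ → actE j ψ (inl w * inr hb) = inl w * inr hb ∧
    (∀ x ∈ AA G, actE j ψ (sg j x) = sg j (ψ x)) ∧
    (∀ γ : G, actE j ψ (inl γ) * (inl γ)⁻¹ ∈ normalClosure {(inr (dJ j) : G ∗ F4)}) ∧
    ∃ β : MulAut (G ∗ F4), β.toMonoidHom = actE j ψ ∧ β⁻¹.toMonoidHom = actE j ψ⁻¹)

def DA : Prop := ∀ (G : Type) [Group G] (w : G) (A : Subgroup G) (ψ : MulAut (G ∗ F2)),
  PU w ψ → (ncs A (hK 0)).map (actE 0 ψ) = ncs A (hK 0) ∧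
    (ncs A (hK 2)).map (actE 1 ψ) = ncs A (hK 2) ∧
    ∀ i, (ncs A (hK i)).map (actE 2 ψ) = ncs A (hK i)

def DG : Prop := ∀ (G : Type) [Group G] (w : G) (A : Subgroup G) (ψ : MulAut (G ∗ F2)),
  PU w ψ → Good A ψ → (ncs A (hK 1)).map (actE 0 ψ) = ncs A (hK 1) ∧
    (ncs A (hK 2)).map (actE 0 ψ) = ncs A (hK 2) ∧ (ncs A (hK 0)).map (actE 1 ψ) = ncs A (hK 0)

def DB1 : Prop := ∀ (G : Type) [Group G] (w : G) (ψ : MulAut (G ∗ F2)) (j i : Fin 3), PU w ψ →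
  (∀ y ∈ MM G i, actE j ψ y ∈ MM G i) ∧ ∀ y ∈ JJ G i, actE j ψ y ∈ JJ G i

def DB2 : Prop := ∀ (G : Type) [Group G] (w : G),
  (∀ ψ : MulAut (G ∗ F2), PU w ψ → (∀ y ∈ JJ G 0, actE 0 ψ y * y⁻¹ ∈ MM G 0) ∧
    (∀ y ∈ JJ G 1, actE 1 ψ y * (actE 0 ψ y)⁻¹ ∈ MM G 1) ∧
    (∀ y ∈ JJ G 2, actE 2 ψ y * (actE 1 ψ y)⁻¹ ∈ MM G 2)) ∧
  ∀ (A : Subgroup G) (i : Fin 3), (MM G i).Normal ∧ MM G i ≤ JJ G i ∧ MM G i ≤ ncs A (hK i) ∧
    ∃ X : Set (G ∗ F4), X ⊆ JJ G i ∧ ncs A (hK i) = normalClosure X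

def DK : Prop := ∀ (T : Dg) (d e : MulAut (T.G ∗ F2)), PU T.bd d → PU T.bd e →
  (Good (T.K 0) e → (TT T (e * d)).Iso (TT T d)) ∧
  (Good (T.K 1) e → (TT T (d * e)).Iso (TT T d)) ∧
  (Good (T.K 2) e → (TT T (e * d)).Iso (TT T d)) ∧ (TT T 1).Iso (T.sum hyp)

def DC : Prop := ∀ (T : Dg) (d e : MulAut (T.G ∗ F2)), PU T.bd d → PU T.bd e →
  (TT T (e * d * e⁻¹)).Iso (TT T d)

def DS : Prop := ∀ (T : Dg) (g : ℕ) (k : Fin 3 → ℕ) (L : List (Hd T.G)), T.Typ g k →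
  Geo T.bd L → L.length = g → ∀ γ ∈ T.tot,
    ∃ e ∈ D0 T.bd (wd L), tr e = γ ∧ (T.sum hyp).Iso (TT T e)

/-! ### surgery -/

def EDes : Prop := ∀ (G : Type) [Group G] (w : G) (A B : Subgroup G) (C : Subgroup (G ∗ F2))
  (j : ℤ) (ψ : MulAut ((G ∗ F2) ∗ F2)), Last j ψ → PU (inl w * inr (cm fa fb)) ψ →
  (TT (TL G w A B C) ψ).Iso ((T2 (TL G w A B C) ψ).sum (sph 2))

def EStd : Prop := ∀ (G : Type) [Group G] (w : G) (A B : Subgroup G) (C : Subgroup (G ∗ F2))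
  (L : List (Hd G)) (j : ℤ) (ψ : MulAut ((G ∗ F2) ∗ F2)), Last j ψ → StdL w A B L →
  ∃ h₁ h₂ : Hd ((G ∗ F2) ∗ F2), h₁.2.2 = false ∧ h₂.2.2 = false ∧
    StdL (T2 (TL G w A B C) ψ).bd ((T2 (TL G w A B C) ψ).K 0) ((T2 (TL G w A B C) ψ).K 1)
      (mp (fun x => inl (inl x)) L ++ [h₁, h₂])

def ET2 : Prop := ∀ (T : Dg) (g : ℕ) (k : Fin 3 → ℕ) (ψ : MulAut (T.G ∗ F2)), T.Typ g k →
  PU T.bd ψ → Std (T2 T ψ).bd (g + 1) (k 1) ((T2 T ψ).K 1) ((T2 T ψ).K 2) ∧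
    Std (T2 T ψ).bd (g + 1) (k 2) ((T2 T ψ).K 2) ((T2 T ψ).K 0) ∧
    (∀ x ∈ T.tot, (inl x : T.G ∗ F2) ∈ (T2 T ψ).tot) ∧
    (tt : T.G ∗ F2) ∈ (T2 T ψ).tot ∧ (mm : T.G ∗ F2) ∈ (T2 T ψ).tot

def Surg : Prop := ∀ (T : Dg) (g : ℕ) (k : Fin 3 → ℕ) (L₀ : List (Hd T.G)) (a b : T.G),
  T.Typ g k → StdL T.bd (T.K 0) (T.K 1) (L₀ ++ [(a, b, true)]) → L₀.length + 1 = g →
  b ∈ T.tot → ∃ (U : Dg) (φ : T.G →* U.G) (h₁ h₂ : Hd U.G), Eqv (T.sum hyp) U ∧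
    U.Typ (g + 1) ![fl L₀, k 1, k 2] ∧ h₁.2.2 = false ∧ h₂.2.2 = false ∧
    StdL U.bd (U.K 0) (U.K 1) (mp φ L₀ ++ [h₁, h₂]) ∧ (∀ x ∈ T.tot, φ x ∈ U.tot) ∧
    φ.range ⊔ U.tot = ⊤

/-- the second curves of the handles `M`, the list `X` and the kernels generate -/
def Gen (T : Dg) (M : List (Hd T.G)) (X : List T.G) : Prop :=
  closure ({x | ∃ h ∈ M, x = h.2.1} ∪ {x | x ∈ X}) ⊔ T.tot = ⊤

/-- a state of the reduction -/
def St (T : Dg) (g : ℕ) (k : Fin 3 → ℕ) (m : ℕ) (X : List T.G) : Prop :=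
  T.Typ g k ∧ ∃ L M : List (Hd T.G), StdL T.bd (T.K 0) (T.K 1) L ∧ L.length = g ∧ fl L = k 0 ∧
    M.Sublist L ∧ M.length = m ∧ (∀ h ∈ M, h.2.2 = true) ∧ Gen T M X

def RAdd : Prop := ∀ (T : Dg) (g : ℕ) (k : Fin 3 → ℕ) (m : ℕ) (x : T.G) (X : List T.G),
  St T g k m (x :: X) → ∃ (U : Dg) (X' : List U.G), Eqv T U ∧ X'.length = X.length ∧
    St U (g + 1) ![k 0 + 1, k 1, k 2] (m + 1) X'

def RDel : Prop := ∀ (T : Dg) (g : ℕ) (k : Fin 3 → ℕ) (m : ℕ), St T g k m [] → m < k 0 →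
  ∃ U : Dg, Eqv (T.sum hyp) U ∧ St U (g + 1) ![k 0 - 1, k 1, k 2] m []

def Red0 : Prop := ∀ (T : Dg) (g : ℕ) (k : Fin 3 → ℕ), T.Typ g k →
  ∃ U : Dg, Eqv (T.sumN (k 0)) U ∧ U.Typ (g + rk T.pi1 + k 0) ![rk T.pi1, k 1, k 2]

def Red3 : Prop := ∀ (T : Dg) (g : ℕ) (k : Fin 3 → ℕ), T.Typ g k →
  ∃ U : Dg, Eqv (T.sumN (k 0 + k 1 + k 2)) U ∧
    U.Typ (g + 3 * rk T.pi1 + (k 0 + k 1 + k 2)) fun _ => rk T.pi1

def ThA : Prop := ∀ (T : Dg) (g : ℕ) (k : Fin 3 → ℕ) (n : ℕ), T.Typ g k →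
  k 0 + k 1 + k 2 ≤ n → (T.sumN n).genus + (k 0 + k 1 + k 2) = g + 2 * n + 3 * rk T.pi1

def ThC : Prop := ∀ (T U : Dg) (g g' : ℕ) (k k' : Fin 3 → ℕ) (n m : ℕ), T.Typ g k →
  U.Typ g' k' → k 0 + k 1 + k 2 ≤ n → k' 0 + k' 1 + k' 2 ≤ m →
  ((T.sumN n).sum (U.sumN m)).genus = (T.sumN n).genus + (U.sumN m).genus

def ThB : Prop := List.TFAE
  [∀ T U : Dg, T.Valid → U.Valid → (T.sum U).genus = T.genus + U.genus,
   ∀ T : Dg, T.Valid → (T.sum hyp).genus = T.genus + 2,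
   ∀ (T : Dg) (g : ℕ) (k : Fin 3 → ℕ), T.Typ g k →
     T.genus + (k 0 + k 1 + k 2) = g + 3 * rk T.pi1]

end Pool.Agent.MP_4a02af_gt
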