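import Pool.Agent.MP_4a02af_gt.Stm
import Pool.Agent.MP_4a02af_gt.Defs2

open Monoid Monoid.Coprod Subgroup

namespace Pool.Agent.MP_4a02af_gt

/-- the same with the opposite orientation -/
def cq : Dg where
  G := F2
  bd := cm fa fb
  K := ![normalClosure {fa}, normalClosure {fb}, normalClosure {fa * fb⁻¹}]

/-- the twisted sphere bundle -/
def hym : Dg where
  G := F4
  bd := hb
  K := ![normalClosure {gn, gt}, normalClosure {gu * gn⁻¹ * gt, gn⁻¹ * (gt * gm * gt⁻¹)},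
    normalClosure {gu, gm}]

/-- change of orientation -/
def Dg.mir (T : Dg) : Dg := { G := T.G, bd := T.bd⁻¹, K := T.K }

def XOne : Prop := (cp.sum hyp).Iso (cp.sum hym)

def XTwo : Prop := hym.Iso (cp.sum cq)

def XTyp : Prop := (cp.Typ 1 fun _ => 0) ∧ (cq.Typ 1 fun _ => 0) ∧ cp.mir.Iso cq

def XMir : Prop :=
  (∀ (T : Dg) (g : ℕ) (k : Fin 3 → ℕ), T.Typ g k → T.mir.Typ g k) ∧
  (∀ T U : Dg, T.Iso U → T.mir.Iso U.mir) ∧
  (∀ T U : Dg, (T.sum U).mir.Iso (T.mir.sum U.mir)) ∧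
  (∀ i : Fin 3, (sph i).mir.Iso (sph i)) ∧ (∀ T : Dg, T.mir.mir.Iso T)

def ThD : Prop := List.TFAE
  [∀ T U : Dg, T.Valid → U.Valid → (T.sum U).genus = T.genus + U.genus,
   ∀ T : Dg, T.Valid → (T.sum hyp).genus = T.genus + 2,
   ∀ T : Dg, T.Valid → (T.sum cp).genus = T.genus + 1,
   ∀ (T : Dg) (g : ℕ) (k : Fin 3 → ℕ), T.Typ g k →
     T.genus + (k 0 + k 1 + k 2) = g + 3 * rk T.pi1]

end Pool.Agent.MP_4a02af_gt
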